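import Pool.Agent.Lib.MP_b6d339_lc.Ord

/-! Abstract unavoidability calculus for MP_b6d339_lc. -/

namespace MPb6

open Ordinal

/-- Nodes with the descendant relation `le`, the relation `sq c w` (`w` lies below an admissible
child of `c`), ranks and alive nodes. -/
structure Sys where
  N : Type
  le : N → N → Prop
  sq : N → N → Prop
  rk : N → Ordinal.{0}
  alive : N → Prop
  le_refl : ∀ v, le v v
  le_trans : ∀ {a b c}, le a b → le b c → le a c
  rk_anti : ∀ {a b}, le a b → rk b ≤ rk a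
  sq_le : ∀ {a b}, sq a b → le a b
  sq_lt : ∀ {a b}, sq a b → rk b < rk a
  sq_trans : ∀ {a b c}, sq a b → le b c → sq a c
  alive_of : ∀ {a b}, le a b → alive b → alive a

namespace Sys

variable (S : Sys)

def Big (μ : Ordinal.{0}) : S.N → Prop := fun v =>
  ∃ c, S.le v c ∧ S.alive c ∧ ∀ μ' (_ : μ' < μ), ∃ w, S.sq c w ∧ Big μ' w
termination_by μ

def Crit (μ : Ordinal.{0}) (c : S.N) : Prop :=
  S.alive c ∧ ∀ μ' < μ, ∃ w, S.sq c w ∧ S.Big μ' w

variable {S}

lemma big_iff {μ : Ordinal.{0}} {v : S.N} : S.Big μ v ↔ ∃ c, S.le v c ∧ S.Crit μ c := by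
  rw [Big]; rfl

lemma sq_sq {a b c : S.N} (h : S.sq a b) (h' : S.sq b c) : S.sq a c := S.sq_trans h (S.sq_le h')

lemma Crit.mono {μ μ' : Ordinal.{0}} {c : S.N} (h : S.Crit μ c) (hm : μ' ≤ μ) : S.Crit μ' c :=
  ⟨h.1, fun x hx => h.2 x (hx.trans_le hm)⟩

lemma Crit.big {μ : Ordinal.{0}} {c : S.N} (h : S.Crit μ c) : S.Big μ c :=
  big_iff.2 ⟨c, S.le_refl c, h⟩

lemma Big.mono {μ μ' : Ordinal.{0}} {v : S.N} (h : S.Big μ v) (hm : μ' ≤ μ) : S.Big μ' v := by
  obtain ⟨c, h1, h2⟩ := big_iff.1 h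
  exact big_iff.2 ⟨c, h1, h2.mono hm⟩

lemma Big.up {μ : Ordinal.{0}} {v w : S.N} (h : S.Big μ w) (hv : S.le v w) : S.Big μ v := by
  obtain ⟨c, h1, h2⟩ := big_iff.1 h
  exact big_iff.2 ⟨c, S.le_trans hv h1, h2⟩

lemma Big.alive {μ : Ordinal.{0}} {v : S.N} (h : S.Big μ v) : S.alive v := by
  obtain ⟨c, h1, h2⟩ := big_iff.1 h
  exact S.alive_of h1 h2.1

/-- next node with large bigness -/
lemma Crit.next {μ : Ordinal.{0}} {c : S.N} (h : S.Crit (μ + 1) c) : ∃ w, S.sq c w ∧ S.Big μ w :=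
  h.2 μ (lt_add_one μ)

/-- next critical node -/
lemma Crit.next' {μ : Ordinal.{0}} {c : S.N} (h : S.Crit (μ + 1) c) :
    ∃ d, S.sq c d ∧ S.Crit μ d := by
  obtain ⟨w, h1, h2⟩ := h.next
  obtain ⟨d, h3, h4⟩ := big_iff.1 h2
  exact ⟨d, S.sq_trans h1 h3, h4⟩

lemma Big.le_rk {μ : Ordinal.{0}} : ∀ {v : S.N}, S.Big μ v → μ ≤ S.rk v := by
  induction μ using WellFoundedLT.induction with
  | ind μ ih =>
    intro v h
    obtain ⟨c, h1, h2⟩ := big_iff.1 h
    refine le_of_forall_lt fun μ' hμ' => ?_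
    obtain ⟨w, h3, h4⟩ := h2.2 μ' hμ'
    exact ((ih μ' hμ' h4).trans_lt (S.sq_lt h3)).trans_le (S.rk_anti h1)

variable (S) in
/-- the `z`-block of a node -/
noncomputable def blk (z : Ordinal.{0}) (v : S.N) : Ordinal.{0} := S.rk v / ω ^ z

variable (S) in
/-- no exit from the `z`-block of `v` with bigness `e` -/
def NE (z e : Ordinal.{0}) (v : S.N) : Prop := ∀ w, S.le v w → S.Big e w → S.blk z w = S.blk z v

lemma blk_anti {z : Ordinal.{0}} {v w : S.N} (h : S.le v w) : S.blk z w ≤ S.blk z v :=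
  div_opow_mono_left (S.rk_anti h) z

lemma NE.down {z e : Ordinal.{0}} {v w : S.N} (h : S.NE z e v) (hv : S.le v w) (hw : S.Big e w) :
    S.NE z e w := fun u hu hb => by
  rw [h u (S.le_trans hv hu) hb, h w hv hw]

lemma NE.mono {z e e' : Ordinal.{0}} {v : S.N} (h : S.NE z e v) (he : e ≤ e') : S.NE z e' v :=
  fun w hw hb => h w hw (hb.mono he)

/-- the gate between two nodes -/
noncomputable def lv (a b : S.N) : Ordinal.{0} := Lv (S.rk a) (S.rk b)

lemma lv_le_iff {a b : S.N} {z : Ordinal.{0}} : lv a b ≤ z ↔ S.blk z a = S.blk z b := Lv_le_iff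

lemma lv_trans {a b c : S.N} (hab : S.le a b) (hbc : S.le b c) :
    lv a c = max (lv a b) (lv b c) := Lv_trans (S.rk_anti hab) (S.rk_anti hbc)

lemma lv_ne_zero {a b : S.N} (h : S.sq a b) : lv a b ≠ 0 := by
  intro h0
  have := Lv_eq_zero_iff.1 h0
  exact absurd (S.sq_lt h) (by rw [this]; exact lt_irrefl _)

lemma lv_succ {a b : S.N} (h : S.sq a b) : ∃ z, lv a b = z + 1 := by
  rcases Lv_zero_or_succ (S.rk_anti (S.sq_le h)) with h0 | h0
  · exact absurd h0 (lv_ne_zero h)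
  · exact h0

/-- EXIT lemma -/
lemma exit {a z : Ordinal.{0}} {v : S.N} (h : S.Big (a + ω ^ z) v) :
    ∃ w, S.le v w ∧ S.Big a w ∧ S.blk z w < S.blk z v := by
  by_contra hcon
  push Not at hcon
  have hblk : ∀ w, S.le v w → S.Big a w → S.blk z w = S.blk z v := fun w hw hb =>
    le_antisymm (blk_anti hw) (hcon w hw hb)
  have key : ∀ β : Ordinal.{0}, ∀ w, S.le v w → S.Big (a + β) w → β ≤ S.rk w % ω ^ z := by
    intro β
    induction β using WellFoundedLT.induction with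
    | ind β ih =>
      intro w hw hb
      obtain ⟨c, hc1, hc2⟩ := big_iff.1 hb
      refine le_of_forall_lt fun β' hβ' => ?_
      obtain ⟨w', h3, h4⟩ := hc2.2 (a + β') (by simpa using hβ')
      have hvc : S.le v c := S.le_trans hw hc1
      have hvw' : S.le v w' := S.le_trans hvc (S.sq_le h3)
      have h5 := ih β' hβ' w' hvw' h4
      have hbw : S.blk z w = S.blk z v := hblk w hw (hb.mono (by simp))
      have hbw' : S.blk z w' = S.blk z v := hblk w' hvw' (h4.mono (by simp))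
      have hlt : S.rk w' < S.rk w := (S.sq_lt h3).trans_le (S.rk_anti hc1)
      refine h5.trans_lt ?_
      have e1 := div_add_mod (S.rk w') (ω ^ z)
      have e2 := div_add_mod (S.rk w) (ω ^ z)
      have e3 : S.rk w' / ω ^ z = S.rk w / ω ^ z := by
        change S.blk z w' = S.blk z w
        rw [hbw, hbw']
      rw [← e1, ← e2, e3] at hlt
      exact (add_lt_add_iff_left _).1 hlt
  have := key (ω ^ z) v (S.le_refl v) h
  exact absurd this (not_le.2 (mod_lt _ (opow_ne z)))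

/-- THIN lemma -/
lemma thin {z d e' E th : Ordinal.{0}} {v0 : S.N} (hne : S.NE (z + d) e' v0) (hE : e' ≤ E)
    (h : S.Big (E + th * ω ^ d) v0) :
    ∃ v, ∃ e, S.le v0 v ∧ E ≤ e ∧ S.blk (z + d) v = S.blk (z + d) v0 ∧ S.NE z e v ∧
      S.Big (e + th) v := by
  have key : ∀ Q : Ordinal.{0}, ∀ v0 : S.N, S.NE (z + d) e' v0 →
      (S.blk z v0) % ω ^ d = Q → S.Big (E + th * (Q + 1)) v0 →
      ∃ v, ∃ e, S.le v0 v ∧ E ≤ e ∧ S.blk (z + d) v = S.blk (z + d) v0 ∧ S.NE z e v ∧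
      S.Big (e + th) v := by
    intro Q
    induction Q using WellFoundedLT.induction with
    | ind Q ih =>
      intro v0 hne hQ hbig
      by_cases hcase : S.NE z (E + th * Q) v0
      · refine ⟨v0, E + th * Q, S.le_refl _, le_self_add, rfl, hcase, ?_⟩
        have e1 : E + th * (Q + 1) = E + th * Q + th := by rw [mul_add_one, add_assoc]
        rwa [e1] at hbig
      · unfold NE at hcase
        push Not at hcase
        obtain ⟨w, hw, hbw, hblk⟩ := hcase
        have hlt : S.blk z w < S.blk z v0 := lt_of_le_of_ne (blk_anti hw) hblk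
        have hE' : S.Big E w := hbw.mono le_self_add
        have hsame : S.blk (z + d) w = S.blk (z + d) v0 := hne w hw (hE'.mono hE)
        have hmod : (S.blk z w) % ω ^ d < Q := by
          rw [← hQ]
          have e1 := div_add_mod (S.blk z w) (ω ^ d)
          have e2 := div_add_mod (S.blk z v0) (ω ^ d)
          have e3 : S.blk z w / ω ^ d = S.blk z v0 / ω ^ d := by
            unfold blk at hsame ⊢
            rw [← div_opow_add, ← div_opow_add, hsame]
          rw [← e1, ← e2, e3] at hlt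
          exact (add_lt_add_iff_left _).1 hlt
        obtain ⟨v, e, h1, h2, h3, h4, h5⟩ := ih _ hmod w
          (hne.down hw (hE'.mono hE)) rfl
          (hbw.mono (by gcongr; exact Order.add_one_le_of_lt hmod))
        exact ⟨v, e, S.le_trans hw h1, h2, h3.trans hsame, h4, h5⟩
  refine key _ v0 hne rfl (h.mono ?_)
  gcongr
  exact Order.add_one_le_of_lt (mod_lt _ (opow_ne d))

/-- Minimal scale lemma -/
lemma minScale {A z e : Ordinal.{0}} {v : S.N} (hA : 0 < A) (hne : S.NE z e v)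
    (h : S.Big (e + A * (z + 1)) v) :
    ∃ z0 v' e', z0 < z ∧ S.le v v' ∧ e ≤ e' ∧ S.NE (z0 + 1) e' v' ∧
      S.Big (e' + (A * (z0 + 1) + A)) v' ∧
      ∀ v'', S.le v v'' → ∀ e'', e ≤ e'' → S.Big (e'' + A * (z0 + 1)) v'' →
        ∃ w, S.le v'' w ∧ S.Big e'' w ∧ S.blk z0 w < S.blk z0 v'' := by
  classical
  -- least scale
  let P : Ordinal.{0} → Prop := fun y => ∃ v' e', S.le v v' ∧ e ≤ e' ∧ S.NE y e' v' ∧
    S.Big (e' + A * (y + 1)) v'
  have hP : P z := ⟨v, e, S.le_refl v, le_rfl, hne, h⟩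
  obtain ⟨y, hy, hmin⟩ := WellFounded.has_min (wellFounded_lt (α := Ordinal.{0})) {y | P y} ⟨z, hP⟩
  rw [Set.mem_ofPred_eq] at hy
  have hmin' : ∀ x < y, ¬ P x := fun x hx hPx => hmin x hPx hx
  have hyz : y ≤ z := le_of_not_gt fun hlt => hmin' z hlt hP
  obtain ⟨v', e', h1, h2, h3, h4⟩ := hy
  rcases zero_or_succ_or_isSuccLimit y with h0 | ⟨z0, h0⟩ | h0
  · exfalso
    subst h0
    obtain ⟨c, hc1, hc2⟩ := big_iff.1 h4
    obtain ⟨w, hw1, hw2⟩ := hc2.2 e' (by simpa using hA)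
    have := h3 w (S.le_trans hc1 (S.sq_le hw1)) hw2
    unfold blk at this
    rw [opow_zero, div_one, div_one] at this
    have h5 := (S.sq_lt hw1).trans_le (S.rk_anti hc1)
    rw [this] at h5
    exact lt_irrefl _ h5
  · have h0' : y = z0 + 1 := by rw [← h0]; rfl
    subst h0'
    have hz0 : z0 < z := (lt_add_one z0).trans_le hyz
    refine ⟨z0, v', e', hz0, h1, h2, h3, ?_, ?_⟩
    · rwa [mul_add_one A (z0 + 1)] at h4
    · intro v'' hv'' e'' he'' hb
      by_contra hcon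
      push Not at hcon
      apply hmin' z0 (lt_add_one z0)
      refine ⟨v'', e'', hv'', he'', ?_, hb⟩
      intro w hw hbw
      exact le_antisymm (blk_anti hw) (hcon w hw hbw)
  · exfalso
    have hr : S.rk v' % ω ^ y < ω ^ y := mod_lt _ (opow_ne y)
    obtain ⟨x, hx, hrx⟩ := (lt_opow_of_isSuccLimit omega0_ne_zero h0).1 hr
    apply hmin' x hx
    refine ⟨v', e', h1, h2, ?_, h4.mono (by gcongr)⟩
    intro w hw hbw
    have hsame := h3 w hw hbw
    -- rk w ≥ ω^y * q, rk v' < ω^y q + ω^x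
    apply le_antisymm (blk_anti hw)
    unfold blk at hsame ⊢
    obtain ⟨d, hd⟩ := exists_add_of_le hx.le
    have e1 : (ω : Ordinal.{0}) ^ y = ω ^ x * ω ^ d := by rw [hd, opow_add]
    have e2 : S.rk v' / ω ^ x = ω ^ d * (S.rk v' / ω ^ y) := by
      conv_lhs => rw [← div_add_mod (S.rk v') (ω ^ y)]
      rw [e1, mul_assoc, mul_add_div _ (opow_ne x), ← e1, div_eq_zero_of_lt hrx, add_zero]
    rw [e2, ← hsame, ← mul_le_iff_le_div (opow_ne x), ← mul_assoc, ← e1]
    exact mul_div_le _ _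

end Sys

end MPb6
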