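import Pool.Agent.Lib.MP_b6d339_lc.Abs

/-! Pattern lemmas (double ascent, double descent, `P`, `P'`, `TT`) for MP_b6d339_lc. -/

namespace MPb6

open Ordinal

namespace Sys

variable {S : Sys}

lemma cast_add_two (n : ℕ) : (n : Ordinal.{0}) + (1 + 1) = ((n + 2 : ℕ) : Ordinal.{0}) := by
  rw [Nat.cast_add]
  congr 1
  norm_num

/-- double ascent -/
lemma doubleAscent {z b : Ordinal.{0}} {v : S.N} (hne : S.NE z b v)
    (h : S.Big (b + (ω * z + 3)) v) :
    ∃ c1 c2 c3 c4 w : S.N, S.le v c1 ∧ S.sq c1 c2 ∧ S.sq c2 c3 ∧ S.sq c3 c4 ∧ S.sq c4 w ∧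
      S.Big b w ∧ lv c1 c3 < lv c3 c4 := by
  by_contra hcon
  push Not at hcon
  have key : ∀ l : Ordinal.{0}, ∀ c1 c2 c3 : S.N, S.le v c1 → S.sq c1 c2 → S.sq c2 c3 →
      lv c1 c3 ≤ l → S.Crit (b + ω * l + 1) c3 → False := by
    intro l
    induction l using WellFoundedLT.induction with
    | ind l ih =>
      intro c1 c2 c3 hv h12 h23 hl hc
      obtain ⟨l0, hl0⟩ := lv_succ (sq_sq h12 h23)
      have hl0l : l0 + 1 ≤ l := hl0 ▸ hl
      have hlt : l0 < l := (lt_add_one l0).trans_le hl0l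
      have inner : ∀ m : ℕ, ∀ c1 c2 c3 : S.N, S.le v c1 → S.sq c1 c2 → S.sq c2 c3 →
          lv c1 c3 ≤ l0 + 1 → cf (S.rk c1) l0 ≤ m →
          S.Crit (b + ω * l0 + ((2 * m + 1 : ℕ) : Ordinal.{0})) c3 → False := by
        intro m
        induction m with
        | zero =>
          intro c1 c2 c3 hv h12 h23 hl hcf hc
          have h1 : lv c1 c3 ≤ l0 := by
            rw [lv_le_iff] at hl ⊢
            exact div_eq_of_cf_zero (S.rk_anti (S.sq_le (sq_sq h12 h23))) hl (by omega)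
          exact ih l0 hlt c1 c2 c3 hv h12 h23 h1 (by simpa using hc)
        | succ m ihm =>
          intro c1 c2 c3 hv h12 h23 hl hcf hc
          by_cases hcase : lv c1 c3 ≤ l0
          · refine ih l0 hlt c1 c2 c3 hv h12 h23 hcase (hc.mono ?_)
            gcongr
            exact_mod_cast (by omega : 1 ≤ 2 * (m + 1) + 1)
          · have h13 := S.sq_le (sq_sq h12 h23)
            have hlt' : S.blk l0 c3 < S.blk l0 c1 := by
              refine lt_of_le_of_ne (blk_anti h13) fun he => hcase ?_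
              rw [lv_le_iff]; exact he.symm
            have hcf' : cf (S.rk c3) l0 < cf (S.rk c1) l0 := cf_lt (lv_le_iff.1 hl) hlt'
            have hc' : S.Crit ((b + ω * l0 + ((2 * m + 1 : ℕ) : Ordinal.{0}) + 1) + 1) c3 := by
              refine hc.mono (le_of_eq ?_)
              rw [add_assoc, add_assoc (b + ω * l0), cast_add_two]
              congr 1
            obtain ⟨c4, h34, hc4⟩ := hc'.next'
            obtain ⟨c5, h45, hc5⟩ := hc4.next'
            have hb4 : b < b + ω * l0 + ((2 * m + 1 : ℕ) : Ordinal.{0}) + 1 := by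
              refine lt_of_le_of_lt ?_ (lt_add_one _)
              rw [add_assoc]; exact le_self_add
            have hb5 : b < b + ω * l0 + ((2 * m + 1 : ℕ) : Ordinal.{0}) := by
              have h1 : (0 : Ordinal.{0}) < ((2 * m + 1 : ℕ) : Ordinal.{0}) := by
                exact_mod_cast (by omega : 0 < 2 * m + 1)
              rw [add_assoc]
              refine lt_add_of_pos_right b (h1.trans_le ?_)
              exact le_add_self
            obtain ⟨w4, hw4, hbw4⟩ := hc4.2 b hb4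
            obtain ⟨w5, hw5, hbw5⟩ := hc5.2 b hb5
            have i34 : lv c3 c4 ≤ l0 + 1 := (hcon c1 c2 c3 c4 w4 hv h12 h23 h34 hw4 hbw4).trans hl
            have i23 : lv c2 c3 ≤ l0 + 1 := by
              rw [lv_trans (S.sq_le h12) (S.sq_le h23)] at hl
              exact (le_max_right _ _).trans hl
            have i24 : lv c2 c4 ≤ l0 + 1 := by
              rw [lv_trans (S.sq_le h23) (S.sq_le h34)]
              exact max_le i23 i34
            have i45 : lv c4 c5 ≤ l0 + 1 :=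
              (hcon c2 c3 c4 c5 w5 (S.le_trans hv (S.sq_le h12)) h23 h34 h45 hw5 hbw5).trans i24
            have i35 : lv c3 c5 ≤ l0 + 1 := by
              rw [lv_trans (S.sq_le h34) (S.sq_le h45)]
              exact max_le i34 i45
            exact ihm c3 c4 c5 (S.le_trans hv h13) h34 h45 i35 (by omega) hc5
      refine inner (cf (S.rk c1) l0) c1 c2 c3 hv h12 h23 hl0.le le_rfl (hc.mono ?_)
      rw [add_assoc, add_assoc]
      refine add_le_add_right ?_ b
      calc ω * l0 + ((2 * cf (S.rk c1) l0 + 1 : ℕ) : Ordinal.{0}) ≤ ω * l0 + ω := by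
            gcongr; exact (natCast_lt_omega0 _).le
        _ = ω * (l0 + 1) := by rw [mul_add_one]
        _ ≤ ω * l := by gcongr
        _ ≤ ω * l + 1 := le_self_add
  obtain ⟨c1, hv1, hc1⟩ := big_iff.1 h
  have e3 : b + (ω * z + 3) = b + ω * z + 1 + 1 + 1 := by
    rw [← add_assoc, add_assoc (b + ω * z), add_assoc (b + ω * z)]
    congr 1
    norm_num [← Nat.cast_succ]
  rw [e3] at hc1
  obtain ⟨c2, h12, hc2⟩ := hc1.next'
  obtain ⟨c3, h23, hc3⟩ := hc2.next'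
  refine key z c1 c2 c3 hv1 h12 h23 ?_ hc3
  rw [lv_le_iff]
  have hb : b ≤ b + ω * z + 1 := by rw [add_assoc]; exact le_self_add
  have hb3 : S.Big b c3 := hc3.big.mono hb
  rw [hne c1 hv1 (hb3.up (S.sq_le (sq_sq h12 h23))),
    hne c3 (S.le_trans hv1 (S.sq_le (sq_sq h12 h23))) hb3]

/-- double descent -/
lemma doubleDescent {b : Ordinal.{0}} {v : S.N} (h : S.Big (b + ω) v) :
    ∃ c1 c2 c3 c4 w : S.N, S.le v c1 ∧ S.sq c1 c2 ∧ S.sq c2 c3 ∧ S.sq c3 c4 ∧ S.sq c4 w ∧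
      S.Big b w ∧ lv c2 c4 < lv c1 c2 := by
  by_contra hcon
  push Not at hcon
  have key : ∀ m : ℕ, ∀ c1 c2 : S.N, ∀ l0 : Ordinal.{0}, S.le v c1 → S.sq c1 c2 →
      lv c1 c2 = l0 + 1 → size (S.rk c2) l0 ≤ m →
      S.Crit (b + ((2 * m + 3 : ℕ) : Ordinal.{0})) c2 → False := by
    intro m
    induction m with
    | zero =>
      intro c1 c2 l0 hv h12 hl hsz hc
      have hc' : S.Crit ((b + ((1 : ℕ) : Ordinal.{0}) + 1) + 1) c2 := by
        refine hc.mono (le_of_eq ?_)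
        rw [add_assoc, add_assoc, cast_add_two]
      obtain ⟨c3, h23, hc3⟩ := hc'.next'
      obtain ⟨c4, h34, hc4⟩ := hc3.next'
      obtain ⟨w, hw, hbw⟩ := hc4.2 b (by apply lt_add_of_pos_right; norm_num)
      have h1 := hcon c1 c2 c3 c4 w hv h12 h23 h34 hw hbw
      obtain ⟨l1, hl1⟩ := lv_succ (sq_sq h23 h34)
      rw [hl, hl1] at h1
      have h01 : l0 ≤ l1 := by simpa using h1
      have hs : size (S.rk c4) l1 < size (S.rk c2) l1 := by
        refine size_lt (lv_le_iff.1 hl1.le) (lt_of_le_of_ne (blk_anti (S.sq_le (sq_sq h23 h34))) ?_)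
        intro he
        have : lv c2 c4 ≤ l1 := lv_le_iff.2 he.symm
        rw [hl1] at this
        exact absurd this (not_le.2 (lt_add_one l1))
      have := size_antitone (S.rk c2) h01
      omega
    | succ m ihm =>
      intro c1 c2 l0 hv h12 hl hsz hc
      have hc' : S.Crit ((b + ((2 * m + 3 : ℕ) : Ordinal.{0}) + 1) + 1) c2 := by
        refine hc.mono (le_of_eq ?_)
        rw [add_assoc, add_assoc, cast_add_two]
        congr 1
      obtain ⟨c3, h23, hc3⟩ := hc'.next'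
      obtain ⟨c4, h34, hc4⟩ := hc3.next'
      have hb4 : b < b + ((2 * m + 3 : ℕ) : Ordinal.{0}) := by
        apply lt_add_of_pos_right
        exact_mod_cast (by omega : 0 < 2 * m + 3)
      obtain ⟨w, hw, hbw⟩ := hc4.2 b hb4
      have h1 := hcon c1 c2 c3 c4 w hv h12 h23 h34 hw hbw
      obtain ⟨l1, hl1⟩ := lv_succ (sq_sq h23 h34)
      rw [hl, hl1] at h1
      have h01 : l0 ≤ l1 := by simpa using h1
      have hs : size (S.rk c4) l1 < size (S.rk c2) l1 := by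
        refine size_lt (lv_le_iff.1 hl1.le) (lt_of_le_of_ne (blk_anti (S.sq_le (sq_sq h23 h34))) ?_)
        intro he
        have : lv c2 c4 ≤ l1 := lv_le_iff.2 he.symm
        rw [hl1] at this
        exact absurd this (not_le.2 (lt_add_one l1))
      have := size_antitone (S.rk c2) h01
      exact ihm c2 c4 l1 (S.le_trans hv (S.sq_le h12)) (sq_sq h23 h34) hl1 (by omega) hc4
  obtain ⟨c1, hv1, hc1⟩ := big_iff.1 h
  set m := size (S.rk c1) 0 with hm
  obtain ⟨w, hw, hbw⟩ := hc1.2 (b + ((2 * m + 3 : ℕ) : Ordinal.{0}))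
    (by gcongr; exact natCast_lt_omega0 _)
  obtain ⟨c2, hc2, hc2'⟩ := big_iff.1 hbw
  have h12 : S.sq c1 c2 := S.sq_trans hw hc2
  obtain ⟨l0, hl0⟩ := lv_succ h12
  have hs : size (S.rk c2) l0 < size (S.rk c1) l0 := by
    refine size_lt (lv_le_iff.1 hl0.le) (lt_of_le_of_ne (blk_anti (S.sq_le h12)) ?_)
    intro he
    have : lv c1 c2 ≤ l0 := lv_le_iff.2 he.symm
    rw [hl0] at this
    exact absurd this (not_le.2 (lt_add_one l0))
  have := size_antitone (S.rk c1) (zero_le (a := l0))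
  exact key m c1 c2 l0 hv1 h12 hl0 (by omega) hc2'

lemma lt_lv_of_blk {a b : S.N} {z : Ordinal.{0}} (h : S.blk z b < S.blk z a) : z < lv a b := by
  by_contra hcon
  rw [not_lt, lv_le_iff] at hcon
  rw [hcon] at h
  exact lt_irrefl _ h

/-- Pattern `P`: `lv c2 c3 < lv c1 c2 ≤ lv c3 c4`. -/
lemma patP {A z e : Ordinal.{0}} {v : S.N} (hA : ω ≤ A) (hne : S.NE z e v)
    (h : S.Big (e + A * (z + 1)) v) :
    ∃ c1 c2 c3 c4 w : S.N, S.le v c1 ∧ S.sq c1 c2 ∧ S.sq c2 c3 ∧ S.sq c3 c4 ∧ S.sq c4 w ∧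
      S.Big e w ∧ lv c2 c3 < lv c1 c2 ∧ lv c1 c2 ≤ lv c3 c4 := by
  obtain ⟨z0, v', e', hz0, hv', he', hne', hb', hex⟩ :=
    minScale (omega0_pos.trans_le hA) hne h
  have h1 : S.Big (e' + A * (z0 + 1) + ω) v' := by
    refine hb'.mono ?_
    rw [add_assoc]; gcongr
  obtain ⟨c1, c2, c3', c3, w3, hvc1, h12, h23', h33, hw3, hbw3, hlt⟩ := doubleDescent h1
  have h23 : S.sq c2 c3 := sq_sq h23' h33
  have hAle : ω ≤ A * (z0 + 1) := by
    calc ω ≤ A := hA
      _ = A * 1 := (mul_one A).symm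
      _ ≤ A * (z0 + 1) := by gcongr; exact le_add_self
  have h2 : S.Big (e' + 1 + A * (z0 + 1)) w3 := by
    refine hbw3.mono (le_of_eq ?_)
    rw [add_assoc, one_add_of_omega0_le hAle]
  have hvw3 : S.le v' w3 :=
    S.le_trans hvc1 (S.le_trans (S.sq_le (sq_sq h12 h23)) (S.sq_le hw3))
  obtain ⟨w4, hw4, hbw4, hblk⟩ := hex w3 (S.le_trans hv' hvw3) (e' + 1)
    (he'.trans le_self_add) h2
  obtain ⟨c4, hc4, hc4'⟩ := big_iff.1 hbw4
  obtain ⟨w5, hw5, hbw5⟩ := hc4'.next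
  have h34 : S.sq c3 c4 := S.sq_trans hw3 (S.le_trans hw4 hc4)
  refine ⟨c1, c2, c3, c4, w5, S.le_trans hv' hvc1, h12, h23, h34, hw5, hbw5.mono he', hlt, ?_⟩
  have hgt : z0 < lv c3 c4 := by
    apply lt_lv_of_blk
    exact ((blk_anti hc4).trans_lt hblk).trans_le (blk_anti (S.sq_le hw3))
  have hbc : ∀ c, S.le v' c → S.le c c2 → S.blk (z0 + 1) c = S.blk (z0 + 1) v' := by
    intro c hc hcc
    apply hne' c hc
    have hb3 : S.Big e' w3 := hbw3.mono le_self_add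
    exact hb3.up (S.le_trans hcc (S.le_trans (S.sq_le h23) (S.sq_le hw3)))
  have hle : lv c1 c2 ≤ z0 + 1 := by
    rw [lv_le_iff, hbc c1 hvc1 (S.sq_le h12), hbc c2 (S.le_trans hvc1 (S.sq_le h12)) (S.le_refl _)]
  exact hle.trans (Order.add_one_le_of_lt hgt)

/-- Pattern `P'`: `lv c8 c9 < lv c9 c10 ≤ lv c7 c8`. -/
lemma patP' {A z e : Ordinal.{0}} {v : S.N} (hA : IsPrincipal (· + ·) A) (hzA : ω * z + 3 < A)
    (hne : S.NE z e v) (h : S.Big (e + A * (z + 1)) v) :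
    ∃ c7 c8 c9 c10 w : S.N, S.le v c7 ∧ S.sq c7 c8 ∧ S.sq c8 c9 ∧ S.sq c9 c10 ∧ S.sq c10 w ∧
      S.Big e w ∧ lv c8 c9 < lv c9 c10 ∧ lv c9 c10 ≤ lv c7 c8 := by
  have hApos : 0 < A := pos_of_gt hzA
  obtain ⟨z0, v', e', hz0, hv', he', hne', hb', hex⟩ := minScale hApos hne h
  obtain ⟨c7, hc7, hc7'⟩ := big_iff.1 hb'
  obtain ⟨w7, hw7, hbw7⟩ := hc7'.2 (e' + A * (z0 + 1)) (by
    gcongr
    exact lt_add_of_pos_right _ hApos)
  have hrest : ω * (z0 + 1) + 3 < A := by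
    refine lt_of_le_of_lt ?_ hzA
    gcongr
    exact Order.add_one_le_of_lt hz0
  have hAle : A ≤ A * (z0 + 1) := by
    calc A = A * 1 := (mul_one A).symm
      _ ≤ A * (z0 + 1) := by gcongr; exact le_add_self
  have h1 : S.Big (e' + (ω * (z0 + 1) + 3) + A * (z0 + 1)) w7 := by
    refine hbw7.mono (le_of_eq ?_)
    rw [add_assoc, hA.add_eq_right_of_le hrest hAle]
  have hvw7 : S.le v' w7 := S.le_trans hc7 (S.sq_le hw7)
  obtain ⟨w8, hw8, hbw8, hblk⟩ := hex w7 (S.le_trans hv' hvw7) (e' + (ω * (z0 + 1) + 3))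
    (he'.trans le_self_add) h1
  have hvw8 : S.le v' w8 := S.le_trans hvw7 hw8
  obtain ⟨a1, a2, a3, a4, w, ha1, h12, h23, h34, hw, hbw, hlt⟩ :=
    doubleAscent (hne'.down hvw8 (hbw8.mono le_self_add)) hbw8
  have h78 : S.sq c7 a1 := S.sq_trans hw7 (S.le_trans hw8 ha1)
  refine ⟨c7, a1, a3, a4, w, S.le_trans hv' hc7, h78, sq_sq h12 h23, h34, hw, hbw.mono he',
    hlt, ?_⟩
  have hgt : z0 < lv c7 a1 := by
    apply lt_lv_of_blk
    exact ((blk_anti ha1).trans_lt hblk).trans_le (blk_anti (S.sq_le hw7))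
  refine _root_.le_trans ?_ (Order.add_one_le_of_lt hgt)
  have hva3 : S.le v' a3 := S.le_trans hvw8 (S.le_trans ha1 (S.sq_le (sq_sq h12 h23)))
  rw [lv_le_iff, hne' a3 hva3 (hbw.up (S.sq_le (sq_sq h34 hw))),
    hne' a4 (S.le_trans hva3 (S.sq_le h34)) (hbw.up (S.sq_le hw))]

/-- Pattern `TT`. -/
lemma patTT {z e : Ordinal.{0}} {v : S.N} (hne : S.NE z e v)
    (h : S.Big (e + (ω + (ω * z + 3))) v) :
    ∃ d2 d3 d4 d5 d6 d7 d8 w : S.N, S.le v d2 ∧ S.sq d2 d3 ∧ S.sq d3 d4 ∧ S.sq d4 d5 ∧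
      S.sq d5 d6 ∧ S.sq d6 d7 ∧ S.sq d7 d8 ∧ S.sq d8 w ∧ S.Big e w ∧
      lv d2 d4 < lv d4 d5 ∧ lv d6 d8 < lv d5 d6 := by
  rw [← add_assoc] at h
  obtain ⟨a1, a2, a3, a4, w, ha1, h12, h23, h34, hw, hbw, hlt⟩ :=
    doubleAscent (hne.mono le_self_add) h
  obtain ⟨c1, c2, c3, c4, w', hc1, g12, g23, g34, hw', hbw', hlt'⟩ := doubleDescent hbw
  have h45 : S.sq a3 c1 := sq_sq h34 (S.sq_trans hw hc1)
  refine ⟨a1, a2, a3, c1, c2, c3, c4, w', ha1, h12, h23, h45, g12, g23, g34, hw', hbw', ?_, hlt'⟩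
  refine hlt.trans_le ?_
  rw [lv_trans (S.sq_le h34) (S.le_trans (S.sq_le hw) hc1)]
  exact le_max_left _ _

end Sys

end MPb6
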