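import Pool.Agent.Lib.MP_b6d339_lc.Abs2

/-! The X- and Y-patterns for MP_b6d339_lc. -/

namespace MPb6

open Ordinal

/-- parameters -/
structure Par (g1 g2 g3 A : Ordinal.{0}) : Prop where
  pA : IsPrincipal (· + ·) A
  hω : ω ≤ A
  rest : ω * g1 + 3 < A
  cost : A * (g1 + 1) * ω ^ g2 ≤ ω ^ g1

namespace Sys

variable {S : Sys}

/-- the pattern of the first player -/
structure XPat (g1 G2 : Ordinal.{0}) (c1 c2 c3 c4 c5 c6 c7 c8 c9 c10 : S.N) : Prop where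
  s1 : lv c1 c2 ≤ g1
  s2 : lv c2 c3 ≤ g1
  s3 : lv c3 c4 ≤ g1
  s4 : g1 < lv c4 c5 ∧ lv c4 c5 ≤ G2
  s5 : G2 < lv c5 c6
  s6 : g1 < lv c6 c7 ∧ lv c6 c7 ≤ G2
  s7 : lv c7 c8 ≤ g1
  s8 : lv c8 c9 ≤ g1
  s9 : lv c9 c10 ≤ g1
  s21 : lv c2 c3 < lv c1 c2
  s13 : lv c1 c2 ≤ lv c3 c4
  s89 : lv c8 c9 < lv c9 c10
  s97 : lv c9 c10 ≤ lv c7 c8

/-- the pattern of the second player -/
structure YPat (g1 G2 : Ordinal.{0}) (d1 d2 d3 d4 d5 d6 d7 d8 d9 : S.N) : Prop where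
  t1 : g1 < lv d1 d2 ∧ lv d1 d2 ≤ G2
  t2 : lv d2 d3 ≤ g1
  t3 : lv d3 d4 ≤ g1
  t4 : lv d4 d5 ≤ g1
  t5 : lv d5 d6 ≤ g1
  t6 : lv d6 d7 ≤ g1
  t7 : lv d7 d8 ≤ g1
  t8 : g1 < lv d8 d9 ∧ lv d8 d9 ≤ G2
  t24 : lv d2 d3 < lv d4 d5
  t34 : lv d3 d4 < lv d4 d5
  t65 : lv d6 d7 < lv d5 d6
  t75 : lv d7 d8 < lv d5 d6

lemma ne_top {k e : Ordinal.{0}} {v : S.N} (hv : S.rk v < ω ^ k) : S.NE k e v := by
  intro w hw _
  unfold blk
  rw [div_eq_zero_of_lt hv, div_eq_zero_of_lt ((S.rk_anti hw).trans_lt hv)]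

/-- in the same block -/
lemma lv_le_of_NE {z e : Ordinal.{0}} {v a b : S.N} (hne : S.NE z e v) (ha : S.le v a)
    (hab : S.le a b) (hb : S.Big e b) : lv a b ≤ z := by
  rw [lv_le_iff, hne a ha (hb.up hab), hne b (S.le_trans ha hab) hb]

lemma one_le_opow (z : Ordinal.{0}) : (1 : Ordinal.{0}) ≤ ω ^ z :=
  Order.one_le_iff_pos.2 (opow_pos z omega0_pos)

variable {g1 g2 g3 A : Ordinal.{0}}

/-- the constant `K = ω ^ g1 * 5` -/
noncomputable def KK (g1 : Ordinal.{0}) : Ordinal.{0} := ω ^ g1 + ω ^ g1 + ω ^ g1 + ω ^ g1 + ω ^ g1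

theorem xTheorem (hP : Par g1 g2 g3 A) {v : S.N} (hv : S.rk v < ω ^ (g1 + g2 + g3))
    (h : S.Big (KK g1 * ω ^ g3 + ω ^ (g1 + g2) + KK g1 * ω ^ g3) v) :
    ∃ c1 c2 c3 c4 c5 c6 c7 c8 c9 c10 x : S.N, S.le v c1 ∧ S.sq c1 c2 ∧ S.sq c2 c3 ∧ S.sq c3 c4 ∧
      S.sq c4 c5 ∧ S.sq c5 c6 ∧ S.sq c6 c7 ∧ S.sq c7 c8 ∧ S.sq c8 c9 ∧ S.sq c9 c10 ∧ S.sq c10 x ∧
      S.alive x ∧ XPat g1 (g1 + g2) c1 c2 c3 c4 c5 c6 c7 c8 c9 c10 := by
  set P : Ordinal.{0} := ω ^ g1 with hPdef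
  have h1P : 1 ≤ P := one_le_opow g1
  -- first rich (g1+g2)-block
  obtain ⟨v1, e1, hvv1, hE1, -, hne1, hb1⟩ := thin (e' := 0) (ne_top hv) zero_le h
  -- first rich g1-block
  have hb1' : S.Big (e1 + 1 + P + A * (g1 + 1) * ω ^ g2) v1 := by
    refine hb1.mono ?_
    rw [add_assoc, add_assoc]
    refine add_le_add_right ?_ e1
    calc 1 + (P + A * (g1 + 1) * ω ^ g2) ≤ P + (P + P) := by gcongr; exact hP.cost
      _ ≤ KK g1 := by
        unfold KK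
        rw [← hPdef, ← add_assoc]
        exact le_self_add.trans le_self_add
  obtain ⟨v2, e2, hv12, hE2, -, hne2, hb2⟩ := thin (z := g1) (d := g2) (e' := e1) hne1
    (by rw [add_assoc]; exact le_self_add) hb1'
  obtain ⟨c1, c2, c3, c4, w3, hvc1, h12, h23, h34, hw3, hbw3, s21, s13⟩ := patP hP.hω hne2 hb2
  -- exit from the g1-block
  obtain ⟨w4, hw4, hbw4, hblk4⟩ := exit (a := e1 + 1) (z := g1) (hbw3.mono hE2)
  obtain ⟨c5, hc5, hc5'⟩ := big_iff.1 hbw4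
  have h45 : S.sq c4 c5 := S.sq_trans hw3 (S.le_trans hw4 hc5)
  obtain ⟨w5, hw5, hbw5⟩ := hc5'.next
  -- exit from the (g1+g2)-block
  obtain ⟨u, hu, hbu, hblku⟩ := exit (a := KK g1 * ω ^ g3) (z := g1 + g2) (hbw5.mono hE1)
  have hvw5 : S.le v w5 := S.le_trans hvv1 (S.le_trans hv12 (S.le_trans hvc1
    (S.le_trans (S.sq_le h12) (S.le_trans (S.sq_le h23) (S.le_trans (S.sq_le h34)
      (S.le_trans (S.sq_le h45) (S.sq_le hw5)))))))
  have hvu : S.le v u := S.le_trans hvw5 hu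
  have hu' : S.rk u < ω ^ (g1 + g2 + g3) := (S.rk_anti hvu).trans_lt hv
  -- second rich (g1+g2)-block
  obtain ⟨v1', e1', hvv1', -, -, hne1', hb1'⟩ := thin (z := g1 + g2) (d := g3) (e' := 0) (E := 0)
    (th := KK g1) (ne_top hu') le_rfl (by rwa [zero_add])
  have hb6 : S.Big (e1' + (A * (g1 + 1) * ω ^ g2 + P) + 1) v1' := by
    refine hb1'.mono ?_
    rw [add_assoc]
    refine add_le_add_right ?_ e1'
    calc A * (g1 + 1) * ω ^ g2 + P + 1 ≤ P + P + P := by gcongr; exact hP.cost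
      _ ≤ KK g1 := by
        unfold KK
        rw [← hPdef]
        exact le_self_add.trans le_self_add
  obtain ⟨c6, hc6, hc6'⟩ := big_iff.1 hb6
  have h56 : S.sq c5 c6 := S.sq_trans hw5 (S.le_trans hu (S.le_trans hvv1' hc6))
  obtain ⟨w6, hw6, hbw6⟩ := hc6'.next
  obtain ⟨w7, hw7, hbw7, hblk7⟩ := exit (a := e1' + A * (g1 + 1) * ω ^ g2) (z := g1)
    (hbw6.mono (by rw [add_assoc]))
  have hv1w7 : S.le v1' w7 := S.le_trans hc6 (S.le_trans (S.sq_le hw6) hw7)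
  obtain ⟨v2', e2', hwv2', hE2', -, hne2', hb2'⟩ := thin (z := g1) (d := g2) (e' := e1')
    (hne1'.down hv1w7 (hbw7.mono le_self_add)) le_rfl hbw7
  obtain ⟨c7, c8, c9, c10, x, hc7, h78, h89, h910, h10x, hbx, s89, s97⟩ :=
    patP' hP.pA hP.rest hne2' hb2'
  have h67 : S.sq c6 c7 := S.sq_trans hw6 (S.le_trans hw7 (S.le_trans hwv2' hc7))
  have hbc4 : S.Big e2 c4 := hbw3.up (S.sq_le hw3)
  have hbc3 : S.Big e2 c3 := hbc4.up (S.sq_le h34)
  have hbc2 : S.Big e2 c2 := hbc3.up (S.sq_le h23)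
  have hle2 : S.le v2 c2 := S.le_trans hvc1 (S.sq_le h12)
  have hle3 : S.le v2 c3 := S.le_trans hle2 (S.sq_le h23)
  have hbc10 : S.Big e2' c10 := hbx.up (S.sq_le h10x)
  have hbc9 : S.Big e2' c9 := hbc10.up (S.sq_le h910)
  have hbc8 : S.Big e2' c8 := hbc9.up (S.sq_le h89)
  have hbc7 : S.Big e2' c7 := hbc8.up (S.sq_le h78)
  refine ⟨c1, c2, c3, c4, c5, c6, c7, c8, c9, c10, x, S.le_trans hvv1 (S.le_trans hv12 hvc1),
    h12, h23, h34, h45, h56, h67, h78, h89, h910, h10x, hbx.alive, ?_⟩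
  exact
  { s1 := lv_le_of_NE hne2 hvc1 (S.sq_le h12) hbc2
    s2 := lv_le_of_NE hne2 hle2 (S.sq_le h23) hbc3
    s3 := lv_le_of_NE hne2 hle3 (S.sq_le h34) hbc4
    s4 := by
      constructor
      · apply lt_lv_of_blk
        exact ((blk_anti hc5).trans_lt hblk4).trans_le (blk_anti (S.sq_le hw3))
      · exact lv_le_of_NE hne1 (S.le_trans hv12 (S.le_trans hle3 (S.sq_le h34))) (S.sq_le h45)
          (hc5'.big.mono le_self_add)
    s5 := by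
      apply lt_lv_of_blk
      exact ((blk_anti (S.le_trans hvv1' hc6)).trans_lt hblku).trans_le (blk_anti (S.sq_le hw5))
    s6 := by
      constructor
      · apply lt_lv_of_blk
        exact ((blk_anti (S.le_trans hwv2' hc7)).trans_lt hblk7).trans_le (blk_anti (S.sq_le hw6))
      · exact lv_le_of_NE hne1' hc6 (S.sq_le h67) (hbc7.mono hE2')
    s7 := lv_le_of_NE hne2' hc7 (S.sq_le h78) hbc8
    s8 := lv_le_of_NE hne2' (S.le_trans hc7 (S.sq_le h78)) (S.sq_le h89) hbc9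
    s9 := lv_le_of_NE hne2' (S.le_trans hc7 (S.sq_le (sq_sq h78 h89))) (S.sq_le h910) hbc10
    s21 := s21
    s13 := s13
    s89 := s89
    s97 := s97 }

theorem yTheorem (hP : Par g1 g2 g3 A) {v : S.N} (hv : S.rk v < ω ^ (g1 + g2 + g3))
    (h : S.Big (KK g1 * ω ^ g3) v) :
    ∃ d1 d2 d3 d4 d5 d6 d7 d8 d9 y : S.N, S.le v d1 ∧ S.sq d1 d2 ∧ S.sq d2 d3 ∧ S.sq d3 d4 ∧
      S.sq d4 d5 ∧ S.sq d5 d6 ∧ S.sq d6 d7 ∧ S.sq d7 d8 ∧ S.sq d8 d9 ∧ S.sq d9 y ∧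
      S.alive y ∧ YPat g1 (g1 + g2) d1 d2 d3 d4 d5 d6 d7 d8 d9 := by
  set P : Ordinal.{0} := ω ^ g1 with hPdef
  have h1P : 1 ≤ P := one_le_opow g1
  obtain ⟨v1, e1, hvv1, -, -, hne1, hb1⟩ := thin (z := g1 + g2) (d := g3) (e' := 0) (E := 0)
    (th := KK g1) (ne_top hv) le_rfl (by rwa [zero_add])
  have hb1' : S.Big (e1 + (1 + P + A * (g1 + 1) * ω ^ g2 + P) + 1) v1 := by
    refine hb1.mono ?_
    rw [add_assoc]
    refine add_le_add_right ?_ e1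
    calc 1 + P + A * (g1 + 1) * ω ^ g2 + P + 1 ≤ P + P + P + P + P := by gcongr; exact hP.cost
      _ = KK g1 := rfl
  obtain ⟨d1, hd1, hd1'⟩ := big_iff.1 hb1'
  obtain ⟨w1, hw1, hbw1⟩ := hd1'.next
  obtain ⟨w2, hw2, hbw2, hblk2⟩ := exit (a := e1 + 1 + P + A * (g1 + 1) * ω ^ g2) (z := g1)
    (hbw1.mono (by simp only [add_assoc, ← hPdef]; exact le_rfl))
  have hv1w2 : S.le v1 w2 := S.le_trans hd1 (S.le_trans (S.sq_le hw1) hw2)
  have hbe1 : S.Big e1 w2 := hbw2.mono (by simp only [add_assoc]; exact le_self_add)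
  obtain ⟨v2, e2, hwv2, hE2, -, hne2, hb2⟩ := thin (z := g1) (d := g2) (e' := e1)
    (hne1.down hv1w2 hbe1) (by rw [add_assoc]; exact le_self_add) hbw2
  have hcost : ω + (ω * g1 + 3) ≤ A * (g1 + 1) := by
    have h1 : ω + (ω * g1 + 3) ≤ A := by
      have h2 : ω < A := by
        refine lt_of_le_of_lt ?_ hP.rest
        rcases eq_or_ne g1 0 with h0 | h0
        · exfalso
          have := hP.cost
          subst h0
          rw [zero_add, mul_one, opow_zero] at this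
          have h3 : A ≤ 1 := by
            calc A = A * 1 := (mul_one A).symm
              _ ≤ A * ω ^ g2 := by gcongr; exact one_le_opow g2
              _ ≤ 1 := this
          exact absurd (hP.hω.trans h3) (not_le.2 one_lt_omega0)
        · calc ω = ω * 1 := (mul_one ω).symm
            _ ≤ ω * g1 := by gcongr; exact Order.one_le_iff_pos.2 (pos_iff_ne_zero.2 h0)
            _ ≤ ω * g1 + 3 := le_self_add
      exact (hP.pA h2 hP.rest).le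
    calc ω + (ω * g1 + 3) ≤ A := h1
      _ = A * 1 := (mul_one A).symm
      _ ≤ A * (g1 + 1) := by gcongr; exact le_add_self
  obtain ⟨d2, d3, d4, d5, d6, d7, d8, w3, hvd2, h23, h34, h45, h56, h67, h78, h8w, hbw3, t4, t5⟩ :=
    patTT hne2 (hb2.mono (by gcongr))
  obtain ⟨w4, hw4, hbw4, hblk4⟩ := exit (a := e1 + 1) (z := g1) (hbw3.mono hE2)
  obtain ⟨d9, hd9, hd9'⟩ := big_iff.1 hbw4
  obtain ⟨y, h9y, hby⟩ := hd9'.next
  have h12 : S.sq d1 d2 := S.sq_trans hw1 (S.le_trans hw2 (S.le_trans hwv2 hvd2))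
  have h89 : S.sq d8 d9 := S.sq_trans h8w (S.le_trans hw4 hd9)
  have b8 : S.Big e2 d8 := hbw3.up (S.sq_le h8w)
  have b7 : S.Big e2 d7 := b8.up (S.sq_le h78)
  have b6 : S.Big e2 d6 := b7.up (S.sq_le h67)
  have b5 : S.Big e2 d5 := b6.up (S.sq_le h56)
  have b4 : S.Big e2 d4 := b5.up (S.sq_le h45)
  have b3 : S.Big e2 d3 := b4.up (S.sq_le h34)
  have b2 : S.Big e2 d2 := b3.up (S.sq_le h23)
  have l3 : S.le v2 d3 := S.le_trans hvd2 (S.sq_le h23)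
  have l4 : S.le v2 d4 := S.le_trans l3 (S.sq_le h34)
  have l5 : S.le v2 d5 := S.le_trans l4 (S.sq_le h45)
  have l6 : S.le v2 d6 := S.le_trans l5 (S.sq_le h56)
  have l7 : S.le v2 d7 := S.le_trans l6 (S.sq_le h67)
  have l8 : S.le v2 d8 := S.le_trans l7 (S.sq_le h78)
  have he12 : e1 ≤ e2 := (by rw [add_assoc]; exact le_self_add : e1 ≤ e1 + 1 + P).trans hE2
  rw [lv_trans (S.sq_le h23) (S.sq_le h34)] at t4
  rw [lv_trans (S.sq_le h67) (S.sq_le h78)] at t5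
  refine ⟨d1, d2, d3, d4, d5, d6, d7, d8, d9, y, S.le_trans hvv1 hd1, h12, h23, h34, h45, h56,
    h67, h78, h89, h9y, hby.alive, ?_⟩
  exact
  { t1 := by
      constructor
      · apply lt_lv_of_blk
        exact ((blk_anti (S.le_trans hwv2 hvd2)).trans_lt hblk2).trans_le (blk_anti (S.sq_le hw1))
      · exact lv_le_of_NE hne1 hd1 (S.sq_le h12) (b2.mono he12)
    t2 := lv_le_of_NE hne2 hvd2 (S.sq_le h23) b3
    t3 := lv_le_of_NE hne2 l3 (S.sq_le h34) b4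
    t4 := lv_le_of_NE hne2 l4 (S.sq_le h45) b5
    t5 := lv_le_of_NE hne2 l5 (S.sq_le h56) b6
    t6 := lv_le_of_NE hne2 l6 (S.sq_le h67) b7
    t7 := lv_le_of_NE hne2 l7 (S.sq_le h78) b8
    t8 := by
      constructor
      · apply lt_lv_of_blk
        exact ((blk_anti hd9).trans_lt hblk4).trans_le (blk_anti (S.sq_le h8w))
      · exact lv_le_of_NE hne1 (S.le_trans hd1 (S.le_trans (S.sq_le h12) (S.le_trans
          (S.sq_le (sq_sq h23 h34)) (S.le_trans (S.sq_le (sq_sq h45 h56))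
          (S.sq_le (sq_sq h67 h78)))))) (S.sq_le h89) (hd9'.big.mono le_self_add)
    t24 := (le_max_left _ _).trans_lt t4
    t34 := (le_max_right _ _).trans_lt t4
    t65 := (le_max_left _ _).trans_lt t5
    t75 := (le_max_right _ _).trans_lt t5 }

end Sys

end MPb6
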