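import Pool.Agent.Lib.MP_b6d339_lc.Par

/-! Final form of the unavoidability theorems. -/

namespace MPb6

open Ordinal

/-- gate pattern of the first player -/
structure SPatt (G1 G2 : Ordinal.{0}) (s : ℕ → Ordinal.{0}) : Prop where
  s1 : s 1 ≤ G1
  s2 : s 2 ≤ G1
  s3 : s 3 ≤ G1
  s4 : G1 < s 4 ∧ s 4 ≤ G2
  s5 : G2 < s 5
  s6 : G1 < s 6 ∧ s 6 ≤ G2
  s7 : s 7 ≤ G1
  s8 : s 8 ≤ G1
  s9 : s 9 ≤ G1
  s21 : s 2 < s 1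
  s13 : s 1 ≤ s 3
  s89 : s 8 < s 9
  s97 : s 9 ≤ s 7

/-- gate pattern of the second player -/
structure TPatt (G1 G2 : Ordinal.{0}) (t : ℕ → Ordinal.{0}) : Prop where
  t1 : G1 < t 1 ∧ t 1 ≤ G2
  t2 : t 2 ≤ G1
  t3 : t 3 ≤ G1
  t4 : t 4 ≤ G1
  t5 : t 5 ≤ G1
  t6 : t 6 ≤ G1
  t7 : t 7 ≤ G1
  t8 : G1 < t 8 ∧ t 8 ≤ G2
  t24 : t 2 < t 4
  t34 : t 3 < t 4
  t65 : t 6 < t 5
  t75 : t 7 < t 5

namespace Sys

variable {S : Sys}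

theorem xFinal {a g2 g3 : Ordinal.{0}} (ha0 : 0 < a) (ha : a < ω ^ a) (h21 : g2 ≤ ω ^ a)
    (h32 : g3 ≤ g2) (h3 : 0 < g3) {r : S.N} (hr : S.rk r = ω ^ (ω ^ a + g2 + g3))
    (hroot : ∀ c, S.le r c → S.rk r ≤ S.rk c → c = r) (h : S.Big (ω ^ (ω ^ a + g2 + g3)) r) :
    ∃ c : ℕ → S.N, c 0 = r ∧ (∀ i ≤ 9, S.sq (c i) (c (i + 1))) ∧
      (∃ w, S.sq (c 10) w ∧ S.alive w) ∧
      SPatt (ω ^ a) (ω ^ a + g2) (fun i => Lv (S.rk (c i)) (S.rk (c (i + 1)))) := by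
  obtain ⟨c, hc, hc'⟩ := big_iff.1 h
  have hcr : c = r := by
    apply hroot c hc
    rw [hr]
    exact hc'.big.le_rk
  subst hcr
  obtain ⟨w, hw, hbw⟩ := hc'.2 _ (budget (g1 := ω ^ a) h3 h32)
  obtain ⟨c1, c2, c3, c4, c5, c6, c7, c8, c9, c10, x, hwc, h12, h23, h34, h45, h56, h67, h78, h89,
    h910, h10x, hx, hpat⟩ := xTheorem (par_of ha0 ha h21) (by rw [← hr]; exact S.sq_lt hw) hbw
  have h01 : S.sq c c1 := S.sq_trans hw hwc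
  refine ⟨fun i => [c, c1, c2, c3, c4, c5, c6, c7, c8, c9, c10].getD i c, rfl, ?_,
    ⟨x, h10x, hx⟩, ?_⟩
  · intro i hi
    interval_cases i <;> assumption
  · exact
    { s1 := hpat.s1, s2 := hpat.s2, s3 := hpat.s3, s4 := hpat.s4, s5 := hpat.s5, s6 := hpat.s6
      s7 := hpat.s7, s8 := hpat.s8, s9 := hpat.s9, s21 := hpat.s21, s13 := hpat.s13
      s89 := hpat.s89, s97 := hpat.s97 }

theorem yFinal {a g2 g3 : Ordinal.{0}} (ha0 : 0 < a) (ha : a < ω ^ a) (h21 : g2 ≤ ω ^ a)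
    (h32 : g3 ≤ g2) (h3 : 0 < g3) {r : S.N} (hr : S.rk r = ω ^ (ω ^ a + g2 + g3))
    (hroot : ∀ c, S.le r c → S.rk r ≤ S.rk c → c = r) (h : S.Big (ω ^ (ω ^ a + g2 + g3)) r) :
    ∃ d : ℕ → S.N, d 0 = r ∧ (∀ i ≤ 8, S.sq (d i) (d (i + 1))) ∧
      (∃ w, S.sq (d 9) w ∧ S.alive w) ∧
      TPatt (ω ^ a) (ω ^ a + g2) (fun i => Lv (S.rk (d i)) (S.rk (d (i + 1)))) := by
  obtain ⟨c, hc, hc'⟩ := big_iff.1 h
  have hcr : c = r := by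
    apply hroot c hc
    rw [hr]
    exact hc'.big.le_rk
  subst hcr
  obtain ⟨w, hw, hbw⟩ := hc'.2 _ (budget (g1 := ω ^ a) h3 h32)
  obtain ⟨d1, d2, d3, d4, d5, d6, d7, d8, d9, y, hwd, h12, h23, h34, h45, h56, h67, h78, h89,
    h9y, hy, hpat⟩ := yTheorem (par_of ha0 ha h21) (by rw [← hr]; exact S.sq_lt hw)
      (hbw.mono le_add_self)
  have h01 : S.sq c d1 := S.sq_trans hw hwd
  refine ⟨fun i => [c, d1, d2, d3, d4, d5, d6, d7, d8, d9].getD i c, rfl, ?_, ⟨y, h9y, hy⟩, ?_⟩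
  · intro i hi
    interval_cases i <;> assumption
  · exact
    { t1 := hpat.t1, t2 := hpat.t2, t3 := hpat.t3, t4 := hpat.t4, t5 := hpat.t5, t6 := hpat.t6
      t7 := hpat.t7, t8 := hpat.t8, t24 := hpat.t24, t34 := hpat.t34, t65 := hpat.t65
      t75 := hpat.t75 }

end Sys

end MPb6
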