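import Mathlib

/-!
Finite check for MP_b6d339_lc (negative theorem): no three runs.

Events `e : E` (= nodes of the three terminals), `pl e : Fin 3` the player, `tm e` the time.
Run A = 01, run B = 02, run C = 12.  `a e` (for `pl e ≠ 2`), `b e` (for `pl e ≠ 1`), `c e` (for `pl e ≠ 0`)
= number (1..21) of the block of the run in which the event lies; odd blocks belong to the first player of the run.
`vA vB vC` : gate values of the blocks (only used on class 1 blocks).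
-/

namespace MPb6

/-- class of a block (`9` = infinite gate) -/
def cls (b : ℕ) : ℕ :=
  if b = 3 ∨ b = 5 ∨ b = 7 ∨ b = 15 ∨ b = 17 ∨ b = 19 ∨ b = 6 ∨ b = 8 ∨ b = 10 ∨ b = 12 ∨ b = 14 ∨ b = 16 then 1
  else if b = 9 ∨ b = 13 ∨ b = 4 ∨ b = 18 then 2
  else if b = 11 then 3 else 9

/-- inequalities between the class 1 gates of one run
(x-blocks `3,5,7 | 15,17,19` are `s1,s2,s3 | s7,s8,s9`, y-blocks `6,8,10,12,14,16` are `t2,...,t7`) -/
structure Ineq {α : Type*} [LinearOrder α] (v : ℕ → α) : Prop where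
  s21 : v 5 < v 3
  s13 : v 3 ≤ v 7
  s89 : v 17 < v 19
  s97 : v 19 ≤ v 15
  t24 : v 6 < v 10
  t34 : v 8 < v 10
  t65 : v 14 < v 12
  t75 : v 16 < v 12

/-- block `i` (value `v i`) is hosted by block `j` (value `v' j`) -/
def HostOK {α : Type*} [LinearOrder α] (v v' : ℕ → α) (i j : ℕ) : Prop :=
  cls i < cls j ∨ (cls i = cls j ∧ (cls i = 1 → v i ≤ v' j))

structure Sched {E τ α : Type*} [LinearOrder τ] [LinearOrder α] (pl : E → Fin 3) (tm : E → τ)
    (a b c : E → ℕ) (vA vB vC : ℕ → α) : Prop where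
  monoA : ∀ e e', pl e ≠ 2 → pl e' ≠ 2 → a e < a e' → tm e < tm e'
  monoB : ∀ e e', pl e ≠ 1 → pl e' ≠ 1 → b e < b e' → tm e < tm e'
  monoC : ∀ e e', pl e ≠ 0 → pl e' ≠ 0 → c e < c e' → tm e < tm e'
  rangeA : ∀ e, pl e ≠ 2 → 1 ≤ a e ∧ a e ≤ 21
  rangeB : ∀ e, pl e ≠ 1 → 1 ≤ b e ∧ b e ≤ 21
  rangeC : ∀ e, pl e ≠ 0 → 1 ≤ c e ∧ c e ≤ 21
  par0 : ∀ e, pl e = 0 → a e % 2 = 1 ∧ b e % 2 = 1
  par1 : ∀ e, pl e = 1 → a e % 2 = 0 ∧ c e % 2 = 1
  par2 : ∀ e, pl e = 2 → b e % 2 = 0 ∧ c e % 2 = 0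
  surjA : ∀ i, 1 ≤ i → i ≤ 21 → ∃ e, pl e ≠ 2 ∧ a e = i
  surjB : ∀ i, 1 ≤ i → i ≤ 21 → ∃ e, pl e ≠ 1 ∧ b e = i
  surjC : ∀ i, 1 ≤ i → i ≤ 21 → ∃ e, pl e ≠ 0 ∧ c e = i
  ineqA : Ineq vA
  ineqB : Ineq vB
  ineqC : Ineq vC
  /-- hosting, for all finite blocks of all runs -/
  hostA0 : ∀ i, 3 ≤ i → i ≤ 19 → i % 2 = 1 → ∃ e, pl e = 0 ∧ a e = i ∧ HostOK vA vB i (b e)
  hostB0 : ∀ i, 3 ≤ i → i ≤ 19 → i % 2 = 1 → ∃ e, pl e = 0 ∧ b e = i ∧ HostOK vB vA i (a e)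
  hostA1 : ∀ i, 3 ≤ i → i ≤ 19 → i % 2 = 0 → ∃ e, pl e = 1 ∧ a e = i ∧ HostOK vA vC i (c e)
  hostC1 : ∀ i, 3 ≤ i → i ≤ 19 → i % 2 = 1 → ∃ e, pl e = 1 ∧ c e = i ∧ HostOK vC vA i (a e)
  hostB2 : ∀ i, 3 ≤ i → i ≤ 19 → i % 2 = 0 → ∃ e, pl e = 2 ∧ b e = i ∧ HostOK vB vC i (c e)
  hostC2 : ∀ i, 3 ≤ i → i ≤ 19 → i % 2 = 0 → ∃ e, pl e = 2 ∧ c e = i ∧ HostOK vC vB i (b e)

/-
HUMAN PROOF (Case I; Case II is its time reversal tm -> order dual, block i -> 22 - i, v'(i) = v(22-i)).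
hostC1 11: e0 (pl 1) with c e0 = 11 and a e0 class>=3 even: a e0 = 2 (Case I) or 20 (Case II).
Case I.  T0 := tm e0, a=2, c=11.
(1) pl 0 events before T0 have a = 1 and b = 1; pl 2 events before T0 have b = 2 (there is one, c=2); pl 0 events after T0 have b>=3.
(2) hostB2 4: T1 (pl 2) b=4, c in {2,4,18,20}; T1>T0 by (1), so c(T1) in {18,20}.
(3) hostB2 18: T2 (pl 2) b=18, c in {2,4,18,20}, T2>T1, so c(T2)<=20.
(4) hostB0 11: T3 (pl 0) b=11, a in {1,11,21}; T1<T3<T2, so a(T3)>=11.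
(5) hostA0 9: T5 (pl 0) a=9, b in {1,9,11,13,21}; T5>T0 so b(T5)>=9 so T5>T1. T5<T3 so b(T5)<=11.
(6) hostA1 10: T6 (pl 1) a=10, T5<T6<T3<T2, so c(T1)<=c(T6)<=20, c(T6)=19, hence vA 10 <= vC 19 <= vC 15.
(7) hostC1 15: T7 (pl 1) c=15, T7<T1<T5 so a(T7)<=9; a(T7) in {6,8} impossible (vC 15 <= vA 6 < vA 10 <= vC 15). So a(T7) in {2,4}.
(8) hostA1 4: T8 (pl 1) a=4: T0<T8<T6 so c(T8) in 11..19, class>=2: c(T8) in {11,13}. So T8<T7 and a(T7)=4.
(9) hostA0 3: T9 (pl 0) a=3: T0<T9<T8<T1: b(T9)=3, so vA 3 <= vB 3.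
(10) surjC 14: T10 (pl 2) c=14: T8<T10<T1, T9<T8: b(T10)=4. So no pl 0 event in [T10,T1].
(11) surjA 5: T13 (pl 0) a=5>4: T13>T7>T10 so T13>T1. surjA 6: T14 (pl 1): T14>T13>T1, T14<T6: c(T14)=19. c(T6)=19.
     No pl 2 event between T14 and T6. Every a=7 event T (pl 0) and T5 lie between T14 and T6, so b(T)=b(T5)>=9.
(12) hostB0 7: T11 (pl 0) b=7: T11>T1, b(T11)=7<9 so a(T11)<=5 (if a=7 then b>=9), a(T11)>=5 as T11>T1>T7. So a(T11)=5:
     vB 7 <= vA 5 < vA 3 <= vB 3 <= vB 7. Contradiction.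
-/


section

variable {E τ α : Type*} [LinearOrder τ] [LinearOrder α] {pl : E → Fin 3} {tm : E → τ}
    {a b c : E → ℕ} {vA vB vC : ℕ → α}

lemma HostOK.ge {v v' : ℕ → α} {i j : ℕ} (h : HostOK v v' i j) : cls i ≤ cls j := by
  rcases h with h | h
  · exact h.le
  · exact h.1.le

lemma even_ge2 : ∀ j < 22, j % 2 = 0 → 2 ≤ cls j → j = 0 ∨ j = 2 ∨ j = 4 ∨ j = 18 ∨ j = 20 := by
  decide

lemma odd_ge2 : ∀ j < 22, j % 2 = 1 → 2 ≤ cls j → j = 1 ∨ j = 9 ∨ j = 11 ∨ j = 13 ∨ j = 21 := by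
  decide

lemma odd_ge3 : ∀ j < 22, j % 2 = 1 → 3 ≤ cls j → j = 1 ∨ j = 11 ∨ j = 21 := by
  decide

lemma even_ge3 : ∀ j < 22, j % 2 = 0 → 3 ≤ cls j → j = 0 ∨ j = 2 ∨ j = 20 := by
  decide

namespace Sched

variable (S : Sched pl tm a b c vA vB vC)

include S

lemma leA {e e' : E} (h1 : pl e ≠ 2) (h2 : pl e' ≠ 2) (h : tm e ≤ tm e') : a e ≤ a e' := by
  by_contra hcon
  exact absurd (S.monoA e' e h2 h1 (not_le.1 hcon)) (not_lt.2 h)

lemma leB {e e' : E} (h1 : pl e ≠ 1) (h2 : pl e' ≠ 1) (h : tm e ≤ tm e') : b e ≤ b e' := by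
  by_contra hcon
  exact absurd (S.monoB e' e h2 h1 (not_le.1 hcon)) (not_lt.2 h)

lemma leC {e e' : E} (h1 : pl e ≠ 0) (h2 : pl e' ≠ 0) (h : tm e ≤ tm e') : c e ≤ c e' := by
  by_contra hcon
  exact absurd (S.monoC e' e h2 h1 (not_le.1 hcon)) (not_lt.2 h)

lemma exA0 (i : ℕ) (h1 : 1 ≤ i) (h2 : i ≤ 21) (h3 : i % 2 = 1) : ∃ e, pl e = 0 ∧ a e = i := by
  obtain ⟨e, he, hi⟩ := S.surjA i h1 h2
  have h := S.par1 e
  refine ⟨e, ?_, hi⟩
  rcases (by omega : (pl e).val = 0 ∨ (pl e).val = 1 ∨ (pl e).val = 2) with h0 | h0 | h0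
  · exact Fin.ext h0
  · have := h (Fin.ext h0); omega
  · exact absurd (Fin.ext h0) he

lemma exA1 (i : ℕ) (h1 : 1 ≤ i) (h2 : i ≤ 21) (h3 : i % 2 = 0) : ∃ e, pl e = 1 ∧ a e = i := by
  obtain ⟨e, he, hi⟩ := S.surjA i h1 h2
  have h := S.par0 e
  refine ⟨e, ?_, hi⟩
  rcases (by omega : (pl e).val = 0 ∨ (pl e).val = 1 ∨ (pl e).val = 2) with h0 | h0 | h0
  · have := h (Fin.ext h0); omega
  · exact Fin.ext h0
  · exact absurd (Fin.ext h0) he

lemma exB0 (i : ℕ) (h1 : 1 ≤ i) (h2 : i ≤ 21) (h3 : i % 2 = 1) : ∃ e, pl e = 0 ∧ b e = i := by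
  obtain ⟨e, he, hi⟩ := S.surjB i h1 h2
  have h := S.par2 e
  refine ⟨e, ?_, hi⟩
  rcases (by omega : (pl e).val = 0 ∨ (pl e).val = 1 ∨ (pl e).val = 2) with h0 | h0 | h0
  · exact Fin.ext h0
  · exact absurd (Fin.ext h0) he
  · have := h (Fin.ext h0); omega

lemma exB2 (i : ℕ) (h1 : 1 ≤ i) (h2 : i ≤ 21) (h3 : i % 2 = 0) : ∃ e, pl e = 2 ∧ b e = i := by
  obtain ⟨e, he, hi⟩ := S.surjB i h1 h2
  have h := S.par0 e
  refine ⟨e, ?_, hi⟩
  rcases (by omega : (pl e).val = 0 ∨ (pl e).val = 1 ∨ (pl e).val = 2) with h0 | h0 | h0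
  · have := h (Fin.ext h0); omega
  · exact absurd (Fin.ext h0) he
  · exact Fin.ext h0

lemma exC1 (i : ℕ) (h1 : 1 ≤ i) (h2 : i ≤ 21) (h3 : i % 2 = 1) : ∃ e, pl e = 1 ∧ c e = i := by
  obtain ⟨e, he, hi⟩ := S.surjC i h1 h2
  have h := S.par2 e
  refine ⟨e, ?_, hi⟩
  rcases (by omega : (pl e).val = 0 ∨ (pl e).val = 1 ∨ (pl e).val = 2) with h0 | h0 | h0
  · exact absurd (Fin.ext h0) he
  · exact Fin.ext h0
  · have := h (Fin.ext h0); omega

lemma exC2 (i : ℕ) (h1 : 1 ≤ i) (h2 : i ≤ 21) (h3 : i % 2 = 0) : ∃ e, pl e = 2 ∧ c e = i := by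
  obtain ⟨e, he, hi⟩ := S.surjC i h1 h2
  have h := S.par1 e
  refine ⟨e, ?_, hi⟩
  rcases (by omega : (pl e).val = 0 ∨ (pl e).val = 1 ∨ (pl e).val = 2) with h0 | h0 | h0
  · exact absurd (Fin.ext h0) he
  · have := h (Fin.ext h0); omega
  · exact Fin.ext h0

/-- Case I: block 11 of run 12 (players 1, 2) is hosted by block 2 of run 01. -/
theorem caseI (e0 : E) (h0 : pl e0 = 1) (ha0 : a e0 = 2) (hc0 : c e0 = 11) : False := by
  have n01 : ∀ e, pl e = 0 → pl e ≠ 1 := fun e h => by rw [h]; decide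
  have n02 : ∀ e, pl e = 0 → pl e ≠ 2 := fun e h => by rw [h]; decide
  have n10 : ∀ e, pl e = 1 → pl e ≠ 0 := fun e h => by rw [h]; decide
  have n12 : ∀ e, pl e = 1 → pl e ≠ 2 := fun e h => by rw [h]; decide
  have n20 : ∀ e, pl e = 2 → pl e ≠ 0 := fun e h => by rw [h]; decide
  have n21 : ∀ e, pl e = 2 → pl e ≠ 1 := fun e h => by rw [h]; decide
  -- (1)
  obtain ⟨m1, pm1, cm1⟩ := S.exC1 1 (by omega) (by omega) rfl
  obtain ⟨g, pg, bg⟩ := S.exB2 2 (by omega) (by omega) rfl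
  have cg : 1 < c g := by
    have := S.par2 g pg
    have := S.rangeC g (n20 g pg)
    omega
  have tm1g : tm m1 < tm g := S.monoC m1 g (n10 _ pm1) (n20 _ pg) (by omega)
  have am1 : 2 ≤ a m1 := by
    have := S.par1 m1 pm1
    have := S.rangeA m1 (n12 m1 pm1)
    omega
  have f1a : ∀ e, pl e = 0 → tm e < tm e0 → a e = 1 := by
    intro e he ht
    have h1 := S.leA (n02 e he) (n12 _ h0) ht.le
    have h2 := S.par0 e he
    omega
  have f1b : ∀ e, pl e = 0 → tm e < tm e0 → b e = 1 := by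
    intro e he ht
    by_contra hb
    have h2 := S.par0 e he
    have h3 := f1a e he ht
    have h4 : tm g < tm e := S.monoB g e (n21 _ pg) (n01 _ he) (by omega)
    have h5 : tm e < tm m1 := S.monoA e m1 (n02 _ he) (n12 _ pm1) (by omega)
    exact lt_irrefl _ (h5.trans (tm1g.trans h4))
  have f1c : ∀ e, pl e = 2 → tm e < tm e0 → b e = 2 := by
    intro e he ht
    by_contra hb
    have h2 := S.par2 e he
    have h3 := S.rangeB e (n21 _ he)
    obtain ⟨f, pf, bf⟩ := S.exB0 3 (by omega) (by omega) rfl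
    have h4 : tm f < tm e := S.monoB f e (n01 _ pf) (n21 _ he) (by omega)
    have h5 := f1b f pf (h4.trans ht)
    omega
  obtain ⟨m2, pm2, cm2⟩ := S.exC2 2 (by omega) (by omega) rfl
  have tm20 : tm m2 < tm e0 := S.monoC m2 e0 (n20 _ pm2) (n10 _ h0) (by omega)
  have bm2 : b m2 = 2 := f1c m2 pm2 tm20
  have f1d : ∀ e, pl e = 0 → tm e0 < tm e → 3 ≤ b e := by
    intro e he ht
    have h1 := S.leB (n21 _ pm2) (n01 _ he) (tm20.trans ht).le
    have h2 := S.par0 e he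
    omega
  -- (2)
  obtain ⟨T1, p1, b1, h1⟩ := S.hostB2 4 (by omega) (by omega) rfl
  have r1 := S.rangeC T1 (n20 _ p1)
  have q1 := S.par2 T1 p1
  have g1 : 2 ≤ cls (c T1) := h1.ge
  have t01 : tm e0 ≤ tm T1 := by
    by_contra hcon
    have := f1c T1 p1 (not_le.1 hcon)
    omega
  have c1 : 11 ≤ c T1 := hc0 ▸ S.leC (n10 _ h0) (n20 _ p1) t01
  have c1' : c T1 = 18 ∨ c T1 = 20 := by
    have := even_ge2 (c T1) (by omega) q1.2 g1
    omega
  have t01' : tm e0 < tm T1 := S.monoC e0 T1 (n10 _ h0) (n20 _ p1) (by omega)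
  -- (3)
  obtain ⟨T2, p2, b2, h2⟩ := S.hostB2 18 (by omega) (by omega) rfl
  have r2 := S.rangeC T2 (n20 _ p2)
  have q2 := S.par2 T2 p2
  have t12 : tm T1 < tm T2 := S.monoB T1 T2 (n21 _ p1) (n21 _ p2) (by omega)
  -- (4)
  obtain ⟨T3, p3, b3, h3⟩ := S.hostB0 11 (by omega) (by omega) rfl
  have r3 := S.rangeA T3 (n02 _ p3)
  have q3 := S.par0 T3 p3
  have g3 : 3 ≤ cls (a T3) := h3.ge
  have t13 : tm T1 < tm T3 := S.monoB T1 T3 (n21 _ p1) (n01 _ p3) (by omega)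
  have t32 : tm T3 < tm T2 := S.monoB T3 T2 (n01 _ p3) (n21 _ p2) (by omega)
  have a3 : 2 ≤ a T3 := ha0 ▸ S.leA (n12 _ h0) (n02 _ p3) (t01'.trans t13).le
  have a3' : 11 ≤ a T3 := by
    have := odd_ge3 (a T3) (by omega) q3.1 g3
    omega
  -- (5)
  obtain ⟨T5, p5, a5, h5⟩ := S.hostA0 9 (by omega) (by omega) rfl
  have r5 := S.rangeB T5 (n01 _ p5)
  have q5 := S.par0 T5 p5
  have g5 : 2 ≤ cls (b T5) := h5.ge
  have t05 : tm e0 < tm T5 := S.monoA e0 T5 (n12 _ h0) (n02 _ p5) (by omega)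
  have b5 := f1d T5 p5 t05
  have b5' : 9 ≤ b T5 := by
    have := odd_ge2 (b T5) (by omega) q5.2 g5
    omega
  have t15 : tm T1 < tm T5 := S.monoB T1 T5 (n21 _ p1) (n01 _ p5) (by omega)
  have t53 : tm T5 < tm T3 := S.monoA T5 T3 (n02 _ p5) (n02 _ p3) (by omega)
  have b5'' : b T5 ≤ 11 := b3 ▸ S.leB (n01 _ p5) (n01 _ p3) t53.le
  -- (6)
  obtain ⟨T6, p6, a6, h6⟩ := S.hostA1 10 (by omega) (by omega) rfl
  have q6 := S.par1 T6 p6
  have t56 : tm T5 < tm T6 := S.monoA T5 T6 (n02 _ p5) (n12 _ p6) (by omega)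
  have t63 : tm T6 < tm T3 := S.monoA T6 T3 (n12 _ p6) (n02 _ p3) (by omega)
  have c16 : c T1 ≤ c T6 := S.leC (n20 _ p1) (n10 _ p6) (t15.trans t56).le
  have c62 : c T6 ≤ c T2 := S.leC (n10 _ p6) (n20 _ p2) (t63.trans t32).le
  have c6 : c T6 = 19 := by omega
  have c18 : c T1 = 18 := by omega
  have v1 : vA 10 ≤ vC 19 := by
    rw [c6] at h6
    rcases h6 with h | h
    · exact absurd h (by decide)
    · exact h.2 (by decide)
  -- (7)
  obtain ⟨T7, p7, c7, h7⟩ := S.hostC1 15 (by omega) (by omega) rfl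
  have r7 := S.rangeA T7 (n12 _ p7)
  have q7 := S.par1 T7 p7
  have t71 : tm T7 < tm T1 := S.monoC T7 T1 (n10 _ p7) (n20 _ p1) (by omega)
  have a7 : a T7 ≤ 9 := a5 ▸ S.leA (n12 _ p7) (n02 _ p5) (t71.trans t15).le
  have a7' : a T7 = 2 ∨ a T7 = 4 := by
    have h68 : a T7 ≠ 6 ∧ a T7 ≠ 8 := by
      constructor
      · intro h
        rw [h] at h7
        rcases h7 with h' | h'
        · exact absurd h' (by decide)
        · exact absurd (((h'.2 (by decide)).trans_lt S.ineqA.t24).trans_le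
            (v1.trans S.ineqC.s97)) (lt_irrefl _)
      · intro h
        rw [h] at h7
        rcases h7 with h' | h'
        · exact absurd h' (by decide)
        · exact absurd (((h'.2 (by decide)).trans_lt S.ineqA.t34).trans_le
            (v1.trans S.ineqC.s97)) (lt_irrefl _)
    omega
  -- (8)
  obtain ⟨T8, p8, a8, h8⟩ := S.hostA1 4 (by omega) (by omega) rfl
  have r8 := S.rangeC T8 (n10 _ p8)
  have q8 := S.par1 T8 p8
  have g8 : 2 ≤ cls (c T8) := h8.ge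
  have t08 : tm e0 < tm T8 := S.monoA e0 T8 (n12 _ h0) (n12 _ p8) (by omega)
  have t86 : tm T8 < tm T6 := S.monoA T8 T6 (n12 _ p8) (n12 _ p6) (by omega)
  have c8a : 11 ≤ c T8 := hc0 ▸ S.leC (n10 _ h0) (n10 _ p8) t08.le
  have c8b : c T8 ≤ 19 := c6 ▸ S.leC (n10 _ p8) (n10 _ p6) t86.le
  have c8 : c T8 ≤ 13 := by
    have := odd_ge2 (c T8) (by omega) q8.2 g8
    omega
  have t87 : tm T8 < tm T7 := S.monoC T8 T7 (n10 _ p8) (n10 _ p7) (by omega)
  have a7e : a T7 = 4 := by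
    have := S.leA (n12 _ p8) (n12 _ p7) t87.le
    omega
  -- (9)
  obtain ⟨T9, p9, a9, h9⟩ := S.hostA0 3 (by omega) (by omega) rfl
  have q9 := S.par0 T9 p9
  have t09 : tm e0 < tm T9 := S.monoA e0 T9 (n12 _ h0) (n02 _ p9) (by omega)
  have t98 : tm T9 < tm T8 := S.monoA T9 T8 (n02 _ p9) (n12 _ p8) (by omega)
  have b9a := f1d T9 p9 t09
  have b9b : b T9 ≤ 4 := b1 ▸ S.leB (n01 _ p9) (n21 _ p1) (t98.trans (t87.trans t71)).le
  have b9 : b T9 = 3 := by omega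
  have v2 : vA 3 ≤ vB 3 := by
    rw [b9] at h9
    rcases h9 with h | h
    · exact absurd h (by decide)
    · exact h.2 (by decide)
  -- (10)
  obtain ⟨T10, p10, c10⟩ := S.exC2 14 (by omega) (by omega) rfl
  have q10 := S.par2 T10 p10
  have t810 : tm T8 < tm T10 := S.monoC T8 T10 (n10 _ p8) (n20 _ p10) (by omega)
  have t107 : tm T10 < tm T7 := S.monoC T10 T7 (n20 _ p10) (n10 _ p7) (by omega)
  have b10 : b T9 ≤ b T10 := S.leB (n01 _ p9) (n21 _ p10) (t98.trans t810).le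
  -- (11)
  obtain ⟨T13, p13, a13⟩ := S.exA0 5 (by omega) (by omega) rfl
  have q13 := S.par0 T13 p13
  have t713 : tm T7 < tm T13 := S.monoA T7 T13 (n12 _ p7) (n02 _ p13) (by omega)
  have b13 : b T10 ≤ b T13 := S.leB (n21 _ p10) (n01 _ p13) (t107.trans t713).le
  have t113 : tm T1 < tm T13 := S.monoB T1 T13 (n21 _ p1) (n01 _ p13) (by omega)
  obtain ⟨T14, p14, a14⟩ := S.exA1 6 (by omega) (by omega) rfl
  have q14 := S.par1 T14 p14
  have t1314 : tm T13 < tm T14 := S.monoA T13 T14 (n02 _ p13) (n12 _ p14) (by omega)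
  have t146 : tm T14 < tm T6 := S.monoA T14 T6 (n12 _ p14) (n12 _ p6) (by omega)
  have c14a : c T1 ≤ c T14 := S.leC (n20 _ p1) (n10 _ p14) (t113.trans t1314).le
  have c14b : c T14 ≤ c T6 := S.leC (n10 _ p14) (n10 _ p6) t146.le
  have c14 : c T14 = 19 := by omega
  have claim : ∀ e, pl e = 0 → a e = 7 → b e = b T5 := by
    intro e he hae
    have u1 : tm e < tm T5 := S.monoA e T5 (n02 _ he) (n02 _ p5) (by omega)
    have u2 : b e ≤ b T5 := S.leB (n01 _ he) (n01 _ p5) u1.le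
    have u3 : tm T14 < tm e := S.monoA T14 e (n12 _ p14) (n02 _ he) (by omega)
    by_contra hne
    have qe := S.par0 e he
    obtain ⟨m, pm, bm⟩ := S.exB2 (b e + 1) (by omega) (by omega) (by omega)
    have w1 : tm e < tm m := S.monoB e m (n01 _ he) (n21 _ pm) (by omega)
    have w2 : tm m < tm T5 := S.monoB m T5 (n21 _ pm) (n01 _ p5) (by omega)
    have w3 : c T14 ≤ c m := S.leC (n10 _ p14) (n20 _ pm) (u3.trans w1).le
    have w4 : c m ≤ c T6 := S.leC (n20 _ pm) (n10 _ p6) (w2.trans t56).le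
    have w5 := S.par2 m pm
    omega
  obtain ⟨T17, p17, a17⟩ := S.exA0 7 (by omega) (by omega) rfl
  have b17 := claim T17 p17 a17
  -- (12)
  obtain ⟨T11, p11, b11, h11⟩ := S.hostB0 7 (by omega) (by omega) rfl
  have q11 := S.par0 T11 p11
  have t111 : tm T1 < tm T11 := S.monoB T1 T11 (n21 _ p1) (n01 _ p11) (by omega)
  have a11a : a T7 ≤ a T11 := S.leA (n12 _ p7) (n02 _ p11) (t71.trans t111).le
  have t1117 : tm T11 < tm T17 := S.monoB T11 T17 (n01 _ p11) (n01 _ p17) (by omega)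
  have a11b : a T11 ≤ a T17 := S.leA (n02 _ p11) (n02 _ p17) t1117.le
  have a11 : a T11 = 5 := by
    have h7' : a T11 ≠ 7 := by
      intro h
      have := claim T11 p11 h
      omega
    omega
  rw [a11] at h11
  rcases h11 with h | h
  · exact absurd h (by decide)
  · have v3 := h.2 (by decide)
    exact absurd (((v3.trans_lt S.ineqA.s21).trans_le v2).trans_le S.ineqB.s13) (lt_irrefl _)

omit S in
lemma cls_dual : ∀ j < 22, 1 ≤ j → cls (22 - j) = cls j := by decide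

omit S in
lemma Ineq.dual {v : ℕ → α} (h : Ineq v) : Ineq (fun i => v (22 - i)) :=
  { s21 := h.s89, s13 := h.s97, s89 := h.s21, s97 := h.s13, t24 := h.t75, t34 := h.t65
    t65 := h.t34, t75 := h.t24 }

omit S in
lemma HostOK.dual {v v' : ℕ → α} {i j : ℕ} (hi : 1 ≤ i ∧ i ≤ 21) (hj : 1 ≤ j ∧ j ≤ 21)
    (h : HostOK v v' (22 - i) j) : HostOK (fun i => v (22 - i)) (fun i => v' (22 - i)) i (22 - j) := by
  unfold HostOK at h ⊢
  rw [cls_dual i (by omega) hi.1] at h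
  rw [cls_dual j (by omega) hj.1]
  have e1 : 22 - (22 - j) = j := by omega
  beta_reduce
  rw [e1]
  exact h

/-- time reversal -/
theorem dual : Sched (τ := τᵒᵈ) pl (fun e => OrderDual.toDual (tm e)) (fun e => 22 - a e)
    (fun e => 22 - b e) (fun e => 22 - c e) (fun i => vA (22 - i)) (fun i => vB (22 - i))
    (fun i => vC (22 - i)) where
  monoA := by
    intro e e' h1 h2 h
    have r1 := S.rangeA e h1
    have r2 := S.rangeA e' h2
    exact OrderDual.toDual_lt_toDual.2 (S.monoA e' e h2 h1 (by omega))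
  monoB := by
    intro e e' h1 h2 h
    have r1 := S.rangeB e h1
    have r2 := S.rangeB e' h2
    exact OrderDual.toDual_lt_toDual.2 (S.monoB e' e h2 h1 (by omega))
  monoC := by
    intro e e' h1 h2 h
    have r1 := S.rangeC e h1
    have r2 := S.rangeC e' h2
    exact OrderDual.toDual_lt_toDual.2 (S.monoC e' e h2 h1 (by omega))
  rangeA := by intro e h; have := S.rangeA e h; omega
  rangeB := by intro e h; have := S.rangeB e h; omega
  rangeC := by intro e h; have := S.rangeC e h; omega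
  par0 := by
    intro e h
    have := S.par0 e h
    have := S.rangeA e (by rw [h]; decide)
    have := S.rangeB e (by rw [h]; decide)
    omega
  par1 := by
    intro e h
    have := S.par1 e h
    have := S.rangeA e (by rw [h]; decide)
    have := S.rangeC e (by rw [h]; decide)
    omega
  par2 := by
    intro e h
    have := S.par2 e h
    have := S.rangeB e (by rw [h]; decide)
    have := S.rangeC e (by rw [h]; decide)
    omega
  surjA := by
    intro i h1 h2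
    obtain ⟨e, he, hi⟩ := S.surjA (22 - i) (by omega) (by omega)
    exact ⟨e, he, by omega⟩
  surjB := by
    intro i h1 h2
    obtain ⟨e, he, hi⟩ := S.surjB (22 - i) (by omega) (by omega)
    exact ⟨e, he, by omega⟩
  surjC := by
    intro i h1 h2
    obtain ⟨e, he, hi⟩ := S.surjC (22 - i) (by omega) (by omega)
    exact ⟨e, he, by omega⟩
  ineqA := Ineq.dual S.ineqA
  ineqB := Ineq.dual S.ineqB
  ineqC := Ineq.dual S.ineqC
  hostA0 := by
    intro i h1 h2 h3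
    obtain ⟨e, he, hi, h⟩ := S.hostA0 (22 - i) (by omega) (by omega) (by omega)
    exact ⟨e, he, by omega, HostOK.dual (by omega) (S.rangeB e (by rw [he]; decide)) h⟩
  hostB0 := by
    intro i h1 h2 h3
    obtain ⟨e, he, hi, h⟩ := S.hostB0 (22 - i) (by omega) (by omega) (by omega)
    exact ⟨e, he, by omega, HostOK.dual (by omega) (S.rangeA e (by rw [he]; decide)) h⟩
  hostA1 := by
    intro i h1 h2 h3
    obtain ⟨e, he, hi, h⟩ := S.hostA1 (22 - i) (by omega) (by omega) (by omega)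
    exact ⟨e, he, by omega, HostOK.dual (by omega) (S.rangeC e (by rw [he]; decide)) h⟩
  hostC1 := by
    intro i h1 h2 h3
    obtain ⟨e, he, hi, h⟩ := S.hostC1 (22 - i) (by omega) (by omega) (by omega)
    exact ⟨e, he, by omega, HostOK.dual (by omega) (S.rangeA e (by rw [he]; decide)) h⟩
  hostB2 := by
    intro i h1 h2 h3
    obtain ⟨e, he, hi, h⟩ := S.hostB2 (22 - i) (by omega) (by omega) (by omega)
    exact ⟨e, he, by omega, HostOK.dual (by omega) (S.rangeC e (by rw [he]; decide)) h⟩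
  hostC2 := by
    intro i h1 h2 h3
    obtain ⟨e, he, hi, h⟩ := S.hostC2 (22 - i) (by omega) (by omega) (by omega)
    exact ⟨e, he, by omega, HostOK.dual (by omega) (S.rangeB e (by rw [he]; decide)) h⟩

end Sched

end

theorem noSched {E τ α : Type*} [LinearOrder τ] [LinearOrder α] (pl : E → Fin 3) (tm : E → τ)
    (a b c : E → ℕ) (vA vB vC : ℕ → α) (S : Sched pl tm a b c vA vB vC) : False := by
  obtain ⟨e0, h0, hc0, hh⟩ := S.hostC1 11 (by omega) (by omega) rfl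
  have r0 := S.rangeA e0 (by rw [h0]; decide)
  have q0 := S.par1 e0 h0
  have g0 : 3 ≤ cls (a e0) := hh.ge
  rcases even_ge3 (a e0) (by omega) q0.1 g0 with h | h | h
  · omega
  · exact S.caseI e0 h0 h hc0
  · exact S.dual.caseI e0 h0 (by omega) (by omega)

end MPb6
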