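import Pool.Agent.Lib.MP_b6d339_lc.Events
import Pool.Agent.Lib.MP_b6d339_lc.FinCheck

/-!
# Erdős 592, negative part: a blue triangle gives a schedule `Sched`
-/

set_option linter.unusedSectionVars false

namespace MPb6

variable {α : Type*} [LinearOrder α]

/-- Number of the segment containing the node `k`. -/
noncomputable def sgm (c : ℕ → ℕ) (k : ℕ) : ℕ := sInf {i | k ≤ c (i + 1)}

lemma Seg.sgm_spec {z : Pl α} {n : ℕ} {c : ℕ → ℕ} (h : Seg z n c) {k : ℕ} (h1 : 1 ≤ k)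
    (h2 : k ≤ z.len) : sgm c k ≤ n ∧ c (sgm c k) < k ∧ k ≤ c (sgm c k + 1) := by
  have hn : n ∈ {i | k ≤ c (i + 1)} := by change k ≤ c (n + 1); rw [h.cn]; exact h2
  refine ⟨Nat.sInf_le hn, ?_, Nat.sInf_mem ⟨n, hn⟩⟩
  rcases Nat.eq_zero_or_pos (sgm c k) with h0 | h0
  · rw [h0, h.c0]; exact h1
  · by_contra hlt
    have : sgm c k - 1 ∈ {i | k ≤ c (i + 1)} := by
      change k ≤ c (sgm c k - 1 + 1)
      rw [Nat.sub_add_cancel h0]; omega
    have h3 := Nat.sInf_le this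
    change sgm c k ≤ _ at h3
    omega

lemma Seg.sgm_eq {z : Pl α} {n : ℕ} {c : ℕ → ℕ} (h : Seg z n c) {i k : ℕ} (hi : i ≤ n)
    (h1 : c i < k) (h2 : k ≤ c (i + 1)) : sgm c k = i := by
  have hlen : k ≤ z.len := by rw [← h.cn]; exact h2.trans (h.le (by omega) le_rfl)
  obtain ⟨h3, h4, h5⟩ := h.sgm_spec (by omega) hlen
  rcases lt_trichotomy (sgm c k) i with h6 | h6 | h6
  · have := h.le (i := sgm c k + 1) (j := i) (by omega) (by omega)
    omega
  · exact h6
  · have := h.le (i := i + 1) (j := sgm c k) (by omega) (by omega)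
    omega

/-- Gate values of the blocks of a run, numbered `1, …, 21`. -/
def bval (s t : ℕ → α) (i : ℕ) : α := if i % 2 = 1 then s (i / 2) else t (i / 2 - 1)

/-- Class information on gate values. -/
structure PatB (G1 G2 : α) (v : ℕ → α) : Prop where
  c1 : ∀ i, 3 ≤ i → i ≤ 19 → cls i = 1 → v i ≤ G1
  c2 : ∀ i, 3 ≤ i → i ≤ 19 → cls i = 2 → G1 < v i ∧ v i ≤ G2
  c3 : ∀ i, 3 ≤ i → i ≤ 19 → cls i = 3 → G2 < v i

lemma Pat.patB {G1 G2 : α} {s t : ℕ → α} (h : Pat G1 G2 s t) : PatB G1 G2 (bval s t) := by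
  constructor
  · intro i h1 h2 h3
    interval_cases i <;> simp [cls] at h3 <;> simp only [bval] <;> norm_num
    exacts [h.s1, h.s2, h.t2, h.s3, h.t3, h.t4, h.t5, h.t6, h.s7, h.t7, h.s8, h.s9]
  · intro i h1 h2 h3
    interval_cases i <;> simp [cls] at h3 <;> simp only [bval] <;> norm_num
    exacts [h.t1, h.s4, h.s6, h.t8]
  · intro i h1 h2 h3
    interval_cases i <;> simp [cls] at h3 <;> simp only [bval] <;> norm_num
    exact h.s5

lemma Pat.ineq {G1 G2 : α} {s t : ℕ → α} (h : Pat G1 G2 s t) : Ineq (bval s t) := by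
  constructor <;> simp only [bval] <;> norm_num
  exacts [h.s21, h.s13, h.s89, h.s97, h.t24, h.t34, h.t65, h.t75]

lemma cls_cases {i : ℕ} (h1 : 3 ≤ i) (h2 : i ≤ 19) : cls i = 1 ∨ cls i = 2 ∨ cls i = 3 := by
  interval_cases i <;> simp [cls]

lemma cls_inf {j : ℕ} (h : j ≤ 2 ∨ 20 ≤ j) : cls j = 9 := by
  unfold cls
  rw [if_neg (by omega), if_neg (by omega), if_neg (by omega)]

lemma hostOK_of_le {G1 G2 : α} (h12 : G1 ≤ G2) {v v' : ℕ → α} (P : PatB G1 G2 v)
    (P' : PatB G1 G2 v') {i j : ℕ} (hi1 : 3 ≤ i) (hi2 : i ≤ 19)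
    (h : 3 ≤ j → j ≤ 19 → v i ≤ v' j) : HostOK v v' i j := by
  by_cases hj : j ≤ 2 ∨ 20 ≤ j
  · left
    rw [cls_inf hj]
    rcases cls_cases hi1 hi2 with h | h | h <;> omega
  have hj1 : 3 ≤ j := by omega
  have hj2 : j ≤ 19 := by omega
  have hle := h hj1 hj2
  unfold HostOK
  rcases cls_cases hi1 hi2 with hi | hi | hi <;> rcases cls_cases hj1 hj2 with hj' | hj' | hj'
  · right; exact ⟨by omega, fun _ => hle⟩
  · left; omega
  · left; omega
  · exfalso
    exact absurd (hle.trans (P'.c1 j hj1 hj2 hj')) (not_le.2 (P.c2 i hi1 hi2 hi).1)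
  · right; exact ⟨by omega, fun h => by omega⟩
  · left; omega
  · exfalso
    exact absurd ((hle.trans (P'.c1 j hj1 hj2 hj')).trans h12) (not_le.2 (P.c3 i hi1 hi2 hi))
  · exfalso
    exact absurd (hle.trans (P'.c2 j hj1 hj2 hj').2) (not_le.2 (P.c3 i hi1 hi2 hi))
  · right; exact ⟨by omega, fun h => by omega⟩

/-! ### Times -/

lemma Pl.time_mono (z : Pl α) {k l : ℕ} (h : k ≤ l) : z.time k ≤ z.time l :=
  Finset.sup_mono (Finset.Icc_subset_Icc_right h)

section Runs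

variable {G1 G2 : α} {x y : Pl α} {c d : ℕ → ℕ} {s t : ℕ → α}

/-- Node `k` of the first player in segment `i`, node `l` of the second in segment `j ≥ i`. -/
lemma Run.time_xy (h : Run G1 G2 x y c d s t) {i j k l : ℕ} (hj : j ≤ 9) (hij : i ≤ j)
    (hk : k ≤ c (i + 1)) (hl : d j < l) : x.time k < y.time l := by
  have h1 : c (i + 1) ≤ c (j + 1) := h.seg1.le (by omega) (by omega)
  calc x.time k ≤ x.time (c (j + 1)) := x.time_mono (hk.trans h1)
    _ < y.code (d j + 1) := h.xy j hj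
    _ ≤ y.time l := y.code_le_time (by omega) hl

lemma Run.time_yx (h : Run G1 G2 x y c d s t) {i j k l : ℕ} (hj : j ≤ 10) (hij : i < j)
    (hk : k ≤ d (i + 1)) (hl : c j < l) : y.time k < x.time l := by
  have h1 : d (i + 1) ≤ d j := h.seg2.le (by omega) (by omega)
  calc y.time k ≤ y.time (d j) := y.time_mono (hk.trans h1)
    _ < x.code (c j + 1) := h.yx j (by omega) hj
    _ ≤ x.time l := x.code_le_time (by omega) hl

lemma Run.time_xx (h : Run G1 G2 x y c d s t) {i j k l : ℕ} (hj : j ≤ 10) (hij : i < j)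
    (hk : k ≤ c (i + 1)) (hl : c j < l) : x.time k < x.time l := by
  obtain ⟨m, rfl⟩ : ∃ m, j = m + 1 := ⟨j - 1, by omega⟩
  have h1 := h.time_xy (i := i) (j := m) (k := k) (l := d (m + 1)) (by omega) (by omega) hk
    (h.dmono m (by omega))
  exact h1.trans (h.time_yx (i := m) (j := m + 1) hj (by omega) le_rfl hl)

lemma Run.time_yy (h : Run G1 G2 x y c d s t) {i j k l : ℕ} (hj : j ≤ 9) (hij : i < j)
    (hk : k ≤ d (i + 1)) (hl : d j < l) : y.time k < y.time l := by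
  have h1 := h.time_yx (i := i) (j := j) (k := k) (l := c (j + 1)) (by omega) hij hk
    (h.cmono j (by omega))
  exact h1.trans (h.time_xy (i := j) (j := j) hj le_rfl le_rfl hl)

/-- Block number of a node of the first (`f = true`) or second player. -/
noncomputable def blkNo (c d : ℕ → ℕ) (f : Bool) (k : ℕ) : ℕ :=
  if f then 2 * sgm c k + 1 else 2 * sgm d k + 2

lemma Run.mono_time (h : Run G1 G2 x y c d s t) {f g : Bool} {k l : ℕ}
    (hk : 1 ≤ k ∧ k ≤ (if f then x else y).len) (hl : 1 ≤ l ∧ l ≤ (if g then x else y).len)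
    (hlt : blkNo c d f k < blkNo c d g l) :
    (if f then x else y).time k < (if g then x else y).time l := by
  cases f <;> cases g <;> simp only [blkNo, if_true, Bool.false_eq_true, if_false] at *
  · obtain ⟨a1, a2, a3⟩ := h.seg2.sgm_spec hk.1 hk.2
    obtain ⟨b1, b2, b3⟩ := h.seg2.sgm_spec hl.1 hl.2
    exact h.time_yy b1 (by omega) a3 b2
  · obtain ⟨a1, a2, a3⟩ := h.seg2.sgm_spec hk.1 hk.2
    obtain ⟨b1, b2, b3⟩ := h.seg1.sgm_spec hl.1 hl.2
    exact h.time_yx b1 (by omega) a3 b2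
  · obtain ⟨a1, a2, a3⟩ := h.seg1.sgm_spec hk.1 hk.2
    obtain ⟨b1, b2, b3⟩ := h.seg2.sgm_spec hl.1 hl.2
    exact h.time_xy b1 (by omega) a3 b2
  · obtain ⟨a1, a2, a3⟩ := h.seg1.sgm_spec hk.1 hk.2
    obtain ⟨b1, b2, b3⟩ := h.seg1.sgm_spec hl.1 hl.2
    exact h.time_xx b1 (by omega) a3 b2

lemma Run.range_blk (h : Run G1 G2 x y c d s t) {f : Bool} {k : ℕ}
    (hk : 1 ≤ k ∧ k ≤ (if f then x else y).len) : 1 ≤ blkNo c d f k ∧ blkNo c d f k ≤ 21 := by
  cases f <;> simp only [blkNo, if_true, Bool.false_eq_true, if_false] at *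
  · obtain ⟨a1, a2, a3⟩ := h.seg2.sgm_spec hk.1 hk.2
    omega
  · obtain ⟨a1, a2, a3⟩ := h.seg1.sgm_spec hk.1 hk.2
    omega

lemma Run.surj_blk (h : Run G1 G2 x y c d s t) {i : ℕ} (h1 : 1 ≤ i) (h2 : i ≤ 21) :
    ∃ f : Bool, ∃ k, (1 ≤ k ∧ k ≤ (if f then x else y).len) ∧ blkNo c d f k = i := by
  rcases Nat.even_or_odd' i with ⟨m, rfl | rfl⟩
  · refine ⟨false, d m, ⟨?_, ?_⟩, ?_⟩
    · have := h.seg2.lt (i := 0) (j := m) (by omega) (by omega)
      simp only [h.d0] at this; omega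
    · simp only [Bool.false_eq_true, if_false]
      rw [← h.d10]; exact h.seg2.le (by omega) le_rfl
    · simp only [blkNo, Bool.false_eq_true, if_false]
      have := h.seg2.sgm_eq (i := m - 1) (k := d m) (by omega)
        (h.seg2.lt (by omega) (by omega)) (by rw [Nat.sub_add_cancel (by omega)])
      omega
  · refine ⟨true, c (m + 1), ⟨?_, ?_⟩, ?_⟩
    · have := h.seg1.lt (i := 0) (j := m + 1) (by omega) (by omega)
      simp only [h.c0] at this; omega
    · simp only [if_true]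
      rw [← h.c11]; exact h.seg1.le (by omega) le_rfl
    · simp only [blkNo, if_true]
      have := h.seg1.sgm_eq (i := m) (k := c (m + 1)) (by omega) (h.cmono m (by omega)) le_rfl
      omega

end Runs

/-- Value of the gate of block `i` is attained at a node of that block. -/
lemma gate_bound {z : Pl α} {n : ℕ} {c : ℕ → ℕ} (hc : Seg z n c) {g : ℕ → α}
    (hg : ∀ i, 1 ≤ i → i < n → IsGate z (c i) (c (i + 1)) (g i)) {k : ℕ} (h1 : 1 ≤ k)
    (h2 : k ≤ z.len) (h3 : 1 ≤ sgm c k) (h4 : sgm c k < n) : z.lab k ≤ g (sgm c k) := by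
  obtain ⟨a1, a2, a3⟩ := hc.sgm_spec h1 h2
  exact (hg _ h3 h4).1 k a2 a3

/-- One hosting step: the gate of the block of segment `i` of run `A` (block number `2 i + 1` or
`2 i + 2`) is attained at a node `k`, whose block in the other run hosts it. -/
lemma host_step {G1 G2 : α} (h12 : G1 ≤ G2) {z : Pl α} {nA nB : ℕ} {cA cB : ℕ → ℕ}
    (hA : Seg z nA cA) (hB : Seg z nB cB) {gA gB : ℕ → α}
    (hgA : ∀ i, 1 ≤ i → i < nA → IsGate z (cA i) (cA (i + 1)) (gA i))
    (hgB : ∀ i, 1 ≤ i → i < nB → IsGate z (cB i) (cB (i + 1)) (gB i))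
    {vA vB : ℕ → α} (PA : PatB G1 G2 vA) (PB : PatB G1 G2 vB) (eA eB : ℕ)
    (hvA : ∀ i, 1 ≤ i → i < nA → vA (2 * i + eA) = gA i)
    (hvB : ∀ i, 1 ≤ i → 2 * i + eB ≤ 19 → i < nB ∧ vB (2 * i + eB) = gB i) (heB : eB ≤ 2)
    {i : ℕ} (h1 : 1 ≤ i) (h2 : i < nA) (h3 : 3 ≤ 2 * i + eA) (h4 : 2 * i + eA ≤ 19) :
    ∃ k, 1 ≤ k ∧ k ≤ z.len ∧ sgm cA k = i ∧
      HostOK vA vB (2 * i + eA) (2 * sgm cB k + eB) := by
  obtain ⟨-, k, hk1, hk2, hk3⟩ := hgA i h1 h2
  have hk4 : k ≤ z.len := by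
    rw [← hA.cn]; exact hk2.trans (hA.le (by omega) le_rfl)
  refine ⟨k, by omega, hk4, hA.sgm_eq (by omega) hk1 hk2, ?_⟩
  apply hostOK_of_le h12 PA PB h3 h4
  intro h5 h6
  rcases Nat.eq_zero_or_pos (sgm cB k) with h0 | h0
  · omega
  obtain ⟨h7, h8⟩ := hvB _ h0 h6
  rw [hvA i h1 h2, h8, ← hk3]
  exact gate_bound hB hgB (by omega) hk4 h0 h7

lemma bval_odd (s t : ℕ → α) (i : ℕ) : bval s t (2 * i + 1) = s i := by
  unfold bval
  rw [if_pos (by omega)]
  congr 1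
  omega

lemma bval_even (s t : ℕ → α) (i : ℕ) : bval s t (2 * i + 2) = t i := by
  unfold bval
  rw [if_neg (by omega)]
  congr 1
  omega

section Final

variable (z : Fin 3 → Pl α)

/-- Events: nodes of the three players. -/
abbrev Ev : Type := {e : Fin 3 × ℕ // 1 ≤ e.2 ∧ e.2 ≤ (z e.1).len}

/-- A blue triangle is contradictory. -/
theorem no_triangle {G1 G2 : α} (hG : G1 ≤ G2) (h12 : BluePair G1 G2 (z 0) (z 1))
    (h13 : BluePair G1 G2 (z 0) (z 2)) (h23 : BluePair G1 G2 (z 1) (z 2)) : False := by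
  obtain ⟨cA, dA, sA, tA, rA⟩ := h12
  obtain ⟨cB, dB, sB, tB, rB⟩ := h13
  obtain ⟨cC, dC, sC, tC, rC⟩ := h23
  refine noSched (E := Ev z) (τ := ℕ) (α := α) (fun e => e.1.1) (fun e => (z e.1.1).time e.1.2)
    (fun e => blkNo cA dA (decide (e.1.1 = 0)) e.1.2)
    (fun e => blkNo cB dB (decide (e.1.1 = 0)) e.1.2)
    (fun e => blkNo cC dC (decide (e.1.1 = 1)) e.1.2)
    (bval sA tA) (bval sB tB) (bval sC tC) ?_
  have eqA : ∀ p : Fin 3, p ≠ 2 → (if decide (p = 0) then z 0 else z 1) = z p := by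
    intro p hp; fin_cases p <;> simp at hp ⊢
  have eqB : ∀ p : Fin 3, p ≠ 1 → (if decide (p = 0) then z 0 else z 2) = z p := by
    intro p hp; fin_cases p <;> simp at hp ⊢
  have eqC : ∀ p : Fin 3, p ≠ 0 → (if decide (p = 1) then z 1 else z 2) = z p := by
    intro p hp; fin_cases p <;> simp at hp ⊢
  have PA := rA.pat.patB
  have PB := rB.pat.patB
  have PC := rC.pat.patB
  constructor
  case monoA =>
    rintro ⟨⟨p, k⟩, hk⟩ ⟨⟨q, l⟩, hl⟩ hp hq hlt
    dsimp only at *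
    have := rA.mono_time (f := decide (p = 0)) (g := decide (q = 0)) (k := k) (l := l)
      (by rw [eqA p hp]; exact hk) (by rw [eqA q hq]; exact hl) hlt
    rwa [eqA p hp, eqA q hq] at this
  case monoB =>
    rintro ⟨⟨p, k⟩, hk⟩ ⟨⟨q, l⟩, hl⟩ hp hq hlt
    dsimp only at *
    have := rB.mono_time (f := decide (p = 0)) (g := decide (q = 0)) (k := k) (l := l)
      (by rw [eqB p hp]; exact hk) (by rw [eqB q hq]; exact hl) hlt
    rwa [eqB p hp, eqB q hq] at this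
  case monoC =>
    rintro ⟨⟨p, k⟩, hk⟩ ⟨⟨q, l⟩, hl⟩ hp hq hlt
    dsimp only at *
    have := rC.mono_time (f := decide (p = 1)) (g := decide (q = 1)) (k := k) (l := l)
      (by rw [eqC p hp]; exact hk) (by rw [eqC q hq]; exact hl) hlt
    rwa [eqC p hp, eqC q hq] at this
  case rangeA =>
    rintro ⟨⟨p, k⟩, hk⟩ hp
    exact rA.range_blk (by rw [eqA p hp]; exact hk)
  case rangeB =>
    rintro ⟨⟨p, k⟩, hk⟩ hp
    exact rB.range_blk (by rw [eqB p hp]; exact hk)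
  case rangeC =>
    rintro ⟨⟨p, k⟩, hk⟩ hp
    exact rC.range_blk (by rw [eqC p hp]; exact hk)
  case par0 =>
    rintro ⟨⟨p, k⟩, hk⟩ hp
    dsimp only at *
    subst hp
    simp only [blkNo, decide_true, if_true]
    omega
  case par1 =>
    rintro ⟨⟨p, k⟩, hk⟩ hp
    dsimp only at *
    subst hp
    simp [blkNo]
  case par2 =>
    rintro ⟨⟨p, k⟩, hk⟩ hp
    dsimp only at *
    subst hp
    simp [blkNo]
  case surjA =>
    intro i h1 h2
    obtain ⟨f, k, hk, he⟩ := rA.surj_blk h1 h2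
    cases f
    · exact ⟨⟨(1, k), by simpa using hk⟩, by simp, by simpa using he⟩
    · exact ⟨⟨(0, k), by simpa using hk⟩, by simp, by simpa using he⟩
  case surjB =>
    intro i h1 h2
    obtain ⟨f, k, hk, he⟩ := rB.surj_blk h1 h2
    cases f
    · exact ⟨⟨(2, k), by simpa using hk⟩, by simp, by simpa using he⟩
    · exact ⟨⟨(0, k), by simpa using hk⟩, by simp, by simpa using he⟩
  case surjC =>
    intro i h1 h2
    obtain ⟨f, k, hk, he⟩ := rC.surj_blk h1 h2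
    cases f
    · exact ⟨⟨(2, k), by simpa using hk⟩, by simp, by simpa using he⟩
    · exact ⟨⟨(1, k), by simpa using hk⟩, by simp, by simpa using he⟩
  case ineqA => exact rA.pat.ineq
  case ineqB => exact rB.pat.ineq
  case ineqC => exact rC.pat.ineq
  case hostA0 =>
    intro i h1 h2 h3
    obtain ⟨m, rfl⟩ : ∃ m, i = 2 * m + 1 := ⟨i / 2, by omega⟩
    obtain ⟨k, k1, k2, k3, k4⟩ := host_step hG rA.seg1 rB.seg1
      (fun i a b => rA.sgate i a (by omega)) (fun i a b => rB.sgate i a (by omega)) PA PB 1 1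
      (fun i _ _ => bval_odd _ _ i) (fun i _ h => ⟨by omega, bval_odd _ _ i⟩) (by omega)
      (i := m) (by omega) (by omega) h1 h2
    refine ⟨⟨(0, k), k1, k2⟩, rfl, ?_, ?_⟩
    · simp [blkNo, k3]
    · simpa [blkNo] using k4
  case hostB0 =>
    intro i h1 h2 h3
    obtain ⟨m, rfl⟩ : ∃ m, i = 2 * m + 1 := ⟨i / 2, by omega⟩
    obtain ⟨k, k1, k2, k3, k4⟩ := host_step hG rB.seg1 rA.seg1
      (fun i a b => rB.sgate i a (by omega)) (fun i a b => rA.sgate i a (by omega)) PB PA 1 1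
      (fun i _ _ => bval_odd _ _ i) (fun i _ h => ⟨by omega, bval_odd _ _ i⟩) (by omega)
      (i := m) (by omega) (by omega) h1 h2
    refine ⟨⟨(0, k), k1, k2⟩, rfl, ?_, ?_⟩
    · simp [blkNo, k3]
    · simpa [blkNo] using k4
  case hostA1 =>
    intro i h1 h2 h3
    obtain ⟨m, rfl⟩ : ∃ m, i = 2 * m + 2 := ⟨i / 2 - 1, by omega⟩
    obtain ⟨k, k1, k2, k3, k4⟩ := host_step hG rA.seg2 rC.seg1
      (fun i a b => rA.tgate i a (by omega)) (fun i a b => rC.sgate i a (by omega)) PA PC 2 1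
      (fun i _ _ => bval_even _ _ i) (fun i _ h => ⟨by omega, bval_odd _ _ i⟩) (by omega)
      (i := m) (by omega) (by omega) (by omega) h2
    refine ⟨⟨(1, k), k1, k2⟩, rfl, ?_, ?_⟩
    · simp [blkNo, k3]
    · simpa [blkNo] using k4
  case hostC1 =>
    intro i h1 h2 h3
    obtain ⟨m, rfl⟩ : ∃ m, i = 2 * m + 1 := ⟨i / 2, by omega⟩
    obtain ⟨k, k1, k2, k3, k4⟩ := host_step hG rC.seg1 rA.seg2
      (fun i a b => rC.sgate i a (by omega)) (fun i a b => rA.tgate i a (by omega)) PC PA 1 2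
      (fun i _ _ => bval_odd _ _ i) (fun i _ h => ⟨by omega, bval_even _ _ i⟩) (by omega)
      (i := m) (by omega) (by omega) h1 h2
    refine ⟨⟨(1, k), k1, k2⟩, rfl, ?_, ?_⟩
    · simp [blkNo, k3]
    · simpa [blkNo] using k4
  case hostB2 =>
    intro i h1 h2 h3
    obtain ⟨m, rfl⟩ : ∃ m, i = 2 * m + 2 := ⟨i / 2 - 1, by omega⟩
    obtain ⟨k, k1, k2, k3, k4⟩ := host_step hG rB.seg2 rC.seg2
      (fun i a b => rB.tgate i a (by omega)) (fun i a b => rC.tgate i a (by omega)) PB PC 2 2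
      (fun i _ _ => bval_even _ _ i) (fun i _ h => ⟨by omega, bval_even _ _ i⟩) (by omega)
      (i := m) (by omega) (by omega) (by omega) h2
    refine ⟨⟨(2, k), k1, k2⟩, rfl, ?_, ?_⟩
    · simp [blkNo, k3]
    · simpa [blkNo] using k4
  case hostC2 =>
    intro i h1 h2 h3
    obtain ⟨m, rfl⟩ : ∃ m, i = 2 * m + 2 := ⟨i / 2 - 1, by omega⟩
    obtain ⟨k, k1, k2, k3, k4⟩ := host_step hG rC.seg2 rB.seg2
      (fun i a b => rC.tgate i a (by omega)) (fun i a b => rB.tgate i a (by omega)) PC PB 2 2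
      (fun i _ _ => bval_even _ _ i) (fun i _ h => ⟨by omega, bval_even _ _ i⟩) (by omega)
      (i := m) (by omega) (by omega) (by omega) h2
    refine ⟨⟨(2, k), k1, k2⟩, rfl, ?_, ?_⟩
    · simp [blkNo, k3]
    · simpa [blkNo] using k4

end Final

end MPb6
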