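import Pool.Agent.Lib.MP_b6d339_lc.GenFin

/-!
# Sums of at least four summands

`γ = H + a + b + c` with `0 < c ≤ b ≤ a ≤ H`. Classes of gates by the thresholds `H`, `H + a`,
`H + a + b`. First player: classes `2 3 4 3 2`; second player: classes `1 1 1 1`.
-/

open Ordinal Set

namespace MPb6

/-- parameters -/
structure Par4 (H a b c : Ordinal.{0}) : Prop where
  c0 : 0 < c
  cb : c ≤ b
  ba : b ≤ a
  aH : a ≤ H

section arith

lemma opow_nat_opow (x : Ordinal.{0}) {n : ℕ} (hn : 0 < n) {h : Ordinal.{0}} (h0 : 0 < h) :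
    ω ^ x * (n : Ordinal.{0}) * ω ^ h = ω ^ (x + h) := by
  have hdvd : (ω : Ordinal.{0}) ∣ ω ^ h := by
    have := opow_dvd_opow (ω : Ordinal.{0}) (Order.one_le_iff_pos.2 h0)
    rwa [opow_one] at this
  rw [mul_assoc, mul_omega0_dvd (by exact_mod_cast hn) (natCast_lt_omega0 n) hdvd, opow_add]

lemma three_le (x : Ordinal.{0}) : (1 : Ordinal.{0}) ≤ ω ^ x :=
  Order.one_le_iff_pos.2 (opow_pos x omega0_pos)

variable {H a b c : Ordinal.{0}}

/-- `X ≤ ω ^ (H + a)` -/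
lemma Par4.X_le (hP : Par4 H a b c) : (ω ^ H + 1) * ω ^ b ≤ (ω : Ordinal.{0}) ^ (H + a) := by
  have hb : 0 < b := hP.c0.trans_le hP.cb
  calc (ω ^ H + 1) * ω ^ b ≤ (ω ^ H * ((2 : ℕ) : Ordinal.{0})) * ω ^ b := by
        gcongr
        have e : (ω : Ordinal.{0}) ^ H * ((2 : ℕ) : Ordinal.{0}) = ω ^ H + ω ^ H := by
          have : ((2 : ℕ) : Ordinal.{0}) = 1 + 1 := by norm_num
          rw [this, mul_add, mul_one]
        rw [e]
        gcongr
        exact three_le H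
    _ = ω ^ (H + b) := opow_nat_opow H (by norm_num) hb
    _ ≤ ω ^ (H + a) := by
        apply opow_le_opow_right omega0_pos
        gcongr
        exact hP.ba

lemma Par4.th_le (hP : Par4 H a b c) {th : Ordinal.{0}}
    (h : th ≤ ω ^ (H + a) * ((3 : ℕ) : Ordinal.{0})) : th * ω ^ c ≤ ω ^ (H + a + b) := by
  calc th * ω ^ c ≤ ω ^ (H + a) * ((3 : ℕ) : Ordinal.{0}) * ω ^ c := by gcongr
    _ = ω ^ (H + a + c) := opow_nat_opow _ (by norm_num) hP.c0
    _ ≤ ω ^ (H + a + b) := by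
        apply opow_le_opow_right omega0_pos
        gcongr
        exact hP.cb

lemma three_eq (x : Ordinal.{0}) : x * ((3 : ℕ) : Ordinal.{0}) = x + x + x := by
  have : ((3 : ℕ) : Ordinal.{0}) = 1 + 1 + 1 := by norm_num
  rw [this, mul_add, mul_add, mul_one]

lemma Par4.budgetX (hP : Par4 H a b c) :
    ((ω ^ H + 1) * ω ^ b + ω ^ (H + a) + 1) * ω ^ c + ω ^ (H + a + b) +
      (1 + ω ^ (H + a) + (ω ^ H + 1) * ω ^ b) * ω ^ c < (ω : Ordinal.{0}) ^ (H + a + b + c) := by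
  have hlt : (ω : Ordinal.{0}) ^ (H + a + b) < ω ^ (H + a + b + c) := by
    rw [opow_lt_opow_iff_right one_lt_omega0]
    exact lt_add_of_pos_right _ hP.c0
  have h1 : ((ω ^ H + 1) * ω ^ b + ω ^ (H + a) + 1) * ω ^ c ≤ (ω : Ordinal.{0}) ^ (H + a + b) := by
    apply hP.th_le
    rw [three_eq]
    gcongr
    · exact hP.X_le
    · exact three_le _
  have h2 : (1 + ω ^ (H + a) + (ω ^ H + 1) * ω ^ b) * ω ^ c ≤ (ω : Ordinal.{0}) ^ (H + a + b) := by
    apply hP.th_le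
    rw [three_eq]
    gcongr
    · exact three_le _
    · exact hP.X_le
  exact isPrincipal_add_omega0_opow _
    (isPrincipal_add_omega0_opow _ (h1.trans_lt hlt) hlt) (h2.trans_lt hlt)

lemma Par4.budgetY (hP : Par4 H a b c) :
    ((5 : ℕ) : Ordinal.{0}) * ω ^ a * ω ^ b * ω ^ c < ω ^ (H + a + b + c) := by
  have ha : 0 < a := hP.c0.trans_le (hP.cb.trans hP.ba)
  have hH : 0 < H := ha.trans_le hP.aH
  have e : ((5 : ℕ) : Ordinal.{0}) * ω ^ a = ω ^ a := by
    have := opow_nat_opow 0 (n := 5) (by norm_num) ha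
    simpa using this
  rw [e, ← opow_add, ← opow_add, opow_lt_opow_iff_right one_lt_omega0, add_assoc H, add_assoc H]
  set δ : Ordinal.{0} := a + b + c with hδ
  by_contra hcon
  have hle : H + δ ≤ δ := not_lt.1 hcon
  have hn : ∀ n : ℕ, H * (n : Ordinal.{0}) + δ ≤ δ := by
    intro n
    induction n with
    | zero => simp
    | succ n ih =>
      rw [Nat.cast_succ, mul_add_one, add_assoc]
      exact (add_le_add_right hle _).trans ih
  have h3 : δ ≤ H * ((3 : ℕ) : Ordinal.{0}) := by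
    rw [three_eq, hδ]
    gcongr
    · exact hP.aH
    · exact hP.ba.trans hP.aH
    · exact hP.cb.trans (hP.ba.trans hP.aH)
  have h4 : H * ((4 : ℕ) : Ordinal.{0}) ≤ H * ((3 : ℕ) : Ordinal.{0}) :=
    (le_self_add.trans (hn 4)).trans h3
  rw [mul_le_mul_iff_right₀ hH] at h4
  norm_cast at h4

end arith

namespace Sys

variable {S : Sys} {H a b c : Ordinal.{0}}

/-- gates of the first player -/
structure X4 (H a b : Ordinal.{0}) (s : ℕ → Ordinal.{0}) : Prop where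
  s1 : H < s 1 ∧ s 1 ≤ H + a
  s2 : H + a < s 2 ∧ s 2 ≤ H + a + b
  s3 : H + a + b < s 3
  s4 : H + a < s 4 ∧ s 4 ≤ H + a + b
  s5 : H < s 5 ∧ s 5 ≤ H + a

/-- gates of the second player -/
structure Y4 (H : Ordinal.{0}) (t : ℕ → Ordinal.{0}) : Prop where
  t1 : t 1 ≤ H
  t2 : t 2 ≤ H
  t3 : t 3 ≤ H
  t4 : t 4 ≤ H

theorem fourX (hP : Par4 H a b c) {r : S.N} (hr : S.rk r = ω ^ (H + a + b + c))
    (hroot : ∀ c, S.le r c → S.rk r ≤ S.rk c → c = r) (h : S.Big (ω ^ (H + a + b + c)) r) :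
    ∃ d : ℕ → S.N, d 0 = r ∧ (∀ i < 6, S.sq (d i) (d (i + 1))) ∧
      (∃ w, S.sq (d 6) w ∧ S.alive w) ∧
      X4 H a b (fun i => Lv (S.rk (d i)) (S.rk (d (i + 1)))) := by
  obtain ⟨c0, hc, hc'⟩ := big_iff.1 h
  have hcr : c0 = r := by
    apply hroot c0 hc
    rw [hr]
    exact hc'.big.le_rk
  subst hcr
  obtain ⟨w, hw, hbw⟩ := hc'.2 _ hP.budgetX
  have hrw : S.rk w < ω ^ (H + a + b + c) := by rw [← hr]; exact S.sq_lt hw
  -- first rich `H + a + b` block
  obtain ⟨v1, e1, hwv1, hE1, -, hne1, hb1⟩ := thin (z := H + a + b) (d := c) (e' := 0)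
    (ne_top hrw) zero_le hbw
  -- first rich `H + a` block
  obtain ⟨v2, e2, hv12, hE2, -, hne2, hb2⟩ := thin (z := H + a) (d := b) (e' := e1)
    (E := e1 + (1 + ω ^ (H + a))) hne1 le_self_add (by rw [add_assoc]; exact hb1)
  have hH : 0 < H := hP.c0.trans_le (hP.cb.trans (hP.ba.trans hP.aH))
  have habs : ∀ e : Ordinal.{0}, e + 1 + ω ^ H = e + ω ^ H := by
    intro e
    rw [add_assoc, one_add_of_omega0_le (left_le_opow ω hH)]
  obtain ⟨c1, hc1, hc1'⟩ := big_iff.1 hb2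
  rw [← add_assoc] at hc1'
  obtain ⟨w1, hw1, hbw1⟩ := hc1'.next
  -- exit from the `H` block
  obtain ⟨u1, hu1, hbu1, hbl1⟩ := exit (a := e2 + 1) (z := H) (by rw [habs]; exact hbw1)
  obtain ⟨c2, hc2, hc2'⟩ := big_iff.1 hbu1
  obtain ⟨w2, hw2, hbw2⟩ := hc2'.next
  have h12 : S.sq c1 c2 := S.sq_trans hw1 (S.le_trans hu1 hc2)
  -- exit from the `H + a` block
  obtain ⟨u2, hu2, hbu2, hbl2⟩ := exit (a := e1 + 1) (z := H + a)
    (hbw2.mono (by rw [add_assoc]; exact hE2))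
  obtain ⟨c3, hc3, hc3'⟩ := big_iff.1 hbu2
  obtain ⟨w3, hw3, hbw3⟩ := hc3'.next
  have h23 : S.sq c2 c3 := S.sq_trans hw2 (S.le_trans hu2 hc3)
  -- exit from the `H + a + b` block
  obtain ⟨u3, hu3, hbu3, hbl3⟩ := exit (a := ((ω ^ H + 1) * ω ^ b + ω ^ (H + a) + 1) * ω ^ c)
    (z := H + a + b) (hbw3.mono hE1)
  have l1 : S.le v2 c1 := hc1
  have l2 : S.le v2 c2 := S.le_trans l1 (S.sq_le h12)
  have hwu3 : S.le w u3 := S.le_trans hwv1 (S.le_trans hv12 (S.le_trans l2 (S.le_trans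
    (S.sq_le h23) (S.le_trans (S.sq_le hw3) hu3))))
  have hru3 : S.rk u3 < ω ^ (H + a + b + c) := (S.rk_anti hwu3).trans_lt hrw
  obtain ⟨v3, e3, huv3, -, -, hne3, hb3⟩ := thin (z := H + a + b) (d := c) (e' := 0) (E := 0)
    (th := (ω ^ H + 1) * ω ^ b + ω ^ (H + a) + 1) (ne_top hru3) le_rfl (by rwa [zero_add])
  obtain ⟨c4, hc4, hc4'⟩ := big_iff.1 hb3
  have h34 : S.sq c3 c4 := S.sq_trans hw3 (S.le_trans hu3 (S.le_trans huv3 hc4))
  rw [← add_assoc, ← add_assoc] at hc4'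
  obtain ⟨w4, hw4, hbw4⟩ := hc4'.next
  -- exit from the `H + a` block
  obtain ⟨u4, hu4, hbu4, hbl4⟩ := exit (a := e3 + (ω ^ H + 1) * ω ^ b) (z := H + a) hbw4
  have l3 : S.le v3 u4 := S.le_trans hc4 (S.le_trans (S.sq_le hw4) hu4)
  obtain ⟨v4, e4, huv4, hE4, -, hne4, hb4⟩ := thin (z := H + a) (d := b) (e' := e3) (E := e3)
    (hne3.down l3 (hbu4.mono le_self_add)) le_rfl hbu4
  obtain ⟨c5, hc5, hc5'⟩ := big_iff.1 hb4
  have h45 : S.sq c4 c5 := S.sq_trans hw4 (S.le_trans hu4 (S.le_trans huv4 hc5))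
  rw [← add_assoc] at hc5'
  obtain ⟨w5, hw5, hbw5⟩ := hc5'.next
  obtain ⟨u5, hu5, hbu5, hbl5⟩ := exit (a := e4 + 1) (z := H) (by rw [habs]; exact hbw5)
  obtain ⟨c6, hc6, hc6'⟩ := big_iff.1 hbu5
  have h56 : S.sq c5 c6 := S.sq_trans hw5 (S.le_trans hu5 hc6)
  obtain ⟨w6, hw6, hbw6⟩ := hc6'.next
  have h01 : S.sq c0 c1 := S.sq_trans hw (S.le_trans hwv1 (S.le_trans hv12 hc1))
  refine ⟨fun i => [c0, c1, c2, c3, c4, c5, c6].getD i c0, rfl, ?_, ⟨w6, hw6, hbw6.alive⟩, ?_⟩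
  · intro i hi
    interval_cases i <;> assumption
  · exact
    { s1 := by
        change H < lv c1 c2 ∧ lv c1 c2 ≤ H + a
        constructor
        · apply lt_lv_of_blk
          exact ((blk_anti hc2).trans_lt hbl1).trans_le (blk_anti (S.sq_le hw1))
        · exact lv_le_of_NE hne2 l1 (S.sq_le h12) (hc2'.big.mono le_self_add)
      s2 := by
        change H + a < lv c2 c3 ∧ lv c2 c3 ≤ H + a + b
        constructor
        · apply lt_lv_of_blk
          exact ((blk_anti hc3).trans_lt hbl2).trans_le (blk_anti (S.sq_le hw2))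
        · exact lv_le_of_NE hne1 (S.le_trans hv12 l2) (S.sq_le h23) (hc3'.big.mono le_self_add)
      s3 := by
        change H + a + b < lv c3 c4
        apply lt_lv_of_blk
        exact ((blk_anti (S.le_trans huv3 hc4)).trans_lt hbl3).trans_le (blk_anti (S.sq_le hw3))
      s4 := by
        change H + a < lv c4 c5 ∧ lv c4 c5 ≤ H + a + b
        constructor
        · apply lt_lv_of_blk
          exact ((blk_anti (S.le_trans huv4 hc5)).trans_lt hbl4).trans_le (blk_anti (S.sq_le hw4))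
        · refine lv_le_of_NE hne3 hc4 (S.sq_le h45) (hc5'.big.mono ?_)
          rw [add_assoc]
          exact hE4.trans le_self_add
      s5 := by
        change H < lv c5 c6 ∧ lv c5 c6 ≤ H + a
        constructor
        · apply lt_lv_of_blk
          exact ((blk_anti hc6).trans_lt hbl5).trans_le (blk_anti (S.sq_le hw5))
        · exact lv_le_of_NE hne4 hc5 (S.sq_le h56) (hc6'.big.mono le_self_add) }

theorem fourY (hP : Par4 H a b c) {r : S.N} (hr : S.rk r = ω ^ (H + a + b + c))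
    (hroot : ∀ c, S.le r c → S.rk r ≤ S.rk c → c = r) (h : S.Big (ω ^ (H + a + b + c)) r) :
    ∃ d : ℕ → S.N, d 0 = r ∧ (∀ i < 5, S.sq (d i) (d (i + 1))) ∧
      (∃ w, S.sq (d 5) w ∧ S.alive w) ∧
      Y4 H (fun i => Lv (S.rk (d i)) (S.rk (d (i + 1)))) := by
  obtain ⟨c0, hc, hc'⟩ := big_iff.1 h
  have hcr : c0 = r := by
    apply hroot c0 hc
    rw [hr]
    exact hc'.big.le_rk
  subst hcr
  obtain ⟨w, hw, hbw⟩ := hc'.2 _ hP.budgetY
  have hrw : S.rk w < ω ^ (H + a + b + c) := by rw [← hr]; exact S.sq_lt hw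
  obtain ⟨v1, e1, hwv1, -, -, hne1, hb1⟩ := thin (z := H + a + b) (d := c) (e' := 0) (E := 0)
    (ne_top hrw) le_rfl (by rw [zero_add]; exact hbw)
  obtain ⟨v2, e2, hv12, -, -, hne2, hb2⟩ := thin (z := H + a) (d := b) (e' := e1) (E := e1)
    hne1 le_rfl hb1
  obtain ⟨v3, e3, hv23, -, -, hne3, hb3⟩ := thin (z := H) (d := a) (e' := e2) (E := e2)
    hne2 le_rfl hb2
  have e5 : ((5 : ℕ) : Ordinal.{0}) = 1 + 1 + 1 + 1 + 1 := by norm_num
  rw [e5] at hb3
  simp only [← add_assoc] at hb3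
  obtain ⟨d1, hd1, hd1'⟩ := big_iff.1 hb3
  obtain ⟨d2, h12, hd2'⟩ := hd1'.next'
  obtain ⟨d3, h23, hd3'⟩ := hd2'.next'
  obtain ⟨d4, h34, hd4'⟩ := hd3'.next'
  obtain ⟨d5, h45, hd5'⟩ := hd4'.next'
  obtain ⟨x, h5x, hbx⟩ := hd5'.next
  have h01 : S.sq c0 d1 := S.sq_trans hw (S.le_trans hwv1 (S.le_trans hv12 (S.le_trans hv23 hd1)))
  have b5 : S.Big e3 d5 := hbx.up (S.sq_le h5x)
  have b4 : S.Big e3 d4 := b5.up (S.sq_le h45)
  have b3 : S.Big e3 d3 := b4.up (S.sq_le h34)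
  have b2 : S.Big e3 d2 := b3.up (S.sq_le h23)
  have l2 : S.le v3 d2 := S.le_trans hd1 (S.sq_le h12)
  have l3 : S.le v3 d3 := S.le_trans l2 (S.sq_le h23)
  have l4 : S.le v3 d4 := S.le_trans l3 (S.sq_le h34)
  refine ⟨fun i => [c0, d1, d2, d3, d4, d5].getD i c0, rfl, ?_, ⟨x, h5x, hbx.alive⟩, ?_⟩
  · intro i hi
    interval_cases i <;> assumption
  · exact
    { t1 := lv_le_of_NE hne3 hd1 (S.sq_le h12) b2
      t2 := lv_le_of_NE hne3 l2 (S.sq_le h23) b3
      t3 := lv_le_of_NE hne3 l3 (S.sq_le h34) b4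
      t4 := lv_le_of_NE hne3 l4 (S.sq_le h45) b5 }

end Sys

/-! ### The finite check -/

section Finite

/-- classes of the blocks -/
structure Cl4 (T1 T2 T3 : Ordinal.{0}) (v : ℕ → Ordinal.{0}) : Prop where
  b3 : T1 < v 3 ∧ v 3 ≤ T2
  b4 : v 4 ≤ T1
  b5 : T2 < v 5 ∧ v 5 ≤ T3
  b6 : v 6 ≤ T1
  b7 : T3 < v 7
  b8 : v 8 ≤ T1
  b9 : T2 < v 9 ∧ v 9 ≤ T3
  b10 : v 10 ≤ T1
  b11 : T1 < v 11 ∧ v 11 ≤ T2

/-- class of a block -/
def cl4 (b : ℕ) : ℕ :=
  if b = 4 ∨ b = 6 ∨ b = 8 ∨ b = 10 then 1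
  else if b = 3 ∨ b = 11 then 2
  else if b = 5 ∨ b = 9 then 3
  else if b = 7 then 4 else 9

lemma cl4_of_host {T1 T2 T3 : Ordinal.{0}} (h12 : T1 ≤ T2) (h23 : T2 ≤ T3) {v v' : ℕ → Ordinal.{0}}
    (hv : Cl4 T1 T2 T3 v) (hv' : Cl4 T1 T2 T3 v') {i j : ℕ} (hi1 : 3 ≤ i) (hi2 : i ≤ 11)
    (h : HostG 5 v v' i j) : cl4 i ≤ cl4 j := by
  by_cases hj : j ≤ 2 ∨ 12 ≤ j
  · have : cl4 j = 9 := by
      unfold cl4
      rw [if_neg (by omega), if_neg (by omega), if_neg (by omega), if_neg (by omega)]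
    rw [this]
    interval_cases i <;> simp [cl4]
  have hj1 : 3 ≤ j := by omega
  have hj2 : j ≤ 11 := by omega
  have hle := h hj1 (by omega)
  obtain ⟨a3, a4, a5, a6, a7, a8, a9, a10, a11⟩ := hv
  obtain ⟨e3, e4, e5, e6, e7, e8, e9, e10, e11⟩ := hv'
  by_contra hlt
  rw [not_le] at hlt
  -- the value `v i` is above a threshold which `v' j` does not exceed
  have key : ∃ T, v' j ≤ T ∧ T < v i := by
    interval_cases i <;> interval_cases j <;> simp [cl4] at hlt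
    all_goals first
      | exact ⟨_, e4, a3.1⟩
      | exact ⟨_, e6, a3.1⟩
      | exact ⟨_, e8, a3.1⟩
      | exact ⟨_, e10, a3.1⟩
      | exact ⟨_, e3.2, a5.1⟩
      | exact ⟨_, e4.trans h12, a5.1⟩
      | exact ⟨_, e6.trans h12, a5.1⟩
      | exact ⟨_, e8.trans h12, a5.1⟩
      | exact ⟨_, e10.trans h12, a5.1⟩
      | exact ⟨_, e11.2, a5.1⟩
      | exact ⟨_, e3.2.trans h23, a7⟩
      | exact ⟨_, (e4.trans h12).trans h23, a7⟩
      | exact ⟨_, e5.2, a7⟩
      | exact ⟨_, (e6.trans h12).trans h23, a7⟩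
      | exact ⟨_, (e8.trans h12).trans h23, a7⟩
      | exact ⟨_, e9.2, a7⟩
      | exact ⟨_, (e10.trans h12).trans h23, a7⟩
      | exact ⟨_, e11.2.trans h23, a7⟩
      | exact ⟨_, e3.2, a9.1⟩
      | exact ⟨_, e4.trans h12, a9.1⟩
      | exact ⟨_, e6.trans h12, a9.1⟩
      | exact ⟨_, e8.trans h12, a9.1⟩
      | exact ⟨_, e10.trans h12, a9.1⟩
      | exact ⟨_, e11.2, a9.1⟩
      | exact ⟨_, e4, a11.1⟩
      | exact ⟨_, e6, a11.1⟩
      | exact ⟨_, e8, a11.1⟩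
      | exact ⟨_, e10, a11.1⟩
  obtain ⟨T, hT1, hT2⟩ := key
  exact absurd (hle.trans hT1) (not_le.2 hT2)

/-- The finite system with classes. -/
structure Sched4 {E τ : Type*} [LinearOrder τ] (pl : E → Fin 3)
    (tm : E → τ) (a b c : E → ℕ) : Prop where
  monoA : ∀ e e', pl e ≠ 2 → pl e' ≠ 2 → a e < a e' → tm e < tm e'
  monoB : ∀ e e', pl e ≠ 1 → pl e' ≠ 1 → b e < b e' → tm e < tm e'
  monoC : ∀ e e', pl e ≠ 0 → pl e' ≠ 0 → c e < c e' → tm e < tm e'
  rangeA : ∀ e, pl e ≠ 2 → 1 ≤ a e ∧ a e ≤ 13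
  rangeB : ∀ e, pl e ≠ 1 → 1 ≤ b e ∧ b e ≤ 13
  rangeC : ∀ e, pl e ≠ 0 → 1 ≤ c e ∧ c e ≤ 13
  par0 : ∀ e, pl e = 0 → a e % 2 = 1 ∧ b e % 2 = 1
  par1 : ∀ e, pl e = 1 → a e % 2 = 0 ∧ c e % 2 = 1
  par2 : ∀ e, pl e = 2 → b e % 2 = 0 ∧ c e % 2 = 0
  surjA : ∀ i, 1 ≤ i → i ≤ 13 → ∃ e, pl e ≠ 2 ∧ a e = i
  surjB : ∀ i, 1 ≤ i → i ≤ 13 → ∃ e, pl e ≠ 1 ∧ b e = i
  surjC : ∀ i, 1 ≤ i → i ≤ 13 → ∃ e, pl e ≠ 0 ∧ c e = i
  hostA0 : ∀ i, 3 ≤ i → i ≤ 11 → i % 2 = 1 → ∃ e, pl e = 0 ∧ a e = i ∧ cl4 i ≤ cl4 (b e)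
  hostB0 : ∀ i, 3 ≤ i → i ≤ 11 → i % 2 = 1 → ∃ e, pl e = 0 ∧ b e = i ∧ cl4 i ≤ cl4 (a e)
  hostC1 : ∀ i, 3 ≤ i → i ≤ 11 → i % 2 = 1 → ∃ e, pl e = 1 ∧ c e = i ∧ cl4 i ≤ cl4 (a e)

variable {E τ : Type*} [LinearOrder τ] {pl : E → Fin 3} {tm : E → τ} {a b c : E → ℕ}

lemma Sched4.leA (S : Sched4 pl tm a b c) {e e' : E} (h : pl e ≠ 2) (h' : pl e' ≠ 2)
    (ht : tm e ≤ tm e') : a e ≤ a e' :=
  not_lt.1 fun hlt => absurd (S.monoA e' e h' h hlt) (not_lt.2 ht)

lemma Sched4.leB (S : Sched4 pl tm a b c) {e e' : E} (h : pl e ≠ 1) (h' : pl e' ≠ 1)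
    (ht : tm e ≤ tm e') : b e ≤ b e' :=
  not_lt.1 fun hlt => absurd (S.monoB e' e h' h hlt) (not_lt.2 ht)

lemma Sched4.leC (S : Sched4 pl tm a b c) {e e' : E} (h : pl e ≠ 0) (h' : pl e' ≠ 0)
    (ht : tm e ≤ tm e') : c e ≤ c e' :=
  not_lt.1 fun hlt => absurd (S.monoC e' e h' h hlt) (not_lt.2 ht)

/-- Case I. -/
lemma noSched4_1 (S : Sched4 pl tm a b c) {e0 : E} (h0 : pl e0 = 1) (hc0 : c e0 = 7)
    (ha0 : a e0 = 2) : False := by
  have n10 : ∀ {e}, pl e = 1 → pl e ≠ 0 := fun h => by rw [h]; decide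
  have n12 : ∀ {e}, pl e = 1 → pl e ≠ 2 := fun h => by rw [h]; decide
  have n01 : ∀ {e}, pl e = 0 → pl e ≠ 1 := fun h => by rw [h]; decide
  have n02 : ∀ {e}, pl e = 0 → pl e ≠ 2 := fun h => by rw [h]; decide
  have n20 : ∀ {e}, pl e = 2 → pl e ≠ 0 := fun h => by rw [h]; decide
  have n21 : ∀ {e}, pl e = 2 → pl e ≠ 1 := fun h => by rw [h]; decide
  have cas : ∀ p : Fin 3, p = 0 ∨ p = 1 ∨ p = 2 := by decide
  have sA0 : ∀ i, 1 ≤ i → i ≤ 13 → i % 2 = 0 → ∃ e, pl e = 1 ∧ a e = i := by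
    intro i h1 h2 h3
    obtain ⟨e, he, he'⟩ := S.surjA i h1 h2
    rcases cas (pl e) with h | h | h
    · have := (S.par0 e h).1; omega
    · exact ⟨e, h, he'⟩
    · exact absurd h he
  have sB1 : ∀ i, 1 ≤ i → i ≤ 13 → i % 2 = 1 → ∃ e, pl e = 0 ∧ b e = i := by
    intro i h1 h2 h3
    obtain ⟨e, he, he'⟩ := S.surjB i h1 h2
    rcases cas (pl e) with h | h | h
    · exact ⟨e, h, he'⟩
    · exact absurd h he
    · have := (S.par2 e h).1; omega
  have sB0 : ∀ i, 1 ≤ i → i ≤ 13 → i % 2 = 0 → ∃ e, pl e = 2 ∧ b e = i := by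
    intro i h1 h2 h3
    obtain ⟨e, he, he'⟩ := S.surjB i h1 h2
    rcases cas (pl e) with h | h | h
    · have := (S.par0 e h).2; omega
    · exact absurd h he
    · exact ⟨e, h, he'⟩
  have sC1 : ∀ i, 1 ≤ i → i ≤ 13 → i % 2 = 1 → ∃ e, pl e = 1 ∧ c e = i := by
    intro i h1 h2 h3
    obtain ⟨e, he, he'⟩ := S.surjC i h1 h2
    rcases cas (pl e) with h | h | h
    · exact absurd h he
    · exact ⟨e, h, he'⟩
    · have := (S.par2 e h).2; omega
  -- blocks one and thirteen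
  obtain ⟨e1, p1, c1⟩ := sC1 1 (by omega) (by omega) (by omega)
  have G1 : ∀ e, pl e = 0 → tm e < tm e1 → b e = 1 := by
    intro e he h3
    obtain ⟨f, pf, bf⟩ := sB0 2 (by omega) (by omega) (by omega)
    have h4 : tm e1 < tm f := by
      apply S.monoC _ _ (n10 p1) (n20 pf)
      have := (S.par2 f pf).2
      have := (S.rangeC f (n20 pf)).1
      omega
    have h5 := S.leB (n01 he) (n21 pf) (h3.trans h4).le
    have h6 := (S.par0 e he).2
    omega
  have one : ∀ e, pl e = 0 → a e = 1 → b e = 1 := by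
    intro e he h1
    apply G1 e he
    apply S.monoA _ _ (n02 he) (n12 p1)
    have h2 := (S.par1 e1 p1).1
    have h3 := (S.rangeA e1 (n12 p1)).1
    omega
  have thirteen : ∀ e, pl e = 0 → a e = 13 → b e = 13 := by
    intro e he h1
    obtain ⟨g, pg, cg⟩ := sC1 13 (by omega) (by omega) (by omega)
    have h2 : tm g < tm e := by
      apply S.monoA _ _ (n12 pg) (n02 he)
      have h2 := (S.par1 g pg).1
      have h3 := (S.rangeA g (n12 pg)).2
      omega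
    obtain ⟨f, pf, bf⟩ := sB0 12 (by omega) (by omega) (by omega)
    have h4 : tm f < tm g := by
      apply S.monoC _ _ (n20 pf) (n10 pg)
      have := (S.par2 f pf).2
      have := (S.rangeC f (n20 pf)).2
      omega
    have h5 := S.leB (n21 pf) (n01 he) (h4.trans h2).le
    have h6 := (S.par0 e he).2
    have h7 := (S.rangeB e (n01 he)).2
    omega
  have t10 : tm e1 < tm e0 := S.monoC _ _ (n10 p1) (n10 h0) (by omega)
  have a1 : a e1 = 2 := by
    have h1 := S.leA (n12 p1) (n12 h0) t10.le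
    have h2 := (S.par1 e1 p1).1
    have h3 := (S.rangeA e1 (n12 p1)).1
    omega
  have F1 : ∀ e, pl e = 0 → tm e ≤ tm e0 → b e = 1 := by
    intro e he ht
    have h1 := S.leA (n02 he) (n12 h0) ht
    have h2 := (S.par0 e he).1
    exact G1 e he (S.monoA _ _ (n02 he) (n12 p1) (by omega))
  have ev2 : ∀ j, j % 2 = 0 → 1 ≤ j → j ≤ 13 → 2 ≤ cl4 j → j = 2 ∨ j = 12 := by
    intro j h1 h2 h3 h4
    interval_cases j <;> simp [cl4] at h1 h4 ⊢
  have od3 : ∀ j, j % 2 = 1 → 1 ≤ j → j ≤ 13 → 3 ≤ cl4 j →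
      j = 1 ∨ j = 5 ∨ j = 7 ∨ j = 9 ∨ j = 13 := by
    intro j h1 h2 h3 h4
    interval_cases j <;> simp [cl4] at h1 h4 ⊢
  have od4 : ∀ j, j % 2 = 1 → 1 ≤ j → j ≤ 13 → 4 ≤ cl4 j → j = 1 ∨ j = 7 ∨ j = 13 := by
    intro j h1 h2 h3 h4
    interval_cases j <;> simp [cl4] at h1 h4 ⊢
  have k5 : cl4 5 = 3 := by simp [cl4]
  have k7 : cl4 7 = 4 := by simp [cl4]
  have k9 : cl4 9 = 3 := by simp [cl4]
  have k11 : cl4 11 = 2 := by simp [cl4]
  -- the host of block 5 of `A`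
  obtain ⟨u, pu, au, Hu⟩ := S.hostA0 5 (by omega) (by omega) (by omega)
  have t0u : tm e0 < tm u := S.monoA _ _ (n12 h0) (n02 pu) (by omega)
  have bu : 5 ≤ b u := by
    have h2 := od3 _ (S.par0 u pu).2 (S.rangeB _ (n01 pu)).1 (S.rangeB _ (n01 pu)).2 (by omega)
    -- `b u ≠ 1`
    have h3 : b u ≠ 1 := by
      intro h
      obtain ⟨f, pf, bf⟩ := sB0 2 (by omega) (by omega) (by omega)
      have h4 : tm u < tm f := S.monoB _ _ (n01 pu) (n21 pf) (by omega)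
      obtain ⟨g, pg, bg⟩ := sB1 3 (by omega) (by omega) (by omega)
      -- some event of the third player lies before `e0`
      obtain ⟨p, hp, hp'⟩ := S.surjC 2 (by omega) (by omega)
      have pp : pl p = 2 := by
        rcases cas (pl p) with h | h | h
        · exact absurd h hp
        · have := (S.par1 p h).2; omega
        · exact h
      have h5 : tm p < tm e0 := S.monoC _ _ (n20 pp) (n10 h0) (by omega)
      have h6 := S.leB (n21 pp) (n01 pu) (h5.trans t0u).le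
      have h7 := (S.par2 p pp).1
      have h8 := (S.rangeB p (n21 pp)).1
      omega
    omega
  -- the host of block 7 of `B`
  obtain ⟨t, pt, bt, Ht⟩ := S.hostB0 7 (by omega) (by omega) (by omega)
  have at7 : a t = 7 := by
    have h2 := od4 _ (S.par0 t pt).1 (S.rangeA _ (n02 pt)).1 (S.rangeA _ (n02 pt)).2 (by omega)
    rcases h2 with h | h | h
    · have := one t pt h; omega
    · exact h
    · have := thirteen t pt h; omega
  obtain ⟨q, pq, bq, Hq⟩ := S.hostB0 11 (by omega) (by omega) (by omega)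
  have aq : a q ≤ 11 := by
    have h1 := (S.rangeA _ (n02 pq)).2
    have h2 := (S.par0 q pq).1
    by_contra h
    have := thirteen q pq (by omega)
    omega
  obtain ⟨v4, p4, b4⟩ := sB0 4 (by omega) (by omega) (by omega)
  obtain ⟨v8, p8, b8⟩ := sB0 8 (by omega) (by omega) (by omega)
  obtain ⟨w6, p6, a6⟩ := sA0 6 (by omega) (by omega) (by omega)
  obtain ⟨s3, p3, b3⟩ := sB1 3 (by omega) (by omega) (by omega)
  have t4u : tm v4 < tm u := S.monoB _ _ (n21 p4) (n01 pu) (by omega)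
  have tu6 : tm u < tm w6 := S.monoA _ _ (n02 pu) (n12 p6) (by omega)
  have t6t : tm w6 < tm t := S.monoA _ _ (n12 p6) (n02 pt) (by omega)
  have tt8 : tm t < tm v8 := S.monoB _ _ (n01 pt) (n21 p8) (by omega)
  have t8q : tm v8 < tm q := S.monoB _ _ (n21 p8) (n01 pq) (by omega)
  have t34 : tm s3 < tm v4 := S.monoB _ _ (n01 p3) (n21 p4) (by omega)
  have t03 : tm e0 < tm s3 := by
    by_contra h
    have := F1 s3 p3 (not_lt.1 h)
    omega
  have as3 : 3 ≤ a s3 := by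
    have h1 := S.leA (n12 h0) (n02 p3) t03.le
    have h2 := (S.par0 s3 p3).1
    omega
  have e4 := (S.par2 v4 p4).2
  have e8 := (S.par2 v8 p8).2
  have c48 : c v4 + 2 ≤ c v8 := by
    have h1 := S.leC (n20 p4) (n10 p6) (t4u.trans tu6).le
    have h2 := S.leC (n10 p6) (n20 p8) (t6t.trans tt8).le
    have h3 := (S.par1 w6 p6).2
    omega
  have c4 : 8 ≤ c v4 := by
    have h1 := S.leC (n10 h0) (n20 p4) (t03.trans t34).le
    omega
  obtain ⟨f9, p9, c9, H9⟩ := S.hostC1 9 (by omega) (by omega) (by omega)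
  obtain ⟨f11, p11, c11, H11⟩ := S.hostC1 11 (by omega) (by omega) (by omega)
  have a9 := ev2 _ (S.par1 f9 p9).1 (S.rangeA _ (n12 p9)).1 (S.rangeA _ (n12 p9)).2 (by omega)
  have a11 := ev2 _ (S.par1 f11 p11).1 (S.rangeA _ (n12 p11)).1 (S.rangeA _ (n12 p11)).2 (by omega)
  have c4' : 10 ≤ c v4 := by
    rcases a9 with h | h
    · have h1 : tm f9 < tm s3 := S.monoA _ _ (n12 p9) (n02 p3) (by omega)
      have h2 := S.leC (n10 p9) (n20 p4) (h1.trans t34).le
      omega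
    · have h1 : tm q < tm f9 := S.monoA _ _ (n02 pq) (n12 p9) (by omega)
      have h2 := S.leC (n20 p8) (n10 p9) (t8q.trans h1).le
      omega
  rcases a11 with h | h
  · have h1 : tm f11 < tm s3 := S.monoA _ _ (n12 p11) (n02 p3) (by omega)
    have h2 := S.leC (n10 p11) (n20 p4) (h1.trans t34).le
    have h3 := (S.rangeC v8 (n20 p8)).2
    omega
  · have h1 : tm q < tm f11 := S.monoA _ _ (n02 pq) (n12 p11) (by omega)
    have h2 := S.leC (n20 p8) (n10 p11) (t8q.trans h1).le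
    omega

lemma cl4_refl {i : ℕ} (h1 : 1 ≤ i) (h2 : i ≤ 13) : cl4 (14 - i) = cl4 i := by
  interval_cases i <;> rfl

lemma Sched4.reflect (S : Sched4 pl tm a b c) :
    Sched4 pl (fun e => OrderDual.toDual (tm e)) (fun e => 14 - a e) (fun e => 14 - b e)
      (fun e => 14 - c e) where
  monoA e e' h h' hlt := OrderDual.toDual_lt_toDual.2 (S.monoA e' e h' h (by omega))
  monoB e e' h h' hlt := OrderDual.toDual_lt_toDual.2 (S.monoB e' e h' h (by omega))
  monoC e e' h h' hlt := OrderDual.toDual_lt_toDual.2 (S.monoC e' e h' h (by omega))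
  rangeA e h := by have := S.rangeA e h; omega
  rangeB e h := by have := S.rangeB e h; omega
  rangeC e h := by have := S.rangeC e h; omega
  par0 e h := by
    have h1 := S.par0 e h
    have h2 := S.rangeA e (by rw [h]; decide)
    have h3 := S.rangeB e (by rw [h]; decide)
    omega
  par1 e h := by
    have h1 := S.par1 e h
    have h2 := S.rangeA e (by rw [h]; decide)
    have h3 := S.rangeC e (by rw [h]; decide)
    omega
  par2 e h := by
    have h1 := S.par2 e h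
    have h2 := S.rangeB e (by rw [h]; decide)
    have h3 := S.rangeC e (by rw [h]; decide)
    omega
  surjA i h1 h2 := by
    obtain ⟨e, he, he'⟩ := S.surjA (14 - i) (by omega) (by omega)
    exact ⟨e, he, by omega⟩
  surjB i h1 h2 := by
    obtain ⟨e, he, he'⟩ := S.surjB (14 - i) (by omega) (by omega)
    exact ⟨e, he, by omega⟩
  surjC i h1 h2 := by
    obtain ⟨e, he, he'⟩ := S.surjC (14 - i) (by omega) (by omega)
    exact ⟨e, he, by omega⟩
  hostA0 i h1 h2 h3 := by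
    obtain ⟨e, he, he', hh⟩ := S.hostA0 (14 - i) (by omega) (by omega) (by omega)
    have := S.rangeB e (by rw [he]; decide)
    refine ⟨e, he, by omega, ?_⟩
    rw [cl4_refl this.1 this.2]
    rwa [cl4_refl (by omega) (by omega)] at hh
  hostB0 i h1 h2 h3 := by
    obtain ⟨e, he, he', hh⟩ := S.hostB0 (14 - i) (by omega) (by omega) (by omega)
    have := S.rangeA e (by rw [he]; decide)
    refine ⟨e, he, by omega, ?_⟩
    rw [cl4_refl this.1 this.2]
    rwa [cl4_refl (by omega) (by omega)] at hh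
  hostC1 i h1 h2 h3 := by
    obtain ⟨e, he, he', hh⟩ := S.hostC1 (14 - i) (by omega) (by omega) (by omega)
    have := S.rangeA e (by rw [he]; decide)
    refine ⟨e, he, by omega, ?_⟩
    rw [cl4_refl this.1 this.2]
    rwa [cl4_refl (by omega) (by omega)] at hh

theorem noSched4 (S : Sched4 pl tm a b c) : False := by
  obtain ⟨e0, h0, hc0, H⟩ := S.hostC1 7 (by omega) (by omega) (by omega)
  have h1 := (S.par1 e0 h0).1
  have h2 := S.rangeA e0 (by rw [h0]; decide)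
  have h3 : 4 ≤ cl4 (a e0) := H
  have h4 : a e0 = 2 ∨ a e0 = 12 := by
    obtain ⟨h5, h6⟩ := h2
    generalize a e0 = j at *
    interval_cases j <;> simp [cl4] at h1 h3 ⊢
  rcases h4 with h4 | h4
  · exact noSched4_1 S h0 hc0 h4
  · exact noSched4_1 S.reflect h0 (show 14 - c e0 = 7 by omega) (show 14 - a e0 = 2 by omega)

end Finite

lemma cl4_of {H a b : Ordinal.{0}} {s t : ℕ → Ordinal.{0}} (hs : Sys.X4 H a b s)
    (ht : Sys.Y4 H t) : Cl4 H (H + a) (H + a + b) (bval s t) := by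
  constructor <;> simp only [bval] <;> norm_num
  exacts [hs.s1, ht.t1, hs.s2, ht.t2, hs.s3, ht.t3, hs.s4, ht.t4, hs.s5]

/-- Sums of at least four summands. -/
theorem not_arrow_four {H a b c : Ordinal.{0}} (hcard : H.card ≤ Cardinal.aleph0)
    (hP : Par4 H a b c) : ¬ Arrow3 (ω ^ (ω ^ (H + a + b + c))) := by
  have hac : a.card ≤ Cardinal.aleph0 := (card_le_card hP.aH).trans hcard
  have hbc : b.card ≤ Cardinal.aleph0 := (card_le_card hP.ba).trans hac
  have hcc : c.card ≤ Cardinal.aleph0 := (card_le_card hP.cb).trans hbc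
  have hκc : (ω ^ (H + a + b + c) : Ordinal.{0}).card ≤ Cardinal.aleph0 := by
    refine (card_opow_le _ _).trans ?_
    simp only [card_omega0, max_le_iff, le_refl, true_and]
    rw [card_add, card_add, card_add]
    exact Cardinal.add_le_aleph0.2 ⟨Cardinal.add_le_aleph0.2
      ⟨Cardinal.add_le_aleph0.2 ⟨hcard, hac⟩, hbc⟩, hcc⟩
  refine not_arrow_gen (opow_ne _) (countable_of_card hκc) 5 (Sys.X4 H a b) (Sys.Y4 H) ?_ ?_
    (fun S r hr hroot h => Sys.fourX hP hr hroot h)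
    (fun S r hr hroot h => Sys.fourY hP hr hroot h) ?_
  · intro s s' h p
    obtain ⟨p1, p2, p3, p4, p5⟩ := p
    rw [h 1 (by omega) (by omega)] at p1
    rw [h 2 (by omega) (by omega)] at p2
    rw [h 3 (by omega) (by omega)] at p3
    rw [h 4 (by omega) (by omega)] at p4
    rw [h 5 (by omega) (by omega)] at p5
    exact ⟨p1, p2, p3, p4, p5⟩
  · intro s s' h p
    obtain ⟨p1, p2, p3, p4⟩ := p
    rw [h 1 (by omega) (by omega)] at p1
    rw [h 2 (by omega) (by omega)] at p2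
    rw [h 3 (by omega) (by omega)] at p3
    rw [h 4 (by omega) (by omega)] at p4
    exact ⟨p1, p2, p3, p4⟩
  · intro E pl tm a' b' c' sA tA sB tB sC tC p1 p2 p3 p4 p5 p6 S
    have hA := cl4_of p1 p2
    have hB := cl4_of p3 p4
    have hC := cl4_of p5 p6
    have h12 : H ≤ H + a := le_self_add
    have h23 : H + a ≤ H + a + b := le_self_add
    have hS : Sched4 pl tm a' b' c' :=
    { monoA := S.monoA
      monoB := S.monoB
      monoC := S.monoC
      rangeA := S.rangeA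
      rangeB := S.rangeB
      rangeC := S.rangeC
      par0 := S.par0
      par1 := S.par1
      par2 := S.par2
      surjA := S.surjA
      surjB := S.surjB
      surjC := S.surjC
      hostA0 := fun i h1 h2 h3 => by
        obtain ⟨e, he, he', hh⟩ := S.hostA0 i h1 (by omega) h3
        exact ⟨e, he, he', cl4_of_host h12 h23 hA hB h1 (by omega) hh⟩
      hostB0 := fun i h1 h2 h3 => by
        obtain ⟨e, he, he', hh⟩ := S.hostB0 i h1 (by omega) h3
        exact ⟨e, he, he', cl4_of_host h12 h23 hB hA h1 (by omega) hh⟩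
      hostC1 := fun i h1 h2 h3 => by
        obtain ⟨e, he, he', hh⟩ := S.hostC1 i h1 (by omega) h3
        exact ⟨e, he, he', cl4_of_host h12 h23 hC hA h1 (by omega) hh⟩ }
    exact noSched4 hS

end MPb6
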