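import Pool.Agent.Lib.MP_b6d339_lc.GenFin

/-!
# Decomposable exponents: `ω ^ β → (ω ^ β, 3)²` fails for `β = b₁ + b₂`, `0 < b₂ ≤ b₁`, `2 ≤ b₁`
-/

open Ordinal Set

namespace MPb6

noncomputable section

namespace Sys

variable {S : Sys}

/-- leaving the ranks `≥ b` -/
lemma exit_base {b c : Ordinal.{0}} {v : S.N} (h : S.Big (1 + c) v) (hv : S.rk v < b + c) :
    ∃ w, S.le v w ∧ S.Big 1 w ∧ S.rk w < b := by
  by_contra hcon
  push Not at hcon
  have key : ∀ β : Ordinal.{0}, ∀ w, S.le v w → S.Big (1 + β) w → b + β ≤ S.rk w := by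
    intro β
    induction β using WellFoundedLT.induction with
    | ind β ih =>
      intro w hw hb
      rcases eq_or_ne β 0 with rfl | h0
      · rw [add_zero]
        exact hcon w hw (hb.mono (by simp))
      obtain ⟨c', hc1, hc2⟩ := big_iff.1 hb
      refine le_of_forall_lt fun x hx => ?_
      rcases lt_or_ge x b with hxb | hxb
      · exact hxb.trans_le (hcon w hw (hb.mono le_self_add))
      obtain ⟨β', rfl⟩ := exists_add_of_le hxb
      have hβ' : β' < β := by simpa using hx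
      obtain ⟨w', h3, h4⟩ := hc2.2 (1 + β') (by simpa using hβ')
      have hvw' : S.le v w' := S.le_trans (S.le_trans hw hc1) (S.sq_le h3)
      exact (ih β' hβ' w' hvw' h4).trans_lt ((S.sq_lt h3).trans_le (S.rk_anti hc1))
  exact absurd (key c v (S.le_refl v) h) (not_le.2 hv)

/-- The second player: a cut of rank `≥ b₁`. -/
lemma galvinY {b₁ b₂ : Ordinal.{0}} (h1 : 2 ≤ b₁) (h2 : 0 < b₂) {r : S.N}
    (hr : S.rk r = b₁ + b₂) (hroot : ∀ c, S.le r c → S.rk r ≤ S.rk c → c = r)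
    (h : S.Big (b₁ + b₂) r) :
    ∃ c, S.sq r c ∧ b₁ ≤ S.rk c ∧ ∃ w, S.sq c w ∧ S.alive w := by
  obtain ⟨c, hc, hc'⟩ := big_iff.1 h
  have hcr : c = r := by
    apply hroot c hc
    rw [hr]
    exact hc'.big.le_rk
  subst hcr
  obtain ⟨w, hw, hbw⟩ := hc'.2 b₁ (lt_add_of_pos_right _ h2)
  obtain ⟨d, hd, hd'⟩ := big_iff.1 hbw
  obtain ⟨w', hw', hbw'⟩ := hd'.2 0 (lt_of_lt_of_le (by norm_num) h1)
  exact ⟨d, S.sq_trans hw hd, hd'.big.le_rk, w', hw', hbw'.alive⟩

/-- The first player: a cut of rank `< b₁`. -/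
lemma galvinX {b₁ b₂ : Ordinal.{0}} (h1 : 2 ≤ b₁) (h2 : 0 < b₂) (h21 : b₂ ≤ b₁) {r : S.N}
    (hr : S.rk r = b₁ + b₂) (hroot : ∀ c, S.le r c → S.rk r ≤ S.rk c → c = r)
    (h : S.Big (b₁ + b₂) r) :
    ∃ c, S.sq r c ∧ S.rk c < b₁ ∧ ∃ w, S.sq c w ∧ S.alive w := by
  obtain ⟨c, hc, hc'⟩ := big_iff.1 h
  have hcr : c = r := by
    apply hroot c hc
    rw [hr]
    exact hc'.big.le_rk
  subst hcr
  have hlt : 1 + b₂ < b₁ + b₂ := by
    rcases lt_or_ge b₂ ω with hω | hω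
    · obtain ⟨n, rfl⟩ := lt_omega0.1 hω
      calc (1 : Ordinal.{0}) + n < 2 + n := by exact_mod_cast (by omega : 1 + n < 2 + n)
        _ ≤ b₁ + n := by gcongr
    · rw [one_add_of_omega0_le hω]
      calc b₂ < b₂ + b₂ := lt_add_of_pos_right _ h2
        _ ≤ b₁ + b₂ := by gcongr
  obtain ⟨w, hw, hbw⟩ := hc'.2 _ hlt
  obtain ⟨w', hw', hbw', hrk⟩ := exit_base (b := b₁) hbw (by rw [← hr]; exact S.sq_lt hw)
  obtain ⟨d, hd, hd'⟩ := big_iff.1 hbw'
  obtain ⟨w'', hw'', hbw''⟩ := hd'.2 0 zero_lt_one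
  exact ⟨d, S.sq_trans hw (S.le_trans hw' hd), (S.rk_anti hd).trans_lt hrk, w'', hw'', hbw''.alive⟩

end Sys

/-- The blue relation. -/
def GalvinRel (κ b₁ : Ordinal.{0}) (x y : Ordinal.{0}) : Prop :=
  ∃ c d : List ℕ, stepB 0 [] c ∧ stepB (topc c) [] d ∧ stepB (topc d) c (path κ x) ∧
    stepB (topc (path κ x)) d (path κ y) ∧ MPb6.rk κ c < b₁ ∧ b₁ ≤ MPb6.rk κ d

lemma le_topc {u v : List ℕ} {n : ℕ} (h : (u ++ [n]) <+: v) :
    Encodable.encode (u ++ [n]) ≤ topc v := by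
  unfold topc
  have h1 : v.take (u.length + 1) = u ++ [n] := by
    have := take_of_prefix h
    simpa using this
  rw [← h1]
  apply Finset.le_sup (f := fun k => Encodable.encode (v.take k))
  rw [Finset.mem_Icc]
  have := h.length_le
  simp at this
  omega

/-- the code of the first node -/
def firstCode (v : List ℕ) : ℕ := Encodable.encode (v.take 1)

lemma firstCode_of {v : List ℕ} {n : ℕ} (h : [n] <+: v) : firstCode v = Encodable.encode [n] := by
  unfold firstCode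
  congr 1
  exact take_of_prefix h

/-- Galvin's theorem: decomposable exponents. -/
theorem galvin {b₁ b₂ : Ordinal.{0}} (hcard : b₁.card ≤ Cardinal.aleph0) (h1 : 2 ≤ b₁)
    (h2 : 0 < b₂) (h21 : b₂ ≤ b₁) : ¬ Arrow3 (ω ^ (b₁ + b₂)) := by
  set κ : Ordinal.{0} := b₁ + b₂ with hκ
  have hκ0 : κ ≠ 0 := by
    rw [hκ]
    exact (lt_of_lt_of_le (lt_of_lt_of_le (by norm_num) h1) le_self_add).ne'
  have hκc : κ.card ≤ Cardinal.aleph0 := by
    rw [hκ, card_add]
    exact Cardinal.add_le_aleph0.2 ⟨hcard, (card_le_card h21).trans hcard⟩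
  have hc : (Iio κ).Countable := countable_of_card hκc
  refine not_arrow_of_rel (GalvinRel κ b₁) (fun x => firstCode (path κ x)) ?_ ?_ ?_
  · rintro u v ⟨c, d, ⟨n, hn, -⟩, ⟨m, hm, hm'⟩, ⟨p, hp, -⟩, ⟨q, hq, -⟩, -, -⟩
    have e1 : [n] <+: path κ u := hn.trans ((List.prefix_append c [p]).trans hp)
    have e2 : [m] <+: path κ v := hm.trans ((List.prefix_append d [q]).trans hq)
    rw [firstCode_of e1, firstCode_of e2]
    exact (le_topc (u := []) hn).trans_lt hm'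
  · rintro u v w ⟨c1, d1, g1, g2, g3, ⟨q1, g4, g4'⟩, g5, g6⟩ ⟨c2, d2, k1, ⟨m2, k2, k2'⟩,
      ⟨p2, k3, k3'⟩, ⟨q2, k4, k4'⟩, k5, k6⟩ ⟨c3, d3, l1, ⟨m3, l2, l2'⟩, ⟨p3, l3, l3'⟩,
      ⟨q3, l4, l4'⟩, l5, l6⟩
    -- `d1` and `c3` are nodes of the second terminal
    have e1 : d1 <+: path κ v := (List.prefix_append d1 [q1]).trans g4
    have e2 : c3 <+: path κ v := (List.prefix_append c3 [p3]).trans l3
    have e3 : d1.length < c3.length := by
      by_contra hlt
      have h3 : c3 <+: d1 := List.prefix_of_prefix_length_le e2 e1 (not_lt.1 hlt)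
      exact absurd (g6.trans (MPb6.rk_anti κ h3)) (not_le.2 l5)
    have e4 : (d1 ++ [q1]) <+: c3 := List.prefix_of_prefix_length_le g4 e2 (by simpa using e3)
    have f1 : topc (path κ u) < topc c3 := g4'.trans_le (le_topc e4)
    have e5 : [m3] <+: path κ w := l2.trans ((List.prefix_append d3 [q3]).trans l4)
    have e6 : [m2] <+: path κ w := k2.trans ((List.prefix_append d2 [q2]).trans k4)
    have e7 : Encodable.encode [m3] = Encodable.encode [m2] := by
      rw [← firstCode_of e5, ← firstCode_of e6]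
    have f2 : topc c3 < topc d2 := by
      refine (l2'.trans_le (le_of_eq e7)).trans_le ?_
      exact le_topc (u := []) k2
    have f3 : topc d2 < topc (path κ u) := k3'.trans_le (le_topc k3)
    omega
  · intro X hX
    have eX : ExtF (fun c => c 0 = [] ∧ (∃ x ∈ X, c 2 = path κ x) ∧ MPb6.rk κ (c 1) < b₁) 2 0
        fun _ => [] := by
      intro F
      obtain ⟨c, h3, h4, w, h5, x, hx, -, hx'⟩ : ∃ c : List ℕ, (sysT κ F X).sq ([] : List ℕ) c ∧
          MPb6.rk κ c < b₁ ∧ ∃ w : List ℕ, (sysT κ F X).sq c w ∧ (sysT κ F X).alive w :=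
        Sys.galvinX (S := sysT κ F X) (r := ([] : List ℕ))
          h1 h2 h21 rfl (root_unique hκ0 F X) (big_root hc F hX)
      refine ⟨fun i => if i = 0 then [] else if i = 1 then c else path κ x, fun j hj => ?_,
        fun j _ hj => ?_, ?_⟩
      · obtain rfl : j = 0 := by omega
        rfl
      · rcases (show j = 0 ∨ j = 1 by omega) with rfl | rfl
        · exact h3.2
        · obtain ⟨n, hn, hn'⟩ := h5.2
          exact ⟨n, hn, hn'.trans hx'⟩
      · exact ⟨rfl, ⟨x, hx, rfl⟩, h4⟩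
    have eY : ExtF (fun c => c 0 = [] ∧ (∃ x ∈ X, c 2 = path κ x) ∧ b₁ ≤ MPb6.rk κ (c 1)) 2 0
        fun _ => [] := by
      intro F
      obtain ⟨c, h3, h4, w, h5, x, hx, -, hx'⟩ : ∃ c : List ℕ, (sysT κ F X).sq ([] : List ℕ) c ∧
          b₁ ≤ MPb6.rk κ c ∧ ∃ w : List ℕ, (sysT κ F X).sq c w ∧ (sysT κ F X).alive w :=
        Sys.galvinY (S := sysT κ F X) (r := ([] : List ℕ))
          h1 h2 rfl (root_unique hκ0 F X) (big_root hc F hX)
      refine ⟨fun i => if i = 0 then [] else if i = 1 then c else path κ x, fun j hj => ?_,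
        fun j _ hj => ?_, ?_⟩
      · obtain rfl : j = 0 := by omega
        rfl
      · rcases (show j = 0 ∨ j = 1 by omega) with rfl | rfl
        · exact h3.2
        · obtain ⟨n, hn, hn'⟩ := h5.2
          exact ⟨n, hn, hn'.trans hx'⟩
      · exact ⟨rfl, ⟨x, hx, rfl⟩, h4⟩
    -- interleave
    obtain ⟨c1, a1, a2, a3⟩ := eX.step (by omega) 0
    obtain ⟨d1, b1, b2, b3⟩ := eY.step (by omega) (topc (c1 1))
    obtain ⟨c2, p1, p2, p3⟩ := a3.step (by omega) (topc (d1 1))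
    obtain ⟨d2, q1, q2, q3⟩ := b3.step (by omega) (topc (c2 2))
    obtain ⟨c, r1, -, r2, ⟨x, hx, r3⟩, r4⟩ := p3 fun _ => 0
    obtain ⟨d, s1, -, s2, ⟨y, hy, s3⟩, s4⟩ := q3 fun _ => 0
    refine ⟨x, hx, y, hy, c1 1, d1 1, ?_, ?_, ?_, ?_, ?_, ?_⟩
    · rwa [a1 0 le_rfl] at a2
    · rwa [b1 0 le_rfl] at b2
    · rw [← r3, r1 2 le_rfl]
      have := p2
      rwa [p1 1 (by omega)] at this
    · rw [← r3, r1 2 le_rfl, ← s3, s1 2 le_rfl]
      have := q2
      rwa [q1 1 (by omega)] at this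
    · rw [r1 1 (by omega), p1 1 (by omega)] at r4
      exact r4
    · rw [s1 1 (by omega), q1 1 (by omega)] at s4
      exact s4

end

end MPb6
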