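import Pool.Agent.Lib.MP_b6d339_lc.N2Final

/-! The finite statement of the second family (machine generated proof). -/

set_option linter.unusedVariables false

namespace MPb6

open Ordinal

section N2fin

lemma n2_lt {v w : ℕ} (h : Nat.blt v w = true) : v < w := Nat.le_of_ble_eq_true h
lemma n2_le {v w : ℕ} (h : Nat.ble v w = true) : v ≤ w := Nat.le_of_ble_eq_true h
lemma n2_ne {v w : ℕ} (h : Nat.beq v w = false) : v ≠ w := Nat.ne_of_beq_eq_false h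
lemma n2_ne01 {p : Fin 3} (h : p = 0) : p ≠ 1 := by rw [h]; decide
lemma n2_ne02 {p : Fin 3} (h : p = 0) : p ≠ 2 := by rw [h]; decide
lemma n2_ne10 {p : Fin 3} (h : p = 1) : p ≠ 0 := by rw [h]; decide
lemma n2_ne12 {p : Fin 3} (h : p = 1) : p ≠ 2 := by rw [h]; decide
lemma n2_ne20 {p : Fin 3} (h : p = 2) : p ≠ 0 := by rw [h]; decide
lemma n2_ne21 {p : Fin 3} (h : p = 2) : p ≠ 1 := by rw [h]; decide
lemma n2_ne_lo {x v j : ℕ} (h : v ≤ x) (hj : j < v) : x ≠ j := by omega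
lemma n2_ne_hi {x v j : ℕ} (h : x ≤ v) (hj : v < j) : x ≠ j := by omega
lemma n2_pf_lo {x l p : ℕ} (h : l ≤ x) (hp : x % 2 = p) (hl : l % 2 ≠ p) : l + 1 ≤ x := by
  rcases h.eq_or_lt with rfl | h
  · exact absurd hp hl
  · exact h
lemma n2_pf_hi {x l p : ℕ} (h : x ≤ l + 1) (hp : x % 2 = p) (hl : (l + 1) % 2 ≠ p) : x ≤ l := by
  rcases h.eq_or_lt with rfl | h
  · exact absurd hp hl
  · omega
lemma n2_rng {x : ℕ} (h : 1 ≤ x ∧ x ≤ 2 * 9 + 3) : 1 ≤ x ∧ x ≤ 21 := h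
lemma n2_rng' {x : ℕ} (h : 1 ≤ x ∧ x ≤ 2 * 9 + 3) (hp : x % 2 = 0) : 2 ≤ x ∧ x ≤ 20 := by omega

lemma n2_hostv {v v' : ℕ → Ordinal.{0}} {i j x : ℕ} (H : HostG 9 v v' i x) (e : x = j) (h1 : 3 ≤ j)
    (h2 : j ≤ 19) : v i ≤ v' j := by
  subst e; exact H h1 h2

section

variable {G1 G2 : Ordinal.{0}} {s t : ℕ → Ordinal.{0}}

lemma n2_t23 (q : TPatt2 G1 G2 t) : bval s t 6 < bval s t 8 := by simpa [bval] using q.t23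
lemma n2_t35 (q : TPatt2 G1 G2 t) : bval s t 8 < bval s t 12 := by simpa [bval] using q.t35
lemma n2_t75 (q : TPatt2 G1 G2 t) : bval s t 16 < bval s t 12 := by simpa [bval] using q.t75
lemma n2_t87 (q : TPatt2 G1 G2 t) : bval s t 18 < bval s t 16 := by simpa [bval] using q.t87

lemma n2_host2s {v : Ordinal.{0}} (hv : G1 < v) (hs : SPatt2 G1 G2 s) {j : ℕ} (h1 : 1 ≤ j ∧ j ≤ 21)
    (hp : j % 2 = 1) (h : 3 ≤ j → j ≤ 19 → v ≤ bval s t j) :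
    j = 1 ∨ j = 9 ∨ j = 11 ∨ j = 13 ∨ j = 15 ∨ j = 21 := by
  obtain ⟨h1, h2⟩ := h1
  by_contra hcon
  have hj : j = 3 ∨ j = 5 ∨ j = 7 ∨ j = 17 ∨ j = 19 := by omega
  have key : bval s t j ≤ G1 := by
    rcases hj with rfl | rfl | rfl | rfl | rfl <;> simp [bval]
    exacts [hs.s1, hs.s2, hs.s3, hs.s8, hs.s9]
  exact absurd ((h (by omega) (by omega)).trans key) (not_le.2 hv)

lemma n2_host3s {v : Ordinal.{0}} (hG : G1 ≤ G2) (hv : G2 < v) (hs : SPatt2 G1 G2 s) {j : ℕ}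
    (h1 : 1 ≤ j ∧ j ≤ 21) (hp : j % 2 = 1) (h : 3 ≤ j → j ≤ 19 → v ≤ bval s t j) :
    j = 1 ∨ j = 11 ∨ j = 13 ∨ j = 21 := by
  obtain ⟨h1, h2⟩ := h1
  by_contra hcon
  have hj : j = 3 ∨ j = 5 ∨ j = 7 ∨ j = 9 ∨ j = 15 ∨ j = 17 ∨ j = 19 := by omega
  have key : bval s t j ≤ G2 := by
    rcases hj with rfl | rfl | rfl | rfl | rfl | rfl | rfl <;> simp [bval]
    exacts [hs.s1.trans hG, hs.s2.trans hG, hs.s3.trans hG, hs.s4.2, hs.s7.2, hs.s8.trans hG,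
      hs.s9.trans hG]
  exact absurd ((h (by omega) (by omega)).trans key) (not_le.2 hv)

lemma n2_host3t {v : Ordinal.{0}} (hG : G1 ≤ G2) (hv : G2 < v) (ht : TPatt2 G1 G2 t) {j : ℕ}
    (h1 : 2 ≤ j ∧ j ≤ 20) (hp : j % 2 = 0) (h : 3 ≤ j → j ≤ 19 → v ≤ bval s t j) :
    j = 2 ∨ j = 20 := by
  obtain ⟨h1, h2⟩ := h1
  by_contra hcon
  have hj : j = 4 ∨ j = 6 ∨ j = 8 ∨ j = 10 ∨ j = 12 ∨ j = 14 ∨ j = 16 ∨ j = 18 := by omega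
  have t3 : t 3 ≤ G2 := ht.t35.le.trans ht.t5
  have t7 : t 7 ≤ G2 := ht.t75.le.trans ht.t5
  have key : bval s t j ≤ G2 := by
    rcases hj with rfl | rfl | rfl | rfl | rfl | rfl | rfl | rfl <;> simp [bval]
    exacts [ht.t1.trans hG, ht.t23.le.trans t3, t3, ht.t4.trans hG, ht.t5, ht.t6.trans hG, t7,
      ht.t87.le.trans t7]
  exact absurd ((h (by omega) (by omega)).trans key) (not_le.2 hv)

lemma n2_host2t {v : Ordinal.{0}} (hv : G1 < v) (ht : TPatt2 G1 G2 t) {j : ℕ}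
    (h1 : 2 ≤ j ∧ j ≤ 20) (hp : j % 2 = 0) (h : 3 ≤ j → j ≤ 19 → v ≤ bval s t j) :
    j = 2 ∨ j = 6 ∨ j = 8 ∨ j = 12 ∨ j = 16 ∨ j = 18 ∨ j = 20 := by
  obtain ⟨h1, h2⟩ := h1
  by_contra hcon
  have hj : j = 4 ∨ j = 10 ∨ j = 14 := by omega
  have key : bval s t j ≤ G1 := by
    rcases hj with rfl | rfl | rfl <;> simp [bval]
    exacts [ht.t1, ht.t4, ht.t6]
  exact absurd ((h (by omega) (by omega)).trans key) (not_le.2 hv)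

/-- values of the blocks of class two and three -/
lemma n2_v9 (hs : SPatt2 G1 G2 s) : G1 < bval s t 9 := by simpa [bval] using hs.s4.1
lemma n2_v15 (hs : SPatt2 G1 G2 s) : G1 < bval s t 15 := by simpa [bval] using hs.s7.1
lemma n2_v11 (hs : SPatt2 G1 G2 s) : G2 < bval s t 11 := by simpa [bval] using hs.s5
lemma n2_v13 (hs : SPatt2 G1 G2 s) : G2 < bval s t 13 := by simpa [bval] using hs.s6
lemma n2_v6 (ht : TPatt2 G1 G2 t) : G1 < bval s t 6 := by simpa [bval] using ht.t2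
lemma n2_v8 (ht : TPatt2 G1 G2 t) : G1 < bval s t 8 := (n2_v6 ht).trans (n2_t23 ht)
lemma n2_v12 (ht : TPatt2 G1 G2 t) : G1 < bval s t 12 := (n2_v8 ht).trans (n2_t35 ht)
lemma n2_v18 (ht : TPatt2 G1 G2 t) : G1 < bval s t 18 := by simpa [bval] using ht.t8
lemma n2_v16 (ht : TPatt2 G1 G2 t) : G1 < bval s t 16 := (n2_v18 ht).trans (n2_t87 ht)

end

section

variable {E τ β : Type*} [LinearOrder τ] [LinearOrder β] {k : ℕ} {pl : E → Fin 3}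
  {tm : E → τ} {a b c : E → ℕ} {vA vB vC : ℕ → β}

lemma SchedG.leA (S : SchedG k pl tm a b c vA vB vC) {e e' : E} (h : pl e ≠ 2) (h' : pl e' ≠ 2)
    (ht : tm e ≤ tm e') : a e ≤ a e' :=
  not_lt.1 fun hlt => absurd (S.monoA e' e h' h hlt) (not_lt.2 ht)

lemma SchedG.leB (S : SchedG k pl tm a b c vA vB vC) {e e' : E} (h : pl e ≠ 1) (h' : pl e' ≠ 1)
    (ht : tm e ≤ tm e') : b e ≤ b e' :=
  not_lt.1 fun hlt => absurd (S.monoB e' e h' h hlt) (not_lt.2 ht)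

lemma SchedG.leC (S : SchedG k pl tm a b c vA vB vC) {e e' : E} (h : pl e ≠ 0) (h' : pl e' ≠ 0)
    (ht : tm e ≤ tm e') : c e ≤ c e' :=
  not_lt.1 fun hlt => absurd (S.monoC e' e h' h hlt) (not_lt.2 ht)

lemma n2_cas : ∀ p : Fin 3, p = 0 ∨ p = 1 ∨ p = 2 := by decide

lemma SchedG.s0A (S : SchedG k pl tm a b c vA vB vC) {i : ℕ} (h1 : 1 ≤ i) (h2 : i ≤ 2 * k + 3)
    (h3 : i % 2 = 1) : ∃ e, pl e = 0 ∧ a e = i := by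
  obtain ⟨e, he, he'⟩ := S.surjA i h1 h2
  rcases n2_cas (pl e) with h | h | h
  · exact ⟨e, h, he'⟩
  · have := (S.par1 e h).1; omega
  · exact absurd h he

lemma SchedG.s1A (S : SchedG k pl tm a b c vA vB vC) {i : ℕ} (h1 : 1 ≤ i) (h2 : i ≤ 2 * k + 3)
    (h3 : i % 2 = 0) : ∃ e, pl e = 1 ∧ a e = i := by
  obtain ⟨e, he, he'⟩ := S.surjA i h1 h2
  rcases n2_cas (pl e) with h | h | h
  · have := (S.par0 e h).1; omega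
  · exact ⟨e, h, he'⟩
  · exact absurd h he

lemma SchedG.s0B (S : SchedG k pl tm a b c vA vB vC) {i : ℕ} (h1 : 1 ≤ i) (h2 : i ≤ 2 * k + 3)
    (h3 : i % 2 = 1) : ∃ e, pl e = 0 ∧ b e = i := by
  obtain ⟨e, he, he'⟩ := S.surjB i h1 h2
  rcases n2_cas (pl e) with h | h | h
  · exact ⟨e, h, he'⟩
  · exact absurd h he
  · have := (S.par2 e h).1; omega

lemma SchedG.s2B (S : SchedG k pl tm a b c vA vB vC) {i : ℕ} (h1 : 1 ≤ i) (h2 : i ≤ 2 * k + 3)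
    (h3 : i % 2 = 0) : ∃ e, pl e = 2 ∧ b e = i := by
  obtain ⟨e, he, he'⟩ := S.surjB i h1 h2
  rcases n2_cas (pl e) with h | h | h
  · have := (S.par0 e h).2; omega
  · exact absurd h he
  · exact ⟨e, h, he'⟩

lemma SchedG.s1C (S : SchedG k pl tm a b c vA vB vC) {i : ℕ} (h1 : 1 ≤ i) (h2 : i ≤ 2 * k + 3)
    (h3 : i % 2 = 1) : ∃ e, pl e = 1 ∧ c e = i := by
  obtain ⟨e, he, he'⟩ := S.surjC i h1 h2
  rcases n2_cas (pl e) with h | h | h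
  · exact absurd h he
  · exact ⟨e, h, he'⟩
  · have := (S.par2 e h).2; omega

lemma SchedG.s2C (S : SchedG k pl tm a b c vA vB vC) {i : ℕ} (h1 : 1 ≤ i) (h2 : i ≤ 2 * k + 3)
    (h3 : i % 2 = 0) : ∃ e, pl e = 2 ∧ c e = i := by
  obtain ⟨e, he, he'⟩ := S.surjC i h1 h2
  rcases n2_cas (pl e) with h | h | h
  · exact absurd h he
  · have := (S.par1 e h).2; omega
  · exact ⟨e, h, he'⟩

end

lemma n2q_0 (x : ℕ) (h0 : x = 1 ∨ x = 11 ∨ x = 13 ∨ x = 21) (h1 : 3 ≤ x) : 11 ≤ x := by omega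
lemma n2q_1 (x : ℕ) (h0 : x = 1 ∨ x = 11 ∨ x = 13 ∨ x = 21) (h1 : x ≤ 19) : x ≤ 13 := by omega
lemma n2q_2 (x : ℕ) (h0 : x = 1 ∨ x = 9 ∨ x = 11 ∨ x = 13 ∨ x = 15 ∨ x = 21) (h1 : x ≤ 19) : x ≤ 15 := by omega
lemma n2q_3 (x : ℕ) (h0 : x = 1 ∨ x = 9 ∨ x = 11 ∨ x = 13 ∨ x = 15 ∨ x = 21) (h1 : 3 ≤ x) : 9 ≤ x := by omega
lemma n2q_4 (x : ℕ) (h0 : x = 1 ∨ x = 9 ∨ x = 11 ∨ x = 13 ∨ x = 15 ∨ x = 21) (h1 : x ≤ 8) : x ≤ 1 := by omega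
lemma n2q_5 (x : ℕ) (h0 : x = 2 ∨ x = 20) (h1 : 8 ≤ x) : 20 ≤ x := by omega
lemma n2q_6 (x : ℕ) (h0 : x = 2 ∨ x = 6 ∨ x = 8 ∨ x = 12 ∨ x = 16 ∨ x = 18 ∨ x = 20) (h1 : x ≤ 10) : x ≤ 8 := by omega
lemma n2q_7 (x : ℕ) (h0 : x = 1 ∨ x = 9 ∨ x = 11 ∨ x = 13 ∨ x = 15 ∨ x = 21) (h1 : x ≤ 7) : x ≤ 1 := by omega
lemma n2q_8 (x : ℕ) (h0 : x = 2 ∨ x = 6 ∨ x = 8 ∨ x = 12 ∨ x = 16 ∨ x = 18 ∨ x = 20) (h1 : x ≤ 5) : x ≤ 2 := by omega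
lemma n2q_9 (x : ℕ) (h0 : x = 2 ∨ x = 6 ∨ x = 8 ∨ x = 12 ∨ x = 16 ∨ x = 18 ∨ x = 20) (h1 : 14 ≤ x) : 16 ≤ x := by omega
lemma n2q_10 (x : ℕ) (h0 : x = 2 ∨ x = 6 ∨ x = 8 ∨ x = 12 ∨ x = 16 ∨ x = 18 ∨ x = 20) (h1 : x ≠ 20) (h2 : x ≠ 2) (h3 : x ≠ 6) (h4 : x ≠ 8) (h5 : x ≠ 12) (h6 : x ≠ 16) : x = 18 := by omega
lemma n2q_11 (x : ℕ) (h0 : x = 2 ∨ x = 6 ∨ x = 8 ∨ x = 12 ∨ x = 16 ∨ x = 18 ∨ x = 20) (h1 : x ≠ 2) (h2 : x ≠ 6) (h3 : x ≠ 8) (h4 : x ≠ 12) (h5 : x ≠ 16) (h6 : x ≠ 18) (h7 : x ≠ 20) : False := by omega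
lemma n2q_12 (x : ℕ) (h0 : x = 2 ∨ x = 6 ∨ x = 8 ∨ x = 12 ∨ x = 16 ∨ x = 18 ∨ x = 20) (h1 : x ≠ 12) (h2 : x ≠ 16) (h3 : x ≠ 18) (h4 : x ≠ 20) (h5 : x ≠ 8) (h6 : x ≠ 2) : x = 6 := by omega
lemma n2q_13 (x : ℕ) (h0 : x = 2 ∨ x = 6 ∨ x = 8 ∨ x = 12 ∨ x = 16 ∨ x = 18 ∨ x = 20) (h1 : x ≠ 12) (h2 : x ≠ 16) (h3 : x ≠ 18) (h4 : x ≠ 20) (h5 : x ≠ 2) (h6 : x ≠ 6) : x = 8 := by omega
lemma n2q_14 (x : ℕ) (h0 : x = 2 ∨ x = 6 ∨ x = 8 ∨ x = 12 ∨ x = 16 ∨ x = 18 ∨ x = 20) (h1 : 10 ≤ x) : 12 ≤ x := by omega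
lemma n2q_15 (x : ℕ) (h0 : x = 2 ∨ x = 20) (h1 : x ≤ 12) : x ≤ 2 := by omega
lemma n2q_16 (x : ℕ) (h0 : x = 1 ∨ x = 9 ∨ x = 11 ∨ x = 13 ∨ x = 15 ∨ x = 21) (h1 : 17 ≤ x) : 21 ≤ x := by omega
lemma n2q_17 (x : ℕ) (h0 : x = 2 ∨ x = 6 ∨ x = 8 ∨ x = 12 ∨ x = 16 ∨ x = 18 ∨ x = 20) (h1 : x ≤ 17) : x ≤ 16 := by omega
lemma n2q_18 (x : ℕ) (h0 : x = 2 ∨ x = 6 ∨ x = 8 ∨ x = 12 ∨ x = 16 ∨ x = 18 ∨ x = 20) (h1 : x ≠ 20) (h2 : x ≠ 2) (h3 : x ≠ 6) (h4 : x ≠ 8) (h5 : x ≠ 12) (h6 : x ≠ 18) : x = 16 := by omega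
lemma n2q_19 (x : ℕ) (h0 : x = 2 ∨ x = 6 ∨ x = 8 ∨ x = 12 ∨ x = 16 ∨ x = 18 ∨ x = 20) (h1 : x ≠ 2) (h2 : x ≠ 6) (h3 : x ≠ 8) (h4 : x ≠ 12) (h5 : x ≠ 16) (h6 : x ≠ 20) : x = 18 := by omega
lemma n2q_20 (x : ℕ) (h0 : x = 2 ∨ x = 6 ∨ x = 8 ∨ x = 12 ∨ x = 16 ∨ x = 18 ∨ x = 20) (h1 : x ≠ 2) (h2 : x ≠ 12) (h3 : x ≠ 16) (h4 : x ≠ 18) (h5 : x ≠ 20) (h6 : x ≠ 8) : x = 6 := by omega

end N2fin

set_option maxHeartbeats 4000000 in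
theorem fin2 : Fin2 := by
  intro E pl tm a b c G1 G2 hG sA tA sB tB sC tC pA qA pB qB pC qC S
  obtain ⟨e_s0A3, pl_s0A3, h_s0A3⟩ := S.s0A (i := 3) (n2_le rfl) (n2_le rfl) rfl
  have n_s0A3_1 : pl e_s0A3 ≠ 1 := n2_ne01 pl_s0A3
  have n_s0A3_2 : pl e_s0A3 ≠ 2 := n2_ne02 pl_s0A3
  have par_s0A3 := S.par0 e_s0A3 pl_s0A3
  have r_s0A3 := n2_rng (S.rangeB e_s0A3 n_s0A3_1)
  obtain ⟨e_s0A19, pl_s0A19, h_s0A19⟩ := S.s0A (i := 19) (n2_le rfl) (n2_le rfl) rfl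
  have n_s0A19_1 : pl e_s0A19 ≠ 1 := n2_ne01 pl_s0A19
  have n_s0A19_2 : pl e_s0A19 ≠ 2 := n2_ne02 pl_s0A19
  have par_s0A19 := S.par0 e_s0A19 pl_s0A19
  have r_s0A19 := n2_rng (S.rangeB e_s0A19 n_s0A19_1)
  obtain ⟨e_s0B5, pl_s0B5, h_s0B5⟩ := S.s0B (i := 5) (n2_le rfl) (n2_le rfl) rfl
  have n_s0B5_1 : pl e_s0B5 ≠ 1 := n2_ne01 pl_s0B5
  have n_s0B5_2 : pl e_s0B5 ≠ 2 := n2_ne02 pl_s0B5
  have par_s0B5 := S.par0 e_s0B5 pl_s0B5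
  have r_s0B5 := n2_rng (S.rangeA e_s0B5 n_s0B5_2)
  obtain ⟨e_s0B7, pl_s0B7, h_s0B7⟩ := S.s0B (i := 7) (n2_le rfl) (n2_le rfl) rfl
  have n_s0B7_1 : pl e_s0B7 ≠ 1 := n2_ne01 pl_s0B7
  have n_s0B7_2 : pl e_s0B7 ≠ 2 := n2_ne02 pl_s0B7
  have par_s0B7 := S.par0 e_s0B7 pl_s0B7
  have r_s0B7 := n2_rng (S.rangeA e_s0B7 n_s0B7_2)
  obtain ⟨e_s0B17, pl_s0B17, h_s0B17⟩ := S.s0B (i := 17) (n2_le rfl) (n2_le rfl) rfl
  have n_s0B17_1 : pl e_s0B17 ≠ 1 := n2_ne01 pl_s0B17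
  have n_s0B17_2 : pl e_s0B17 ≠ 2 := n2_ne02 pl_s0B17
  have par_s0B17 := S.par0 e_s0B17 pl_s0B17
  have r_s0B17 := n2_rng (S.rangeA e_s0B17 n_s0B17_2)
  obtain ⟨e_s0B19, pl_s0B19, h_s0B19⟩ := S.s0B (i := 19) (n2_le rfl) (n2_le rfl) rfl
  have n_s0B19_1 : pl e_s0B19 ≠ 1 := n2_ne01 pl_s0B19
  have n_s0B19_2 : pl e_s0B19 ≠ 2 := n2_ne02 pl_s0B19
  have par_s0B19 := S.par0 e_s0B19 pl_s0B19
  have r_s0B19 := n2_rng (S.rangeA e_s0B19 n_s0B19_2)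
  obtain ⟨e_s1A10, pl_s1A10, h_s1A10⟩ := S.s1A (i := 10) (n2_le rfl) (n2_le rfl) rfl
  have n_s1A10_0 : pl e_s1A10 ≠ 0 := n2_ne10 pl_s1A10
  have n_s1A10_2 : pl e_s1A10 ≠ 2 := n2_ne12 pl_s1A10
  have par_s1A10 := S.par1 e_s1A10 pl_s1A10
  have r_s1A10 := n2_rng (S.rangeC e_s1A10 n_s1A10_0)
  obtain ⟨e_s1A14, pl_s1A14, h_s1A14⟩ := S.s1A (i := 14) (n2_le rfl) (n2_le rfl) rfl
  have n_s1A14_0 : pl e_s1A14 ≠ 0 := n2_ne10 pl_s1A14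
  have n_s1A14_2 : pl e_s1A14 ≠ 2 := n2_ne12 pl_s1A14
  have par_s1A14 := S.par1 e_s1A14 pl_s1A14
  have r_s1A14 := n2_rng (S.rangeC e_s1A14 n_s1A14_0)
  obtain ⟨e_s1C1, pl_s1C1, h_s1C1⟩ := S.s1C (i := 1) (n2_le rfl) (n2_le rfl) rfl
  have n_s1C1_0 : pl e_s1C1 ≠ 0 := n2_ne10 pl_s1C1
  have n_s1C1_2 : pl e_s1C1 ≠ 2 := n2_ne12 pl_s1C1
  have par_s1C1 := S.par1 e_s1C1 pl_s1C1
  have r_s1C1 := n2_rng' (S.rangeA e_s1C1 n_s1C1_2) (par_s1C1).1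
  obtain ⟨e_s1C5, pl_s1C5, h_s1C5⟩ := S.s1C (i := 5) (n2_le rfl) (n2_le rfl) rfl
  have n_s1C5_0 : pl e_s1C5 ≠ 0 := n2_ne10 pl_s1C5
  have n_s1C5_2 : pl e_s1C5 ≠ 2 := n2_ne12 pl_s1C5
  have par_s1C5 := S.par1 e_s1C5 pl_s1C5
  have r_s1C5 := n2_rng' (S.rangeA e_s1C5 n_s1C5_2) (par_s1C5).1
  obtain ⟨e_s1C7, pl_s1C7, h_s1C7⟩ := S.s1C (i := 7) (n2_le rfl) (n2_le rfl) rfl
  have n_s1C7_0 : pl e_s1C7 ≠ 0 := n2_ne10 pl_s1C7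
  have n_s1C7_2 : pl e_s1C7 ≠ 2 := n2_ne12 pl_s1C7
  have par_s1C7 := S.par1 e_s1C7 pl_s1C7
  have r_s1C7 := n2_rng' (S.rangeA e_s1C7 n_s1C7_2) (par_s1C7).1
  obtain ⟨e_s1C17, pl_s1C17, h_s1C17⟩ := S.s1C (i := 17) (n2_le rfl) (n2_le rfl) rfl
  have n_s1C17_0 : pl e_s1C17 ≠ 0 := n2_ne10 pl_s1C17
  have n_s1C17_2 : pl e_s1C17 ≠ 2 := n2_ne12 pl_s1C17
  have par_s1C17 := S.par1 e_s1C17 pl_s1C17
  have r_s1C17 := n2_rng' (S.rangeA e_s1C17 n_s1C17_2) (par_s1C17).1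
  obtain ⟨e_s1C19, pl_s1C19, h_s1C19⟩ := S.s1C (i := 19) (n2_le rfl) (n2_le rfl) rfl
  have n_s1C19_0 : pl e_s1C19 ≠ 0 := n2_ne10 pl_s1C19
  have n_s1C19_2 : pl e_s1C19 ≠ 2 := n2_ne12 pl_s1C19
  have par_s1C19 := S.par1 e_s1C19 pl_s1C19
  have r_s1C19 := n2_rng' (S.rangeA e_s1C19 n_s1C19_2) (par_s1C19).1
  obtain ⟨e_s1C21, pl_s1C21, h_s1C21⟩ := S.s1C (i := 21) (n2_le rfl) (n2_le rfl) rfl
  have n_s1C21_0 : pl e_s1C21 ≠ 0 := n2_ne10 pl_s1C21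
  have n_s1C21_2 : pl e_s1C21 ≠ 2 := n2_ne12 pl_s1C21
  have par_s1C21 := S.par1 e_s1C21 pl_s1C21
  have r_s1C21 := n2_rng' (S.rangeA e_s1C21 n_s1C21_2) (par_s1C21).1
  obtain ⟨e_s2B4, pl_s2B4, h_s2B4⟩ := S.s2B (i := 4) (n2_le rfl) (n2_le rfl) rfl
  have n_s2B4_0 : pl e_s2B4 ≠ 0 := n2_ne20 pl_s2B4
  have n_s2B4_1 : pl e_s2B4 ≠ 1 := n2_ne21 pl_s2B4
  have par_s2B4 := S.par2 e_s2B4 pl_s2B4
  have r_s2B4 := n2_rng' (S.rangeC e_s2B4 n_s2B4_0) (par_s2B4).2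
  obtain ⟨e_s2B20, pl_s2B20, h_s2B20⟩ := S.s2B (i := 20) (n2_le rfl) (n2_le rfl) rfl
  have n_s2B20_0 : pl e_s2B20 ≠ 0 := n2_ne20 pl_s2B20
  have n_s2B20_1 : pl e_s2B20 ≠ 1 := n2_ne21 pl_s2B20
  have par_s2B20 := S.par2 e_s2B20 pl_s2B20
  have r_s2B20 := n2_rng' (S.rangeC e_s2B20 n_s2B20_0) (par_s2B20).2
  obtain ⟨e_h0A9, pl_h0A9, h_h0A9, H_h0A9⟩ := S.hostA0 9 (n2_le rfl) (n2_le rfl) rfl
  have n_h0A9_1 : pl e_h0A9 ≠ 1 := n2_ne01 pl_h0A9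
  have n_h0A9_2 : pl e_h0A9 ≠ 2 := n2_ne02 pl_h0A9
  have par_h0A9 := S.par0 e_h0A9 pl_h0A9
  have r_h0A9 := n2_rng (S.rangeB e_h0A9 n_h0A9_1)
  have d_h0A9 := n2_host2s (n2_v9 pA) pB r_h0A9 (par_h0A9).2 H_h0A9
  obtain ⟨e_h0A15, pl_h0A15, h_h0A15, H_h0A15⟩ := S.hostA0 15 (n2_le rfl) (n2_le rfl) rfl
  have n_h0A15_1 : pl e_h0A15 ≠ 1 := n2_ne01 pl_h0A15
  have n_h0A15_2 : pl e_h0A15 ≠ 2 := n2_ne02 pl_h0A15
  have par_h0A15 := S.par0 e_h0A15 pl_h0A15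
  have r_h0A15 := n2_rng (S.rangeB e_h0A15 n_h0A15_1)
  have d_h0A15 := n2_host2s (n2_v15 pA) pB r_h0A15 (par_h0A15).2 H_h0A15
  obtain ⟨e_h1A8, pl_h1A8, h_h1A8, H_h1A8⟩ := S.hostA1 8 (n2_le rfl) (n2_le rfl) rfl
  have n_h1A8_0 : pl e_h1A8 ≠ 0 := n2_ne10 pl_h1A8
  have n_h1A8_2 : pl e_h1A8 ≠ 2 := n2_ne12 pl_h1A8
  have par_h1A8 := S.par1 e_h1A8 pl_h1A8
  have r_h1A8 := n2_rng (S.rangeC e_h1A8 n_h1A8_0)
  have d_h1A8 := n2_host2s (n2_v8 qA) pC r_h1A8 (par_h1A8).2 H_h1A8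
  obtain ⟨e_h1A12, pl_h1A12, h_h1A12, H_h1A12⟩ := S.hostA1 12 (n2_le rfl) (n2_le rfl) rfl
  have n_h1A12_0 : pl e_h1A12 ≠ 0 := n2_ne10 pl_h1A12
  have n_h1A12_2 : pl e_h1A12 ≠ 2 := n2_ne12 pl_h1A12
  have par_h1A12 := S.par1 e_h1A12 pl_h1A12
  have r_h1A12 := n2_rng (S.rangeC e_h1A12 n_h1A12_0)
  have d_h1A12 := n2_host2s (n2_v12 qA) pC r_h1A12 (par_h1A12).2 H_h1A12
  obtain ⟨e_h1A16, pl_h1A16, h_h1A16, H_h1A16⟩ := S.hostA1 16 (n2_le rfl) (n2_le rfl) rfl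
  have n_h1A16_0 : pl e_h1A16 ≠ 0 := n2_ne10 pl_h1A16
  have n_h1A16_2 : pl e_h1A16 ≠ 2 := n2_ne12 pl_h1A16
  have par_h1A16 := S.par1 e_h1A16 pl_h1A16
  have r_h1A16 := n2_rng (S.rangeC e_h1A16 n_h1A16_0)
  have d_h1A16 := n2_host2s (n2_v16 qA) pC r_h1A16 (par_h1A16).2 H_h1A16
  obtain ⟨e_h0B11, pl_h0B11, h_h0B11, H_h0B11⟩ := S.hostB0 11 (n2_le rfl) (n2_le rfl) rfl
  have n_h0B11_1 : pl e_h0B11 ≠ 1 := n2_ne01 pl_h0B11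
  have n_h0B11_2 : pl e_h0B11 ≠ 2 := n2_ne02 pl_h0B11
  have par_h0B11 := S.par0 e_h0B11 pl_h0B11
  have r_h0B11 := n2_rng (S.rangeA e_h0B11 n_h0B11_2)
  have d_h0B11 := n2_host3s hG (n2_v11 pB) pA r_h0B11 (par_h0B11).1 H_h0B11
  obtain ⟨e_h0B13, pl_h0B13, h_h0B13, H_h0B13⟩ := S.hostB0 13 (n2_le rfl) (n2_le rfl) rfl
  have n_h0B13_1 : pl e_h0B13 ≠ 1 := n2_ne01 pl_h0B13
  have n_h0B13_2 : pl e_h0B13 ≠ 2 := n2_ne02 pl_h0B13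
  have par_h0B13 := S.par0 e_h0B13 pl_h0B13
  have r_h0B13 := n2_rng (S.rangeA e_h0B13 n_h0B13_2)
  have d_h0B13 := n2_host3s hG (n2_v13 pB) pA r_h0B13 (par_h0B13).1 H_h0B13
  obtain ⟨e_h2B6, pl_h2B6, h_h2B6, H_h2B6⟩ := S.hostB2 6 (n2_le rfl) (n2_le rfl) rfl
  have n_h2B6_0 : pl e_h2B6 ≠ 0 := n2_ne20 pl_h2B6
  have n_h2B6_1 : pl e_h2B6 ≠ 1 := n2_ne21 pl_h2B6
  have par_h2B6 := S.par2 e_h2B6 pl_h2B6
  have r_h2B6 := n2_rng' (S.rangeC e_h2B6 n_h2B6_0) (par_h2B6).2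
  have d_h2B6 := n2_host2t (n2_v6 qB) qC r_h2B6 (par_h2B6).2 H_h2B6
  obtain ⟨e_h2B8, pl_h2B8, h_h2B8, H_h2B8⟩ := S.hostB2 8 (n2_le rfl) (n2_le rfl) rfl
  have n_h2B8_0 : pl e_h2B8 ≠ 0 := n2_ne20 pl_h2B8
  have n_h2B8_1 : pl e_h2B8 ≠ 1 := n2_ne21 pl_h2B8
  have par_h2B8 := S.par2 e_h2B8 pl_h2B8
  have r_h2B8 := n2_rng' (S.rangeC e_h2B8 n_h2B8_0) (par_h2B8).2
  have d_h2B8 := n2_host2t (n2_v8 qB) qC r_h2B8 (par_h2B8).2 H_h2B8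
  obtain ⟨e_h2B12, pl_h2B12, h_h2B12, H_h2B12⟩ := S.hostB2 12 (n2_le rfl) (n2_le rfl) rfl
  have n_h2B12_0 : pl e_h2B12 ≠ 0 := n2_ne20 pl_h2B12
  have n_h2B12_1 : pl e_h2B12 ≠ 1 := n2_ne21 pl_h2B12
  have par_h2B12 := S.par2 e_h2B12 pl_h2B12
  have r_h2B12 := n2_rng' (S.rangeC e_h2B12 n_h2B12_0) (par_h2B12).2
  have d_h2B12 := n2_host2t (n2_v12 qB) qC r_h2B12 (par_h2B12).2 H_h2B12
  obtain ⟨e_h2B16, pl_h2B16, h_h2B16, H_h2B16⟩ := S.hostB2 16 (n2_le rfl) (n2_le rfl) rfl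
  have n_h2B16_0 : pl e_h2B16 ≠ 0 := n2_ne20 pl_h2B16
  have n_h2B16_1 : pl e_h2B16 ≠ 1 := n2_ne21 pl_h2B16
  have par_h2B16 := S.par2 e_h2B16 pl_h2B16
  have r_h2B16 := n2_rng' (S.rangeC e_h2B16 n_h2B16_0) (par_h2B16).2
  have d_h2B16 := n2_host2t (n2_v16 qB) qC r_h2B16 (par_h2B16).2 H_h2B16
  obtain ⟨e_h2B18, pl_h2B18, h_h2B18, H_h2B18⟩ := S.hostB2 18 (n2_le rfl) (n2_le rfl) rfl
  have n_h2B18_0 : pl e_h2B18 ≠ 0 := n2_ne20 pl_h2B18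
  have n_h2B18_1 : pl e_h2B18 ≠ 1 := n2_ne21 pl_h2B18
  have par_h2B18 := S.par2 e_h2B18 pl_h2B18
  have r_h2B18 := n2_rng' (S.rangeC e_h2B18 n_h2B18_0) (par_h2B18).2
  have d_h2B18 := n2_host2t (n2_v18 qB) qC r_h2B18 (par_h2B18).2 H_h2B18
  obtain ⟨e_h1C11, pl_h1C11, h_h1C11, H_h1C11⟩ := S.hostC1 11 (n2_le rfl) (n2_le rfl) rfl
  have n_h1C11_0 : pl e_h1C11 ≠ 0 := n2_ne10 pl_h1C11
  have n_h1C11_2 : pl e_h1C11 ≠ 2 := n2_ne12 pl_h1C11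
  have par_h1C11 := S.par1 e_h1C11 pl_h1C11
  have r_h1C11 := n2_rng' (S.rangeA e_h1C11 n_h1C11_2) (par_h1C11).1
  have d_h1C11 := n2_host3t hG (n2_v11 pC) qA r_h1C11 (par_h1C11).1 H_h1C11
  obtain ⟨e_h1C13, pl_h1C13, h_h1C13, H_h1C13⟩ := S.hostC1 13 (n2_le rfl) (n2_le rfl) rfl
  have n_h1C13_0 : pl e_h1C13 ≠ 0 := n2_ne10 pl_h1C13
  have n_h1C13_2 : pl e_h1C13 ≠ 2 := n2_ne12 pl_h1C13
  have par_h1C13 := S.par1 e_h1C13 pl_h1C13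
  have r_h1C13 := n2_rng' (S.rangeA e_h1C13 n_h1C13_2) (par_h1C13).1
  have d_h1C13 := n2_host3t hG (n2_v13 pC) qA r_h1C13 (par_h1C13).1 H_h1C13
  obtain ⟨e_h2C6, pl_h2C6, h_h2C6, H_h2C6⟩ := S.hostC2 6 (n2_le rfl) (n2_le rfl) rfl
  have n_h2C6_0 : pl e_h2C6 ≠ 0 := n2_ne20 pl_h2C6
  have n_h2C6_1 : pl e_h2C6 ≠ 1 := n2_ne21 pl_h2C6
  have par_h2C6 := S.par2 e_h2C6 pl_h2C6
  have r_h2C6 := n2_rng' (S.rangeB e_h2C6 n_h2C6_1) (par_h2C6).1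
  have d_h2C6 := n2_host2t (n2_v6 qC) qB r_h2C6 (par_h2C6).1 H_h2C6
  obtain ⟨e_h2C8, pl_h2C8, h_h2C8, H_h2C8⟩ := S.hostC2 8 (n2_le rfl) (n2_le rfl) rfl
  have n_h2C8_0 : pl e_h2C8 ≠ 0 := n2_ne20 pl_h2C8
  have n_h2C8_1 : pl e_h2C8 ≠ 1 := n2_ne21 pl_h2C8
  have par_h2C8 := S.par2 e_h2C8 pl_h2C8
  have r_h2C8 := n2_rng' (S.rangeB e_h2C8 n_h2C8_1) (par_h2C8).1
  have d_h2C8 := n2_host2t (n2_v8 qC) qB r_h2C8 (par_h2C8).1 H_h2C8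
  obtain ⟨e_h2C16, pl_h2C16, h_h2C16, H_h2C16⟩ := S.hostC2 16 (n2_le rfl) (n2_le rfl) rfl
  have n_h2C16_0 : pl e_h2C16 ≠ 0 := n2_ne20 pl_h2C16
  have n_h2C16_1 : pl e_h2C16 ≠ 1 := n2_ne21 pl_h2C16
  have par_h2C16 := S.par2 e_h2C16 pl_h2C16
  have r_h2C16 := n2_rng' (S.rangeB e_h2C16 n_h2C16_1) (par_h2C16).1
  have d_h2C16 := n2_host2t (n2_v16 qC) qB r_h2C16 (par_h2C16).1 H_h2C16
  obtain ⟨e_h2C18, pl_h2C18, h_h2C18, H_h2C18⟩ := S.hostC2 18 (n2_le rfl) (n2_le rfl) rfl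
  have n_h2C18_0 : pl e_h2C18 ≠ 0 := n2_ne20 pl_h2C18
  have n_h2C18_1 : pl e_h2C18 ≠ 1 := n2_ne21 pl_h2C18
  have par_h2C18 := S.par2 e_h2C18 pl_h2C18
  have r_h2C18 := n2_rng' (S.rangeB e_h2C18 n_h2C18_1) (par_h2C18).1
  have d_h2C18 := n2_host2t (n2_v18 qC) qB r_h2C18 (par_h2C18).1 H_h2C18
  exact
    have f0 : 3 ≤ a e_s0A3 := h_s0A3.ge
    have f1 : a e_s0A3 ≤ 3 := h_s0A3.le
    have f4 : 19 ≤ a e_s0A19 := h_s0A19.ge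
    have f5 : a e_s0A19 ≤ 19 := h_s0A19.le
    have f10 : 5 ≤ b e_s0B5 := h_s0B5.ge
    have f11 : b e_s0B5 ≤ 5 := h_s0B5.le
    have f14 : 7 ≤ b e_s0B7 := h_s0B7.ge
    have f15 : b e_s0B7 ≤ 7 := h_s0B7.le
    have f18 : 17 ≤ b e_s0B17 := h_s0B17.ge
    have f19 : b e_s0B17 ≤ 17 := h_s0B17.le
    have f22 : 19 ≤ b e_s0B19 := h_s0B19.ge
    have f23 : b e_s0B19 ≤ 19 := h_s0B19.le
    have f24 : 10 ≤ a e_s1A10 := h_s1A10.ge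
    have f25 : a e_s1A10 ≤ 10 := h_s1A10.le
    have f28 : 14 ≤ a e_s1A14 := h_s1A14.ge
    have f29 : a e_s1A14 ≤ 14 := h_s1A14.le
    have f32 : 2 ≤ a e_s1C1 := (r_s1C1).1
    have f35 : c e_s1C1 ≤ 1 := h_s1C1.le
    have f38 : 5 ≤ c e_s1C5 := h_s1C5.ge
    have f39 : c e_s1C5 ≤ 5 := h_s1C5.le
    have f42 : 7 ≤ c e_s1C7 := h_s1C7.ge
    have f43 : c e_s1C7 ≤ 7 := h_s1C7.le
    have f46 : 17 ≤ c e_s1C17 := h_s1C17.ge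
    have f47 : c e_s1C17 ≤ 17 := h_s1C17.le
    have f50 : 19 ≤ c e_s1C19 := h_s1C19.ge
    have f51 : c e_s1C19 ≤ 19 := h_s1C19.le
    have f53 : a e_s1C21 ≤ 20 := (r_s1C21).2
    have f54 : 21 ≤ c e_s1C21 := h_s1C21.ge
    have f57 : b e_s2B4 ≤ 4 := h_s2B4.le
    have f58 : 2 ≤ c e_s2B4 := (r_s2B4).1
    have f60 : 20 ≤ b e_s2B20 := h_s2B20.ge
    have f63 : c e_s2B20 ≤ 20 := (r_s2B20).2
    have f64 : 9 ≤ a e_h0A9 := h_h0A9.ge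
    have f65 : a e_h0A9 ≤ 9 := h_h0A9.le
    have f68 : 15 ≤ a e_h0A15 := h_h0A15.ge
    have f69 : a e_h0A15 ≤ 15 := h_h0A15.le
    have f72 : 8 ≤ a e_h1A8 := h_h1A8.ge
    have f73 : a e_h1A8 ≤ 8 := h_h1A8.le
    have f76 : 12 ≤ a e_h1A12 := h_h1A12.ge
    have f77 : a e_h1A12 ≤ 12 := h_h1A12.le
    have f80 : 16 ≤ a e_h1A16 := h_h1A16.ge
    have f81 : a e_h1A16 ≤ 16 := h_h1A16.le
    have f86 : 11 ≤ b e_h0B11 := h_h0B11.ge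
    have f87 : b e_h0B11 ≤ 11 := h_h0B11.le
    have f90 : 13 ≤ b e_h0B13 := h_h0B13.ge
    have f91 : b e_h0B13 ≤ 13 := h_h0B13.le
    have f92 : 6 ≤ b e_h2B6 := h_h2B6.ge
    have f93 : b e_h2B6 ≤ 6 := h_h2B6.le
    have f96 : 8 ≤ b e_h2B8 := h_h2B8.ge
    have f97 : b e_h2B8 ≤ 8 := h_h2B8.le
    have f100 : 12 ≤ b e_h2B12 := h_h2B12.ge
    have f101 : b e_h2B12 ≤ 12 := h_h2B12.le
    have f104 : 16 ≤ b e_h2B16 := h_h2B16.ge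
    have f105 : b e_h2B16 ≤ 16 := h_h2B16.le
    have f108 : 18 ≤ b e_h2B18 := h_h2B18.ge
    have f109 : b e_h2B18 ≤ 18 := h_h2B18.le
    have f114 : 11 ≤ c e_h1C11 := h_h1C11.ge
    have f115 : c e_h1C11 ≤ 11 := h_h1C11.le
    have f118 : 13 ≤ c e_h1C13 := h_h1C13.ge
    have f119 : c e_h1C13 ≤ 13 := h_h1C13.le
    have f120 : 2 ≤ b e_h2C6 := (r_h2C6).1
    have f122 : 6 ≤ c e_h2C6 := h_h2C6.ge
    have f123 : c e_h2C6 ≤ 6 := h_h2C6.le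
    have f126 : 8 ≤ c e_h2C8 := h_h2C8.ge
    have f127 : c e_h2C8 ≤ 8 := h_h2C8.le
    have f129 : b e_h2C16 ≤ 20 := (r_h2C16).2
    have f130 : 16 ≤ c e_h2C16 := h_h2C16.ge
    have f131 : c e_h2C16 ≤ 16 := h_h2C16.le
    have f134 : 18 ≤ c e_h2C18 := h_h2C18.ge
    have f135 : c e_h2C18 ≤ 18 := h_h2C18.le
    have f141 : tm e_s0A3 < tm e_h1A8 := S.monoA _ _ n_s0A3_2 n_h1A8_2 (lt_of_le_of_lt f1 (lt_of_lt_of_le (n2_lt rfl) f72))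
    have f150 : tm e_s0B5 < tm e_h2B6 := S.monoB _ _ n_s0B5_1 n_h2B6_1 (lt_of_le_of_lt f11 (lt_of_lt_of_le (n2_lt rfl) f92))
    have f151 : tm e_s0B5 < tm e_h2B8 := S.monoB _ _ n_s0B5_1 n_h2B8_1 (lt_of_le_of_lt f11 (lt_of_lt_of_le (n2_lt rfl) f96))
    have f160 : tm e_s0B7 < tm e_h2B8 := S.monoB _ _ n_s0B7_1 n_h2B8_1 (lt_of_le_of_lt f15 (lt_of_lt_of_le (n2_lt rfl) f96))
    have f165 : tm e_s0B17 < tm e_s2B20 := S.monoB _ _ n_s0B17_1 n_s2B20_1 (lt_of_le_of_lt f19 (lt_of_lt_of_le (n2_lt rfl) f60))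
    have f166 : tm e_s0B17 < tm e_h2B18 := S.monoB _ _ n_s0B17_1 n_h2B18_1 (lt_of_le_of_lt f19 (lt_of_lt_of_le (n2_lt rfl) f108))
    have f167 : tm e_s0B19 < tm e_s2B20 := S.monoB _ _ n_s0B19_1 n_s2B20_1 (lt_of_le_of_lt f23 (lt_of_lt_of_le (n2_lt rfl) f60))
    have f174 : tm e_s1A14 < tm e_h0A15 := S.monoA _ _ n_s1A14_2 n_h0A15_2 (lt_of_le_of_lt f29 (lt_of_lt_of_le (n2_lt rfl) f68))
    have f181 : tm e_s1C1 < tm e_s2B4 := S.monoC _ _ n_s1C1_0 n_s2B4_0 (lt_of_le_of_lt f35 (lt_of_lt_of_le (n2_lt rfl) f58))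
    have f200 : tm e_s1C5 < tm e_h2C6 := S.monoC _ _ n_s1C5_0 n_h2C6_0 (lt_of_le_of_lt f39 (lt_of_lt_of_le (n2_lt rfl) f122))
    have f209 : tm e_s1C7 < tm e_h2C8 := S.monoC _ _ n_s1C7_0 n_h2C8_0 (lt_of_le_of_lt f43 (lt_of_lt_of_le (n2_lt rfl) f126))
    have f214 : tm e_s1C17 < tm e_h2C18 := S.monoC _ _ n_s1C17_0 n_h2C18_0 (lt_of_le_of_lt f47 (lt_of_lt_of_le (n2_lt rfl) f134))
    have f216 : tm e_s2B4 < tm e_s0B5 := S.monoB _ _ n_s2B4_1 n_s0B5_1 (lt_of_le_of_lt f57 (lt_of_lt_of_le (n2_lt rfl) f10))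
    have f222 : tm e_s2B4 < tm e_h0B11 := S.monoB _ _ n_s2B4_1 n_h0B11_1 (lt_of_le_of_lt f57 (lt_of_lt_of_le (n2_lt rfl) f86))
    have f229 : tm e_s2B20 < tm e_s1C21 := S.monoC _ _ n_s2B20_0 n_s1C21_0 (lt_of_le_of_lt f63 (lt_of_lt_of_le (n2_lt rfl) f54))
    have f231 : tm e_h0A9 < tm e_s1A10 := S.monoA _ _ n_h0A9_2 n_s1A10_2 (lt_of_le_of_lt f65 (lt_of_lt_of_le (n2_lt rfl) f24))
    have f234 : tm e_h0A9 < tm e_h1A12 := S.monoA _ _ n_h0A9_2 n_h1A12_2 (lt_of_le_of_lt f65 (lt_of_lt_of_le (n2_lt rfl) f76))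
    have f239 : tm e_h1A8 < tm e_s1A10 := S.monoA _ _ n_h1A8_2 n_s1A10_2 (lt_of_le_of_lt f73 (lt_of_lt_of_le (n2_lt rfl) f24))
    have f241 : tm e_h1A8 < tm e_h0A9 := S.monoA _ _ n_h1A8_2 n_h0A9_2 (lt_of_le_of_lt f73 (lt_of_lt_of_le (n2_lt rfl) f64))
    have f247 : tm e_h1A12 < tm e_h0A15 := S.monoA _ _ n_h1A12_2 n_h0A15_2 (lt_of_le_of_lt f77 (lt_of_lt_of_le (n2_lt rfl) f68))
    have f249 : tm e_h1A16 < tm e_s0A19 := S.monoA _ _ n_h1A16_2 n_s0A19_2 (lt_of_le_of_lt f81 (lt_of_lt_of_le (n2_lt rfl) f4))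
    have f252 : tm e_h0B11 < tm e_s2B20 := S.monoB _ _ n_h0B11_1 n_s2B20_1 (lt_of_le_of_lt f87 (lt_of_lt_of_le (n2_lt rfl) f60))
    have f254 : tm e_h0B11 < tm e_h2B12 := S.monoB _ _ n_h0B11_1 n_h2B12_1 (lt_of_le_of_lt f87 (lt_of_lt_of_le (n2_lt rfl) f100))
    have f259 : tm e_h0B13 < tm e_s2B20 := S.monoB _ _ n_h0B13_1 n_s2B20_1 (lt_of_le_of_lt f91 (lt_of_lt_of_le (n2_lt rfl) f60))
    have f262 : tm e_h2B6 < tm e_s0B7 := S.monoB _ _ n_h2B6_1 n_s0B7_1 (lt_of_le_of_lt f93 (lt_of_lt_of_le (n2_lt rfl) f14))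
    have f267 : tm e_h2B6 < tm e_h0B11 := S.monoB _ _ n_h2B6_1 n_h0B11_1 (lt_of_le_of_lt f93 (lt_of_lt_of_le (n2_lt rfl) f86))
    have f270 : tm e_h2B6 < tm e_h2B12 := S.monoB _ _ n_h2B6_1 n_h2B12_1 (lt_of_le_of_lt f93 (lt_of_lt_of_le (n2_lt rfl) f100))
    have f282 : tm e_h2B12 < tm e_s0B17 := S.monoB _ _ n_h2B12_1 n_s0B17_1 (lt_of_le_of_lt f101 (lt_of_lt_of_le (n2_lt rfl) f18))
    have f286 : tm e_h2B12 < tm e_h0B13 := S.monoB _ _ n_h2B12_1 n_h0B13_1 (lt_of_le_of_lt f101 (lt_of_lt_of_le (n2_lt rfl) f90))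
    have f289 : tm e_h2B16 < tm e_s0B17 := S.monoB _ _ n_h2B16_1 n_s0B17_1 (lt_of_le_of_lt f105 (lt_of_lt_of_le (n2_lt rfl) f18))
    have f294 : tm e_h2B18 < tm e_s0B19 := S.monoB _ _ n_h2B18_1 n_s0B19_1 (lt_of_le_of_lt f109 (lt_of_lt_of_le (n2_lt rfl) f22))
    have f301 : tm e_h1C11 < tm e_h2C16 := S.monoC _ _ n_h1C11_0 n_h2C16_0 (lt_of_le_of_lt f115 (lt_of_lt_of_le (n2_lt rfl) f130))
    have f308 : tm e_h2C6 < tm e_s1C7 := S.monoC _ _ n_h2C6_0 n_s1C7_0 (lt_of_le_of_lt f123 (lt_of_lt_of_le (n2_lt rfl) f42))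
    have f312 : tm e_h2C6 < tm e_h1C11 := S.monoC _ _ n_h2C6_0 n_h1C11_0 (lt_of_le_of_lt f123 (lt_of_lt_of_le (n2_lt rfl) f114))
    have f324 : tm e_h2C16 < tm e_s1C17 := S.monoC _ _ n_h2C16_0 n_s1C17_0 (lt_of_le_of_lt f131 (lt_of_lt_of_le (n2_lt rfl) f46))
    have f328 : tm e_h2C18 < tm e_s1C19 := S.monoC _ _ n_h2C18_0 n_s1C19_0 (lt_of_le_of_lt f135 (lt_of_lt_of_le (n2_lt rfl) f50))
    have f330 : tm e_s1C1 < tm e_s0B5 := lt_trans f181 f216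
    have f334 : tm e_s1C1 < tm e_h0B11 := lt_trans f181 f222
    have f338 : tm e_s0B17 < tm e_s1C21 := lt_trans f165 f229
    have f339 : tm e_s0B19 < tm e_s1C21 := lt_trans f167 f229
    have f340 : tm e_h0B11 < tm e_s1C21 := lt_trans f252 f229
    have f341 : tm e_h0B13 < tm e_s1C21 := lt_trans f259 f229
    have f342 : 3 ≤ a e_s0B5 := n2_pf_lo (le_trans f32 (S.leA n_s1C1_2 n_s0B5_2 (le_of_lt f330))) (par_s0B5).1 (n2_ne rfl)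
    have f346 : 3 ≤ a e_h0B11 := n2_pf_lo (le_trans f32 (S.leA n_s1C1_2 n_h0B11_2 (le_of_lt f334))) (par_h0B11).1 (n2_ne rfl)
    have f351 : a e_s0B17 ≤ 19 := n2_pf_hi (le_trans (S.leA n_s0B17_2 n_s1C21_2 (le_of_lt f338)) f53) (par_s0B17).1 (n2_ne rfl)
    have f352 : a e_s0B19 ≤ 19 := n2_pf_hi (le_trans (S.leA n_s0B19_2 n_s1C21_2 (le_of_lt f339)) f53) (par_s0B19).1 (n2_ne rfl)
    have f353 : a e_h0B11 ≤ 19 := n2_pf_hi (le_trans (S.leA n_h0B11_2 n_s1C21_2 (le_of_lt f340)) f53) (par_h0B11).1 (n2_ne rfl)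
    have f354 : a e_h0B13 ≤ 19 := n2_pf_hi (le_trans (S.leA n_h0B13_2 n_s1C21_2 (le_of_lt f341)) f53) (par_h0B13).1 (n2_ne rfl)
    have f357 : 11 ≤ a e_h0B11 := n2q_0 _ d_h0B11 f346
    have f358 : a e_h0B11 ≤ 13 := n2q_1 _ d_h0B11 f353
    have f362 : a e_h0B13 ≤ 13 := n2q_1 _ d_h0B13 f354
    have f366 : tm e_s1A10 < tm e_h0B11 := S.monoA _ _ n_s1A10_2 n_h0B11_2 (lt_of_le_of_lt f25 (lt_of_lt_of_le (n2_lt rfl) f357))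
    have f370 : tm e_h1A8 < tm e_h0B11 := S.monoA _ _ n_h1A8_2 n_h0B11_2 (lt_of_le_of_lt f73 (lt_of_lt_of_le (n2_lt rfl) f357))
    have f373 : tm e_h0B11 < tm e_s1A14 := S.monoA _ _ n_h0B11_2 n_s1A14_2 (lt_of_le_of_lt f358 (lt_of_lt_of_le (n2_lt rfl) f28))
    have f375 : tm e_h0B11 < tm e_h1A16 := S.monoA _ _ n_h0B11_2 n_h1A16_2 (lt_of_le_of_lt f358 (lt_of_lt_of_le (n2_lt rfl) f80))
    have f376 : tm e_h0B13 < tm e_s0A19 := S.monoA _ _ n_h0B13_2 n_s0A19_2 (lt_of_le_of_lt f362 (lt_of_lt_of_le (n2_lt rfl) f4))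
    have f377 : tm e_h0B13 < tm e_s1A14 := S.monoA _ _ n_h0B13_2 n_s1A14_2 (lt_of_le_of_lt f362 (lt_of_lt_of_le (n2_lt rfl) f28))
    have f397 : tm e_s1A10 < tm e_s2B20 := lt_trans f366 f252
    have f398 : tm e_s1A10 < tm e_h2B12 := lt_trans f366 f254
    have f406 : tm e_s2B4 < tm e_s1A14 := lt_trans f222 f373
    have f408 : tm e_s2B4 < tm e_h1A16 := lt_trans f222 f375
    have f419 : tm e_h1A8 < tm e_s2B20 := lt_trans f370 f252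
    have f424 : tm e_h2B6 < tm e_s1A14 := lt_trans f267 f373
    have f431 : tm e_h2B12 < tm e_s0A19 := lt_trans f286 f376
    have f432 : tm e_h2B12 < tm e_s1A14 := lt_trans f286 f377
    have f447 : c e_s1A10 ≤ 19 := n2_pf_hi (le_trans (S.leC n_s1A10_0 n_s2B20_0 (le_of_lt f397)) f63) (par_s1A10).2 (n2_ne rfl)
    have f448 : 3 ≤ c e_s1A14 := n2_pf_lo (le_trans f58 (S.leC n_s2B4_0 n_s1A14_0 (le_of_lt f406))) (par_s1A14).2 (n2_ne rfl)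
    have f449 : 3 ≤ c e_h1A16 := n2_pf_lo (le_trans f58 (S.leC n_s2B4_0 n_h1A16_0 (le_of_lt f408))) (par_h1A16).2 (n2_ne rfl)
    have f450 : c e_h1A8 ≤ 19 := n2_pf_hi (le_trans (S.leC n_h1A8_0 n_s2B20_0 (le_of_lt f419)) f63) (par_h1A8).2 (n2_ne rfl)
    have f458 : c e_h1A8 ≤ 15 := n2q_2 _ d_h1A8 f450
    have f460 : 9 ≤ c e_h1A16 := n2q_3 _ d_h1A16 f449
    have f465 : tm e_h1A8 < tm e_h2C16 := S.monoC _ _ n_h1A8_0 n_h2C16_0 (lt_of_le_of_lt f458 (lt_of_lt_of_le (n2_lt rfl) f130))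
    have f468 : tm e_h2C8 < tm e_h1A16 := S.monoC _ _ n_h2C8_0 n_h1A16_0 (lt_of_le_of_lt f127 (lt_of_lt_of_le (n2_lt rfl) f460))
    have f471 : tm e_s0A3 < tm e_h2C16 := lt_trans f141 f465
    have f476 : tm e_h2C8 < tm e_s0A19 := lt_trans f468 f249
    Or.elim (Nat.lt_or_ge (c e_h1A8) 9)
      (fun g => have f1517 : c e_h1A8 ≤ 8 := Nat.le_of_lt_succ g
        have f1522 : c e_h1A8 ≤ 1 := n2q_4 _ d_h1A8 f1517
        have f1528 : tm e_h1A8 < tm e_h1C11 := S.monoC _ _ n_h1A8_0 n_h1C11_0 (lt_of_le_of_lt f1522 (lt_of_lt_of_le (n2_lt rfl) f114))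
        have f1547 : 8 ≤ a e_h1C11 := (le_trans f72 (S.leA n_h1A8_2 n_h1C11_2 (le_of_lt f1528)))
        have f1554 : 20 ≤ a e_h1C11 := n2q_5 _ d_h1C11 f1547
        have f1557 : tm e_s0A19 < tm e_h1C11 := S.monoA _ _ n_s0A19_2 n_h1C11_2 (lt_of_le_of_lt f5 (lt_of_lt_of_le (n2_lt rfl) f1554))
        have f1563 : tm e_s0B17 < tm e_h1C11 := S.monoA _ _ n_s0B17_2 n_h1C11_2 (lt_of_le_of_lt f351 (lt_of_lt_of_le (n2_lt rfl) f1554))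
        have f1565 : tm e_s0B19 < tm e_h1C11 := S.monoA _ _ n_s0B19_2 n_h1C11_2 (lt_of_le_of_lt f352 (lt_of_lt_of_le (n2_lt rfl) f1554))
        have f1573 : tm e_h0A15 < tm e_h1C11 := S.monoA _ _ n_h0A15_2 n_h1C11_2 (lt_of_le_of_lt f69 (lt_of_lt_of_le (n2_lt rfl) f1554))
        have f1589 : tm e_h2B12 < tm e_h1C11 := lt_trans f431 f1557
        have f1591 : tm e_h2B16 < tm e_h1C11 := lt_trans f289 f1563
        have f1593 : tm e_h2B18 < tm e_h1C11 := lt_trans f294 f1565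
        have f1598 : tm e_s0A19 < tm e_h2C16 := lt_trans f1557 f301
        have f1636 : tm e_h0A15 < tm e_h2C16 := lt_trans f1573 f301
        have f1686 : c e_h2B12 ≤ 10 := n2_pf_hi (le_trans (S.leC n_h2B12_0 n_h1C11_0 (le_of_lt f1589)) f115) (par_h2B12).2 (n2_ne rfl)
        have f1687 : c e_h2B16 ≤ 10 := n2_pf_hi (le_trans (S.leC n_h2B16_0 n_h1C11_0 (le_of_lt f1591)) f115) (par_h2B16).2 (n2_ne rfl)
        have f1688 : c e_h2B18 ≤ 10 := n2_pf_hi (le_trans (S.leC n_h2B18_0 n_h1C11_0 (le_of_lt f1593)) f115) (par_h2B18).2 (n2_ne rfl)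
        have f1690 : b e_s0A19 ≤ 19 := n2_pf_hi (le_trans (S.leB n_s0A19_1 n_h2C16_1 (le_of_lt f1598)) f129) (par_s0A19).2 (n2_ne rfl)
        have f1696 : b e_h0A15 ≤ 19 := n2_pf_hi (le_trans (S.leB n_h0A15_1 n_h2C16_1 (le_of_lt f1636)) f129) (par_h0A15).2 (n2_ne rfl)
        have f1698 : b e_h0A15 ≤ 15 := n2q_2 _ d_h0A15 f1696
        have f1715 : c e_h2B12 ≠ 12 := n2_ne_hi f1686 (n2_lt rfl)
        have f1716 : c e_h2B12 ≠ 16 := n2_ne_hi f1686 (n2_lt rfl)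
        have f1717 : c e_h2B12 ≠ 18 := n2_ne_hi f1686 (n2_lt rfl)
        have f1718 : c e_h2B12 ≠ 20 := n2_ne_hi f1686 (n2_lt rfl)
        have f1720 : c e_h2B16 ≠ 12 := n2_ne_hi f1687 (n2_lt rfl)
        have f1721 : c e_h2B16 ≠ 16 := n2_ne_hi f1687 (n2_lt rfl)
        have f1722 : c e_h2B16 ≠ 18 := n2_ne_hi f1687 (n2_lt rfl)
        have f1723 : c e_h2B16 ≠ 20 := n2_ne_hi f1687 (n2_lt rfl)
        have f1724 : c e_h2B16 ≤ 8 := n2q_6 _ d_h2B16 f1687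
        have f1729 : c e_h2B18 ≤ 8 := n2q_6 _ d_h2B18 f1688
        have f1746 : tm e_h0A15 < tm e_h2B16 := S.monoB _ _ n_h0A15_1 n_h2B16_1 (lt_of_le_of_lt f1698 (lt_of_lt_of_le (n2_lt rfl) f104))
        have f1749 : tm e_h2B18 < tm e_h1A16 := S.monoC _ _ n_h2B18_0 n_h1A16_0 (lt_of_le_of_lt f1729 (lt_of_lt_of_le (n2_lt rfl) f460))
        have f1759 : tm e_s1A14 < tm e_h2B16 := lt_trans f174 f1746
        have f1763 : tm e_h1A12 < tm e_h2B16 := lt_trans f247 f1746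
        have f1768 : tm e_s0B17 < tm e_h1A16 := lt_trans f166 f1749
        have f1772 : b e_h2C8 ≤ 18 := n2_pf_hi (le_trans (S.leB n_h2C8_1 n_s0A19_1 (le_of_lt f476)) f1690) (par_h2C8).1 (n2_ne rfl)
        have f1779 : 4 ≤ c e_h2B16 := n2_pf_lo (le_trans f448 (S.leC n_s1A14_0 n_h2B16_0 (le_of_lt f1759))) (par_h2B16).2 (n2_ne rfl)
        have f1780 : c e_s1A14 ≤ 7 := n2_pf_hi (le_trans (S.leC n_s1A14_0 n_h2B16_0 (le_of_lt f1759)) f1724) (par_s1A14).2 (n2_ne rfl)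
        have f1782 : c e_h1A12 ≤ 7 := n2_pf_hi (le_trans (S.leC n_h1A12_0 n_h2B16_0 (le_of_lt f1763)) f1724) (par_h1A12).2 (n2_ne rfl)
        have f1785 : a e_s0B17 ≤ 15 := n2_pf_hi (le_trans (S.leA n_s0B17_2 n_h1A16_2 (le_of_lt f1768)) f81) (par_s0B17).1 (n2_ne rfl)
        have f1788 : c e_h1A12 ≤ 1 := n2q_7 _ d_h1A12 f1782
        have f1789 : c e_h2B16 ≠ 2 := n2_ne_lo f1779 (n2_lt rfl)
        have f1794 : b e_h2C8 ≠ 20 := n2_ne_hi f1772 (n2_lt rfl)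
        have f1796 : tm e_s1A14 < tm e_h2C8 := S.monoC _ _ n_s1A14_0 n_h2C8_0 (lt_of_le_of_lt f1780 (lt_of_lt_of_le (n2_lt rfl) f126))
        have f1801 : tm e_h1A12 < tm e_s2B4 := S.monoC _ _ n_h1A12_0 n_s2B4_0 (lt_of_le_of_lt f1788 (lt_of_lt_of_le (n2_lt rfl) f58))
        have f1814 : tm e_h0B13 < tm e_h2C8 := lt_trans f377 f1796
        have f1818 : tm e_h1A12 < tm e_s0B5 := lt_trans f1801 f216
        have f1845 : c e_h2B12 ≤ 6 := n2_pf_hi (le_trans (S.leC n_h2B12_0 n_s1A14_0 (le_of_lt f432)) f1780) (par_h2B12).2 (n2_ne rfl)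
        have f1851 : 14 ≤ b e_h2C8 := n2_pf_lo (le_trans f90 (S.leB n_h0B13_1 n_h2C8_1 (le_of_lt f1814))) (par_h2C8).1 (n2_ne rfl)
        have f1852 : 13 ≤ a e_s0B5 := n2_pf_lo (le_trans f76 (S.leA n_h1A12_2 n_s0B5_2 (le_of_lt f1818))) (par_s0B5).1 (n2_ne rfl)
        have f1866 : c e_h2B12 ≠ 8 := n2_ne_hi f1845 (n2_lt rfl)
        have f1867 : b e_h2C8 ≠ 2 := n2_ne_lo f1851 (n2_lt rfl)
        have f1868 : b e_h2C8 ≠ 6 := n2_ne_lo f1851 (n2_lt rfl)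
        have f1869 : b e_h2C8 ≠ 8 := n2_ne_lo f1851 (n2_lt rfl)
        have f1870 : b e_h2C8 ≠ 12 := n2_ne_lo f1851 (n2_lt rfl)
        Or.elim (Nat.lt_or_ge (c e_h2B6) 6)
          (fun g => have f36339 : c e_h2B6 ≤ 5 := Nat.le_of_lt_succ g
            have f36341 : c e_h2B6 ≤ 2 := n2q_8 _ d_h2B6 f36339
            have f36342 : tm e_h2B6 < tm e_s1C5 := S.monoC _ _ n_h2B6_0 n_s1C5_0 (lt_of_le_of_lt f36341 (lt_of_lt_of_le (n2_lt rfl) f38))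
            have f36344 : tm e_s0B5 < tm e_s1C5 := lt_trans f150 f36342
            have f36350 : 14 ≤ a e_s1C5 := n2_pf_lo (le_trans f1852 (S.leA n_s0B5_2 n_s1C5_2 (le_of_lt f36344))) (par_s1C5).1 (n2_ne rfl)
            have f36354 : tm e_h0B13 < tm e_s1C5 := S.monoA _ _ n_h0B13_2 n_s1C5_2 (lt_of_le_of_lt f362 (lt_of_lt_of_le (n2_lt rfl) f36350))
            have f36357 : tm e_h0B13 < tm e_h2C6 := lt_trans f36354 f200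
            have f36364 : 14 ≤ b e_h2C6 := n2_pf_lo (le_trans f90 (S.leB n_h0B13_1 n_h2C6_1 (le_of_lt f36357))) (par_h2C6).1 (n2_ne rfl)
            have f36374 : 16 ≤ b e_h2C6 := n2q_9 _ d_h2C6 f36364
            have f36375 : tm e_h0A15 < tm e_h2C6 := S.monoB _ _ n_h0A15_1 n_h2C6_1 (lt_of_le_of_lt f1698 (lt_of_lt_of_le (n2_lt rfl) f36374))
            have f36378 : tm e_h0A15 < tm e_s1C7 := lt_trans f36375 f308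
            have f36380 : 16 ≤ a e_s1C7 := n2_pf_lo (le_trans f68 (S.leA n_h0A15_2 n_s1C7_2 (le_of_lt f36378))) (par_s1C7).1 (n2_ne rfl)
            have f36381 : tm e_s0B17 < tm e_s1C7 := S.monoA _ _ n_s0B17_2 n_s1C7_2 (lt_of_le_of_lt f1785 (lt_of_lt_of_le (n2_lt rfl) f36380))
            have f36382 : tm e_h2B16 < tm e_s1C7 := lt_trans f289 f36381
            have f36383 : tm e_s0B17 < tm e_h2C8 := lt_trans f36381 f209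
            have f36386 : c e_h2B16 ≤ 6 := n2_pf_hi (le_trans (S.leC n_h2B16_0 n_s1C7_0 (le_of_lt f36382)) f43) (par_h2B16).2 (n2_ne rfl)
            have f36387 : 18 ≤ b e_h2C8 := n2_pf_lo (le_trans f18 (S.leB n_s0B17_1 n_h2C8_1 (le_of_lt f36383))) (par_h2C8).1 (n2_ne rfl)
            have f36388 : c e_h2B16 ≠ 8 := n2_ne_hi f36386 (n2_lt rfl)
            have f36389 : b e_h2C8 ≠ 16 := n2_ne_lo f36387 (n2_lt rfl)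
            have f36391 : c e_h2B16 ≠ 6 := fun hx => lt_irrefl _ (lt_trans (lt_of_lt_of_le (lt_of_le_of_lt (n2_hostv H_h2B16 hx (n2_le rfl) (n2_le rfl)) (n2_t23 (s := sC) qC)) (n2_hostv H_h2C8 (n2q_10 _ d_h2C8 f1794 f1867 f1868 f1869 f1870 f36389) (n2_le rfl) (n2_le rfl))) (n2_t87 (s := sB) qB))
            n2q_11 _ d_h2B16 f1789 f36391 f36388 f1720 f1721 f1722 f1723)
          (fun g => have f36394 : 6 ≤ c e_h2B6 := g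
            have f36404 : 6 ≤ c e_h2B12 := (le_trans f36394 (S.leC n_h2B6_0 n_h2B12_0 (le_of_lt f270)))
            have f36405 : 7 ≤ c e_s1A14 := n2_pf_lo (le_trans f36394 (S.leC n_h2B6_0 n_s1A14_0 (le_of_lt f424))) (par_s1A14).2 (n2_ne rfl)
            have f36406 : 8 ≤ c e_h2B16 := n2_pf_lo (le_trans f36405 (S.leC n_s1A14_0 n_h2B16_0 (le_of_lt f1759))) (par_h2B16).2 (n2_ne rfl)
            have f36410 : c e_h2B12 ≠ 2 := n2_ne_lo f36404 (n2_lt rfl)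
            have f36411 : c e_h2B16 ≠ 6 := n2_ne_lo f36406 (n2_lt rfl)
            have f36432 : b e_h2C8 ≠ 16 := fun hx => lt_irrefl _ (lt_trans (lt_of_lt_of_le (lt_of_le_of_lt (n2_hostv H_h2C8 hx (n2_le rfl) (n2_le rfl)) (n2_t75 (s := sB) qB)) (n2_hostv H_h2B12 (n2q_12 _ d_h2B12 f1715 f1716 f1717 f1718 f1866 f36410) (n2_le rfl) (n2_le rfl))) (n2_t23 (s := sC) qC))
            have f36433 : b e_h2C8 ≠ 18 := fun hx => lt_irrefl _ (lt_of_lt_of_le (lt_of_le_of_lt (n2_hostv H_h2C8 hx (n2_le rfl) (n2_le rfl)) (n2_t87 (s := sB) qB)) (n2_hostv H_h2B16 (n2q_13 _ d_h2B16 f1720 f1721 f1722 f1723 f1789 f36411) (n2_le rfl) (n2_le rfl)))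
            n2q_11 _ d_h2C8 f1867 f1868 f1869 f1870 f36432 f36433 f1794))
      (fun g => have f1884 : 9 ≤ c e_h1A8 := g
        have f1889 : tm e_h2C6 < tm e_h1A8 := S.monoC _ _ n_h2C6_0 n_h1A8_0 (lt_of_le_of_lt f123 (lt_of_lt_of_le (n2_lt rfl) f1884))
        have f1925 : tm e_h2C6 < tm e_h0A9 := lt_trans f1889 f241
        have f1946 : 9 ≤ c e_s1A10 := (le_trans f1884 (S.leC n_h1A8_0 n_s1A10_0 (le_of_lt f239)))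
        have f1950 : 10 ≤ c e_h2B12 := n2_pf_lo (le_trans f1946 (S.leC n_s1A10_0 n_h2B12_0 (le_of_lt f398))) (par_h2B12).2 (n2_ne rfl)
        have f1959 : 3 ≤ b e_h0A9 := n2_pf_lo (le_trans f120 (S.leB n_h2C6_1 n_h0A9_1 (le_of_lt f1925))) (par_h0A9).2 (n2_ne rfl)
        have f1964 : 9 ≤ b e_h0A9 := n2q_3 _ d_h0A9 f1959
        have f1967 : c e_h2B12 ≠ 2 := n2_ne_lo f1950 (n2_lt rfl)
        have f1968 : c e_h2B12 ≠ 6 := n2_ne_lo f1950 (n2_lt rfl)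
        have f1969 : c e_h2B12 ≠ 8 := n2_ne_lo f1950 (n2_lt rfl)
        have f1970 : 12 ≤ c e_h2B12 := n2q_14 _ d_h2B12 f1950
        have f1992 : tm e_h2B6 < tm e_h0A9 := S.monoB _ _ n_h2B6_1 n_h0A9_1 (lt_of_le_of_lt f93 (lt_of_lt_of_le (n2_lt rfl) f1964))
        have f1993 : tm e_h2B8 < tm e_h0A9 := S.monoB _ _ n_h2B8_1 n_h0A9_1 (lt_of_le_of_lt f97 (lt_of_lt_of_le (n2_lt rfl) f1964))
        have f1994 : tm e_h1C11 < tm e_h2B12 := S.monoC _ _ n_h1C11_0 n_h2B12_0 (lt_of_le_of_lt f115 (lt_of_lt_of_le (n2_lt rfl) f1970))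
        have f2003 : tm e_h2B6 < tm e_s1A10 := lt_trans f1992 f231
        have f2004 : tm e_h2B6 < tm e_h1A12 := lt_trans f1992 f234
        have f2005 : tm e_h2B8 < tm e_s1A10 := lt_trans f1993 f231
        have f2014 : tm e_h1C11 < tm e_h0B13 := lt_trans f1994 f286
        have f2021 : c e_h2B6 ≤ 18 := n2_pf_hi (le_trans (S.leC n_h2B6_0 n_s1A10_0 (le_of_lt f2003)) f447) (par_h2B6).2 (n2_ne rfl)
        have f2022 : c e_h2B8 ≤ 18 := n2_pf_hi (le_trans (S.leC n_h2B8_0 n_s1A10_0 (le_of_lt f2005)) f447) (par_h2B8).2 (n2_ne rfl)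
        have f2025 : a e_h1C11 ≤ 12 := n2_pf_hi (le_trans (S.leA n_h1C11_2 n_h0B13_2 (le_of_lt f2014)) f362) (par_h1C11).1 (n2_ne rfl)
        have f2027 : c e_h2B6 ≠ 20 := n2_ne_hi f2021 (n2_lt rfl)
        have f2028 : c e_h2B8 ≠ 20 := n2_ne_hi f2022 (n2_lt rfl)
        have f2030 : a e_h1C11 ≤ 2 := n2q_15 _ d_h1C11 f2025
        have f2034 : tm e_h1C11 < tm e_s0A3 := S.monoA _ _ n_h1C11_2 n_s0A3_2 (lt_of_le_of_lt f2030 (lt_of_lt_of_le (n2_lt rfl) f0))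
        have f2035 : tm e_h1C11 < tm e_s0B5 := S.monoA _ _ n_h1C11_2 n_s0B5_2 (lt_of_le_of_lt f2030 (lt_of_lt_of_le (n2_lt rfl) f342))
        have f2042 : tm e_h1C11 < tm e_h2B6 := lt_trans f2035 f150
        have f2043 : tm e_h1C11 < tm e_h2B8 := lt_trans f2035 f151
        have f2057 : tm e_h2C6 < tm e_s0A3 := lt_trans f312 f2034
        have f2073 : 12 ≤ c e_h2B6 := n2_pf_lo (le_trans f114 (S.leC n_h1C11_0 n_h2B6_0 (le_of_lt f2042))) (par_h2B6).2 (n2_ne rfl)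
        have f2074 : 12 ≤ c e_h2B8 := n2_pf_lo (le_trans f114 (S.leC n_h1C11_0 n_h2B8_0 (le_of_lt f2043))) (par_h2B8).2 (n2_ne rfl)
        have f2075 : 3 ≤ b e_s0A3 := n2_pf_lo (le_trans f120 (S.leB n_h2C6_1 n_s0A3_1 (le_of_lt f2057))) (par_s0A3).2 (n2_ne rfl)
        have f2080 : c e_h2B6 ≠ 2 := n2_ne_lo f2073 (n2_lt rfl)
        have f2081 : c e_h2B6 ≠ 6 := n2_ne_lo f2073 (n2_lt rfl)
        have f2082 : c e_h2B6 ≠ 8 := n2_ne_lo f2073 (n2_lt rfl)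
        have f2083 : c e_h2B8 ≠ 2 := n2_ne_lo f2074 (n2_lt rfl)
        have f2084 : c e_h2B8 ≠ 6 := n2_ne_lo f2074 (n2_lt rfl)
        have f2085 : c e_h2B8 ≠ 8 := n2_ne_lo f2074 (n2_lt rfl)
        have f2096 : 4 ≤ b e_h2C16 := n2_pf_lo (le_trans f2075 (S.leB n_s0A3_1 n_h2C16_1 (le_of_lt f471))) (par_h2C16).1 (n2_ne rfl)
        have f2098 : 13 ≤ c e_s1A10 := n2_pf_lo (le_trans f2073 (S.leC n_h2B6_0 n_s1A10_0 (le_of_lt f2003))) (par_s1A10).2 (n2_ne rfl)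
        have f2103 : b e_h2C16 ≠ 2 := n2_ne_lo f2096 (n2_lt rfl)
        have f2114 : 14 ≤ c e_h2B12 := n2_pf_lo (le_trans f2098 (S.leC n_s1A10_0 n_h2B12_0 (le_of_lt f398))) (par_h2B12).2 (n2_ne rfl)
        have f2121 : c e_h2B12 ≠ 12 := n2_ne_lo f2114 (n2_lt rfl)
        have f2122 : 16 ≤ c e_h2B12 := n2q_9 _ d_h2B12 f2114
        have f2130 : tm e_h1C13 < tm e_h2B12 := S.monoC _ _ n_h1C13_0 n_h2B12_0 (lt_of_le_of_lt f119 (lt_of_lt_of_le (n2_lt rfl) f2122))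
        have f2137 : tm e_h1C13 < tm e_h0B13 := lt_trans f2130 f286
        have f2142 : a e_h1C13 ≤ 12 := n2_pf_hi (le_trans (S.leA n_h1C13_2 n_h0B13_2 (le_of_lt f2137)) f362) (par_h1C13).1 (n2_ne rfl)
        have f2146 : a e_h1C13 ≤ 2 := n2q_15 _ d_h1C13 f2142
        have f2153 : tm e_h1C13 < tm e_s0B5 := S.monoA _ _ n_h1C13_2 n_s0B5_2 (lt_of_le_of_lt f2146 (lt_of_lt_of_le (n2_lt rfl) f342))
        have f2163 : tm e_h1C13 < tm e_h2B6 := lt_trans f2153 f150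
        have f2164 : tm e_h1C13 < tm e_h2B8 := lt_trans f2153 f151
        have f2180 : 14 ≤ c e_h2B6 := n2_pf_lo (le_trans f118 (S.leC n_h1C13_0 n_h2B6_0 (le_of_lt f2163))) (par_h2B6).2 (n2_ne rfl)
        have f2181 : 14 ≤ c e_h2B8 := n2_pf_lo (le_trans f118 (S.leC n_h1C13_0 n_h2B8_0 (le_of_lt f2164))) (par_h2B8).2 (n2_ne rfl)
        have f2188 : c e_h2B6 ≠ 12 := n2_ne_lo f2180 (n2_lt rfl)
        have f2189 : 16 ≤ c e_h2B6 := n2q_9 _ d_h2B6 f2180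
        have f2190 : c e_h2B8 ≠ 12 := n2_ne_lo f2181 (n2_lt rfl)
        have f2192 : tm e_h1A8 < tm e_h2B6 := S.monoC _ _ n_h1A8_0 n_h2B6_0 (lt_of_le_of_lt f458 (lt_of_lt_of_le (n2_lt rfl) f2189))
        have f2197 : tm e_h1A8 < tm e_s0B7 := lt_trans f2192 f262
        have f2198 : 17 ≤ c e_s1A10 := n2_pf_lo (le_trans f2189 (S.leC n_h2B6_0 n_s1A10_0 (le_of_lt f2003))) (par_s1A10).2 (n2_ne rfl)
        have f2199 : 17 ≤ c e_h1A12 := n2_pf_lo (le_trans f2189 (S.leC n_h2B6_0 n_h1A12_0 (le_of_lt f2004))) (par_h1A12).2 (n2_ne rfl)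
        have f2201 : 9 ≤ a e_s0B7 := n2_pf_lo (le_trans f72 (S.leA n_h1A8_2 n_s0B7_2 (le_of_lt f2197))) (par_s0B7).1 (n2_ne rfl)
        have f2204 : 21 ≤ c e_h1A12 := n2q_16 _ d_h1A12 f2199
        have f2207 : tm e_s2B20 < tm e_h1A12 := S.monoC _ _ n_s2B20_0 n_h1A12_0 (lt_of_le_of_lt f63 (lt_of_lt_of_le (n2_lt rfl) f2204))
        have f2211 : tm e_h2C16 < tm e_s1A10 := S.monoC _ _ n_h2C16_0 n_s1A10_0 (lt_of_le_of_lt f131 (lt_of_lt_of_le (n2_lt rfl) f2198))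
        have f2217 : tm e_h2C16 < tm e_h0B11 := lt_trans f2211 f366
        have f2222 : tm e_s0B17 < tm e_h1A12 := lt_trans f165 f2207
        have f2244 : 18 ≤ c e_h2B12 := n2_pf_lo (le_trans f2198 (S.leC n_s1A10_0 n_h2B12_0 (le_of_lt f398))) (par_h2B12).2 (n2_ne rfl)
        have f2251 : b e_h2C16 ≤ 10 := n2_pf_hi (le_trans (S.leB n_h2C16_1 n_h0B11_1 (le_of_lt f2217)) f87) (par_h2C16).1 (n2_ne rfl)
        have f2252 : a e_s0B17 ≤ 11 := n2_pf_hi (le_trans (S.leA n_s0B17_2 n_h1A12_2 (le_of_lt f2222)) f77) (par_s0B17).1 (n2_ne rfl)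
        have f2263 : c e_h2B12 ≠ 16 := n2_ne_lo f2244 (n2_lt rfl)
        have f2266 : b e_h2C16 ≠ 12 := n2_ne_hi f2251 (n2_lt rfl)
        have f2267 : b e_h2C16 ≠ 16 := n2_ne_hi f2251 (n2_lt rfl)
        have f2268 : b e_h2C16 ≠ 18 := n2_ne_hi f2251 (n2_lt rfl)
        have f2269 : b e_h2C16 ≠ 20 := n2_ne_hi f2251 (n2_lt rfl)
        Or.elim (Nat.lt_or_ge (c e_h2B8) 18)
          (fun g => have f37222 : c e_h2B8 ≤ 17 := Nat.le_of_lt_succ g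
            have f37223 : c e_h2B8 ≠ 18 := n2_ne_hi f37222 (n2_lt rfl)
            have f37224 : c e_h2B8 ≤ 16 := n2q_17 _ d_h2B8 f37222
            have f37225 : tm e_h2B8 < tm e_s1C17 := S.monoC _ _ n_h2B8_0 n_s1C17_0 (lt_of_le_of_lt f37224 (lt_of_lt_of_le (n2_lt rfl) f46))
            have f37227 : tm e_s0B7 < tm e_s1C17 := lt_trans f160 f37225
            have f37233 : 10 ≤ a e_s1C17 := n2_pf_lo (le_trans f2201 (S.leA n_s0B7_2 n_s1C17_2 (le_of_lt f37227))) (par_s1C17).1 (n2_ne rfl)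
            have f37236 : tm e_h0A9 < tm e_s1C17 := S.monoA _ _ n_h0A9_2 n_s1C17_2 (lt_of_le_of_lt f65 (lt_of_lt_of_le (n2_lt rfl) f37233))
            have f37237 : tm e_h0A9 < tm e_h2C18 := lt_trans f37236 f214
            have f37238 : 10 ≤ b e_h2C18 := n2_pf_lo (le_trans f1964 (S.leB n_h0A9_1 n_h2C18_1 (le_of_lt f37237))) (par_h2C18).1 (n2_ne rfl)
            have f37240 : 12 ≤ b e_h2C18 := n2q_14 _ d_h2C18 f37238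
            have f37241 : tm e_h0B11 < tm e_h2C18 := S.monoB _ _ n_h0B11_1 n_h2C18_1 (lt_of_le_of_lt f87 (lt_of_lt_of_le (n2_lt rfl) f37240))
            have f37244 : tm e_h0B11 < tm e_s1C19 := lt_trans f37241 f328
            have f37246 : 12 ≤ a e_s1C19 := n2_pf_lo (le_trans f357 (S.leA n_h0B11_2 n_s1C19_2 (le_of_lt f37244))) (par_s1C19).1 (n2_ne rfl)
            have f37247 : tm e_s0B17 < tm e_s1C19 := S.monoA _ _ n_s0B17_2 n_s1C19_2 (lt_of_le_of_lt f2252 (lt_of_lt_of_le (n2_lt rfl) f37246))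
            have f37250 : tm e_h2B12 < tm e_s1C19 := lt_trans f282 f37247
            have f37253 : c e_h2B12 ≤ 18 := n2_pf_hi (le_trans (S.leC n_h2B12_0 n_s1C19_0 (le_of_lt f37250)) f51) (par_h2B12).2 (n2_ne rfl)
            have f37256 : c e_h2B12 ≠ 20 := n2_ne_hi f37253 (n2_lt rfl)
            have f37259 : b e_h2C16 ≠ 6 := fun hx => lt_irrefl _ (lt_of_lt_of_le (lt_of_le_of_lt (n2_hostv H_h2C16 hx (n2_le rfl) (n2_le rfl)) (n2_t23 (s := sB) qB)) (n2_hostv H_h2B8 (n2q_18 _ d_h2B8 f2028 f2083 f2084 f2085 f2190 f37223) (n2_le rfl) (n2_le rfl)))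
            have f37260 : b e_h2C16 ≠ 8 := fun hx => lt_irrefl _ (lt_trans (lt_of_lt_of_le (lt_of_le_of_lt (n2_hostv H_h2C16 hx (n2_le rfl) (n2_le rfl)) (n2_t35 (s := sB) qB)) (n2_hostv H_h2B12 (n2q_19 _ d_h2B12 f1967 f1968 f1969 f2121 f2263 f37256) (n2_le rfl) (n2_le rfl))) (n2_t87 (s := sC) qC))
            n2q_11 _ d_h2C16 f2103 f37259 f37260 f2266 f2267 f2268 f2269)
          (fun g => have f37264 : 18 ≤ c e_h2B8 := g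
            have f37265 : c e_h2B8 ≠ 16 := n2_ne_lo f37264 (n2_lt rfl)
            have f37266 : tm e_s1C17 < tm e_h2B8 := S.monoC _ _ n_s1C17_0 n_h2B8_0 (lt_of_le_of_lt f47 (lt_of_lt_of_le (n2_lt rfl) f37264))
            have f37269 : tm e_s1C17 < tm e_h0A9 := lt_trans f37266 f1993
            have f37271 : a e_s1C17 ≤ 8 := n2_pf_hi (le_trans (S.leA n_s1C17_2 n_h0A9_2 (le_of_lt f37269)) f65) (par_s1C17).1 (n2_ne rfl)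
            have f37272 : tm e_s1C17 < tm e_s0B7 := S.monoA _ _ n_s1C17_2 n_s0B7_2 (lt_of_le_of_lt f37271 (lt_of_lt_of_le (n2_lt rfl) f2201))
            have f37282 : tm e_h2C16 < tm e_s0B7 := lt_trans f324 f37272
            have f37290 : b e_h2C16 ≤ 6 := n2_pf_hi (le_trans (S.leB n_h2C16_1 n_s0B7_1 (le_of_lt f37282)) f15) (par_h2C16).1 (n2_ne rfl)
            have f37294 : b e_h2C16 ≠ 8 := n2_ne_hi f37290 (n2_lt rfl)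
            have f37313 : c e_h2B6 ≠ 16 := fun hx => lt_irrefl _ (lt_of_lt_of_le (lt_trans (lt_of_lt_of_le (lt_of_le_of_lt (le_trans (n2_hostv H_h2B6 hx (n2_le rfl) (n2_le rfl)) (n2_hostv H_h2C16 (n2q_20 _ d_h2C16 f2103 f2266 f2267 f2268 f2269 f37294) (n2_le rfl) (n2_le rfl))) (n2_t23 (s := sB) qB)) (n2_hostv H_h2B8 (n2q_10 _ d_h2B8 f2028 f2083 f2084 f2085 f2190 f37265) (n2_le rfl) (n2_le rfl))) (n2_t87 (s := sC) qC)) (n2_hostv H_h2C16 (n2q_20 _ d_h2C16 f2103 f2266 f2267 f2268 f2269 f37294) (n2_le rfl) (n2_le rfl)))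
            have f37314 : c e_h2B6 ≠ 18 := fun hx => lt_irrefl _ (lt_of_lt_of_le (lt_of_le_of_lt (n2_hostv H_h2B6 hx (n2_le rfl) (n2_le rfl)) (n2_t87 (s := sC) qC)) (n2_hostv H_h2C16 (n2q_20 _ d_h2C16 f2103 f2266 f2267 f2268 f2269 f37294) (n2_le rfl) (n2_le rfl)))
            n2q_11 _ d_h2B6 f2080 f2081 f2082 f2188 f37313 f37314 f2027))

/-- The second negative theorem. -/
theorem not_arrow_g2 {a g1 g3 : Ordinal.{0}} (hcard : g1.card ≤ Cardinal.aleph0)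
    (ha0 : 0 < a) (ha : a < ω ^ a) (h21 : ω ^ a ≤ g1) (h3 : 0 < g3) (h32 : g3 ≤ ω ^ a) :
    ¬ Arrow3 (ω ^ (ω ^ (g1 + ω ^ a + g3))) :=
  not_arrow_two fin2 hcard ha0 ha h21 h3 h32

end MPb6
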