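import Pool.Agent.Lib.MP_b6d339_lc.Gen

/-!
# Negative partition relations: general assembly, second part
-/

open Ordinal Set

namespace MPb6

noncomputable section

/-- Interleaving of two strategies, general lengths. -/
lemma interleaveG {Q Q' : (ℕ → List ℕ) → Prop} {n n' : ℕ} {c0 d0 : ℕ → List ℕ}
    (hx : ExtF Q n 0 c0) (hy : ExtF Q' n' 0 d0) : ∀ i, i + 1 ≤ n → i ≤ n' → ∃ c d : ℕ → List ℕ,
      ExtF Q n (i + 1) c ∧ ExtF Q' n' i d ∧ c 0 = c0 0 ∧ d 0 = d0 0 ∧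
      (∃ B, stepB B (c 0) (c 1)) ∧
      (∀ j < i, stepB (topc (c (j + 1))) (d j) (d (j + 1))) ∧
      (∀ j, 1 ≤ j → j ≤ i → stepB (topc (d j)) (c j) (c (j + 1))) := by
  intro i
  induction i with
  | zero =>
    intro _ _
    obtain ⟨c, h1, h2, h3⟩ := hx.step (by omega) 0
    exact ⟨c, d0, h3, hy, h1 0 le_rfl, rfl, ⟨0, h2⟩, fun j hj => by omega, fun j h1 h2 => by omega⟩
  | succ i ih =>
    intro hi hi'
    obtain ⟨c, d, h1, h2, h3, h4, h5, h6, h7⟩ := ih (by omega) (by omega)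
    obtain ⟨d', g1, g2, g3⟩ := h2.step (by omega) (topc (c (i + 1)))
    obtain ⟨c', k1, k2, k3⟩ := h1.step (by omega) (topc (d' (i + 1)))
    refine ⟨c', d', k3, g3, by rw [k1 0 (by omega), h3], by rw [g1 0 (by omega), h4], ?_, ?_, ?_⟩
    · rw [k1 0 (by omega), k1 1 (by omega)]; exact h5
    · intro j hj
      rcases Nat.lt_or_ge j i with h8 | h8
      · rw [k1 (j + 1) (by omega), g1 j (by omega), g1 (j + 1) (by omega)]
        exact h6 j h8
      · obtain rfl : j = i := by omega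
        rw [k1 (j + 1) (by omega)]
        exact g2
    · intro j hj1 hj2
      rcases Nat.lt_or_ge j (i + 1) with h8 | h8
      · rw [k1 j (by omega), k1 (j + 1) (by omega), g1 j (by omega)]
        exact h7 j hj1 (by omega)
      · obtain rfl : j = i + 1 := by omega
        exact k2

/-- A blue pair from chains against every adversary. -/
theorem pair_of_chainsG {κ : Ordinal.{0}} {X : Set Ordinal.{0}} {k : ℕ}
    {P P' : (ℕ → Ordinal.{0}) → Prop}
    (hP : ∀ s s' : ℕ → Ordinal.{0}, (∀ i, 1 ≤ i → i < k + 1 → s i = s' i) → P s → P s')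
    (hP' : ∀ s s' : ℕ → Ordinal.{0}, (∀ i, 1 ≤ i → i < k → s i = s' i) → P' s → P' s')
    (hx : ∀ F, ∃ c : ℕ → List ℕ, c 0 = [] ∧ (∀ i < k + 1, (sysT κ F X).sq (c i) (c (i + 1))) ∧
      (∃ w, (sysT κ F X).sq (c (k + 1)) w ∧ (sysT κ F X).alive w) ∧
      P fun i => Lv (MPb6.rk κ (c i)) (MPb6.rk κ (c (i + 1))))
    (hy : ∀ F, ∃ c : ℕ → List ℕ, c 0 = [] ∧ (∀ i < k, (sysT κ F X).sq (c i) (c (i + 1))) ∧
      (∃ w, (sysT κ F X).sq (c k) w ∧ (sysT κ F X).alive w) ∧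
      P' fun i => Lv (MPb6.rk κ (c i)) (MPb6.rk κ (c (i + 1)))) :
    ∃ x ∈ X, ∃ y ∈ X, x < ω ^ κ ∧ y < ω ^ κ ∧
      BluePairG k (fun s t => P s ∧ P' t) (plT κ (path κ x)) (plT κ (path κ y)) := by
  have eX := extF_of_chains (P := P) (n := k + 1) hP hx
  have eY := extF_of_chains (P := P') (n := k) hP' hy
  obtain ⟨c, d, h1, h2, h3, h4, ⟨B, h5⟩, h6, h7⟩ := interleaveG eX eY (k + 1) le_rfl le_rfl
  obtain ⟨c', a1, -, ⟨a3, ⟨x, hxX, hx', a4⟩, a5⟩⟩ := h1 fun _ => 0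
  obtain ⟨d', b1, -, ⟨b3, ⟨y, hyX, hy', b4⟩, b5⟩⟩ := h2 fun _ => 0
  refine ⟨x, hxX, y, hyX, hx', hy', fun i => (c i).length, fun i => (d i).length,
    fun i => Lv (MPb6.rk κ (c i)) (MPb6.rk κ (c (i + 1))),
    fun i => Lv (MPb6.rk κ (d i)) (MPb6.rk κ (d (i + 1))), ?_⟩
  have c11 : c (k + 2) = path κ x := by rw [← a1 (k + 2) (by omega)]; exact a4
  have d10 : d (k + 1) = path κ y := by rw [← b1 (k + 1) (by omega)]; exact b4
  have stepc : ∀ i ≤ k + 1, ∃ B, stepB B (c i) (c (i + 1)) := by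
    intro i hi
    rcases Nat.eq_zero_or_pos i with rfl | h0
    · exact ⟨B, h5⟩
    · exact ⟨_, h7 i h0 hi⟩
  have prec : ∀ i ≤ k + 2, c i <+: path κ x := by
    intro i hi
    rw [← c11]
    exact prefix_chain (n := k + 2) (fun i hi => by
      obtain ⟨B, hB⟩ := stepc i (by omega)
      obtain ⟨n, h, -⟩ := hB
      exact (List.prefix_append _ [n]).trans h) hi le_rfl
  have pred : ∀ i ≤ k + 1, d i <+: path κ y := by
    intro i hi
    rw [← d10]
    exact prefix_chain (n := k + 1) (fun i hi => by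
      obtain ⟨n, h, -⟩ := h6 i (by omega)
      exact (List.prefix_append _ [n]).trans h) hi le_rfl
  have pX : P fun i => Lv (MPb6.rk κ (c i)) (MPb6.rk κ (c (i + 1))) :=
    hP _ _ (fun i hi1 hi2 => by
      rw [a1 i (by omega), a1 (i + 1) (by omega)]) a5
  have pY : P' fun i => Lv (MPb6.rk κ (d i)) (MPb6.rk κ (d (i + 1))) :=
    hP' _ _ (fun i hi1 hi2 => by
      rw [b1 i (by omega), b1 (i + 1) (by omega)]) b5
  refine ⟨?_, ?_, ?_, pX, pY⟩
  · exact
    { c0 := by simp [h3]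
      cl := by simp only [c11]; rfl
      cmono := fun i hi => by
        obtain ⟨B, hB⟩ := stepc i hi
        exact hB.length_lt
      d0 := by simp [h4]
      dl := by simp only [d10]; rfl
      dmono := fun i hi => (h6 i (by omega)).length_lt
      xy := fun i hi => by
        obtain ⟨n, hn, hn'⟩ := h6 i (by omega)
        rw [time_plT κ (prec (i + 1) (by omega)),
          code_plT κ (hn.trans (pred (i + 1) (by omega)))]
        exact hn'
      yx := fun i hi1 hi2 => by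
        obtain ⟨n, hn, hn'⟩ := h7 i hi1 hi2
        rw [time_plT κ (pred i (by omega)),
          code_plT κ (hn.trans (prec (i + 1) (by omega)))]
        exact hn' }
  · intro i hi1 hi2
    obtain ⟨B, hB⟩ := stepc i (by omega)
    have := isGate_plT κ (path κ x) hB.length_lt
    rwa [take_of_prefix (prec i (by omega)), take_of_prefix (prec (i + 1) (by omega))] at this
  · intro i hi1 hi2
    have := isGate_plT κ (path κ y) (h6 i (by omega)).length_lt
    rwa [take_of_prefix (pred i (by omega)), take_of_prefix (pred (i + 1) (by omega))] at this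

lemma BluePairG.code_lt {α : Type*} [LinearOrder α] {k : ℕ} {P : (ℕ → α) → (ℕ → α) → Prop}
    {x y : Pl α} (h : BluePairG k P x y) : x.code 1 < y.code 1 := by
  obtain ⟨c, d, s, t, r, -⟩ := h
  have := r.start_xy 0 (by omega)
  unfold start at this
  rwa [r.c0, r.d0] at this

/-- A symmetric graph from an acyclic relation without transitive triangles is triangle-free. -/
lemma no_triangle_of {V : Type*} {R : V → V → Prop} {f : V → ℕ} (hf : ∀ u v, R u v → f u < f v)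
    (h : ∀ u v w, R u v → R u w → R v w → False) (x y z : V) (h1 : R x y ∨ R y x)
    (h2 : R y z ∨ R z y) (h3 : R x z ∨ R z x) : False := by
  rcases h1 with h1 | h1 <;> rcases h2 with h2 | h2 <;> rcases h3 with h3 | h3
  · exact h _ _ _ h1 h3 h2
  · have e1 := hf _ _ h1
    have e2 := hf _ _ h2
    have e3 := hf _ _ h3
    omega
  · exact h _ _ _ h3 h1 h2
  · exact h _ _ _ h3 h2 h1
  · exact h _ _ _ h1 h2 h3
  · exact h _ _ _ h2 h1 h3
  · have e1 := hf _ _ h1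
    have e2 := hf _ _ h2
    have e3 := hf _ _ h3
    omega
  · exact h _ _ _ h2 h3 h1

/-- The graph of a relation on `ω ^ κ`. -/
def relG (κ : Ordinal.{0}) (R : Ordinal.{0} → Ordinal.{0} → Prop) (f : Ordinal.{0} → ℕ)
    (hf : ∀ u v, R u v → f u < f v) : SimpleGraph (ω ^ κ : Ordinal.{0}).ToType where
  Adj u v := R (u : Ordinal.{0}) (v : Ordinal.{0}) ∨ R (v : Ordinal.{0}) (u : Ordinal.{0})
  symm := ⟨fun _ _ h => h.symm⟩
  loopless := ⟨fun _ h => by
    rcases h with h | h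
    · exact lt_irrefl _ (hf _ _ h)
    · exact lt_irrefl _ (hf _ _ h)⟩

/-- Refuting the partition relation by a relation. -/
theorem not_arrow_of_rel {κ : Ordinal.{0}} (R : Ordinal.{0} → Ordinal.{0} → Prop)
    (f : Ordinal.{0} → ℕ) (hf : ∀ u v, R u v → f u < f v)
    (h : ∀ u v w, R u v → R u w → R v w → False)
    (hX : ∀ X : Set Ordinal.{0}, Large (X ∩ Iio (ω ^ κ)) κ → ∃ x ∈ X, ∃ y ∈ X, R x y) :
    ¬ Arrow3 (ω ^ κ) := by
  intro hA
  rcases hA (relG κ R f hf) with ⟨H, hH, hH'⟩ | ⟨x, y, z, h1, h2, h3⟩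
  · obtain ⟨x, ⟨u, hu, rfl⟩, y, ⟨v, hv, rfl⟩, hR⟩ := hX _ (large_of_type H hH)
    exact hH' u hu v hv (Or.inl hR)
  · exact no_triangle_of (R := fun u v : (ω ^ κ : Ordinal.{0}).ToType =>
      R (u : Ordinal.{0}) (v : Ordinal.{0})) (f := fun u => f (u : Ordinal.{0}))
      (fun u v h => hf _ _ h) (fun u v w h1 h2 h3 => h _ _ _ h1 h2 h3) x y z h1 h2 h3

lemma root_unique {κ : Ordinal.{0}} (hκ : κ ≠ 0) (F : List ℕ → ℕ) (X : Set Ordinal.{0}) :
    ∀ c : List ℕ, (sysT κ F X).le [] c → (sysT κ F X).rk [] ≤ (sysT κ F X).rk c → c = [] := by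
  intro c _ hle
  rcases c with _ | ⟨n, c⟩
  · rfl
  · exfalso
    have h1 : MPb6.rk κ (n :: c) < κ := (MPb6.rk_le _ c).trans_lt (fs_lt hκ n)
    exact absurd (show κ ≤ MPb6.rk κ (n :: c) from hle) (not_le.2 h1)

/-- General negative theorem. -/
theorem not_arrow_gen {κ : Ordinal.{0}} (hκ : κ ≠ 0) (hc : (Iio κ).Countable) (k : ℕ)
    (P P' : (ℕ → Ordinal.{0}) → Prop)
    (hP : ∀ s s' : ℕ → Ordinal.{0}, (∀ i, 1 ≤ i → i < k + 1 → s i = s' i) → P s → P s')
    (hP' : ∀ s s' : ℕ → Ordinal.{0}, (∀ i, 1 ≤ i → i < k → s i = s' i) → P' s → P' s')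
    (hx : ∀ (S : Sys) (r : S.N), S.rk r = κ → (∀ c, S.le r c → S.rk r ≤ S.rk c → c = r) →
      S.Big κ r → ∃ c : ℕ → S.N, c 0 = r ∧ (∀ i < k + 1, S.sq (c i) (c (i + 1))) ∧
        (∃ w, S.sq (c (k + 1)) w ∧ S.alive w) ∧
        P fun i => Lv (S.rk (c i)) (S.rk (c (i + 1))))
    (hy : ∀ (S : Sys) (r : S.N), S.rk r = κ → (∀ c, S.le r c → S.rk r ≤ S.rk c → c = r) →
      S.Big κ r → ∃ c : ℕ → S.N, c 0 = r ∧ (∀ i < k, S.sq (c i) (c (i + 1))) ∧
        (∃ w, S.sq (c k) w ∧ S.alive w) ∧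
        P' fun i => Lv (S.rk (c i)) (S.rk (c (i + 1))))
    (hfin : ∀ (E : Type) (pl : E → Fin 3) (tm a b c : E → ℕ)
      (sA tA sB tB sC tC : ℕ → Ordinal.{0}), P sA → P' tA → P sB → P' tB → P sC → P' tC →
      SchedG k pl tm a b c (bval sA tA) (bval sB tB) (bval sC tC) → False) :
    ¬ Arrow3 (ω ^ κ) := by
  refine not_arrow_of_rel
    (fun x y => BluePairG k (fun s t => P s ∧ P' t) (plT κ (path κ x)) (plT κ (path κ y)))
    (fun x => (plT κ (path κ x)).code 1) (fun u v h => h.code_lt) ?_ ?_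
  · intro u v w h1 h2 h3
    obtain ⟨pl, tm, a, b, c, sA, tA, sB, tB, sC, tC, ⟨p1, p2⟩, ⟨p3, p4⟩, ⟨p5, p6⟩, hS⟩ :=
      triangle_schedG (![plT κ (path κ u), plT κ (path κ v), plT κ (path κ w)]) h1 h2 h3
    exact hfin _ pl tm a b c sA tA sB tB sC tC p1 p2 p3 p4 p5 p6 hS
  · intro X hX
    obtain ⟨x, hx, y, hy, -, -, hb⟩ := pair_of_chainsG (κ := κ) (X := X) (k := k) hP hP'
      (fun F => hx (sysT κ F X) ([] : List ℕ) rfl (root_unique hκ F X) (big_root hc F hX))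
      (fun F => hy (sysT κ F X) ([] : List ℕ) rfl (root_unique hκ F X) (big_root hc F hX))
    exact ⟨x, hx, y, hy, hb⟩

end

end MPb6
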