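import Pool.Agent.Lib.MP_b6d339_lc.N2
import Pool.Agent.Lib.MP_b6d339_lc.GenFin

/-! The second negative family, assembly. -/

namespace MPb6

open Ordinal Set

/-- the finite statement of the second family -/
def Fin2 : Prop := ∀ (E : Type) (pl : E → Fin 3) (tm a b c : E → ℕ) (G1 G2 : Ordinal.{0}),
  G1 ≤ G2 → ∀ (sA tA sB tB sC tC : ℕ → Ordinal.{0}), SPatt2 G1 G2 sA → TPatt2 G1 G2 tA →
    SPatt2 G1 G2 sB → TPatt2 G1 G2 tB → SPatt2 G1 G2 sC → TPatt2 G1 G2 tC →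
      SchedG 9 pl tm a b c (bval sA tA) (bval sB tB) (bval sC tC) → False

theorem not_arrow_two (hfin : Fin2) {a g1 g3 : Ordinal.{0}} (hcard : g1.card ≤ Cardinal.aleph0)
    (ha0 : 0 < a) (ha : a < ω ^ a) (h21 : ω ^ a ≤ g1) (h3 : 0 < g3) (h32 : g3 ≤ ω ^ a) :
    ¬ Arrow3 (ω ^ (ω ^ (g1 + ω ^ a + g3))) := by
  have h2c : (ω ^ a : Ordinal.{0}).card ≤ Cardinal.aleph0 := (card_le_card h21).trans hcard
  have h3c : g3.card ≤ Cardinal.aleph0 := (card_le_card h32).trans h2c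
  have hκc : (ω ^ (g1 + ω ^ a + g3) : Ordinal.{0}).card ≤ Cardinal.aleph0 := by
    refine (card_opow_le _ _).trans ?_
    simp only [card_omega0, max_le_iff, le_refl, true_and]
    rw [card_add, card_add]
    exact Cardinal.add_le_aleph0.2 ⟨Cardinal.add_le_aleph0.2 ⟨hcard, h2c⟩, h3c⟩
  have hP := par2_of ha0 ha h21 h3 h32
  refine not_arrow_gen (opow_ne _) (countable_of_card hκc) 9 (SPatt2 g1 (g1 + ω ^ a))
    (TPatt2 g1 (g1 + ω ^ a)) ?_ ?_
    (fun S r hr hroot h => Sys.xFinal2 hP.g2pos h21 h32 h3 hr hroot h)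
    (fun S r hr hroot h => Sys.yFinal2 hP hr hroot h) ?_
  · intro s s' h p
    obtain ⟨p1, p2, p3, p4, p5, p6, p7, p8, p9⟩ := p
    rw [h 1 (by omega) (by omega)] at p1
    rw [h 2 (by omega) (by omega)] at p2
    rw [h 3 (by omega) (by omega)] at p3
    rw [h 4 (by omega) (by omega)] at p4
    rw [h 5 (by omega) (by omega)] at p5
    rw [h 6 (by omega) (by omega)] at p6
    rw [h 7 (by omega) (by omega)] at p7
    rw [h 8 (by omega) (by omega)] at p8
    rw [h 9 (by omega) (by omega)] at p9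
    exact ⟨p1, p2, p3, p4, p5, p6, p7, p8, p9⟩
  · intro t t' h p
    obtain ⟨p1, p2, p4, p5, p6, p8, p23, p35, p75, p87⟩ := p
    rw [h 1 (by omega) (by omega)] at p1
    rw [h 2 (by omega) (by omega)] at p2 p23
    rw [h 3 (by omega) (by omega)] at p23 p35
    rw [h 4 (by omega) (by omega)] at p4
    rw [h 5 (by omega) (by omega)] at p5 p35 p75
    rw [h 6 (by omega) (by omega)] at p6
    rw [h 7 (by omega) (by omega)] at p75 p87
    rw [h 8 (by omega) (by omega)] at p8 p87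
    exact ⟨p1, p2, p4, p5, p6, p8, p23, p35, p75, p87⟩
  · intro E pl tm a' b' c' sA tA sB tB sC tC p1 p2 p3 p4 p5 p6 S
    exact hfin E pl tm a' b' c' g1 (g1 + ω ^ a) le_self_add sA tA sB tB sC tC p1 p2 p3 p4 p5 p6 S

end MPb6
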