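import Pool.Agent.Lib.MP_b6d339_lc.N4Pat

/-! The finite statement of the third family (machine generated proof). -/

set_option linter.unusedVariables false

namespace MPb6

open Ordinal

section N4fin

lemma n4_lt {v w : ℕ} (h : Nat.blt v w = true) : v < w := Nat.le_of_ble_eq_true h
lemma n4_le {v w : ℕ} (h : Nat.ble v w = true) : v ≤ w := Nat.le_of_ble_eq_true h
lemma n4_ne {v w : ℕ} (h : Nat.beq v w = false) : v ≠ w := Nat.ne_of_beq_eq_false h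
lemma n4_ne01 {p : Fin 3} (h : p = 0) : p ≠ 1 := by rw [h]; decide
lemma n4_ne02 {p : Fin 3} (h : p = 0) : p ≠ 2 := by rw [h]; decide
lemma n4_ne10 {p : Fin 3} (h : p = 1) : p ≠ 0 := by rw [h]; decide
lemma n4_ne12 {p : Fin 3} (h : p = 1) : p ≠ 2 := by rw [h]; decide
lemma n4_ne20 {p : Fin 3} (h : p = 2) : p ≠ 0 := by rw [h]; decide
lemma n4_ne21 {p : Fin 3} (h : p = 2) : p ≠ 1 := by rw [h]; decide
lemma n4_ne_lo {x v j : ℕ} (h : v ≤ x) (hj : j < v) : x ≠ j := by omega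
lemma n4_ne_hi {x v j : ℕ} (h : x ≤ v) (hj : v < j) : x ≠ j := by omega
lemma n4_pf_lo {x l p : ℕ} (h : l ≤ x) (hp : x % 2 = p) (hl : l % 2 ≠ p) : l + 1 ≤ x := by
  rcases h.eq_or_lt with rfl | h
  · exact absurd hp hl
  · exact h
lemma n4_pf_hi {x l p : ℕ} (h : x ≤ l + 1) (hp : x % 2 = p) (hl : (l + 1) % 2 ≠ p) : x ≤ l := by
  rcases h.eq_or_lt with rfl | h
  · exact absurd hp hl
  · omega
lemma n4_rng {x : ℕ} (h : 1 ≤ x ∧ x ≤ 2 * 10 + 3) : 1 ≤ x ∧ x ≤ 23 := h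
lemma n4_rng' {x : ℕ} (h : 1 ≤ x ∧ x ≤ 2 * 10 + 3) (hp : x % 2 = 0) : 2 ≤ x ∧ x ≤ 22 := by omega

lemma n4_hostv {v v' : ℕ → Ordinal.{0}}
    {i j x : ℕ} (H : HostG 10 v v' i x) (e : x = j) (h1 : 3 ≤ j) (h2 : j ≤ 21) :
    v i ≤ v' j := by
  subst e; exact H h1 h2

section

variable {G1 G2 : Ordinal.{0}} {s t : ℕ → Ordinal.{0}}

lemma n4_e4_6 (q : TPatt4 G1 G2 t) : bval s t 4 < bval s t 6 := by
  simpa [bval] using q.t12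
lemma n4_e15_17 (q : SPatt4 G1 G2 s) : bval s t 15 < bval s t 17 := by
  simpa [bval] using q.s78
lemma n4_e17_13 (q : SPatt4 G1 G2 s) : bval s t 17 < bval s t 13 := by
  simpa [bval] using q.s86

lemma n4_host2s {v : Ordinal.{0}} (hv : G1 < v) (hs : SPatt4 G1 G2 s) {j : ℕ}
    (h1 : 1 ≤ j ∧ j ≤ 23) (hp : j % 2 = 1) (h : 3 ≤ j → j ≤ 21 → v ≤ bval s t j) :
    j = 1 ∨ j = 3 ∨ j = 13 ∨ j = 15 ∨ j = 17 ∨ j = 19 ∨ j = 23 := by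
  obtain ⟨h1, h2⟩ := h1
  by_contra hcon
  have hj : j = 5 ∨ j = 7 ∨ j = 9 ∨ j = 11 ∨ j = 21 := by omega
  have key : bval s t j ≤ G1 := by
    rcases hj with rfl | rfl | rfl | rfl | rfl <;> simp [bval]
    exacts [hs.s2, hs.s3, hs.s4, hs.s5, hs.s10]
  exact absurd ((h (by omega) (by omega)).trans key) (not_le.2 hv)

lemma n4_host3s {v : Ordinal.{0}} (hG : G1 ≤ G2) (hv : G2 < v) (hs : SPatt4 G1 G2 s) {j : ℕ}
    (h1 : 1 ≤ j ∧ j ≤ 23) (hp : j % 2 = 1) (h : 3 ≤ j → j ≤ 21 → v ≤ bval s t j) :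
    j = 1 ∨ j = 13 ∨ j = 15 ∨ j = 17 ∨ j = 23 := by
  obtain ⟨h1, h2⟩ := h1
  by_contra hcon
  have hj : j = 3 ∨ j = 5 ∨ j = 7 ∨ j = 9 ∨ j = 11 ∨ j = 19 ∨ j = 21 := by omega
  have key : bval s t j ≤ G2 := by
    rcases hj with rfl | rfl | rfl | rfl | rfl | rfl | rfl <;> simp [bval]
    exacts [hs.s1.2, hs.s2.trans hG, hs.s3.trans hG, hs.s4.trans hG, hs.s5.trans hG,
      hs.s9.2, hs.s10.trans hG]
  exact absurd ((h (by omega) (by omega)).trans key) (not_le.2 hv)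

lemma n4_host3t {v : Ordinal.{0}} (hG : G1 ≤ G2) (hv : G2 < v) (ht : TPatt4 G1 G2 t) {j : ℕ}
    (h1 : 2 ≤ j ∧ j ≤ 22) (hp : j % 2 = 0) (h : 3 ≤ j → j ≤ 21 → v ≤ bval s t j) :
    j = 2 ∨ j = 4 ∨ j = 6 ∨ j = 22 := by
  obtain ⟨h1, h2⟩ := h1
  by_contra hcon
  have hj : j = 8 ∨ j = 10 ∨ j = 12 ∨ j = 14 ∨ j = 16 ∨ j = 18 ∨ j = 20 := by omega
  have key : bval s t j ≤ G2 := by
    rcases hj with rfl | rfl | rfl | rfl | rfl | rfl | rfl <;> simp [bval]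
    exacts [ht.t3.trans hG, ht.t4.2, ht.t5.trans hG, ht.t6.2, ht.t7.trans hG, ht.t8.trans hG,
      ht.t9.trans hG]
  exact absurd ((h (by omega) (by omega)).trans key) (not_le.2 hv)

lemma n4_host2t {v : Ordinal.{0}} (hv : G1 < v) (ht : TPatt4 G1 G2 t) {j : ℕ}
    (h1 : 2 ≤ j ∧ j ≤ 22) (hp : j % 2 = 0) (h : 3 ≤ j → j ≤ 21 → v ≤ bval s t j) :
    j = 2 ∨ j = 4 ∨ j = 6 ∨ j = 10 ∨ j = 14 ∨ j = 22 := by
  obtain ⟨h1, h2⟩ := h1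
  by_contra hcon
  have hj : j = 8 ∨ j = 12 ∨ j = 16 ∨ j = 18 ∨ j = 20 := by omega
  have key : bval s t j ≤ G1 := by
    rcases hj with rfl | rfl | rfl | rfl | rfl <;> simp [bval]
    exacts [ht.t3, ht.t5, ht.t7, ht.t8, ht.t9]
  exact absurd ((h (by omega) (by omega)).trans key) (not_le.2 hv)

/-- values of the blocks of class two and three -/
lemma n4_v3 (hs : SPatt4 G1 G2 s) : G1 < bval s t 3 := by simpa [bval] using hs.s1.1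
lemma n4_v19 (hs : SPatt4 G1 G2 s) : G1 < bval s t 19 := by simpa [bval] using hs.s9.1
lemma n4_v15 (hs : SPatt4 G1 G2 s) : G2 < bval s t 15 := by simpa [bval] using hs.s7
lemma n4_v17 (hs : SPatt4 G1 G2 s) : G2 < bval s t 17 := (n4_v15 hs).trans (n4_e15_17 hs)
lemma n4_v13 (hs : SPatt4 G1 G2 s) : G2 < bval s t 13 := (n4_v17 hs).trans (n4_e17_13 hs)
lemma n4_v4 (ht : TPatt4 G1 G2 t) : G2 < bval s t 4 := by simpa [bval] using ht.t1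
lemma n4_v6 (ht : TPatt4 G1 G2 t) : G2 < bval s t 6 := (n4_v4 ht).trans (n4_e4_6 ht)
lemma n4_v10 (ht : TPatt4 G1 G2 t) : G1 < bval s t 10 := by simpa [bval] using ht.t4.1
lemma n4_v14 (ht : TPatt4 G1 G2 t) : G1 < bval s t 14 := by simpa [bval] using ht.t6.1

end

section

variable {E τ β : Type*} [LinearOrder τ] [LinearOrder β] {k : ℕ} {pl : E → Fin 3}
  {tm : E → τ} {a b c : E → ℕ} {vA vB vC : ℕ → β}

lemma SchedG.leA3 (S : SchedG k pl tm a b c vA vB vC) {e e' : E} (h : pl e ≠ 2) (h' : pl e' ≠ 2)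
    (ht : tm e ≤ tm e') : a e ≤ a e' :=
  not_lt.1 fun hlt => absurd (S.monoA e' e h' h hlt) (not_lt.2 ht)

lemma SchedG.leB3 (S : SchedG k pl tm a b c vA vB vC) {e e' : E} (h : pl e ≠ 1) (h' : pl e' ≠ 1)
    (ht : tm e ≤ tm e') : b e ≤ b e' :=
  not_lt.1 fun hlt => absurd (S.monoB e' e h' h hlt) (not_lt.2 ht)

lemma SchedG.leC3 (S : SchedG k pl tm a b c vA vB vC) {e e' : E} (h : pl e ≠ 0) (h' : pl e' ≠ 0)
    (ht : tm e ≤ tm e') : c e ≤ c e' :=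
  not_lt.1 fun hlt => absurd (S.monoC e' e h' h hlt) (not_lt.2 ht)

lemma n4_cas : ∀ p : Fin 3, p = 0 ∨ p = 1 ∨ p = 2 := by decide

lemma SchedG.t0A (S : SchedG k pl tm a b c vA vB vC) {i : ℕ} (h1 : 1 ≤ i) (h2 : i ≤ 2 * k + 3)
    (h3 : i % 2 = 1) : ∃ e, pl e = 0 ∧ a e = i := by
  obtain ⟨e, he, he'⟩ := S.surjA i h1 h2
  rcases n4_cas (pl e) with h | h | h
  · exact ⟨e, h, he'⟩
  · have := (S.par1 e h).1; omega
  · exact absurd h he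

lemma SchedG.t1A (S : SchedG k pl tm a b c vA vB vC) {i : ℕ} (h1 : 1 ≤ i) (h2 : i ≤ 2 * k + 3)
    (h3 : i % 2 = 0) : ∃ e, pl e = 1 ∧ a e = i := by
  obtain ⟨e, he, he'⟩ := S.surjA i h1 h2
  rcases n4_cas (pl e) with h | h | h
  · have := (S.par0 e h).1; omega
  · exact ⟨e, h, he'⟩
  · exact absurd h he

lemma SchedG.t0B (S : SchedG k pl tm a b c vA vB vC) {i : ℕ} (h1 : 1 ≤ i) (h2 : i ≤ 2 * k + 3)
    (h3 : i % 2 = 1) : ∃ e, pl e = 0 ∧ b e = i := by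
  obtain ⟨e, he, he'⟩ := S.surjB i h1 h2
  rcases n4_cas (pl e) with h | h | h
  · exact ⟨e, h, he'⟩
  · exact absurd h he
  · have := (S.par2 e h).1; omega

lemma SchedG.t2B (S : SchedG k pl tm a b c vA vB vC) {i : ℕ} (h1 : 1 ≤ i) (h2 : i ≤ 2 * k + 3)
    (h3 : i % 2 = 0) : ∃ e, pl e = 2 ∧ b e = i := by
  obtain ⟨e, he, he'⟩ := S.surjB i h1 h2
  rcases n4_cas (pl e) with h | h | h
  · have := (S.par0 e h).2; omega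
  · exact absurd h he
  · exact ⟨e, h, he'⟩

lemma SchedG.t1C (S : SchedG k pl tm a b c vA vB vC) {i : ℕ} (h1 : 1 ≤ i) (h2 : i ≤ 2 * k + 3)
    (h3 : i % 2 = 1) : ∃ e, pl e = 1 ∧ c e = i := by
  obtain ⟨e, he, he'⟩ := S.surjC i h1 h2
  rcases n4_cas (pl e) with h | h | h
  · exact absurd h he
  · exact ⟨e, h, he'⟩
  · have := (S.par2 e h).2; omega

lemma SchedG.t2C (S : SchedG k pl tm a b c vA vB vC) {i : ℕ} (h1 : 1 ≤ i) (h2 : i ≤ 2 * k + 3)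
    (h3 : i % 2 = 0) : ∃ e, pl e = 2 ∧ c e = i := by
  obtain ⟨e, he, he'⟩ := S.surjC i h1 h2
  rcases n4_cas (pl e) with h | h | h
  · exact absurd h he
  · have := (S.par1 e h).2; omega
  · exact ⟨e, h, he'⟩

end

lemma n4q_0 (x : ℕ) (h0 : x = 1 ∨ x = 13 ∨ x = 15 ∨ x = 17 ∨ x = 23) (h1 : 3 ≤ x) : 13 ≤ x := by omega
lemma n4q_1 (x : ℕ) (h0 : x = 1 ∨ x = 13 ∨ x = 15 ∨ x = 17 ∨ x = 23) (h1 : x ≤ 21) : x ≤ 17 := by omega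
lemma n4q_2 (x : ℕ) (h0 : x = 1 ∨ x = 3 ∨ x = 13 ∨ x = 15 ∨ x = 17 ∨ x = 19 ∨ x = 23) (h1 : x ≤ 21) : x ≤ 19 := by omega
lemma n4q_3 (x : ℕ) (h0 : x = 1 ∨ x = 3 ∨ x = 13 ∨ x = 15 ∨ x = 17 ∨ x = 19 ∨ x = 23) (h1 : x ≤ 22) : x ≤ 19 := by omega
lemma n4q_4 (x : ℕ) (h0 : x = 1 ∨ x = 13 ∨ x = 15 ∨ x = 17 ∨ x = 23) (h1 : x ≤ 19) : x ≤ 17 := by omega
lemma n4q_5 (x : ℕ) (h0 : x = 2 ∨ x = 4 ∨ x = 6 ∨ x = 10 ∨ x = 14 ∨ x = 22) (h1 : x ≤ 20) : x ≤ 14 := by omega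
lemma n4q_6 (x : ℕ) (h0 : x = 2 ∨ x = 4 ∨ x = 6 ∨ x = 22) (h1 : 14 ≤ x) : 22 ≤ x := by omega
lemma n4q_7 (x : ℕ) (h0 : x = 2 ∨ x = 4 ∨ x = 6 ∨ x = 22) (h1 : x ≤ 20) : x ≤ 6 := by omega
lemma n4q_8 (x : ℕ) (h0 : x = 2 ∨ x = 4 ∨ x = 6 ∨ x = 10 ∨ x = 14 ∨ x = 22) (h1 : x ≤ 12) : x ≤ 10 := by omega
lemma n4q_9 (x : ℕ) (h0 : x = 2 ∨ x = 4 ∨ x = 6 ∨ x = 10 ∨ x = 14 ∨ x = 22) (h1 : 18 ≤ x) : 22 ≤ x := by omega
lemma n4q_10 (x : ℕ) (h0 : x = 1 ∨ x = 3 ∨ x = 13 ∨ x = 15 ∨ x = 17 ∨ x = 19 ∨ x = 23) (h1 : x ≤ 11) : x ≤ 3 := by omega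
lemma n4q_11 (x : ℕ) (h0 : x = 1 ∨ x = 13 ∨ x = 15 ∨ x = 17 ∨ x = 23) (h1 : x ≤ 16) : x ≤ 15 := by omega
lemma n4q_12 (x : ℕ) (h0 : x = 1 ∨ x = 13 ∨ x = 15 ∨ x = 17 ∨ x = 23) (h1 : x ≠ 1) (h2 : x ≠ 23) (h3 : x ≠ 13) (h4 : x ≠ 15) : x = 17 := by omega
lemma n4q_13 (x : ℕ) (h0 : x = 1 ∨ x = 13 ∨ x = 15 ∨ x = 17 ∨ x = 23) (h1 : x ≤ 15) (h2 : x ≠ 15) : x ≤ 13 := by omega
lemma n4q_14 (x : ℕ) (h0 : x = 2 ∨ x = 4 ∨ x = 6 ∨ x = 10 ∨ x = 14 ∨ x = 22) (h1 : 8 ≤ x) : 10 ≤ x := by omega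
lemma n4q_15 (x : ℕ) (h0 : x = 2 ∨ x = 4 ∨ x = 6 ∨ x = 10 ∨ x = 14 ∨ x = 22) (h1 : x ≤ 8) : x ≤ 6 := by omega
lemma n4q_16 (x : ℕ) (h0 : x = 1 ∨ x = 13 ∨ x = 15 ∨ x = 17 ∨ x = 23) (h1 : x ≠ 23) (h2 : x ≠ 1) (h3 : x ≠ 13) (h4 : x ≠ 15) : x = 17 := by omega
lemma n4q_17 (x : ℕ) (h0 : x = 1 ∨ x = 13 ∨ x = 15 ∨ x = 17 ∨ x = 23) (h1 : x ≠ 1) (h2 : x ≠ 13) (h3 : x ≠ 15) (h4 : x ≠ 17) (h5 : x ≠ 23) : False := by omega
lemma n4q_18 (x : ℕ) (h0 : x = 2 ∨ x = 4 ∨ x = 6 ∨ x = 22) (h1 : x ≤ 18) : x ≤ 6 := by omega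
lemma n4q_19 (x : ℕ) (h0 : x = 2 ∨ x = 4 ∨ x = 6 ∨ x = 22) (h1 : x ≤ 12) : x ≤ 6 := by omega
lemma n4q_20 (x : ℕ) (h0 : x = 2 ∨ x = 4 ∨ x = 6 ∨ x = 10 ∨ x = 14 ∨ x = 22) (h1 : x ≤ 21) : x ≤ 14 := by omega
lemma n4q_21 (x : ℕ) (h0 : x = 1 ∨ x = 3 ∨ x = 13 ∨ x = 15 ∨ x = 17 ∨ x = 19 ∨ x = 23) (h1 : x ≤ 5) : x ≤ 3 := by omega
lemma n4q_22 (x : ℕ) (h0 : x = 2 ∨ x = 4 ∨ x = 6 ∨ x = 22) (h1 : x ≤ 14) : x ≤ 6 := by omega
lemma n4q_23 (x : ℕ) (h0 : x = 2 ∨ x = 4 ∨ x = 6 ∨ x = 22) (h1 : x ≠ 22) (h2 : x ≠ 2) (h3 : x ≠ 6) : x = 4 := by omega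

end N4fin

set_option maxHeartbeats 4000000 in
theorem fin4 : Fin4 := by
  intro E pl tm a b c G1 G2 hG sA tA sB tB sC tC pA qA pB qB pC qC S
  obtain ⟨e_s0A5, pl_s0A5, h_s0A5⟩ := S.t0A (i := 5) (n4_le rfl) (n4_le rfl) rfl
  have n_s0A5_1 : pl e_s0A5 ≠ 1 := n4_ne01 pl_s0A5
  have n_s0A5_2 : pl e_s0A5 ≠ 2 := n4_ne02 pl_s0A5
  have par_s0A5 := S.par0 e_s0A5 pl_s0A5
  have r_s0A5 := n4_rng (S.rangeB e_s0A5 n_s0A5_1)
  obtain ⟨e_s0A9, pl_s0A9, h_s0A9⟩ := S.t0A (i := 9) (n4_le rfl) (n4_le rfl) rfl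
  have n_s0A9_1 : pl e_s0A9 ≠ 1 := n4_ne01 pl_s0A9
  have n_s0A9_2 : pl e_s0A9 ≠ 2 := n4_ne02 pl_s0A9
  have par_s0A9 := S.par0 e_s0A9 pl_s0A9
  have r_s0A9 := n4_rng (S.rangeB e_s0A9 n_s0A9_1)
  obtain ⟨e_s0A11, pl_s0A11, h_s0A11⟩ := S.t0A (i := 11) (n4_le rfl) (n4_le rfl) rfl
  have n_s0A11_1 : pl e_s0A11 ≠ 1 := n4_ne01 pl_s0A11
  have n_s0A11_2 : pl e_s0A11 ≠ 2 := n4_ne02 pl_s0A11
  have par_s0A11 := S.par0 e_s0A11 pl_s0A11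
  have r_s0A11 := n4_rng (S.rangeB e_s0A11 n_s0A11_1)
  obtain ⟨e_s0A21, pl_s0A21, h_s0A21⟩ := S.t0A (i := 21) (n4_le rfl) (n4_le rfl) rfl
  have n_s0A21_1 : pl e_s0A21 ≠ 1 := n4_ne01 pl_s0A21
  have n_s0A21_2 : pl e_s0A21 ≠ 2 := n4_ne02 pl_s0A21
  have par_s0A21 := S.par0 e_s0A21 pl_s0A21
  have r_s0A21 := n4_rng (S.rangeB e_s0A21 n_s0A21_1)
  obtain ⟨e_s0B7, pl_s0B7, h_s0B7⟩ := S.t0B (i := 7) (n4_le rfl) (n4_le rfl) rfl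
  have n_s0B7_1 : pl e_s0B7 ≠ 1 := n4_ne01 pl_s0B7
  have n_s0B7_2 : pl e_s0B7 ≠ 2 := n4_ne02 pl_s0B7
  have par_s0B7 := S.par0 e_s0B7 pl_s0B7
  have r_s0B7 := n4_rng (S.rangeA e_s0B7 n_s0B7_2)
  obtain ⟨e_s0B9, pl_s0B9, h_s0B9⟩ := S.t0B (i := 9) (n4_le rfl) (n4_le rfl) rfl
  have n_s0B9_1 : pl e_s0B9 ≠ 1 := n4_ne01 pl_s0B9
  have n_s0B9_2 : pl e_s0B9 ≠ 2 := n4_ne02 pl_s0B9
  have par_s0B9 := S.par0 e_s0B9 pl_s0B9
  have r_s0B9 := n4_rng (S.rangeA e_s0B9 n_s0B9_2)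
  obtain ⟨e_s0B21, pl_s0B21, h_s0B21⟩ := S.t0B (i := 21) (n4_le rfl) (n4_le rfl) rfl
  have n_s0B21_1 : pl e_s0B21 ≠ 1 := n4_ne01 pl_s0B21
  have n_s0B21_2 : pl e_s0B21 ≠ 2 := n4_ne02 pl_s0B21
  have par_s0B21 := S.par0 e_s0B21 pl_s0B21
  have r_s0B21 := n4_rng (S.rangeA e_s0B21 n_s0B21_2)
  obtain ⟨e_s1A12, pl_s1A12, h_s1A12⟩ := S.t1A (i := 12) (n4_le rfl) (n4_le rfl) rfl
  have n_s1A12_0 : pl e_s1A12 ≠ 0 := n4_ne10 pl_s1A12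
  have n_s1A12_2 : pl e_s1A12 ≠ 2 := n4_ne12 pl_s1A12
  have par_s1A12 := S.par1 e_s1A12 pl_s1A12
  have r_s1A12 := n4_rng (S.rangeC e_s1A12 n_s1A12_0)
  obtain ⟨e_s1A16, pl_s1A16, h_s1A16⟩ := S.t1A (i := 16) (n4_le rfl) (n4_le rfl) rfl
  have n_s1A16_0 : pl e_s1A16 ≠ 0 := n4_ne10 pl_s1A16
  have n_s1A16_2 : pl e_s1A16 ≠ 2 := n4_ne12 pl_s1A16
  have par_s1A16 := S.par1 e_s1A16 pl_s1A16
  have r_s1A16 := n4_rng (S.rangeC e_s1A16 n_s1A16_0)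
  obtain ⟨e_s1A18, pl_s1A18, h_s1A18⟩ := S.t1A (i := 18) (n4_le rfl) (n4_le rfl) rfl
  have n_s1A18_0 : pl e_s1A18 ≠ 0 := n4_ne10 pl_s1A18
  have n_s1A18_2 : pl e_s1A18 ≠ 2 := n4_ne12 pl_s1A18
  have par_s1A18 := S.par1 e_s1A18 pl_s1A18
  have r_s1A18 := n4_rng (S.rangeC e_s1A18 n_s1A18_0)
  obtain ⟨e_s1A20, pl_s1A20, h_s1A20⟩ := S.t1A (i := 20) (n4_le rfl) (n4_le rfl) rfl
  have n_s1A20_0 : pl e_s1A20 ≠ 0 := n4_ne10 pl_s1A20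
  have n_s1A20_2 : pl e_s1A20 ≠ 2 := n4_ne12 pl_s1A20
  have par_s1A20 := S.par1 e_s1A20 pl_s1A20
  have r_s1A20 := n4_rng (S.rangeC e_s1A20 n_s1A20_0)
  obtain ⟨e_s1C1, pl_s1C1, h_s1C1⟩ := S.t1C (i := 1) (n4_le rfl) (n4_le rfl) rfl
  have n_s1C1_0 : pl e_s1C1 ≠ 0 := n4_ne10 pl_s1C1
  have n_s1C1_2 : pl e_s1C1 ≠ 2 := n4_ne12 pl_s1C1
  have par_s1C1 := S.par1 e_s1C1 pl_s1C1
  have r_s1C1 := n4_rng' (S.rangeA e_s1C1 n_s1C1_2) (par_s1C1).1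
  obtain ⟨e_s1C7, pl_s1C7, h_s1C7⟩ := S.t1C (i := 7) (n4_le rfl) (n4_le rfl) rfl
  have n_s1C7_0 : pl e_s1C7 ≠ 0 := n4_ne10 pl_s1C7
  have n_s1C7_2 : pl e_s1C7 ≠ 2 := n4_ne12 pl_s1C7
  have par_s1C7 := S.par1 e_s1C7 pl_s1C7
  have r_s1C7 := n4_rng' (S.rangeA e_s1C7 n_s1C7_2) (par_s1C7).1
  obtain ⟨e_s1C9, pl_s1C9, h_s1C9⟩ := S.t1C (i := 9) (n4_le rfl) (n4_le rfl) rfl
  have n_s1C9_0 : pl e_s1C9 ≠ 0 := n4_ne10 pl_s1C9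
  have n_s1C9_2 : pl e_s1C9 ≠ 2 := n4_ne12 pl_s1C9
  have par_s1C9 := S.par1 e_s1C9 pl_s1C9
  have r_s1C9 := n4_rng' (S.rangeA e_s1C9 n_s1C9_2) (par_s1C9).1
  obtain ⟨e_s1C21, pl_s1C21, h_s1C21⟩ := S.t1C (i := 21) (n4_le rfl) (n4_le rfl) rfl
  have n_s1C21_0 : pl e_s1C21 ≠ 0 := n4_ne10 pl_s1C21
  have n_s1C21_2 : pl e_s1C21 ≠ 2 := n4_ne12 pl_s1C21
  have par_s1C21 := S.par1 e_s1C21 pl_s1C21
  have r_s1C21 := n4_rng' (S.rangeA e_s1C21 n_s1C21_2) (par_s1C21).1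
  obtain ⟨e_s1C23, pl_s1C23, h_s1C23⟩ := S.t1C (i := 23) (n4_le rfl) (n4_le rfl) rfl
  have n_s1C23_0 : pl e_s1C23 ≠ 0 := n4_ne10 pl_s1C23
  have n_s1C23_2 : pl e_s1C23 ≠ 2 := n4_ne12 pl_s1C23
  have par_s1C23 := S.par1 e_s1C23 pl_s1C23
  have r_s1C23 := n4_rng' (S.rangeA e_s1C23 n_s1C23_2) (par_s1C23).1
  obtain ⟨e_s2B2, pl_s2B2, h_s2B2⟩ := S.t2B (i := 2) (n4_le rfl) (n4_le rfl) rfl
  have n_s2B2_0 : pl e_s2B2 ≠ 0 := n4_ne20 pl_s2B2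
  have n_s2B2_1 : pl e_s2B2 ≠ 1 := n4_ne21 pl_s2B2
  have par_s2B2 := S.par2 e_s2B2 pl_s2B2
  have r_s2B2 := n4_rng' (S.rangeC e_s2B2 n_s2B2_0) (par_s2B2).2
  obtain ⟨e_s2B8, pl_s2B8, h_s2B8⟩ := S.t2B (i := 8) (n4_le rfl) (n4_le rfl) rfl
  have n_s2B8_0 : pl e_s2B8 ≠ 0 := n4_ne20 pl_s2B8
  have n_s2B8_1 : pl e_s2B8 ≠ 1 := n4_ne21 pl_s2B8
  have par_s2B8 := S.par2 e_s2B8 pl_s2B8
  have r_s2B8 := n4_rng' (S.rangeC e_s2B8 n_s2B8_0) (par_s2B8).2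
  obtain ⟨e_s2B18, pl_s2B18, h_s2B18⟩ := S.t2B (i := 18) (n4_le rfl) (n4_le rfl) rfl
  have n_s2B18_0 : pl e_s2B18 ≠ 0 := n4_ne20 pl_s2B18
  have n_s2B18_1 : pl e_s2B18 ≠ 1 := n4_ne21 pl_s2B18
  have par_s2B18 := S.par2 e_s2B18 pl_s2B18
  have r_s2B18 := n4_rng' (S.rangeC e_s2B18 n_s2B18_0) (par_s2B18).2
  obtain ⟨e_s2B20, pl_s2B20, h_s2B20⟩ := S.t2B (i := 20) (n4_le rfl) (n4_le rfl) rfl
  have n_s2B20_0 : pl e_s2B20 ≠ 0 := n4_ne20 pl_s2B20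
  have n_s2B20_1 : pl e_s2B20 ≠ 1 := n4_ne21 pl_s2B20
  have par_s2B20 := S.par2 e_s2B20 pl_s2B20
  have r_s2B20 := n4_rng' (S.rangeC e_s2B20 n_s2B20_0) (par_s2B20).2
  obtain ⟨e_s2B22, pl_s2B22, h_s2B22⟩ := S.t2B (i := 22) (n4_le rfl) (n4_le rfl) rfl
  have n_s2B22_0 : pl e_s2B22 ≠ 0 := n4_ne20 pl_s2B22
  have n_s2B22_1 : pl e_s2B22 ≠ 1 := n4_ne21 pl_s2B22
  have par_s2B22 := S.par2 e_s2B22 pl_s2B22
  have r_s2B22 := n4_rng' (S.rangeC e_s2B22 n_s2B22_0) (par_s2B22).2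
  obtain ⟨e_s2C2, pl_s2C2, h_s2C2⟩ := S.t2C (i := 2) (n4_le rfl) (n4_le rfl) rfl
  have n_s2C2_0 : pl e_s2C2 ≠ 0 := n4_ne20 pl_s2C2
  have n_s2C2_1 : pl e_s2C2 ≠ 1 := n4_ne21 pl_s2C2
  have par_s2C2 := S.par2 e_s2C2 pl_s2C2
  have r_s2C2 := n4_rng' (S.rangeB e_s2C2 n_s2C2_1) (par_s2C2).1
  obtain ⟨e_s2C8, pl_s2C8, h_s2C8⟩ := S.t2C (i := 8) (n4_le rfl) (n4_le rfl) rfl
  have n_s2C8_0 : pl e_s2C8 ≠ 0 := n4_ne20 pl_s2C8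
  have n_s2C8_1 : pl e_s2C8 ≠ 1 := n4_ne21 pl_s2C8
  have par_s2C8 := S.par2 e_s2C8 pl_s2C8
  have r_s2C8 := n4_rng' (S.rangeB e_s2C8 n_s2C8_1) (par_s2C8).1
  obtain ⟨e_s2C18, pl_s2C18, h_s2C18⟩ := S.t2C (i := 18) (n4_le rfl) (n4_le rfl) rfl
  have n_s2C18_0 : pl e_s2C18 ≠ 0 := n4_ne20 pl_s2C18
  have n_s2C18_1 : pl e_s2C18 ≠ 1 := n4_ne21 pl_s2C18
  have par_s2C18 := S.par2 e_s2C18 pl_s2C18
  have r_s2C18 := n4_rng' (S.rangeB e_s2C18 n_s2C18_1) (par_s2C18).1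
  obtain ⟨e_s2C20, pl_s2C20, h_s2C20⟩ := S.t2C (i := 20) (n4_le rfl) (n4_le rfl) rfl
  have n_s2C20_0 : pl e_s2C20 ≠ 0 := n4_ne20 pl_s2C20
  have n_s2C20_1 : pl e_s2C20 ≠ 1 := n4_ne21 pl_s2C20
  have par_s2C20 := S.par2 e_s2C20 pl_s2C20
  have r_s2C20 := n4_rng' (S.rangeB e_s2C20 n_s2C20_1) (par_s2C20).1
  obtain ⟨e_h0A13, pl_h0A13, h_h0A13, H_h0A13⟩ := S.hostA0 13 (n4_le rfl) (n4_le rfl) rfl
  have n_h0A13_1 : pl e_h0A13 ≠ 1 := n4_ne01 pl_h0A13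
  have n_h0A13_2 : pl e_h0A13 ≠ 2 := n4_ne02 pl_h0A13
  have par_h0A13 := S.par0 e_h0A13 pl_h0A13
  have r_h0A13 := n4_rng (S.rangeB e_h0A13 n_h0A13_1)
  have d_h0A13 := n4_host3s hG (n4_v13 pA) pB r_h0A13 (par_h0A13).2 H_h0A13
  obtain ⟨e_h0A15, pl_h0A15, h_h0A15, H_h0A15⟩ := S.hostA0 15 (n4_le rfl) (n4_le rfl) rfl
  have n_h0A15_1 : pl e_h0A15 ≠ 1 := n4_ne01 pl_h0A15
  have n_h0A15_2 : pl e_h0A15 ≠ 2 := n4_ne02 pl_h0A15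
  have par_h0A15 := S.par0 e_h0A15 pl_h0A15
  have r_h0A15 := n4_rng (S.rangeB e_h0A15 n_h0A15_1)
  have d_h0A15 := n4_host3s hG (n4_v15 pA) pB r_h0A15 (par_h0A15).2 H_h0A15
  obtain ⟨e_h0A17, pl_h0A17, h_h0A17, H_h0A17⟩ := S.hostA0 17 (n4_le rfl) (n4_le rfl) rfl
  have n_h0A17_1 : pl e_h0A17 ≠ 1 := n4_ne01 pl_h0A17
  have n_h0A17_2 : pl e_h0A17 ≠ 2 := n4_ne02 pl_h0A17
  have par_h0A17 := S.par0 e_h0A17 pl_h0A17
  have r_h0A17 := n4_rng (S.rangeB e_h0A17 n_h0A17_1)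
  have d_h0A17 := n4_host3s hG (n4_v17 pA) pB r_h0A17 (par_h0A17).2 H_h0A17
  obtain ⟨e_h0A19, pl_h0A19, h_h0A19, H_h0A19⟩ := S.hostA0 19 (n4_le rfl) (n4_le rfl) rfl
  have n_h0A19_1 : pl e_h0A19 ≠ 1 := n4_ne01 pl_h0A19
  have n_h0A19_2 : pl e_h0A19 ≠ 2 := n4_ne02 pl_h0A19
  have par_h0A19 := S.par0 e_h0A19 pl_h0A19
  have r_h0A19 := n4_rng (S.rangeB e_h0A19 n_h0A19_1)
  have d_h0A19 := n4_host2s (n4_v19 pA) pB r_h0A19 (par_h0A19).2 H_h0A19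
  obtain ⟨e_h0B3, pl_h0B3, h_h0B3, H_h0B3⟩ := S.hostB0 3 (n4_le rfl) (n4_le rfl) rfl
  have n_h0B3_1 : pl e_h0B3 ≠ 1 := n4_ne01 pl_h0B3
  have n_h0B3_2 : pl e_h0B3 ≠ 2 := n4_ne02 pl_h0B3
  have par_h0B3 := S.par0 e_h0B3 pl_h0B3
  have r_h0B3 := n4_rng (S.rangeA e_h0B3 n_h0B3_2)
  have d_h0B3 := n4_host2s (n4_v3 pB) pA r_h0B3 (par_h0B3).1 H_h0B3
  obtain ⟨e_h0B13, pl_h0B13, h_h0B13, H_h0B13⟩ := S.hostB0 13 (n4_le rfl) (n4_le rfl) rfl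
  have n_h0B13_1 : pl e_h0B13 ≠ 1 := n4_ne01 pl_h0B13
  have n_h0B13_2 : pl e_h0B13 ≠ 2 := n4_ne02 pl_h0B13
  have par_h0B13 := S.par0 e_h0B13 pl_h0B13
  have r_h0B13 := n4_rng (S.rangeA e_h0B13 n_h0B13_2)
  have d_h0B13 := n4_host3s hG (n4_v13 pB) pA r_h0B13 (par_h0B13).1 H_h0B13
  obtain ⟨e_h0B17, pl_h0B17, h_h0B17, H_h0B17⟩ := S.hostB0 17 (n4_le rfl) (n4_le rfl) rfl
  have n_h0B17_1 : pl e_h0B17 ≠ 1 := n4_ne01 pl_h0B17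
  have n_h0B17_2 : pl e_h0B17 ≠ 2 := n4_ne02 pl_h0B17
  have par_h0B17 := S.par0 e_h0B17 pl_h0B17
  have r_h0B17 := n4_rng (S.rangeA e_h0B17 n_h0B17_2)
  have d_h0B17 := n4_host3s hG (n4_v17 pB) pA r_h0B17 (par_h0B17).1 H_h0B17
  obtain ⟨e_h0B19, pl_h0B19, h_h0B19, H_h0B19⟩ := S.hostB0 19 (n4_le rfl) (n4_le rfl) rfl
  have n_h0B19_1 : pl e_h0B19 ≠ 1 := n4_ne01 pl_h0B19
  have n_h0B19_2 : pl e_h0B19 ≠ 2 := n4_ne02 pl_h0B19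
  have par_h0B19 := S.par0 e_h0B19 pl_h0B19
  have r_h0B19 := n4_rng (S.rangeA e_h0B19 n_h0B19_2)
  have d_h0B19 := n4_host2s (n4_v19 pB) pA r_h0B19 (par_h0B19).1 H_h0B19
  obtain ⟨e_h1A4, pl_h1A4, h_h1A4, H_h1A4⟩ := S.hostA1 4 (n4_le rfl) (n4_le rfl) rfl
  have n_h1A4_0 : pl e_h1A4 ≠ 0 := n4_ne10 pl_h1A4
  have n_h1A4_2 : pl e_h1A4 ≠ 2 := n4_ne12 pl_h1A4
  have par_h1A4 := S.par1 e_h1A4 pl_h1A4
  have r_h1A4 := n4_rng (S.rangeC e_h1A4 n_h1A4_0)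
  have d_h1A4 := n4_host3s hG (n4_v4 qA) pC r_h1A4 (par_h1A4).2 H_h1A4
  obtain ⟨e_h1A6, pl_h1A6, h_h1A6, H_h1A6⟩ := S.hostA1 6 (n4_le rfl) (n4_le rfl) rfl
  have n_h1A6_0 : pl e_h1A6 ≠ 0 := n4_ne10 pl_h1A6
  have n_h1A6_2 : pl e_h1A6 ≠ 2 := n4_ne12 pl_h1A6
  have par_h1A6 := S.par1 e_h1A6 pl_h1A6
  have r_h1A6 := n4_rng (S.rangeC e_h1A6 n_h1A6_0)
  have d_h1A6 := n4_host3s hG (n4_v6 qA) pC r_h1A6 (par_h1A6).2 H_h1A6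
  obtain ⟨e_h1A10, pl_h1A10, h_h1A10, H_h1A10⟩ := S.hostA1 10 (n4_le rfl) (n4_le rfl) rfl
  have n_h1A10_0 : pl e_h1A10 ≠ 0 := n4_ne10 pl_h1A10
  have n_h1A10_2 : pl e_h1A10 ≠ 2 := n4_ne12 pl_h1A10
  have par_h1A10 := S.par1 e_h1A10 pl_h1A10
  have r_h1A10 := n4_rng (S.rangeC e_h1A10 n_h1A10_0)
  have d_h1A10 := n4_host2s (n4_v10 qA) pC r_h1A10 (par_h1A10).2 H_h1A10
  obtain ⟨e_h1A14, pl_h1A14, h_h1A14, H_h1A14⟩ := S.hostA1 14 (n4_le rfl) (n4_le rfl) rfl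
  have n_h1A14_0 : pl e_h1A14 ≠ 0 := n4_ne10 pl_h1A14
  have n_h1A14_2 : pl e_h1A14 ≠ 2 := n4_ne12 pl_h1A14
  have par_h1A14 := S.par1 e_h1A14 pl_h1A14
  have r_h1A14 := n4_rng (S.rangeC e_h1A14 n_h1A14_0)
  have d_h1A14 := n4_host2s (n4_v14 qA) pC r_h1A14 (par_h1A14).2 H_h1A14
  obtain ⟨e_h1C3, pl_h1C3, h_h1C3, H_h1C3⟩ := S.hostC1 3 (n4_le rfl) (n4_le rfl) rfl
  have n_h1C3_0 : pl e_h1C3 ≠ 0 := n4_ne10 pl_h1C3
  have n_h1C3_2 : pl e_h1C3 ≠ 2 := n4_ne12 pl_h1C3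
  have par_h1C3 := S.par1 e_h1C3 pl_h1C3
  have r_h1C3 := n4_rng' (S.rangeA e_h1C3 n_h1C3_2) (par_h1C3).1
  have d_h1C3 := n4_host2t (n4_v3 pC) qA r_h1C3 (par_h1C3).1 H_h1C3
  obtain ⟨e_h1C13, pl_h1C13, h_h1C13, H_h1C13⟩ := S.hostC1 13 (n4_le rfl) (n4_le rfl) rfl
  have n_h1C13_0 : pl e_h1C13 ≠ 0 := n4_ne10 pl_h1C13
  have n_h1C13_2 : pl e_h1C13 ≠ 2 := n4_ne12 pl_h1C13
  have par_h1C13 := S.par1 e_h1C13 pl_h1C13
  have r_h1C13 := n4_rng' (S.rangeA e_h1C13 n_h1C13_2) (par_h1C13).1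
  have d_h1C13 := n4_host3t hG (n4_v13 pC) qA r_h1C13 (par_h1C13).1 H_h1C13
  obtain ⟨e_h1C15, pl_h1C15, h_h1C15, H_h1C15⟩ := S.hostC1 15 (n4_le rfl) (n4_le rfl) rfl
  have n_h1C15_0 : pl e_h1C15 ≠ 0 := n4_ne10 pl_h1C15
  have n_h1C15_2 : pl e_h1C15 ≠ 2 := n4_ne12 pl_h1C15
  have par_h1C15 := S.par1 e_h1C15 pl_h1C15
  have r_h1C15 := n4_rng' (S.rangeA e_h1C15 n_h1C15_2) (par_h1C15).1
  have d_h1C15 := n4_host3t hG (n4_v15 pC) qA r_h1C15 (par_h1C15).1 H_h1C15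
  obtain ⟨e_h1C19, pl_h1C19, h_h1C19, H_h1C19⟩ := S.hostC1 19 (n4_le rfl) (n4_le rfl) rfl
  have n_h1C19_0 : pl e_h1C19 ≠ 0 := n4_ne10 pl_h1C19
  have n_h1C19_2 : pl e_h1C19 ≠ 2 := n4_ne12 pl_h1C19
  have par_h1C19 := S.par1 e_h1C19 pl_h1C19
  have r_h1C19 := n4_rng' (S.rangeA e_h1C19 n_h1C19_2) (par_h1C19).1
  have d_h1C19 := n4_host2t (n4_v19 pC) qA r_h1C19 (par_h1C19).1 H_h1C19
  obtain ⟨e_h2B4, pl_h2B4, h_h2B4, H_h2B4⟩ := S.hostB2 4 (n4_le rfl) (n4_le rfl) rfl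
  have n_h2B4_0 : pl e_h2B4 ≠ 0 := n4_ne20 pl_h2B4
  have n_h2B4_1 : pl e_h2B4 ≠ 1 := n4_ne21 pl_h2B4
  have par_h2B4 := S.par2 e_h2B4 pl_h2B4
  have r_h2B4 := n4_rng' (S.rangeC e_h2B4 n_h2B4_0) (par_h2B4).2
  have d_h2B4 := n4_host3t hG (n4_v4 qB) qC r_h2B4 (par_h2B4).2 H_h2B4
  obtain ⟨e_h2B6, pl_h2B6, h_h2B6, H_h2B6⟩ := S.hostB2 6 (n4_le rfl) (n4_le rfl) rfl
  have n_h2B6_0 : pl e_h2B6 ≠ 0 := n4_ne20 pl_h2B6
  have n_h2B6_1 : pl e_h2B6 ≠ 1 := n4_ne21 pl_h2B6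
  have par_h2B6 := S.par2 e_h2B6 pl_h2B6
  have r_h2B6 := n4_rng' (S.rangeC e_h2B6 n_h2B6_0) (par_h2B6).2
  have d_h2B6 := n4_host3t hG (n4_v6 qB) qC r_h2B6 (par_h2B6).2 H_h2B6
  obtain ⟨e_h2B10, pl_h2B10, h_h2B10, H_h2B10⟩ := S.hostB2 10 (n4_le rfl) (n4_le rfl) rfl
  have n_h2B10_0 : pl e_h2B10 ≠ 0 := n4_ne20 pl_h2B10
  have n_h2B10_1 : pl e_h2B10 ≠ 1 := n4_ne21 pl_h2B10
  have par_h2B10 := S.par2 e_h2B10 pl_h2B10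
  have r_h2B10 := n4_rng' (S.rangeC e_h2B10 n_h2B10_0) (par_h2B10).2
  have d_h2B10 := n4_host2t (n4_v10 qB) qC r_h2B10 (par_h2B10).2 H_h2B10
  obtain ⟨e_h2B14, pl_h2B14, h_h2B14, H_h2B14⟩ := S.hostB2 14 (n4_le rfl) (n4_le rfl) rfl
  have n_h2B14_0 : pl e_h2B14 ≠ 0 := n4_ne20 pl_h2B14
  have n_h2B14_1 : pl e_h2B14 ≠ 1 := n4_ne21 pl_h2B14
  have par_h2B14 := S.par2 e_h2B14 pl_h2B14
  have r_h2B14 := n4_rng' (S.rangeC e_h2B14 n_h2B14_0) (par_h2B14).2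
  have d_h2B14 := n4_host2t (n4_v14 qB) qC r_h2B14 (par_h2B14).2 H_h2B14
  obtain ⟨e_h2C4, pl_h2C4, h_h2C4, H_h2C4⟩ := S.hostC2 4 (n4_le rfl) (n4_le rfl) rfl
  have n_h2C4_0 : pl e_h2C4 ≠ 0 := n4_ne20 pl_h2C4
  have n_h2C4_1 : pl e_h2C4 ≠ 1 := n4_ne21 pl_h2C4
  have par_h2C4 := S.par2 e_h2C4 pl_h2C4
  have r_h2C4 := n4_rng' (S.rangeB e_h2C4 n_h2C4_1) (par_h2C4).1
  have d_h2C4 := n4_host3t hG (n4_v4 qC) qB r_h2C4 (par_h2C4).1 H_h2C4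
  obtain ⟨e_h2C6, pl_h2C6, h_h2C6, H_h2C6⟩ := S.hostC2 6 (n4_le rfl) (n4_le rfl) rfl
  have n_h2C6_0 : pl e_h2C6 ≠ 0 := n4_ne20 pl_h2C6
  have n_h2C6_1 : pl e_h2C6 ≠ 1 := n4_ne21 pl_h2C6
  have par_h2C6 := S.par2 e_h2C6 pl_h2C6
  have r_h2C6 := n4_rng' (S.rangeB e_h2C6 n_h2C6_1) (par_h2C6).1
  have d_h2C6 := n4_host3t hG (n4_v6 qC) qB r_h2C6 (par_h2C6).1 H_h2C6
  obtain ⟨e_h2C10, pl_h2C10, h_h2C10, H_h2C10⟩ := S.hostC2 10 (n4_le rfl) (n4_le rfl) rfl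
  have n_h2C10_0 : pl e_h2C10 ≠ 0 := n4_ne20 pl_h2C10
  have n_h2C10_1 : pl e_h2C10 ≠ 1 := n4_ne21 pl_h2C10
  have par_h2C10 := S.par2 e_h2C10 pl_h2C10
  have r_h2C10 := n4_rng' (S.rangeB e_h2C10 n_h2C10_1) (par_h2C10).1
  have d_h2C10 := n4_host2t (n4_v10 qC) qB r_h2C10 (par_h2C10).1 H_h2C10
  obtain ⟨e_h2C14, pl_h2C14, h_h2C14, H_h2C14⟩ := S.hostC2 14 (n4_le rfl) (n4_le rfl) rfl
  have n_h2C14_0 : pl e_h2C14 ≠ 0 := n4_ne20 pl_h2C14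
  have n_h2C14_1 : pl e_h2C14 ≠ 1 := n4_ne21 pl_h2C14
  have par_h2C14 := S.par2 e_h2C14 pl_h2C14
  have r_h2C14 := n4_rng' (S.rangeB e_h2C14 n_h2C14_1) (par_h2C14).1
  have d_h2C14 := n4_host2t (n4_v14 qC) qB r_h2C14 (par_h2C14).1 H_h2C14
  exact
    have f0 : 5 ≤ a e_s0A5 := h_s0A5.ge
    have f1 : a e_s0A5 ≤ 5 := h_s0A5.le
    have f4 : 9 ≤ a e_s0A9 := h_s0A9.ge
    have f5 : a e_s0A9 ≤ 9 := h_s0A9.le
    have f8 : 11 ≤ a e_s0A11 := h_s0A11.ge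
    have f9 : a e_s0A11 ≤ 11 := h_s0A11.le
    have f12 : 21 ≤ a e_s0A21 := h_s0A21.ge
    have f13 : a e_s0A21 ≤ 21 := h_s0A21.le
    have f18 : 7 ≤ b e_s0B7 := h_s0B7.ge
    have f19 : b e_s0B7 ≤ 7 := h_s0B7.le
    have f22 : 9 ≤ b e_s0B9 := h_s0B9.ge
    have f23 : b e_s0B9 ≤ 9 := h_s0B9.le
    have f26 : 21 ≤ b e_s0B21 := h_s0B21.ge
    have f27 : b e_s0B21 ≤ 21 := h_s0B21.le
    have f28 : 12 ≤ a e_s1A12 := h_s1A12.ge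
    have f29 : a e_s1A12 ≤ 12 := h_s1A12.le
    have f32 : 16 ≤ a e_s1A16 := h_s1A16.ge
    have f33 : a e_s1A16 ≤ 16 := h_s1A16.le
    have f36 : 18 ≤ a e_s1A18 := h_s1A18.ge
    have f37 : a e_s1A18 ≤ 18 := h_s1A18.le
    have f40 : 20 ≤ a e_s1A20 := h_s1A20.ge
    have f41 : a e_s1A20 ≤ 20 := h_s1A20.le
    have f44 : 2 ≤ a e_s1C1 := (r_s1C1).1
    have f47 : c e_s1C1 ≤ 1 := h_s1C1.le
    have f50 : 7 ≤ c e_s1C7 := h_s1C7.ge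
    have f51 : c e_s1C7 ≤ 7 := h_s1C7.le
    have f54 : 9 ≤ c e_s1C9 := h_s1C9.ge
    have f55 : c e_s1C9 ≤ 9 := h_s1C9.le
    have f58 : 21 ≤ c e_s1C21 := h_s1C21.ge
    have f59 : c e_s1C21 ≤ 21 := h_s1C21.le
    have f61 : a e_s1C23 ≤ 22 := (r_s1C23).2
    have f62 : 23 ≤ c e_s1C23 := h_s1C23.ge
    have f65 : b e_s2B2 ≤ 2 := h_s2B2.le
    have f66 : 2 ≤ c e_s2B2 := (r_s2B2).1
    have f68 : 8 ≤ b e_s2B8 := h_s2B8.ge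
    have f69 : b e_s2B8 ≤ 8 := h_s2B8.le
    have f72 : 18 ≤ b e_s2B18 := h_s2B18.ge
    have f73 : b e_s2B18 ≤ 18 := h_s2B18.le
    have f75 : c e_s2B18 ≤ 22 := (r_s2B18).2
    have f76 : 20 ≤ b e_s2B20 := h_s2B20.ge
    have f77 : b e_s2B20 ≤ 20 := h_s2B20.le
    have f79 : c e_s2B20 ≤ 22 := (r_s2B20).2
    have f80 : 22 ≤ b e_s2B22 := h_s2B22.ge
    have f83 : c e_s2B22 ≤ 22 := (r_s2B22).2
    have f84 : 2 ≤ b e_s2C2 := (r_s2C2).1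
    have f87 : c e_s2C2 ≤ 2 := h_s2C2.le
    have f90 : 8 ≤ c e_s2C8 := h_s2C8.ge
    have f91 : c e_s2C8 ≤ 8 := h_s2C8.le
    have f93 : b e_s2C18 ≤ 22 := (r_s2C18).2
    have f94 : 18 ≤ c e_s2C18 := h_s2C18.ge
    have f95 : c e_s2C18 ≤ 18 := h_s2C18.le
    have f98 : 20 ≤ c e_s2C20 := h_s2C20.ge
    have f99 : c e_s2C20 ≤ 20 := h_s2C20.le
    have f100 : 13 ≤ a e_h0A13 := h_h0A13.ge
    have f101 : a e_h0A13 ≤ 13 := h_h0A13.le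
    have f104 : 15 ≤ a e_h0A15 := h_h0A15.ge
    have f105 : a e_h0A15 ≤ 15 := h_h0A15.le
    have f108 : 17 ≤ a e_h0A17 := h_h0A17.ge
    have f109 : a e_h0A17 ≤ 17 := h_h0A17.le
    have f112 : 19 ≤ a e_h0A19 := h_h0A19.ge
    have f113 : a e_h0A19 ≤ 19 := h_h0A19.le
    have f118 : 3 ≤ b e_h0B3 := h_h0B3.ge
    have f119 : b e_h0B3 ≤ 3 := h_h0B3.le
    have f122 : 13 ≤ b e_h0B13 := h_h0B13.ge
    have f123 : b e_h0B13 ≤ 13 := h_h0B13.le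
    have f126 : 17 ≤ b e_h0B17 := h_h0B17.ge
    have f127 : b e_h0B17 ≤ 17 := h_h0B17.le
    have f130 : 19 ≤ b e_h0B19 := h_h0B19.ge
    have f131 : b e_h0B19 ≤ 19 := h_h0B19.le
    have f132 : 4 ≤ a e_h1A4 := h_h1A4.ge
    have f133 : a e_h1A4 ≤ 4 := h_h1A4.le
    have f136 : 6 ≤ a e_h1A6 := h_h1A6.ge
    have f137 : a e_h1A6 ≤ 6 := h_h1A6.le
    have f140 : 10 ≤ a e_h1A10 := h_h1A10.ge
    have f141 : a e_h1A10 ≤ 10 := h_h1A10.le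
    have f144 : 14 ≤ a e_h1A14 := h_h1A14.ge
    have f145 : a e_h1A14 ≤ 14 := h_h1A14.le
    have f150 : 3 ≤ c e_h1C3 := h_h1C3.ge
    have f151 : c e_h1C3 ≤ 3 := h_h1C3.le
    have f154 : 13 ≤ c e_h1C13 := h_h1C13.ge
    have f155 : c e_h1C13 ≤ 13 := h_h1C13.le
    have f158 : 15 ≤ c e_h1C15 := h_h1C15.ge
    have f159 : c e_h1C15 ≤ 15 := h_h1C15.le
    have f162 : 19 ≤ c e_h1C19 := h_h1C19.ge
    have f163 : c e_h1C19 ≤ 19 := h_h1C19.le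
    have f164 : 4 ≤ b e_h2B4 := h_h2B4.ge
    have f165 : b e_h2B4 ≤ 4 := h_h2B4.le
    have f168 : 6 ≤ b e_h2B6 := h_h2B6.ge
    have f169 : b e_h2B6 ≤ 6 := h_h2B6.le
    have f172 : 10 ≤ b e_h2B10 := h_h2B10.ge
    have f173 : b e_h2B10 ≤ 10 := h_h2B10.le
    have f176 : 14 ≤ b e_h2B14 := h_h2B14.ge
    have f177 : b e_h2B14 ≤ 14 := h_h2B14.le
    have f182 : 4 ≤ c e_h2C4 := h_h2C4.ge
    have f183 : c e_h2C4 ≤ 4 := h_h2C4.le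
    have f186 : 6 ≤ c e_h2C6 := h_h2C6.ge
    have f187 : c e_h2C6 ≤ 6 := h_h2C6.le
    have f190 : 10 ≤ c e_h2C10 := h_h2C10.ge
    have f191 : c e_h2C10 ≤ 10 := h_h2C10.le
    have f194 : 14 ≤ c e_h2C14 := h_h2C14.ge
    have f195 : c e_h2C14 ≤ 14 := h_h2C14.le
    have f207 : tm e_s0A5 < tm e_h1A6 := S.monoA _ _ n_s0A5_2 n_h1A6_2 (lt_of_le_of_lt f1 (lt_of_lt_of_le (n4_lt rfl) f136))
    have f212 : tm e_s0A9 < tm e_s1A12 := S.monoA _ _ n_s0A9_2 n_s1A12_2 (lt_of_le_of_lt f5 (lt_of_lt_of_le (n4_lt rfl) f28))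
    have f220 : tm e_s0A9 < tm e_h1A10 := S.monoA _ _ n_s0A9_2 n_h1A10_2 (lt_of_le_of_lt f5 (lt_of_lt_of_le (n4_lt rfl) f140))
    have f223 : tm e_s0A11 < tm e_s1A12 := S.monoA _ _ n_s0A11_2 n_s1A12_2 (lt_of_le_of_lt f9 (lt_of_lt_of_le (n4_lt rfl) f28))
    have f234 : tm e_s0B7 < tm e_s2B8 := S.monoB _ _ n_s0B7_1 n_s2B8_1 (lt_of_le_of_lt f19 (lt_of_lt_of_le (n4_lt rfl) f68))
    have f241 : tm e_s0B7 < tm e_h2B10 := S.monoB _ _ n_s0B7_1 n_h2B10_1 (lt_of_le_of_lt f19 (lt_of_lt_of_le (n4_lt rfl) f172))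
    have f250 : tm e_s0B9 < tm e_h2B10 := S.monoB _ _ n_s0B9_1 n_h2B10_1 (lt_of_le_of_lt f23 (lt_of_lt_of_le (n4_lt rfl) f172))
    have f252 : tm e_s0B21 < tm e_s2B22 := S.monoB _ _ n_s0B21_1 n_s2B22_1 (lt_of_le_of_lt f27 (lt_of_lt_of_le (n4_lt rfl) f80))
    have f265 : tm e_s1A16 < tm e_h0A17 := S.monoA _ _ n_s1A16_2 n_h0A17_2 (lt_of_le_of_lt f33 (lt_of_lt_of_le (n4_lt rfl) f108))
    have f269 : tm e_s1A18 < tm e_h0A19 := S.monoA _ _ n_s1A18_2 n_h0A19_2 (lt_of_le_of_lt f37 (lt_of_lt_of_le (n4_lt rfl) f112))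
    have f270 : tm e_s1A20 < tm e_s0A21 := S.monoA _ _ n_s1A20_2 n_s0A21_2 (lt_of_le_of_lt f41 (lt_of_lt_of_le (n4_lt rfl) f12))
    have f275 : tm e_s1C1 < tm e_s2B2 := S.monoC _ _ n_s1C1_0 n_s2B2_0 (lt_of_le_of_lt f47 (lt_of_lt_of_le (n4_lt rfl) f66))
    have f299 : tm e_s1C7 < tm e_s2C8 := S.monoC _ _ n_s1C7_0 n_s2C8_0 (lt_of_le_of_lt f51 (lt_of_lt_of_le (n4_lt rfl) f90))
    have f305 : tm e_s1C7 < tm e_h2C10 := S.monoC _ _ n_s1C7_0 n_h2C10_0 (lt_of_le_of_lt f51 (lt_of_lt_of_le (n4_lt rfl) f190))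
    have f325 : tm e_s2B2 < tm e_h0B3 := S.monoB _ _ n_s2B2_1 n_h0B3_1 (lt_of_le_of_lt f65 (lt_of_lt_of_le (n4_lt rfl) f118))
    have f326 : tm e_s2B2 < tm e_h0B13 := S.monoB _ _ n_s2B2_1 n_h0B13_1 (lt_of_le_of_lt f65 (lt_of_lt_of_le (n4_lt rfl) f122))
    have f327 : tm e_s2B2 < tm e_h0B17 := S.monoB _ _ n_s2B2_1 n_h0B17_1 (lt_of_le_of_lt f65 (lt_of_lt_of_le (n4_lt rfl) f126))
    have f333 : tm e_s2B8 < tm e_s0B9 := S.monoB _ _ n_s2B8_1 n_s0B9_1 (lt_of_le_of_lt f69 (lt_of_lt_of_le (n4_lt rfl) f22))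
    have f339 : tm e_s2B8 < tm e_h0B13 := S.monoB _ _ n_s2B8_1 n_h0B13_1 (lt_of_le_of_lt f69 (lt_of_lt_of_le (n4_lt rfl) f122))
    have f340 : tm e_s2B8 < tm e_h0B17 := S.monoB _ _ n_s2B8_1 n_h0B17_1 (lt_of_le_of_lt f69 (lt_of_lt_of_le (n4_lt rfl) f126))
    have f342 : tm e_s2B8 < tm e_h2B10 := S.monoB _ _ n_s2B8_1 n_h2B10_1 (lt_of_le_of_lt f69 (lt_of_lt_of_le (n4_lt rfl) f172))
    have f345 : tm e_s2B18 < tm e_s1C23 := S.monoC _ _ n_s2B18_0 n_s1C23_0 (lt_of_le_of_lt f75 (lt_of_lt_of_le (n4_lt rfl) f62))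
    have f348 : tm e_s2B18 < tm e_h0B19 := S.monoB _ _ n_s2B18_1 n_h0B19_1 (lt_of_le_of_lt f73 (lt_of_lt_of_le (n4_lt rfl) f130))
    have f349 : tm e_s2B20 < tm e_s0B21 := S.monoB _ _ n_s2B20_1 n_s0B21_1 (lt_of_le_of_lt f77 (lt_of_lt_of_le (n4_lt rfl) f26))
    have f350 : tm e_s2B20 < tm e_s1C23 := S.monoC _ _ n_s2B20_0 n_s1C23_0 (lt_of_le_of_lt f79 (lt_of_lt_of_le (n4_lt rfl) f62))
    have f352 : tm e_s2B22 < tm e_s1C23 := S.monoC _ _ n_s2B22_0 n_s1C23_0 (lt_of_le_of_lt f83 (lt_of_lt_of_le (n4_lt rfl) f62))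
    have f360 : tm e_s2C2 < tm e_h1C3 := S.monoC _ _ n_s2C2_0 n_h1C3_0 (lt_of_le_of_lt f87 (lt_of_lt_of_le (n4_lt rfl) f150))
    have f361 : tm e_s2C2 < tm e_h1C13 := S.monoC _ _ n_s2C2_0 n_h1C13_0 (lt_of_le_of_lt f87 (lt_of_lt_of_le (n4_lt rfl) f154))
    have f368 : tm e_s2C8 < tm e_s1C9 := S.monoC _ _ n_s2C8_0 n_s1C9_0 (lt_of_le_of_lt f91 (lt_of_lt_of_le (n4_lt rfl) f54))
    have f381 : tm e_s2C18 < tm e_h1C19 := S.monoC _ _ n_s2C18_0 n_h1C19_0 (lt_of_le_of_lt f95 (lt_of_lt_of_le (n4_lt rfl) f162))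
    have f382 : tm e_s2C20 < tm e_s1C21 := S.monoC _ _ n_s2C20_0 n_s1C21_0 (lt_of_le_of_lt f99 (lt_of_lt_of_le (n4_lt rfl) f58))
    have f393 : tm e_h0A15 < tm e_s1A16 := S.monoA _ _ n_h0A15_2 n_s1A16_2 (lt_of_le_of_lt f105 (lt_of_lt_of_le (n4_lt rfl) f32))
    have f397 : tm e_h0A15 < tm e_h0A19 := S.monoA _ _ n_h0A15_2 n_h0A19_2 (lt_of_le_of_lt f105 (lt_of_lt_of_le (n4_lt rfl) f112))
    have f401 : tm e_h0A17 < tm e_h0A19 := S.monoA _ _ n_h0A17_2 n_h0A19_2 (lt_of_le_of_lt f109 (lt_of_lt_of_le (n4_lt rfl) f112))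
    have f414 : tm e_h0B3 < tm e_h2B4 := S.monoB _ _ n_h0B3_1 n_h2B4_1 (lt_of_le_of_lt f119 (lt_of_lt_of_le (n4_lt rfl) f164))
    have f416 : tm e_h0B3 < tm e_h2B10 := S.monoB _ _ n_h0B3_1 n_h2B10_1 (lt_of_le_of_lt f119 (lt_of_lt_of_le (n4_lt rfl) f172))
    have f419 : tm e_h0B13 < tm e_s2B18 := S.monoB _ _ n_h0B13_1 n_s2B18_1 (lt_of_le_of_lt f123 (lt_of_lt_of_le (n4_lt rfl) f72))
    have f424 : tm e_h0B13 < tm e_h2B14 := S.monoB _ _ n_h0B13_1 n_h2B14_1 (lt_of_le_of_lt f123 (lt_of_lt_of_le (n4_lt rfl) f176))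
    have f426 : tm e_h0B17 < tm e_s2B18 := S.monoB _ _ n_h0B17_1 n_s2B18_1 (lt_of_le_of_lt f127 (lt_of_lt_of_le (n4_lt rfl) f72))
    have f431 : tm e_h0B19 < tm e_s2B20 := S.monoB _ _ n_h0B19_1 n_s2B20_1 (lt_of_le_of_lt f131 (lt_of_lt_of_le (n4_lt rfl) f76))
    have f433 : tm e_h1A4 < tm e_s0A5 := S.monoA _ _ n_h1A4_2 n_s0A5_2 (lt_of_le_of_lt f133 (lt_of_lt_of_le (n4_lt rfl) f0))
    have f476 : tm e_h1A14 < tm e_h0A15 := S.monoA _ _ n_h1A14_2 n_h0A15_2 (lt_of_le_of_lt f145 (lt_of_lt_of_le (n4_lt rfl) f104))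
    have f495 : tm e_h1C13 < tm e_s2C18 := S.monoC _ _ n_h1C13_0 n_s2C18_0 (lt_of_le_of_lt f155 (lt_of_lt_of_le (n4_lt rfl) f94))
    have f499 : tm e_h1C13 < tm e_h2C14 := S.monoC _ _ n_h1C13_0 n_h2C14_0 (lt_of_le_of_lt f155 (lt_of_lt_of_le (n4_lt rfl) f194))
    have f502 : tm e_h1C15 < tm e_s2C18 := S.monoC _ _ n_h1C15_0 n_s2C18_0 (lt_of_le_of_lt f159 (lt_of_lt_of_le (n4_lt rfl) f94))
    have f512 : tm e_h2B4 < tm e_s2B8 := S.monoB _ _ n_h2B4_1 n_s2B8_1 (lt_of_le_of_lt f165 (lt_of_lt_of_le (n4_lt rfl) f68))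
    have f549 : tm e_h2B14 < tm e_h0B17 := S.monoB _ _ n_h2B14_1 n_h0B17_1 (lt_of_le_of_lt f177 (lt_of_lt_of_le (n4_lt rfl) f126))
    have f571 : tm e_h2C6 < tm e_h1C13 := S.monoC _ _ n_h2C6_0 n_h1C13_0 (lt_of_le_of_lt f187 (lt_of_lt_of_le (n4_lt rfl) f154))
    have f588 : tm e_h2C14 < tm e_h1C15 := S.monoC _ _ n_h2C14_0 n_h1C15_0 (lt_of_le_of_lt f195 (lt_of_lt_of_le (n4_lt rfl) f158))
    have f593 : tm e_s1C1 < tm e_h0B3 := lt_trans f275 f325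
    have f594 : tm e_s1C1 < tm e_h0B13 := lt_trans f275 f326
    have f595 : tm e_s1C1 < tm e_h0B17 := lt_trans f275 f327
    have f600 : tm e_h0B13 < tm e_s1C23 := lt_trans f419 f345
    have f601 : tm e_h0B17 < tm e_s1C23 := lt_trans f426 f345
    have f602 : tm e_h0B19 < tm e_s1C23 := lt_trans f431 f350
    have f603 : tm e_s0B21 < tm e_s1C23 := lt_trans f252 f352
    have f607 : 3 ≤ a e_h0B3 := n4_pf_lo (le_trans f44 (S.leA3 n_s1C1_2 n_h0B3_2 (le_of_lt f593))) (par_h0B3).1 (n4_ne rfl)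
    have f608 : 3 ≤ a e_h0B13 := n4_pf_lo (le_trans f44 (S.leA3 n_s1C1_2 n_h0B13_2 (le_of_lt f594))) (par_h0B13).1 (n4_ne rfl)
    have f609 : 3 ≤ a e_h0B17 := n4_pf_lo (le_trans f44 (S.leA3 n_s1C1_2 n_h0B17_2 (le_of_lt f595))) (par_h0B17).1 (n4_ne rfl)
    have f615 : a e_h0B13 ≤ 21 := n4_pf_hi (le_trans (S.leA3 n_h0B13_2 n_s1C23_2 (le_of_lt f600)) f61) (par_h0B13).1 (n4_ne rfl)
    have f616 : a e_h0B17 ≤ 21 := n4_pf_hi (le_trans (S.leA3 n_h0B17_2 n_s1C23_2 (le_of_lt f601)) f61) (par_h0B17).1 (n4_ne rfl)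
    have f617 : a e_h0B19 ≤ 21 := n4_pf_hi (le_trans (S.leA3 n_h0B19_2 n_s1C23_2 (le_of_lt f602)) f61) (par_h0B19).1 (n4_ne rfl)
    have f618 : a e_s0B21 ≤ 21 := n4_pf_hi (le_trans (S.leA3 n_s0B21_2 n_s1C23_2 (le_of_lt f603)) f61) (par_s0B21).1 (n4_ne rfl)
    have f622 : a e_h0B13 ≠ 1 := n4_ne_lo f608 (n4_lt rfl)
    have f623 : a e_h0B13 ≠ 23 := n4_ne_hi f615 (n4_lt rfl)
    have f624 : 13 ≤ a e_h0B13 := n4q_0 _ d_h0B13 f608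
    have f625 : a e_h0B13 ≤ 17 := n4q_1 _ d_h0B13 f615
    have f626 : a e_h0B17 ≠ 1 := n4_ne_lo f609 (n4_lt rfl)
    have f627 : a e_h0B17 ≠ 23 := n4_ne_hi f616 (n4_lt rfl)
    have f629 : a e_h0B17 ≤ 17 := n4q_1 _ d_h0B17 f616
    have f632 : a e_h0B19 ≤ 19 := n4q_2 _ d_h0B19 f617
    have f635 : tm e_s0A9 < tm e_h0B13 := S.monoA _ _ n_s0A9_2 n_h0B13_2 (lt_of_le_of_lt f5 (lt_of_lt_of_le (n4_lt rfl) f624))
    have f639 : tm e_s1A12 < tm e_h0B13 := S.monoA _ _ n_s1A12_2 n_h0B13_2 (lt_of_le_of_lt f29 (lt_of_lt_of_le (n4_lt rfl) f624))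
    have f644 : tm e_h0B13 < tm e_s1A18 := S.monoA _ _ n_h0B13_2 n_s1A18_2 (lt_of_le_of_lt f625 (lt_of_lt_of_le (n4_lt rfl) f36))
    have f648 : tm e_h0B17 < tm e_s1A18 := S.monoA _ _ n_h0B17_2 n_s1A18_2 (lt_of_le_of_lt f629 (lt_of_lt_of_le (n4_lt rfl) f36))
    have f652 : tm e_h0B19 < tm e_s1A20 := S.monoA _ _ n_h0B19_2 n_s1A20_2 (lt_of_le_of_lt f632 (lt_of_lt_of_le (n4_lt rfl) f40))
    have f655 : tm e_h1A6 < tm e_h0B13 := S.monoA _ _ n_h1A6_2 n_h0B13_2 (lt_of_le_of_lt f137 (lt_of_lt_of_le (n4_lt rfl) f624))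
    have f657 : tm e_h1A10 < tm e_h0B13 := S.monoA _ _ n_h1A10_2 n_h0B13_2 (lt_of_le_of_lt f141 (lt_of_lt_of_le (n4_lt rfl) f624))
    have f694 : tm e_s1A12 < tm e_s2B18 := lt_trans f639 f419
    have f701 : tm e_s2B2 < tm e_s1A18 := lt_trans f326 f644
    have f718 : tm e_h1A6 < tm e_s2B18 := lt_trans f655 f419
    have f725 : tm e_h1A10 < tm e_s2B18 := lt_trans f657 f419
    have f743 : tm e_h2B14 < tm e_s1A18 := lt_trans f549 f648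
    have f747 : tm e_s2B18 < tm e_s1A20 := lt_trans f348 f652
    have f756 : b e_s0A9 ≤ 13 := (le_trans (S.leB3 n_s0A9_1 n_h0B13_1 (le_of_lt f635)) f123)
    have f765 : c e_s1A12 ≤ 21 := n4_pf_hi (le_trans (S.leC3 n_s1A12_0 n_s2B18_0 (le_of_lt f694)) f75) (par_s1A12).2 (n4_ne rfl)
    have f766 : 3 ≤ c e_s1A18 := n4_pf_lo (le_trans f66 (S.leC3 n_s2B2_0 n_s1A18_0 (le_of_lt f701))) (par_s1A18).2 (n4_ne rfl)
    have f768 : c e_h1A6 ≤ 21 := n4_pf_hi (le_trans (S.leC3 n_h1A6_0 n_s2B18_0 (le_of_lt f718)) f75) (par_h1A6).2 (n4_ne rfl)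
    have f769 : c e_h1A10 ≤ 21 := n4_pf_hi (le_trans (S.leC3 n_h1A10_0 n_s2B18_0 (le_of_lt f725)) f75) (par_h1A10).2 (n4_ne rfl)
    have f778 : c e_h1A6 ≠ 23 := n4_ne_hi f768 (n4_lt rfl)
    have f779 : c e_h1A6 ≤ 17 := n4q_1 _ d_h1A6 f768
    have f781 : c e_h1A10 ≤ 19 := n4q_2 _ d_h1A10 f769
    have f791 : tm e_h1A6 < tm e_s2C18 := S.monoC _ _ n_h1A6_0 n_s2C18_0 (lt_of_le_of_lt f779 (lt_of_lt_of_le (n4_lt rfl) f94))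
    have f795 : tm e_h1A10 < tm e_s2C20 := S.monoC _ _ n_h1A10_0 n_s2C20_0 (lt_of_le_of_lt f781 (lt_of_lt_of_le (n4_lt rfl) f98))
    have f799 : tm e_s0A5 < tm e_s2C18 := lt_trans f207 f791
    have f803 : tm e_s0A9 < tm e_s2C20 := lt_trans f220 f795
    Or.elim (Nat.lt_or_ge (b e_h0A19) 23)
      (fun g => have f7603 : b e_h0A19 ≤ 22 := Nat.le_of_lt_succ g
        have f7605 : b e_h0A19 ≤ 19 := n4q_3 _ d_h0A19 f7603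
        have f7607 : tm e_h0A19 < tm e_s2B20 := S.monoB _ _ n_h0A19_1 n_s2B20_1 (lt_of_le_of_lt f7605 (lt_of_lt_of_le (n4_lt rfl) f76))
        have f7616 : tm e_s1A18 < tm e_s2B20 := lt_trans f269 f7607
        have f7637 : b e_h0A15 ≤ 19 := (le_trans (S.leB3 n_h0A15_1 n_h0A19_1 (le_of_lt f397)) f7605)
        have f7638 : b e_h0A17 ≤ 19 := (le_trans (S.leB3 n_h0A17_1 n_h0A19_1 (le_of_lt f401)) f7605)
        have f7643 : 4 ≤ c e_s2B20 := n4_pf_lo (le_trans f766 (S.leC3 n_s1A18_0 n_s2B20_0 (le_of_lt f7616))) (par_s2B20).2 (n4_ne rfl)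
        have f7644 : c e_s1A18 ≤ 21 := n4_pf_hi (le_trans (S.leC3 n_s1A18_0 n_s2B20_0 (le_of_lt f7616)) f79) (par_s1A18).2 (n4_ne rfl)
        have f7650 : b e_h0A15 ≤ 17 := n4q_4 _ d_h0A15 f7637
        have f7651 : b e_h0A17 ≠ 23 := n4_ne_hi f7638 (n4_lt rfl)
        have f7652 : b e_h0A17 ≤ 17 := n4q_4 _ d_h0A17 f7638
        have f7658 : tm e_h0A15 < tm e_s2B18 := S.monoB _ _ n_h0A15_1 n_s2B18_1 (lt_of_le_of_lt f7650 (lt_of_lt_of_le (n4_lt rfl) f72))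
        have f7660 : tm e_h0A17 < tm e_s2B18 := S.monoB _ _ n_h0A17_1 n_s2B18_1 (lt_of_le_of_lt f7652 (lt_of_lt_of_le (n4_lt rfl) f72))
        have f7664 : tm e_h1C3 < tm e_s2B20 := S.monoC _ _ n_h1C3_0 n_s2B20_0 (lt_of_le_of_lt f151 (lt_of_lt_of_le (n4_lt rfl) f7643))
        have f7666 : tm e_h1C3 < tm e_s0B21 := lt_trans f7664 f349
        have f7667 : tm e_h1A14 < tm e_s2B18 := lt_trans f476 f7658
        have f7669 : tm e_s1A16 < tm e_s2B18 := lt_trans f265 f7660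
        have f7683 : c e_h2B14 ≤ 20 := n4_pf_hi (le_trans (S.leC3 n_h2B14_0 n_s1A18_0 (le_of_lt f743)) f7644) (par_h2B14).2 (n4_ne rfl)
        have f7687 : a e_h1C3 ≤ 20 := n4_pf_hi (le_trans (S.leA3 n_h1C3_2 n_s0B21_2 (le_of_lt f7666)) f618) (par_h1C3).1 (n4_ne rfl)
        have f7691 : a e_h1C3 ≤ 14 := n4q_5 _ d_h1C3 f7687
        have f7699 : c e_h2B14 ≤ 14 := n4q_5 _ d_h2B14 f7683
        have f7703 : tm e_h1C3 < tm e_s1A16 := S.monoA _ _ n_h1C3_2 n_s1A16_2 (lt_of_le_of_lt f7691 (lt_of_lt_of_le (n4_lt rfl) f32))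
        have f7706 : tm e_h1C3 < tm e_h0A15 := S.monoA _ _ n_h1C3_2 n_h0A15_2 (lt_of_le_of_lt f7691 (lt_of_lt_of_le (n4_lt rfl) f104))
        have f7707 : tm e_h1C3 < tm e_h0A17 := S.monoA _ _ n_h1C3_2 n_h0A17_2 (lt_of_le_of_lt f7691 (lt_of_lt_of_le (n4_lt rfl) f108))
        have f7740 : tm e_h2B14 < tm e_h1C15 := S.monoC _ _ n_h2B14_0 n_h1C15_0 (lt_of_le_of_lt f7699 (lt_of_lt_of_le (n4_lt rfl) f158))
        have f7742 : tm e_h1C3 < tm e_s2B18 := lt_trans f7703 f7669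
        have f7749 : tm e_s2C2 < tm e_h0A15 := lt_trans f360 f7706
        have f7750 : tm e_s2C2 < tm e_h0A17 := lt_trans f360 f7707
        have f7797 : tm e_h0B13 < tm e_h1C15 := lt_trans f424 f7740
        have f7826 : 4 ≤ c e_s2B18 := n4_pf_lo (le_trans f150 (S.leC3 n_h1C3_0 n_s2B18_0 (le_of_lt f7742))) (par_s2B18).2 (n4_ne rfl)
        have f7827 : 3 ≤ b e_h0A15 := n4_pf_lo (le_trans f84 (S.leB3 n_s2C2_1 n_h0A15_1 (le_of_lt f7749))) (par_h0A15).2 (n4_ne rfl)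
        have f7829 : 3 ≤ b e_h0A17 := n4_pf_lo (le_trans f84 (S.leB3 n_s2C2_1 n_h0A17_1 (le_of_lt f7750))) (par_h0A17).2 (n4_ne rfl)
        have f7839 : 14 ≤ a e_h1C15 := n4_pf_lo (le_trans f624 (S.leA3 n_h0B13_2 n_h1C15_2 (le_of_lt f7797))) (par_h1C15).1 (n4_ne rfl)
        have f7842 : 13 ≤ b e_h0A15 := n4q_0 _ d_h0A15 f7827
        have f7843 : b e_h0A17 ≠ 1 := n4_ne_lo f7829 (n4_lt rfl)
        have f7856 : 22 ≤ a e_h1C15 := n4q_6 _ d_h1C15 f7839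
        have f7863 : tm e_s0A21 < tm e_h1C15 := S.monoA _ _ n_s0A21_2 n_h1C15_2 (lt_of_le_of_lt f13 (lt_of_lt_of_le (n4_lt rfl) f7856))
        have f7864 : tm e_s0B7 < tm e_h0A15 := S.monoB _ _ n_s0B7_1 n_h0A15_1 (lt_of_le_of_lt f19 (lt_of_lt_of_le (n4_lt rfl) f7842))
        have f7868 : tm e_s0B21 < tm e_h1C15 := S.monoA _ _ n_s0B21_2 n_h1C15_2 (lt_of_le_of_lt f618 (lt_of_lt_of_le (n4_lt rfl) f7856))
        have f7895 : tm e_h2B10 < tm e_h0A15 := S.monoB _ _ n_h2B10_1 n_h0A15_1 (lt_of_le_of_lt f173 (lt_of_lt_of_le (n4_lt rfl) f7842))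
        have f7898 : tm e_s2B20 < tm e_h1C15 := lt_trans f349 f7868
        have f7902 : tm e_s0B7 < tm e_s1A16 := lt_trans f7864 f393
        have f7909 : tm e_h2B10 < tm e_s1A16 := lt_trans f7895 f393
        have f7912 : tm e_s0A21 < tm e_s2C18 := lt_trans f7863 f502
        have f7966 : 5 ≤ c e_s1A20 := n4_pf_lo (le_trans f7826 (S.leC3 n_s2B18_0 n_s1A20_0 (le_of_lt f747))) (par_s1A20).2 (n4_ne rfl)
        have f7975 : c e_s2B20 ≤ 14 := n4_pf_hi (le_trans (S.leC3 n_s2B20_0 n_h1C15_0 (le_of_lt f7898)) f159) (par_s2B20).2 (n4_ne rfl)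
        have f7977 : b e_s0A21 ≤ 21 := n4_pf_hi (le_trans (S.leB3 n_s0A21_1 n_s2C18_1 (le_of_lt f7912)) f93) (par_s0A21).2 (n4_ne rfl)
        have f7986 : tm e_h2C4 < tm e_s1A20 := S.monoC _ _ n_h2C4_0 n_s1A20_0 (lt_of_le_of_lt f183 (lt_of_lt_of_le (n4_lt rfl) f7966))
        have f7988 : tm e_h2C4 < tm e_s0A21 := lt_trans f7986 f270
        have f7991 : c e_s1A18 ≤ 13 := n4_pf_hi (le_trans (S.leC3 n_s1A18_0 n_s2B20_0 (le_of_lt f7616)) f7975) (par_s1A18).2 (n4_ne rfl)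
        have f7996 : b e_h2C4 ≤ 20 := n4_pf_hi (le_trans (S.leB3 n_h2C4_1 n_s0A21_1 (le_of_lt f7988)) f7977) (par_h2C4).1 (n4_ne rfl)
        have f8001 : b e_h2C4 ≤ 6 := n4q_7 _ d_h2C4 f7996
        have f8003 : tm e_s1A18 < tm e_h2C14 := S.monoC _ _ n_s1A18_0 n_h2C14_0 (lt_of_le_of_lt f7991 (lt_of_lt_of_le (n4_lt rfl) f194))
        have f8009 : tm e_h2C4 < tm e_s0B7 := S.monoB _ _ n_h2C4_1 n_s0B7_1 (lt_of_le_of_lt f8001 (lt_of_lt_of_le (n4_lt rfl) f18))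
        have f8012 : tm e_h2C4 < tm e_s2B8 := S.monoB _ _ n_h2C4_1 n_s2B8_1 (lt_of_le_of_lt f8001 (lt_of_lt_of_le (n4_lt rfl) f68))
        have f8023 : tm e_h2C4 < tm e_s1A16 := lt_trans f8009 f7902
        have f8031 : tm e_h0B17 < tm e_h2C14 := lt_trans f648 f8003
        have f8050 : c e_h2B14 ≤ 12 := n4_pf_hi (le_trans (S.leC3 n_h2B14_0 n_s1A18_0 (le_of_lt f743)) f7991) (par_h2B14).2 (n4_ne rfl)
        have f8053 : 4 ≤ c e_s2B8 := (le_trans f182 (S.leC3 n_h2C4_0 n_s2B8_0 (le_of_lt f8012)))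
        have f8056 : 5 ≤ c e_s1A16 := n4_pf_lo (le_trans f182 (S.leC3 n_h2C4_0 n_s1A16_0 (le_of_lt f8023))) (par_s1A16).2 (n4_ne rfl)
        have f8059 : 18 ≤ b e_h2C14 := n4_pf_lo (le_trans f126 (S.leB3 n_h0B17_1 n_h2C14_1 (le_of_lt f8031))) (par_h2C14).1 (n4_ne rfl)
        have f8063 : c e_h2B14 ≤ 10 := n4q_8 _ d_h2B14 f8050
        have f8067 : 22 ≤ b e_h2C14 := n4q_9 _ d_h2C14 f8059
        have f8068 : tm e_s0A21 < tm e_h2C14 := S.monoB _ _ n_s0A21_1 n_h2C14_1 (lt_of_le_of_lt f7977 (lt_of_lt_of_le (n4_lt rfl) f8067))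
        have f8075 : tm e_s1A20 < tm e_h2C14 := lt_trans f270 f8068
        have f8089 : 6 ≤ c e_s2B18 := n4_pf_lo (le_trans f8056 (S.leC3 n_s1A16_0 n_s2B18_0 (le_of_lt f7669))) (par_s2B18).2 (n4_ne rfl)
        have f8090 : c e_s1A20 ≤ 13 := n4_pf_hi (le_trans (S.leC3 n_s1A20_0 n_h2C14_0 (le_of_lt f8075)) f195) (par_s1A20).2 (n4_ne rfl)
        have f8188 : 7 ≤ c e_s1A20 := n4_pf_lo (le_trans f8089 (S.leC3 n_s2B18_0 n_s1A20_0 (le_of_lt f747))) (par_s1A20).2 (n4_ne rfl)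
        have f8189 : c e_s2B18 ≤ 12 := n4_pf_hi (le_trans (S.leC3 n_s2B18_0 n_s1A20_0 (le_of_lt f747)) f8090) (par_s2B18).2 (n4_ne rfl)
        have f8190 : c e_h1A14 ≤ 11 := n4_pf_hi (le_trans (S.leC3 n_h1A14_0 n_s2B18_0 (le_of_lt f7667)) f8189) (par_h1A14).2 (n4_ne rfl)
        have f8217 : c e_h1A14 ≤ 3 := n4q_10 _ d_h1A14 f8190
        have f8228 : tm e_h1A14 < tm e_s2B8 := S.monoC _ _ n_h1A14_0 n_s2B8_0 (lt_of_le_of_lt f8217 (lt_of_lt_of_le (n4_lt rfl) f8053))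
        have f8232 : tm e_h1A14 < tm e_h2C4 := S.monoC _ _ n_h1A14_0 n_h2C4_0 (lt_of_le_of_lt f8217 (lt_of_lt_of_le (n4_lt rfl) f182))
        have f8235 : tm e_h2C6 < tm e_s1A20 := S.monoC _ _ n_h2C6_0 n_s1A20_0 (lt_of_le_of_lt f187 (lt_of_lt_of_le (n4_lt rfl) f8188))
        have f8237 : tm e_h2C6 < tm e_s0A21 := lt_trans f8235 f270
        have f8239 : tm e_h1A14 < tm e_h0B13 := lt_trans f8228 f339
        have f8240 : tm e_h1A14 < tm e_h0B17 := lt_trans f8228 f340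
        have f8279 : tm e_h1A14 < tm e_s0B7 := lt_trans f8232 f8009
        have f8288 : b e_h2C6 ≤ 20 := n4_pf_hi (le_trans (S.leB3 n_h2C6_1 n_s0A21_1 (le_of_lt f8237)) f7977) (par_h2C6).1 (n4_ne rfl)
        have f8290 : 15 ≤ a e_h0B13 := n4_pf_lo (le_trans f144 (S.leA3 n_h1A14_2 n_h0B13_2 (le_of_lt f8239))) (par_h0B13).1 (n4_ne rfl)
        have f8291 : 15 ≤ a e_h0B17 := n4_pf_lo (le_trans f144 (S.leA3 n_h1A14_2 n_h0B17_2 (le_of_lt f8240))) (par_h0B17).1 (n4_ne rfl)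
        have f8295 : 15 ≤ a e_s0B7 := n4_pf_lo (le_trans f144 (S.leA3 n_h1A14_2 n_s0B7_2 (le_of_lt f8279))) (par_s0B7).1 (n4_ne rfl)
        have f8300 : a e_h0B13 ≠ 13 := n4_ne_lo f8290 (n4_lt rfl)
        have f8301 : a e_h0B17 ≠ 13 := n4_ne_lo f8291 (n4_lt rfl)
        have f8303 : b e_h2C6 ≤ 6 := n4q_7 _ d_h2C6 f8288
        have f8309 : tm e_h2C6 < tm e_s0B7 := S.monoB _ _ n_h2C6_1 n_s0B7_1 (lt_of_le_of_lt f8303 (lt_of_lt_of_le (n4_lt rfl) f18))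
        have f8323 : tm e_h2C6 < tm e_s1A16 := lt_trans f8309 f7902
        have f8343 : 7 ≤ c e_s1A16 := n4_pf_lo (le_trans f186 (S.leC3 n_h2C6_0 n_s1A16_0 (le_of_lt f8323))) (par_s1A16).2 (n4_ne rfl)
        Or.elim (Nat.lt_or_ge (b e_h0A17) 17)
          (fun g => have f57697 : b e_h0A17 ≤ 16 := Nat.le_of_lt_succ g
            have f57699 : b e_h0A17 ≤ 15 := n4q_11 _ d_h0A17 f57697
            have f57700 : tm e_h0A17 < tm e_h0B17 := S.monoB _ _ n_h0A17_1 n_h0B17_1 (lt_of_le_of_lt f57699 (lt_of_lt_of_le (n4_lt rfl) f126))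
            have f57704 : 17 ≤ a e_h0B17 := (le_trans f108 (S.leA3 n_h0A17_2 n_h0B17_2 (le_of_lt f57700)))
            have f57706 : a e_h0B17 ≠ 15 := n4_ne_lo f57704 (n4_lt rfl)
            have f57707 : b e_h0A17 ≠ 15 := fun hx => lt_irrefl _ (lt_of_lt_of_le (lt_of_le_of_lt (n4_hostv H_h0A17 hx (n4_le rfl) (n4_le rfl)) (n4_e15_17 (t := tB) pB)) (n4_hostv H_h0B17 (n4q_12 _ d_h0B17 f626 f627 f8301 f57706) (n4_le rfl) (n4_le rfl)))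
            have f57709 : b e_h0A17 ≤ 13 := n4q_13 _ d_h0A17 f57699 f57707
            have f57713 : tm e_h0A17 < tm e_h2B14 := S.monoB _ _ n_h0A17_1 n_h2B14_1 (lt_of_le_of_lt f57709 (lt_of_lt_of_le (n4_lt rfl) f176))
            have f57714 : tm e_s1A16 < tm e_h2B14 := lt_trans f265 f57713
            have f57717 : 8 ≤ c e_h2B14 := n4_pf_lo (le_trans f8343 (S.leC3 n_s1A16_0 n_h2B14_0 (le_of_lt f57714))) (par_h2B14).2 (n4_ne rfl)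
            have f57718 : c e_s1A16 ≤ 9 := n4_pf_hi (le_trans (S.leC3 n_s1A16_0 n_h2B14_0 (le_of_lt f57714)) f8063) (par_s1A16).2 (n4_ne rfl)
            have f57721 : 10 ≤ c e_h2B14 := n4q_14 _ d_h2B14 f57717
            have f57724 : tm e_s1C9 < tm e_h2B14 := S.monoC _ _ n_s1C9_0 n_h2B14_0 (lt_of_le_of_lt f55 (lt_of_lt_of_le (n4_lt rfl) f57721))
            have f57740 : tm e_s1C9 < tm e_h0B17 := lt_trans f57724 f549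
            have f57755 : c e_h2B10 ≤ 8 := n4_pf_hi (le_trans (S.leC3 n_h2B10_0 n_s1A16_0 (le_of_lt f7909)) f57718) (par_h2B10).2 (n4_ne rfl)
            have f57763 : a e_s1C9 ≤ 16 := n4_pf_hi (le_trans (S.leA3 n_s1C9_2 n_h0B17_2 (le_of_lt f57740)) f629) (par_s1C9).1 (n4_ne rfl)
            have f57765 : c e_h2B10 ≤ 6 := n4q_15 _ d_h2B10 f57755
            have f57770 : tm e_s1C9 < tm e_h0A17 := S.monoA _ _ n_s1C9_2 n_h0A17_2 (lt_of_le_of_lt f57763 (lt_of_lt_of_le (n4_lt rfl) f108))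
            have f57775 : tm e_h2B10 < tm e_s1C7 := S.monoC _ _ n_h2B10_0 n_s1C7_0 (lt_of_le_of_lt f57765 (lt_of_lt_of_le (n4_lt rfl) f50))
            have f57785 : tm e_s2C8 < tm e_h0A17 := lt_trans f368 f57770
            have f57788 : tm e_s0B7 < tm e_s1C7 := lt_trans f241 f57775
            have f57799 : b e_s2C8 ≤ 12 := n4_pf_hi (le_trans (S.leB3 n_s2C8_1 n_h0A17_1 (le_of_lt f57785)) f57709) (par_s2C8).1 (n4_ne rfl)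
            have f57801 : 16 ≤ a e_s1C7 := n4_pf_lo (le_trans f8295 (S.leA3 n_s0B7_2 n_s1C7_2 (le_of_lt f57788))) (par_s1C7).1 (n4_ne rfl)
            have f57804 : tm e_s2C8 < tm e_h0A15 := S.monoB _ _ n_s2C8_1 n_h0A15_1 (lt_of_le_of_lt f57799 (lt_of_lt_of_le (n4_lt rfl) f7842))
            have f57805 : tm e_h0A15 < tm e_s1C7 := S.monoA _ _ n_h0A15_2 n_s1C7_2 (lt_of_le_of_lt f105 (lt_of_lt_of_le (n4_lt rfl) f57801))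
            have f57810 : tm e_h0A15 < tm e_s2C8 := lt_trans f57805 f299
            lt_asymm f57810 f57804)
          (fun g => have f57814 : 17 ≤ b e_h0A17 := g
            have f57815 : b e_h0A17 ≠ 13 := n4_ne_lo f57814 (n4_lt rfl)
            have f57816 : b e_h0A17 ≠ 15 := n4_ne_lo f57814 (n4_lt rfl)
            have f57819 : a e_h0B13 ≠ 15 := fun hx => lt_irrefl _ (lt_trans (lt_of_lt_of_le (lt_of_le_of_lt (n4_hostv H_h0B13 hx (n4_le rfl) (n4_le rfl)) (n4_e15_17 (t := tA) pA)) (n4_hostv H_h0A17 (n4q_16 _ d_h0A17 f7651 f7843 f57815 f57816) (n4_le rfl) (n4_le rfl))) (n4_e17_13 (t := tB) pB))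
            have f57820 : a e_h0B13 ≠ 17 := fun hx => lt_irrefl _ (lt_of_le_of_lt (le_trans (n4_hostv H_h0B13 hx (n4_le rfl) (n4_le rfl)) (n4_hostv H_h0A17 (n4q_16 _ d_h0A17 f7651 f7843 f57815 f57816) (n4_le rfl) (n4_le rfl))) (n4_e17_13 (t := tB) pB))
            n4q_17 _ d_h0B13 f622 f8300 f57819 f57820 f623))
      (fun g => have f8372 : 23 ≤ b e_h0A19 := g
        have f8380 : tm e_s2C18 < tm e_h0A19 := S.monoB _ _ n_s2C18_1 n_h0A19_1 (lt_of_le_of_lt f93 (lt_of_lt_of_le (n4_lt rfl) f8372))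
        have f8390 : tm e_h1C13 < tm e_h0A19 := lt_trans f495 f8380
        have f8391 : tm e_h1C15 < tm e_h0A19 := lt_trans f502 f8380
        have f8430 : a e_h1C13 ≤ 18 := n4_pf_hi (le_trans (S.leA3 n_h1C13_2 n_h0A19_2 (le_of_lt f8390)) f113) (par_h1C13).1 (n4_ne rfl)
        have f8431 : a e_h1C15 ≤ 18 := n4_pf_hi (le_trans (S.leA3 n_h1C15_2 n_h0A19_2 (le_of_lt f8391)) f113) (par_h1C15).1 (n4_ne rfl)
        have f8439 : a e_h1C13 ≠ 22 := n4_ne_hi f8430 (n4_lt rfl)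
        have f8440 : a e_h1C13 ≤ 6 := n4q_18 _ d_h1C13 f8430
        have f8442 : a e_h1C15 ≤ 6 := n4q_18 _ d_h1C15 f8431
        have f8449 : tm e_h1C13 < tm e_s0A9 := S.monoA _ _ n_h1C13_2 n_s0A9_2 (lt_of_le_of_lt f8440 (lt_of_lt_of_le (n4_lt rfl) f4))
        have f8455 : tm e_h1C13 < tm e_h0A13 := S.monoA _ _ n_h1C13_2 n_h0A13_2 (lt_of_le_of_lt f8440 (lt_of_lt_of_le (n4_lt rfl) f100))
        have f8463 : tm e_h1C15 < tm e_s0A9 := S.monoA _ _ n_h1C15_2 n_s0A9_2 (lt_of_le_of_lt f8442 (lt_of_lt_of_le (n4_lt rfl) f4))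
        have f8536 : tm e_s2C2 < tm e_s0A9 := lt_trans f361 f8449
        have f8543 : tm e_s2C2 < tm e_h0A13 := lt_trans f361 f8455
        have f8600 : tm e_h2C6 < tm e_s0A9 := lt_trans f571 f8449
        have f8636 : tm e_h2C14 < tm e_s0A9 := lt_trans f588 f8463
        have f8686 : 3 ≤ b e_s0A9 := n4_pf_lo (le_trans f84 (S.leB3 n_s2C2_1 n_s0A9_1 (le_of_lt f8536))) (par_s0A9).2 (n4_ne rfl)
        have f8689 : 3 ≤ b e_h0A13 := n4_pf_lo (le_trans f84 (S.leB3 n_s2C2_1 n_h0A13_1 (le_of_lt f8543))) (par_h0A13).2 (n4_ne rfl)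
        have f8692 : b e_h2C6 ≤ 12 := n4_pf_hi (le_trans (S.leB3 n_h2C6_1 n_s0A9_1 (le_of_lt f8600)) f756) (par_h2C6).1 (n4_ne rfl)
        have f8694 : b e_h2C14 ≤ 12 := n4_pf_hi (le_trans (S.leB3 n_h2C14_1 n_s0A9_1 (le_of_lt f8636)) f756) (par_h2C14).1 (n4_ne rfl)
        have f8696 : 13 ≤ b e_h0A13 := n4q_0 _ d_h0A13 f8689
        have f8718 : b e_h2C6 ≤ 6 := n4q_19 _ d_h2C6 f8692
        have f8724 : b e_h2C14 ≤ 10 := n4q_8 _ d_h2C14 f8694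
        have f8752 : tm e_h2B10 < tm e_h0A13 := S.monoB _ _ n_h2B10_1 n_h0A13_1 (lt_of_le_of_lt f173 (lt_of_lt_of_le (n4_lt rfl) f8696))
        have f8759 : tm e_h2C6 < tm e_s0B7 := S.monoB _ _ n_h2C6_1 n_s0B7_1 (lt_of_le_of_lt f8718 (lt_of_lt_of_le (n4_lt rfl) f18))
        have f8827 : 4 ≤ b e_s2C20 := n4_pf_lo (le_trans f8686 (S.leB3 n_s0A9_1 n_s2C20_1 (le_of_lt f803))) (par_s2C20).1 (n4_ne rfl)
        have f8851 : tm e_h0B3 < tm e_s2C20 := S.monoB _ _ n_h0B3_1 n_s2C20_1 (lt_of_le_of_lt f119 (lt_of_lt_of_le (n4_lt rfl) f8827))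
        have f8855 : tm e_h0B3 < tm e_s1C21 := lt_trans f8851 f382
        Or.elim (Nat.lt_or_ge (c e_h2B10) 22)
          (fun g => have f69741 : c e_h2B10 ≤ 21 := Nat.le_of_lt_succ g
            have f69743 : c e_h2B10 ≤ 14 := n4q_20 _ d_h2B10 f69741
            have f69749 : tm e_h2B10 < tm e_h1C15 := S.monoC _ _ n_h2B10_0 n_h1C15_0 (lt_of_le_of_lt f69743 (lt_of_lt_of_le (n4_lt rfl) f158))
            have f69760 : tm e_s0B7 < tm e_h1C15 := lt_trans f241 f69749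
            have f69769 : tm e_s0B9 < tm e_h1C15 := lt_trans f250 f69749
            have f69787 : tm e_h0B3 < tm e_h1C15 := lt_trans f416 f69749
            have f69808 : c e_s2B8 ≤ 14 := (le_trans (S.leC3 n_s2B8_0 n_h2B10_0 (le_of_lt f342)) f69743)
            have f69809 : c e_h2B4 ≤ 14 := (le_trans (S.leC3 n_h2B4_0 n_s2B8_0 (le_of_lt f512)) f69808)
            have f69817 : a e_s0B7 ≤ 5 := n4_pf_hi (le_trans (S.leA3 n_s0B7_2 n_h1C15_2 (le_of_lt f69760)) f8442) (par_s0B7).1 (n4_ne rfl)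
            have f69819 : a e_s0B9 ≤ 5 := n4_pf_hi (le_trans (S.leA3 n_s0B9_2 n_h1C15_2 (le_of_lt f69769)) f8442) (par_s0B9).1 (n4_ne rfl)
            have f69821 : a e_h0B3 ≤ 5 := n4_pf_hi (le_trans (S.leA3 n_h0B3_2 n_h1C15_2 (le_of_lt f69787)) f8442) (par_h0B3).1 (n4_ne rfl)
            have f69823 : a e_h0B3 ≤ 3 := n4q_21 _ d_h0B3 f69821
            have f69826 : c e_h2B4 ≤ 6 := n4q_22 _ d_h2B4 f69809
            have f69829 : tm e_s0B7 < tm e_h1A6 := S.monoA _ _ n_s0B7_2 n_h1A6_2 (lt_of_le_of_lt f69817 (lt_of_lt_of_le (n4_lt rfl) f136))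
            have f69832 : tm e_h0B3 < tm e_h1A4 := S.monoA _ _ n_h0B3_2 n_h1A4_2 (lt_of_le_of_lt f69823 (lt_of_lt_of_le (n4_lt rfl) f132))
            have f69834 : tm e_h2B4 < tm e_s1C7 := S.monoC _ _ n_h2B4_0 n_s1C7_0 (lt_of_le_of_lt f69826 (lt_of_lt_of_le (n4_lt rfl) f50))
            have f69837 : tm e_h2B4 < tm e_h1C13 := S.monoC _ _ n_h2B4_0 n_h1C13_0 (lt_of_le_of_lt f69826 (lt_of_lt_of_le (n4_lt rfl) f154))
            have f69853 : tm e_h2C6 < tm e_h1A6 := lt_trans f8759 f69829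
            have f69858 : tm e_s2B2 < tm e_h1A4 := lt_trans f325 f69832
            have f69865 : tm e_h0B3 < tm e_s1C7 := lt_trans f414 f69834
            have f69868 : tm e_h0B3 < tm e_h1C13 := lt_trans f414 f69837
            have f69885 : 7 ≤ c e_h1A6 := n4_pf_lo (le_trans f186 (S.leC3 n_h2C6_0 n_h1A6_0 (le_of_lt f69853))) (par_h1A6).2 (n4_ne rfl)
            have f69886 : 3 ≤ c e_h1A4 := n4_pf_lo (le_trans f66 (S.leC3 n_s2B2_0 n_h1A4_0 (le_of_lt f69858))) (par_h1A4).2 (n4_ne rfl)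
            have f69887 : 4 ≤ a e_s1C7 := n4_pf_lo (le_trans f607 (S.leA3 n_h0B3_2 n_s1C7_2 (le_of_lt f69865))) (par_s1C7).1 (n4_ne rfl)
            have f69889 : 4 ≤ a e_h1C13 := n4_pf_lo (le_trans f607 (S.leA3 n_h0B3_2 n_h1C13_2 (le_of_lt f69868))) (par_h1C13).1 (n4_ne rfl)
            have f69891 : 13 ≤ c e_h1A4 := n4q_0 _ d_h1A4 f69886
            have f69892 : c e_h1A6 ≠ 1 := n4_ne_lo f69885 (n4_lt rfl)
            have f69895 : a e_h1C13 ≠ 2 := n4_ne_lo f69889 (n4_lt rfl)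
            have f69913 : tm e_h2C10 < tm e_h1A4 := S.monoC _ _ n_h2C10_0 n_h1A4_0 (lt_of_le_of_lt f191 (lt_of_lt_of_le (n4_lt rfl) f69891))
            have f69923 : tm e_h2C10 < tm e_s0A5 := lt_trans f69913 f433
            Or.elim (Nat.lt_or_ge (a e_h1C13) 6)
              (fun g => have f75557 : a e_h1C13 ≤ 5 := Nat.le_of_lt_succ g
                have f75558 : a e_h1C13 ≠ 6 := n4_ne_hi f75557 (n4_lt rfl)
                have f75564 : c e_h1A6 ≠ 13 := fun hx => lt_irrefl _ (lt_of_le_of_lt (le_trans (n4_hostv H_h1A6 hx (n4_le rfl) (n4_le rfl)) (n4_hostv H_h1C13 (n4q_23 _ d_h1C13 f8439 f69895 f75558) (n4_le rfl) (n4_le rfl))) (n4_e4_6 (s := sA) qA))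
                have f75565 : c e_h1A6 ≠ 15 := fun hx => lt_irrefl _ (lt_trans (lt_of_lt_of_le (lt_trans (lt_of_le_of_lt (n4_hostv H_h1A6 hx (n4_le rfl) (n4_le rfl)) (n4_e15_17 (t := tC) pC)) (n4_e17_13 (t := tC) pC)) (n4_hostv H_h1C13 (n4q_23 _ d_h1C13 f8439 f69895 f75558) (n4_le rfl) (n4_le rfl))) (n4_e4_6 (s := sA) qA))
                have f75566 : c e_h1A6 ≠ 17 := fun hx => lt_irrefl _ (lt_trans (lt_of_lt_of_le (lt_of_le_of_lt (n4_hostv H_h1A6 hx (n4_le rfl) (n4_le rfl)) (n4_e17_13 (t := tC) pC)) (n4_hostv H_h1C13 (n4q_23 _ d_h1C13 f8439 f69895 f75558) (n4_le rfl) (n4_le rfl))) (n4_e4_6 (s := sA) qA))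
                n4q_17 _ d_h1A6 f69892 f75564 f75565 f75566 f778)
              (fun g => have f75569 : 6 ≤ a e_h1C13 := g
                have f75571 : tm e_s0A5 < tm e_h1C13 := S.monoA _ _ n_s0A5_2 n_h1C13_2 (lt_of_le_of_lt f1 (lt_of_lt_of_le (n4_lt rfl) f75569))
                have f75573 : tm e_s0B9 < tm e_h1C13 := S.monoA _ _ n_s0B9_2 n_h1C13_2 (lt_of_le_of_lt f69819 (lt_of_lt_of_le (n4_lt rfl) f75569))
                have f75575 : tm e_s2B8 < tm e_h1C13 := lt_trans f333 f75573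
                have f75577 : tm e_s0A5 < tm e_h2C14 := lt_trans f75571 f499
                have f75585 : c e_s2B8 ≤ 12 := n4_pf_hi (le_trans (S.leC3 n_s2B8_0 n_h1C13_0 (le_of_lt f75575)) f155) (par_s2B8).2 (n4_ne rfl)
                have f75587 : b e_s0A5 ≤ 9 := n4_pf_hi (le_trans (S.leB3 n_s0A5_1 n_h2C14_1 (le_of_lt f75577)) f8724) (par_s0A5).2 (n4_ne rfl)
                have f75594 : tm e_s2B8 < tm e_h1A4 := S.monoC _ _ n_s2B8_0 n_h1A4_0 (lt_of_le_of_lt f75585 (lt_of_lt_of_le (n4_lt rfl) f69891))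
                have f75600 : tm e_s0B7 < tm e_h1A4 := lt_trans f234 f75594
                have f75604 : b e_h2C10 ≤ 8 := n4_pf_hi (le_trans (S.leB3 n_h2C10_1 n_s0A5_1 (le_of_lt f69923)) f75587) (par_h2C10).1 (n4_ne rfl)
                have f75608 : a e_s0B7 ≤ 3 := n4_pf_hi (le_trans (S.leA3 n_s0B7_2 n_h1A4_2 (le_of_lt f75600)) f133) (par_s0B7).1 (n4_ne rfl)
                have f75613 : b e_h2C10 ≤ 6 := n4q_15 _ d_h2C10 f75604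
                have f75614 : tm e_s0B7 < tm e_s1C7 := S.monoA _ _ n_s0B7_2 n_s1C7_2 (lt_of_le_of_lt f75608 (lt_of_lt_of_le (n4_lt rfl) f69887))
                have f75618 : tm e_h2C10 < tm e_s0B7 := S.monoB _ _ n_h2C10_1 n_s0B7_1 (lt_of_le_of_lt f75613 (lt_of_lt_of_le (n4_lt rfl) f18))
                have f75621 : tm e_h2C10 < tm e_s1C7 := lt_trans f75618 f75614
                lt_asymm f75621 f305))
          (fun g => have f69927 : 22 ≤ c e_h2B10 := g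
            have f69931 : tm e_s1A12 < tm e_h2B10 := S.monoC _ _ n_s1A12_0 n_h2B10_0 (lt_of_le_of_lt f765 (lt_of_lt_of_le (n4_lt rfl) f69927))
            have f69934 : tm e_s1C21 < tm e_h2B10 := S.monoC _ _ n_s1C21_0 n_h2B10_0 (lt_of_le_of_lt f59 (lt_of_lt_of_le (n4_lt rfl) f69927))
            have f69943 : tm e_h1C19 < tm e_h2B10 := S.monoC _ _ n_h1C19_0 n_h2B10_0 (lt_of_le_of_lt f163 (lt_of_lt_of_le (n4_lt rfl) f69927))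
            have f69947 : tm e_s0A9 < tm e_h2B10 := lt_trans f212 f69931
            have f69950 : tm e_s1C21 < tm e_h0A13 := lt_trans f69934 f8752
            have f69962 : tm e_h1C19 < tm e_h0A13 := lt_trans f69943 f8752
            have f69970 : b e_s0A9 ≤ 9 := n4_pf_hi (le_trans (S.leB3 n_s0A9_1 n_h2B10_1 (le_of_lt f69947)) f173) (par_s0A9).2 (n4_ne rfl)
            have f69972 : a e_s1C21 ≤ 12 := n4_pf_hi (le_trans (S.leA3 n_s1C21_2 n_h0A13_2 (le_of_lt f69950)) f101) (par_s1C21).1 (n4_ne rfl)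
            have f69973 : a e_h1C19 ≤ 12 := n4_pf_hi (le_trans (S.leA3 n_h1C19_2 n_h0A13_2 (le_of_lt f69962)) f101) (par_h1C19).1 (n4_ne rfl)
            have f69978 : a e_h1C19 ≤ 10 := n4q_8 _ d_h1C19 f69973
            have f69985 : tm e_h1C19 < tm e_s0A11 := S.monoA _ _ n_h1C19_2 n_s0A11_2 (lt_of_le_of_lt f69978 (lt_of_lt_of_le (n4_lt rfl) f8))
            have f70013 : tm e_s2C18 < tm e_s0A11 := lt_trans f381 f69985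
            have f70017 : b e_h2C14 ≤ 8 := n4_pf_hi (le_trans (S.leB3 n_h2C14_1 n_s0A9_1 (le_of_lt f8636)) f69970) (par_h2C14).1 (n4_ne rfl)
            have f70018 : a e_h0B3 ≤ 11 := n4_pf_hi (le_trans (S.leA3 n_h0B3_2 n_s1C21_2 (le_of_lt f8855)) f69972) (par_h0B3).1 (n4_ne rfl)
            have f70041 : a e_h0B3 ≤ 3 := n4q_10 _ d_h0B3 f70018
            have f70051 : b e_h2C14 ≤ 6 := n4q_15 _ d_h2C14 f70017
            have f70054 : tm e_h0B3 < tm e_s0A5 := S.monoA _ _ n_h0B3_2 n_s0A5_2 (lt_of_le_of_lt f70041 (lt_of_lt_of_le (n4_lt rfl) f0))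
            have f70058 : tm e_h0B3 < tm e_h1A4 := S.monoA _ _ n_h0B3_2 n_h1A4_2 (lt_of_le_of_lt f70041 (lt_of_lt_of_le (n4_lt rfl) f132))
            have f70059 : tm e_h0B3 < tm e_h1A6 := S.monoA _ _ n_h0B3_2 n_h1A6_2 (lt_of_le_of_lt f70041 (lt_of_lt_of_le (n4_lt rfl) f136))
            have f70068 : tm e_h0B3 < tm e_s2C18 := lt_trans f70054 f799
            have f70081 : tm e_s2B2 < tm e_h1A4 := lt_trans f325 f70058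
            have f70082 : tm e_s2B2 < tm e_h1A6 := lt_trans f325 f70059
            have f70097 : 4 ≤ b e_s2C18 := n4_pf_lo (le_trans f118 (S.leB3 n_h0B3_1 n_s2C18_1 (le_of_lt f70068))) (par_s2C18).1 (n4_ne rfl)
            have f70100 : 3 ≤ c e_h1A4 := n4_pf_lo (le_trans f66 (S.leC3 n_s2B2_0 n_h1A4_0 (le_of_lt f70081))) (par_h1A4).2 (n4_ne rfl)
            have f70102 : 3 ≤ c e_h1A6 := n4_pf_lo (le_trans f66 (S.leC3 n_s2B2_0 n_h1A6_0 (le_of_lt f70082))) (par_h1A6).2 (n4_ne rfl)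
            have f70104 : 13 ≤ c e_h1A4 := n4q_0 _ d_h1A4 f70100
            have f70105 : c e_h1A6 ≠ 1 := n4_ne_lo f70102 (n4_lt rfl)
            have f70108 : tm e_s1C7 < tm e_h1A4 := S.monoC _ _ n_s1C7_0 n_h1A4_0 (lt_of_le_of_lt f51 (lt_of_lt_of_le (n4_lt rfl) f70104))
            have f70125 : tm e_s1C7 < tm e_s0A5 := lt_trans f70108 f433
            have f70133 : 5 ≤ b e_s0A11 := n4_pf_lo (le_trans f70097 (S.leB3 n_s2C18_1 n_s0A11_1 (le_of_lt f70013))) (par_s0A11).2 (n4_ne rfl)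
            have f70138 : tm e_h2B4 < tm e_s0A11 := S.monoB _ _ n_h2B4_1 n_s0A11_1 (lt_of_le_of_lt f165 (lt_of_lt_of_le (n4_lt rfl) f70133))
            have f70139 : tm e_h2B4 < tm e_s1A12 := lt_trans f70138 f223
            have f70140 : c e_h2B4 ≤ 20 := n4_pf_hi (le_trans (S.leC3 n_h2B4_0 n_s1A12_0 (le_of_lt f70139)) f765) (par_h2B4).2 (n4_ne rfl)
            have f70142 : c e_h2B4 ≤ 6 := n4q_7 _ d_h2B4 f70140
            have f70143 : tm e_h2B4 < tm e_s1C7 := S.monoC _ _ n_h2B4_0 n_s1C7_0 (lt_of_le_of_lt f70142 (lt_of_lt_of_le (n4_lt rfl) f50))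
            have f70152 : tm e_h2B4 < tm e_h1C13 := S.monoC _ _ n_h2B4_0 n_h1C13_0 (lt_of_le_of_lt f70142 (lt_of_lt_of_le (n4_lt rfl) f154))
            have f70157 : tm e_h2B4 < tm e_s0A5 := lt_trans f70143 f70125
            have f70169 : tm e_h0B3 < tm e_h1C13 := lt_trans f414 f70152
            have f70177 : 5 ≤ b e_s0A5 := n4_pf_lo (le_trans f164 (S.leB3 n_h2B4_1 n_s0A5_1 (le_of_lt f70157))) (par_s0A5).2 (n4_ne rfl)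
            have f70181 : 4 ≤ a e_h1C13 := n4_pf_lo (le_trans f607 (S.leA3 n_h0B3_2 n_h1C13_2 (le_of_lt f70169))) (par_h1C13).1 (n4_ne rfl)
            have f70183 : a e_h1C13 ≠ 2 := n4_ne_lo f70181 (n4_lt rfl)
            have f70187 : 6 ≤ b e_s2C18 := n4_pf_lo (le_trans f70177 (S.leB3 n_s0A5_1 n_s2C18_1 (le_of_lt f799))) (par_s2C18).1 (n4_ne rfl)
            have f70189 : 7 ≤ b e_s0A11 := n4_pf_lo (le_trans f70187 (S.leB3 n_s2C18_1 n_s0A11_1 (le_of_lt f70013))) (par_s0A11).2 (n4_ne rfl)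
            have f70192 : tm e_h2B6 < tm e_s0A11 := S.monoB _ _ n_h2B6_1 n_s0A11_1 (lt_of_le_of_lt f169 (lt_of_lt_of_le (n4_lt rfl) f70189))
            have f70193 : tm e_h2B6 < tm e_s1A12 := lt_trans f70192 f223
            have f70194 : c e_h2B6 ≤ 20 := n4_pf_hi (le_trans (S.leC3 n_h2B6_0 n_s1A12_0 (le_of_lt f70193)) f765) (par_h2B6).2 (n4_ne rfl)
            have f70196 : c e_h2B6 ≤ 6 := n4q_7 _ d_h2B6 f70194
            have f70197 : tm e_h2B6 < tm e_s1C7 := S.monoC _ _ n_h2B6_0 n_s1C7_0 (lt_of_le_of_lt f70196 (lt_of_lt_of_le (n4_lt rfl) f50))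
            have f70211 : tm e_h2B6 < tm e_s0A5 := lt_trans f70197 f70125
            have f70216 : 7 ≤ b e_s0A5 := n4_pf_lo (le_trans f168 (S.leB3 n_h2B6_1 n_s0A5_1 (le_of_lt f70211))) (par_s0A5).2 (n4_ne rfl)
            have f70220 : tm e_h2C14 < tm e_s0A5 := S.monoB _ _ n_h2C14_1 n_s0A5_1 (lt_of_le_of_lt f70051 (lt_of_lt_of_le (n4_lt rfl) f70216))
            have f70221 : tm e_h2C14 < tm e_h1A6 := lt_trans f70220 f207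
            have f70222 : tm e_h1C13 < tm e_s0A5 := lt_trans f499 f70220
            have f70227 : 15 ≤ c e_h1A6 := n4_pf_lo (le_trans f194 (S.leC3 n_h2C14_0 n_h1A6_0 (le_of_lt f70221))) (par_h1A6).2 (n4_ne rfl)
            have f70228 : a e_h1C13 ≤ 4 := n4_pf_hi (le_trans (S.leA3 n_h1C13_2 n_s0A5_2 (le_of_lt f70222)) f1) (par_h1C13).1 (n4_ne rfl)
            have f70229 : c e_h1A6 ≠ 13 := n4_ne_lo f70227 (n4_lt rfl)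
            have f70230 : a e_h1C13 ≠ 6 := n4_ne_hi f70228 (n4_lt rfl)
            have f70248 : c e_h1A6 ≠ 15 := fun hx => lt_irrefl _ (lt_trans (lt_of_lt_of_le (lt_trans (lt_of_le_of_lt (n4_hostv H_h1A6 hx (n4_le rfl) (n4_le rfl)) (n4_e15_17 (t := tC) pC)) (n4_e17_13 (t := tC) pC)) (n4_hostv H_h1C13 (n4q_23 _ d_h1C13 f8439 f70183 f70230) (n4_le rfl) (n4_le rfl))) (n4_e4_6 (s := sA) qA))
            have f70249 : c e_h1A6 ≠ 17 := fun hx => lt_irrefl _ (lt_trans (lt_of_lt_of_le (lt_of_le_of_lt (n4_hostv H_h1A6 hx (n4_le rfl) (n4_le rfl)) (n4_e17_13 (t := tC) pC)) (n4_hostv H_h1C13 (n4q_23 _ d_h1C13 f8439 f70183 f70230) (n4_le rfl) (n4_le rfl))) (n4_e4_6 (s := sA) qA))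
            n4q_17 _ d_h1A6 f70105 f70229 f70248 f70249 f778))

end MPb6
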