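import Pool.Agent.Lib.MP_b6d339_lc.N4
import Pool.Agent.Lib.MP_b6d339_lc.N4Fin
import Pool.Agent.Lib.MP_b6d339_lc.GenFin

/-! The third negative family, assembly. -/

namespace MPb6

open Ordinal Set

theorem not_arrow_g3 {g1 g2 a : Ordinal.{0}} (hcard : g1.card ≤ Cardinal.aleph0)
    (ha0 : 0 < a) (ha : a < ω ^ a) (h21 : g2 ≤ g1) (h32 : ω ^ a ≤ g2) :
    ¬ Arrow3 (ω ^ (ω ^ (g1 + g2 + ω ^ a))) := by
  have h2c : g2.card ≤ Cardinal.aleph0 := (card_le_card h21).trans hcard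
  have h3c : (ω ^ a : Ordinal.{0}).card ≤ Cardinal.aleph0 := (card_le_card h32).trans h2c
  have hκc : (ω ^ (g1 + g2 + ω ^ a) : Ordinal.{0}).card ≤ Cardinal.aleph0 := by
    refine (card_opow_le _ _).trans ?_
    simp only [card_omega0, max_le_iff, le_refl, true_and]
    rw [card_add, card_add]
    exact Cardinal.add_le_aleph0.2 ⟨Cardinal.add_le_aleph0.2 ⟨hcard, h2c⟩, h3c⟩
  have hP := par4_of ha0 ha h21 h32
  refine not_arrow_gen (opow_ne _) (countable_of_card hκc) 10
    (SPatt4 g1 (g1 + g2)) (TPatt4 g1 (g1 + g2)) ?_ ?_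
    (fun S rt hr hroot h => Sys.xFinal4 hP hr hroot h)
    (fun S rt hr hroot h => Sys.yFinal4 hP hr hroot h) ?_
  · intro s s' h p
    obtain ⟨p1, p2, p3, p4, p5, p7, p9, p10, p78, p86⟩ := p
    rw [h 1 (by omega) (by omega)] at p1
    rw [h 2 (by omega) (by omega)] at p2
    rw [h 3 (by omega) (by omega)] at p3
    rw [h 4 (by omega) (by omega)] at p4
    rw [h 5 (by omega) (by omega)] at p5
    rw [h 6 (by omega) (by omega)] at p86
    rw [h 7 (by omega) (by omega)] at p7 p78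
    rw [h 8 (by omega) (by omega)] at p78 p86
    rw [h 9 (by omega) (by omega)] at p9
    rw [h 10 (by omega) (by omega)] at p10
    exact ⟨p1, p2, p3, p4, p5, p7, p9, p10, p78, p86⟩
  · intro t t' h p
    obtain ⟨p1, p3, p4, p5, p6, p7, p8, p9, p12⟩ := p
    rw [h 1 (by omega) (by omega)] at p1 p12
    rw [h 2 (by omega) (by omega)] at p12
    rw [h 3 (by omega) (by omega)] at p3
    rw [h 4 (by omega) (by omega)] at p4
    rw [h 5 (by omega) (by omega)] at p5
    rw [h 6 (by omega) (by omega)] at p6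
    rw [h 7 (by omega) (by omega)] at p7
    rw [h 8 (by omega) (by omega)] at p8
    rw [h 9 (by omega) (by omega)] at p9
    exact ⟨p1, p3, p4, p5, p6, p7, p8, p9, p12⟩
  · intro E pl tm a' b' c' sA tA sB tB sC tC p1 p2 p3 p4 p5 p6 S
    exact fin4 E pl tm a' b' c' g1 (g1 + g2) le_self_add sA tA sB tB sC tC p1 p2 p3 p4 p5 p6 S

end MPb6
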