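import Pool.Agent.Lib.MP_b6d339_lc.FinalNeg
import Pool.Agent.Lib.MP_b6d339_lc.N2Final
import Pool.Agent.Lib.MP_b6d339_lc.N2Fin
import Pool.Agent.Lib.MP_b6d339_lc.N4Final
import Pool.Agent.Lib.MP_b6d339_lc.Galvin
import Pool.Agent.Lib.MP_b6d339_lc.Four

/-!
# Erdős problem 592: the classification, from the positive theorem for three summands
-/

open Ordinal

namespace MPb6

/-- the sum of the powers `ω ^ a`, `a ∈ l` -/
noncomputable def cs (l : List Ordinal.{0}) : Ordinal.{0} := (l.map fun a => ω ^ a).sum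

theorem cs_nil : cs [] = 0 := rfl

theorem cs_cons (a : Ordinal.{0}) (l : List Ordinal.{0}) : cs (a :: l) = ω ^ a + cs l := by
  simp [cs]

theorem cs_append (l l' : List Ordinal.{0}) : cs (l ++ l') = cs l + cs l' := by
  simp [cs]

/-- Cantor normal form -/
theorem exists_cs (γ : Ordinal.{0}) : ∃ l : List Ordinal.{0},
    l.Pairwise (fun x y => y ≤ x) ∧ γ = cs l ∧ ∀ a ∈ l, ω ^ a ≤ γ := by
  induction γ using WellFoundedLT.induction with
  | ind γ ih =>
    rcases eq_or_ne γ 0 with rfl | h0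
    · exact ⟨[], by simp, rfl, by simp⟩
    set a := Ordinal.log ω γ with ha
    have h1 : ω ^ a ≤ γ := opow_log_le_self ω h0
    have h2 : γ < ω ^ (a + 1) := by
      have := lt_opow_succ_log_self one_lt_omega0 γ
      simpa [ha] using this
    obtain ⟨γ', hγ'⟩ := exists_add_of_le h1
    have hpos : 0 < ω ^ a := opow_pos a omega0_pos
    have h3 : γ' < γ := by
      rcases lt_or_ge γ' γ with h | h
      · exact h
      · exfalso
        have h4 : γ' = γ := by
          refine le_antisymm ?_ h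
          rw [hγ']
          exact le_add_self
        have h5 : ω ^ a + γ = γ := by
          rw [h4] at hγ'
          exact hγ'.symm
        have h6 : ∀ n : ℕ, ω ^ a * (n : Ordinal.{0}) ≤ γ := by
          intro n
          induction n with
          | zero => simp
          | succ n ihn =>
            calc ω ^ a * ((n + 1 : ℕ) : Ordinal.{0}) = ω ^ a * (1 + n) := by
                  congr 1
                  exact_mod_cast (Nat.add_comm n 1)
              _ = ω ^ a + ω ^ a * n := by rw [mul_add, mul_one]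
              _ ≤ ω ^ a + γ := by gcongr
              _ = γ := h5
        have h7 : ω ^ (a + 1) ≤ γ := by
          rw [opow_add, opow_one, mul_le_iff_of_isSuccLimit isSuccLimit_omega0]
          intro b hb
          obtain ⟨n, rfl⟩ := lt_omega0.1 hb
          exact h6 n
        exact absurd h2 (not_lt.2 h7)
    obtain ⟨l, hl1, hl2, hl3⟩ := ih γ' h3
    refine ⟨a :: l, ?_, ?_, ?_⟩
    · rw [List.pairwise_cons]
      refine ⟨fun b hb => ?_, hl1⟩
      have h4 : ω ^ b < ω ^ (a + 1) := (hl3 b hb).trans_lt (h3.trans h2)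
      have h5 : b < a + 1 := (opow_lt_opow_iff_right one_lt_omega0).1 h4
      exact Order.lt_succ_iff.1 (by simpa using h5)
    · rw [cs_cons, ← hl2]
      exact hγ'
    · intro b hb
      rcases List.mem_cons.1 hb with rfl | hb
      · exact h1
      · exact (hl3 b hb).trans h3.le

/-- `1` or an epsilon number -/
def OneEps (g : Ordinal.{0}) : Prop := g = 1 ∨ ω ^ g = g

theorem oneEps_of {a : Ordinal.{0}} (h : ¬ (0 < a ∧ a < ω ^ a)) : OneEps (ω ^ a) := by
  rcases eq_or_ne a 0 with rfl | h0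
  · left; simp
  · right
    have h1 : ¬ a < ω ^ a := fun h2 => h ⟨pos_iff_ne_zero.2 h0, h2⟩
    have h2 : ω ^ a = a := le_antisymm (not_lt.1 h1) (right_le_opow a one_lt_omega0)
    rw [h2, h2]

theorem card_le_of_le {a b : Ordinal.{0}} (h : a ≤ b) (hb : b.card ≤ Cardinal.aleph0) :
    a.card ≤ Cardinal.aleph0 := (card_le_card h).trans hb

/-- the last term of a sum -/
theorem cs_concat (l : List Ordinal.{0}) (a : Ordinal.{0}) : cs (l ++ [a]) = cs l + ω ^ a := by
  rw [cs_append, cs_cons, cs_nil, add_zero]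

theorem le_cs {l : List Ordinal.{0}} {a : Ordinal.{0}} (h : a ∈ l) : ω ^ a ≤ cs l := by
  induction l with
  | nil => simp at h
  | cons b l ih =>
    rw [cs_cons]
    rcases List.mem_cons.1 h with rfl | h
    · exact le_self_add
    · exact (ih h).trans le_add_self

/-- **The negative side.** If the relation holds for `ω ^ β`, `3 ≤ β`, then `β` is `ω ^ γ` with `γ` a
sum of at most three powers, and in the case of three powers each of them is `1` or an epsilon
number. -/
theorem neg_side {β : Ordinal.{0}} (hβ : β.card ≤ Cardinal.aleph0) (h3 : 3 ≤ β)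
    (hA : Arrow3 (ω ^ β)) : (∃ a : Ordinal.{0}, β = ω ^ (ω ^ a)) ∨
      (∃ a b : Ordinal.{0}, β = ω ^ (ω ^ a + ω ^ b)) ∨
      ∃ g1 g2 g3 : Ordinal.{0}, OneEps g1 ∧ OneEps g2 ∧ OneEps g3 ∧ g3 ≤ g2 ∧ g2 ≤ g1 ∧
        β = ω ^ (g1 + g2 + g3) := by
  -- `β` is a power of `ω`
  obtain ⟨γ, rfl⟩ : ∃ γ : Ordinal.{0}, β = ω ^ γ := by
    obtain ⟨l, hl1, hl2, -⟩ := exists_cs β
    rcases List.eq_nil_or_concat' l with rfl | ⟨l', c, rfl⟩
    · rw [hl2, cs_nil] at h3
      exact absurd h3 (by simp)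
    rcases List.eq_nil_or_concat' l' with rfl | ⟨l'', b, rfl⟩
    · exact ⟨c, by rw [hl2]; simp [cs_cons, cs_nil]⟩
    exfalso
    rw [cs_concat] at hl2
    have h1 : c ≤ b := by
      rw [List.pairwise_append] at hl1
      exact hl1.2.2 b (by simp) c (by simp)
    have hb : ω ^ b ≤ cs (l'' ++ [b]) := le_cs (by simp)
    have hcb : ω ^ c ≤ cs (l'' ++ [b]) := (opow_le_opow_right omega0_pos h1).trans hb
    have h2 : 2 ≤ cs (l'' ++ [b]) := by
      by_contra hlt
      rw [not_le] at hlt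
      have h4 : cs (l'' ++ [b]) ≤ 1 := by
        rw [← Order.lt_succ_iff]
        simpa [← one_add_one_eq_two] using hlt
      have h5 : β ≤ 1 + 1 := by
        rw [hl2]
        exact add_le_add h4 (hcb.trans h4)
      have h6 : (3 : Ordinal.{0}) ≤ 1 + 1 := h3.trans h5
      exact absurd h6 (by norm_num [← Nat.cast_ofNat])
    refine galvin (card_le_of_le ?_ hβ) h2 (opow_pos c omega0_pos) hcb (hl2 ▸ hA)
    rw [hl2]
    exact le_self_add
  obtain ⟨l, hl1, hl2, -⟩ := exists_cs γ
  have hγ : γ.card ≤ Cardinal.aleph0 := card_le_of_le (right_le_opow γ one_lt_omega0) hβ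
  have hlast : ∀ (l : List Ordinal.{0}) (x y : Ordinal.{0}),
      (l ++ [x] ++ [y]).Pairwise (fun x y => y ≤ x) → y ≤ x := by
    intro l x y h
    rw [List.pairwise_append] at h
    exact h.2.2 x (by simp) y (by simp)
  rcases List.eq_nil_or_concat' l with rfl | ⟨l1, c, rfl⟩
  · rw [hl2, cs_nil, opow_zero] at h3
    exact absurd h3 (by norm_num)
  rcases List.eq_nil_or_concat' l1 with rfl | ⟨l2, b, rfl⟩
  · exact Or.inl ⟨c, by rw [hl2]; simp [cs_cons, cs_nil]⟩
  rcases List.eq_nil_or_concat' l2 with rfl | ⟨l3, a, rfl⟩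
  · exact Or.inr (Or.inl ⟨b, c, by rw [hl2]; simp [cs_cons, cs_nil]⟩)
  have hcb : c ≤ b := hlast _ _ _ hl1
  have hba : b ≤ a := hlast _ _ _ (List.pairwise_append.1 hl1).1
  rcases List.eq_nil_or_concat' l3 with rfl | ⟨l4, h, rfl⟩
  · right; right
    have he : γ = ω ^ a + ω ^ b + ω ^ c := by
      rw [hl2]
      simp [cs_cons, cs_nil, add_assoc]
    have hac : a.card ≤ Cardinal.aleph0 := by
      refine card_le_of_le ?_ hγ
      rw [he, add_assoc]
      exact (right_le_opow a one_lt_omega0).trans le_self_add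
    have h21 : ω ^ b ≤ ω ^ a := opow_le_opow_right omega0_pos hba
    have h32 : ω ^ c ≤ ω ^ b := opow_le_opow_right omega0_pos hcb
    have hoa : (ω ^ a : Ordinal.{0}).card ≤ Cardinal.aleph0 := by
      refine card_le_of_le ?_ hγ
      rw [he, add_assoc]
      exact le_self_add
    refine ⟨ω ^ a, ω ^ b, ω ^ c, ?_, ?_, ?_, h32, h21, by rw [he]⟩
    · refine oneEps_of fun hh => ?_
      exact not_arrow3 hac hh.1 hh.2 h21 h32 (opow_pos c omega0_pos) (he ▸ hA)
    · refine oneEps_of fun hh => ?_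
      exact not_arrow_g2 hoa hh.1 hh.2 h21 (opow_pos c omega0_pos) h32 (he ▸ hA)
    · refine oneEps_of fun hh => ?_
      exact not_arrow_g3 hoa hh.1 hh.2 h21 h32 (he ▸ hA)
  · exfalso
    have hah : a ≤ h := hlast _ _ _ (List.pairwise_append.1 (List.pairwise_append.1 hl1).1).1
    rw [cs_concat, cs_concat, cs_concat] at hl2
    have hH : ω ^ h ≤ cs (l4 ++ [h]) := le_cs (by simp)
    have hcard : (cs (l4 ++ [h])).card ≤ Cardinal.aleph0 := by
      refine card_le_of_le ?_ hγ
      rw [hl2, add_assoc, add_assoc]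
      exact le_self_add
    refine not_arrow_four hcard ⟨opow_pos c omega0_pos, opow_le_opow_right omega0_pos hcb,
      opow_le_opow_right omega0_pos hba, (opow_le_opow_right omega0_pos hah).trans hH⟩ ?_
    rw [← hl2]
    exact hA

/-- **The classification**, from the positive theorem for three summands. -/
theorem classify (hpos : ∀ g1 g2 g3 : Ordinal.{0}, g1.card ≤ Cardinal.aleph0 → g2 ≤ g1 →
      g3 ≤ g2 → OneEps g1 → OneEps g2 → OneEps g3 → Arrow3 (ω ^ (ω ^ (g1 + g2 + g3))))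
    {β : Ordinal.{0}} (hβ : β.card ≤ Cardinal.aleph0) (h3 : 3 ≤ β)
    (h1 : ∀ a : Ordinal.{0}, β ≠ ω ^ (ω ^ a))
    (h2 : ∀ a b : Ordinal.{0}, β ≠ ω ^ (ω ^ a + ω ^ b)) :
    Arrow3 (ω ^ β) ↔ ∃ g1 g2 g3 : Ordinal.{0}, OneEps g1 ∧ OneEps g2 ∧ OneEps g3 ∧ g3 ≤ g2 ∧ g2 ≤ g1 ∧
        β = ω ^ (g1 + g2 + g3) := by
  constructor
  · intro hA
    rcases neg_side hβ h3 hA with ⟨a, h⟩ | ⟨a, b, h⟩ | h
    · exact absurd h (h1 a)
    · exact absurd h (h2 a b)
    · exact h
  · rintro ⟨g1, g2, g3, e1, e2, e3, h32, h21, rfl⟩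
    refine hpos g1 g2 g3 ?_ h21 h32 e1 e2 e3
    refine card_le_of_le ?_ hβ
    calc g1 ≤ g1 + g2 + g3 := by rw [add_assoc]; exact le_self_add
      _ ≤ ω ^ (g1 + g2 + g3) := right_le_opow _ one_lt_omega0

end MPb6
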