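import Mathlib

/-!
# The partition relation
-/

open Ordinal

namespace MPb6

/-- `α → (α, 3)²`: every graph on the vertex set `α` (its edges are the blue pairs) has an
independent set of order type `α` (a red `K_α`) or a triangle (a blue `K_3`). -/
def Arrow3 (α : Ordinal.{0}) : Prop :=
  ∀ G : SimpleGraph α.ToType,
    (∃ H : Set α.ToType, typeLT H = α ∧ ∀ x ∈ H, ∀ y ∈ H, ¬ G.Adj x y) ∨
    ∃ x y z : α.ToType, G.Adj x y ∧ G.Adj y z ∧ G.Adj x z

end MPb6
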