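import Mathlib

/-!
# Erdős 592, negative part: event times of the three runs of a triangle

A *player* `z : Pl α` is a finite sequence of nodes `1, …, z.len` with natural number codes
`z.code k` and labels `z.lab k` in a linear order `α`. `z.time k` is the running maximum of the
codes. `BluePair G1 G2 x y` is the abstract form of the blue relation. The main result
`triangle_events` turns a blue triangle into a purely finite system (`Events`), which the finite
check shows to be contradictory.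
-/

namespace MPb6

/-- A finite sequence of nodes with codes and labels. -/
structure Pl (α : Type*) where
  len : ℕ
  code : ℕ → ℕ
  lab : ℕ → α

/-- Running maximum of the codes. -/
def Pl.time {α : Type*} (z : Pl α) (k : ℕ) : ℕ := (Finset.Icc 1 k).sup z.code

lemma Pl.code_le_time {α : Type*} (z : Pl α) {l k : ℕ} (h1 : 1 ≤ l) (h2 : l ≤ k) :
    z.code l ≤ z.time k :=
  Finset.le_sup (f := z.code) (Finset.mem_Icc.2 ⟨h1, h2⟩)

variable {α : Type*} [LinearOrder α]

/-- `g` is the largest label on the segment `(c, c']`. -/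
def IsGate (z : Pl α) (c c' : ℕ) (g : α) : Prop :=
  (∀ k, c < k → k ≤ c' → z.lab k ≤ g) ∧ ∃ k, c < k ∧ k ≤ c' ∧ z.lab k = g

/-- Pattern of the gates of a blue pair. -/
structure Pat (G1 G2 : α) (s t : ℕ → α) : Prop where
  s1 : s 1 ≤ G1
  s2 : s 2 ≤ G1
  s3 : s 3 ≤ G1
  s4 : G1 < s 4 ∧ s 4 ≤ G2
  s5 : G2 < s 5
  s6 : G1 < s 6 ∧ s 6 ≤ G2
  s7 : s 7 ≤ G1
  s8 : s 8 ≤ G1
  s9 : s 9 ≤ G1
  t1 : G1 < t 1 ∧ t 1 ≤ G2
  t2 : t 2 ≤ G1
  t3 : t 3 ≤ G1
  t4 : t 4 ≤ G1
  t5 : t 5 ≤ G1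
  t6 : t 6 ≤ G1
  t7 : t 7 ≤ G1
  t8 : G1 < t 8 ∧ t 8 ≤ G2
  s21 : s 2 < s 1
  s13 : s 1 ≤ s 3
  s89 : s 8 < s 9
  s97 : s 9 ≤ s 7
  t24 : t 2 < t 4
  t34 : t 3 < t 4
  t65 : t 6 < t 5
  t75 : t 7 < t 5

/-- The run of a blue pair: cut positions `c 0 = 0 < c 1 < … < c 11 = len x` and
`d 0 = 0 < … < d 10 = len y`, alternating in time, with gates `s`, `t`. -/
structure Run (G1 G2 : α) (x y : Pl α) (c d : ℕ → ℕ) (s t : ℕ → α) : Prop where
  c0 : c 0 = 0
  c11 : c 11 = x.len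
  cmono : ∀ i ≤ 10, c i < c (i + 1)
  d0 : d 0 = 0
  d10 : d 10 = y.len
  dmono : ∀ i ≤ 9, d i < d (i + 1)
  xy : ∀ i ≤ 9, x.time (c (i + 1)) < y.code (d i + 1)
  yx : ∀ i, 1 ≤ i → i ≤ 10 → y.time (d i) < x.code (c i + 1)
  sgate : ∀ i, 1 ≤ i → i ≤ 9 → IsGate x (c i) (c (i + 1)) (s i)
  tgate : ∀ i, 1 ≤ i → i ≤ 8 → IsGate y (d i) (d (i + 1)) (t i)
  pat : Pat G1 G2 s t

/-- `x` (first player) and `y` form a blue pair. -/
def BluePair (G1 G2 : α) (x y : Pl α) : Prop :=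
  ∃ c d : ℕ → ℕ, ∃ s t : ℕ → α, Run G1 G2 x y c d s t

/-- Hosting of the gates `g i`, `1 ≤ i < nA`, of one run of a player (start times `A 0 < … < A nA`
of its segments) by the gates `h j`, `1 ≤ j < nB`, or the infinite segments `j = 0`, `j = nB`, of
the other run of the same player (start times `B 0 < … < B nB`). -/
def Hosted (A B : ℕ → ℕ) (nA nB : ℕ) (g h : ℕ → α) : Prop :=
  ∀ i, 1 ≤ i → i < nA → ∃ j ≤ nB, (j < nB → A i < B (j + 1)) ∧ B j < A (i + 1) ∧
    (j = 0 ∨ j = nB ∨ g i ≤ h j)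

/-- The finite system obtained from a blue triangle. `Xpq i` (`i ≤ 10`) and `Ypq i` (`i ≤ 9`) are
the start times of the segments of the first and second player of the run `pq`. -/
structure Events (G1 G2 : α) (X12 Y12 X13 Y13 X23 Y23 : ℕ → ℕ)
    (s12 t12 s13 t13 s23 t23 : ℕ → α) : Prop where
  -- alternation
  xy12 : ∀ i ≤ 9, X12 i < Y12 i
  yx12 : ∀ i ≤ 9, Y12 i < X12 (i + 1)
  xy13 : ∀ i ≤ 9, X13 i < Y13 i
  yx13 : ∀ i ≤ 9, Y13 i < X13 (i + 1)
  xy23 : ∀ i ≤ 9, X23 i < Y23 i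
  yx23 : ∀ i ≤ 9, Y23 i < X23 (i + 1)
  -- the first segments of the two runs of a player start with its first node
  start1 : X12 0 = X13 0
  start2 : Y12 0 = X23 0
  start3 : Y13 0 = Y23 0
  -- every event of a player lies in an interval of that player in its other run
  mem1a : ∀ j ≤ 10, ∃ i ≤ 10, X12 i ≤ X13 j ∧ (i ≤ 9 → X13 j < Y12 i)
  mem1b : ∀ i ≤ 10, ∃ j ≤ 10, X13 j ≤ X12 i ∧ (j ≤ 9 → X12 i < Y13 j)
  mem2a : ∀ j ≤ 10, ∃ i ≤ 9, Y12 i ≤ X23 j ∧ X23 j < X12 (i + 1)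
  mem2b : ∀ i ≤ 9, ∃ j ≤ 10, X23 j ≤ Y12 i ∧ (j ≤ 9 → Y12 i < Y23 j)
  mem3a : ∀ j ≤ 9, ∃ i ≤ 9, Y13 i ≤ Y23 j ∧ Y23 j < X13 (i + 1)
  mem3b : ∀ i ≤ 9, ∃ j ≤ 9, Y23 j ≤ Y13 i ∧ Y13 i < X23 (j + 1)
  -- patterns
  pat12 : Pat G1 G2 s12 t12
  pat13 : Pat G1 G2 s13 t13
  pat23 : Pat G1 G2 s23 t23
  -- hosting
  host1a : Hosted X12 X13 10 10 s12 s13
  host1b : Hosted X13 X12 10 10 s13 s12
  host2a : Hosted Y12 X23 9 10 t12 s23
  host2b : Hosted X23 Y12 10 9 s23 t12
  host3a : Hosted Y13 Y23 9 9 t13 t23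
  host3b : Hosted Y23 Y13 9 9 t23 t13

/-! ### Segments of one player in one run -/

/-- The segments `(c i, c (i + 1)]`, `i ≤ n`, of a player in a run: each starts with a node whose
code is larger than all earlier codes. -/
structure Seg (z : Pl α) (n : ℕ) (c : ℕ → ℕ) : Prop where
  c0 : c 0 = 0
  cn : c (n + 1) = z.len
  mono : ∀ i ≤ n, c i < c (i + 1)
  record : ∀ i ≤ n, ∀ l, 1 ≤ l → l ≤ c i → z.code l < z.code (c i + 1)

lemma Seg.lt {z : Pl α} {n : ℕ} {c : ℕ → ℕ} (h : Seg z n c) {i j : ℕ} (hij : i < j)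
    (hj : j ≤ n + 1) : c i < c j := by
  induction j with
  | zero => omega
  | succ j ih =>
    rcases Nat.lt_or_ge i j with h1 | h1
    · exact (ih h1 (by omega)).trans (h.mono j (by omega))
    · obtain rfl : i = j := by omega
      exact h.mono i (by omega)

lemma Seg.le {z : Pl α} {n : ℕ} {c : ℕ → ℕ} (h : Seg z n c) {i j : ℕ} (hij : i ≤ j)
    (hj : j ≤ n + 1) : c i ≤ c j := by
  rcases Nat.lt_or_ge i j with h1 | h1
  · exact (h.lt h1 hj).le
  · obtain rfl : i = j := by omega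
    exact le_rfl

lemma Seg.find {z : Pl α} {n : ℕ} {c : ℕ → ℕ} (h : Seg z n c) {k : ℕ} (h1 : 1 ≤ k)
    (h2 : k ≤ z.len) : ∃ i ≤ n, c i < k ∧ k ≤ c (i + 1) := by
  classical
  have hex : ∃ i, k ≤ c (i + 1) := ⟨n, by rw [h.cn]; exact h2⟩
  refine ⟨Nat.find hex, Nat.find_min' hex (by rw [h.cn]; exact h2), ?_, Nat.find_spec hex⟩
  rcases Nat.eq_zero_or_pos (Nat.find hex) with h0 | h0
  · rw [h0, h.c0]; exact h1
  · have := Nat.find_min hex (m := Nat.find hex - 1) (by omega)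
    rw [Nat.sub_add_cancel h0] at this
    omega

/-- Start time of segment `i`. -/
def start (z : Pl α) (c : ℕ → ℕ) (i : ℕ) : ℕ := z.code (c i + 1)

/-- The starts of two runs of the same player are ordered like the cut positions. -/
lemma Seg.start_lt {z : Pl α} {m : ℕ} {c c' : ℕ → ℕ} (h : Seg z m c) {i j : ℕ} (hj : j ≤ m)
    (hij : c' i < c j) : start z c' i < start z c j :=
  h.record j hj _ (by omega) (by omega)

lemma Seg.start_le {z : Pl α} {m : ℕ} {c c' : ℕ → ℕ} (h : Seg z m c) {i j : ℕ} (hj : j ≤ m)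
    (hij : c' i ≤ c j) : start z c' i ≤ start z c j := by
  rcases hij.lt_or_eq with h1 | h1
  · exact (h.start_lt hj h1).le
  · unfold start; rw [h1]

/-- Hosting. -/
lemma Seg.hosted {z : Pl α} {nA nB : ℕ} {c c' : ℕ → ℕ} (hA : Seg z nA c) (hB : Seg z nB c')
    {g h : ℕ → α} (hg : ∀ i, 1 ≤ i → i < nA → IsGate z (c i) (c (i + 1)) (g i))
    (hh : ∀ i, 1 ≤ i → i < nB → IsGate z (c' i) (c' (i + 1)) (h i)) :
    Hosted (start z c) (start z c') nA nB g h := by
  intro i hi1 hi2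
  obtain ⟨-, k, hk1, hk2, hk3⟩ := hg i hi1 hi2
  have hk4 : k ≤ z.len := by
    rw [← hA.cn]; exact hk2.trans (hA.le (by omega) le_rfl)
  obtain ⟨j, hj, hj1, hj2⟩ := hB.find (by omega) hk4
  refine ⟨j, hj, fun hjn => hB.start_lt (by omega) (by omega),
    hA.start_lt (by omega) (by omega), ?_⟩
  rcases Nat.eq_zero_or_pos j with h0 | h0
  · exact Or.inl h0
  rcases Nat.lt_or_ge j nB with h1 | h1
  · right; right
    rw [← hk3]
    exact (hh j h0 h1).1 k hj1 hj2
  · right; left; omega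

section Runs

variable {G1 G2 : α} {x y : Pl α} {c d : ℕ → ℕ} {s t : ℕ → α}

lemma Run.start_xy (h : Run G1 G2 x y c d s t) (i : ℕ) (hi : i ≤ 9) :
    start x c i < start y d i := by
  refine lt_of_le_of_lt ?_ (h.xy i hi)
  exact x.code_le_time (by omega) (h.cmono i (by omega))

lemma Run.start_yx (h : Run G1 G2 x y c d s t) (i : ℕ) (hi : i ≤ 9) :
    start y d i < start x c (i + 1) := by
  refine lt_of_le_of_lt ?_ (h.yx (i + 1) (by omega) (by omega))
  exact y.code_le_time (by omega) (h.dmono i hi)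

lemma Run.seg1 (h : Run G1 G2 x y c d s t) : Seg x 10 c where
  c0 := h.c0
  cn := h.c11
  mono := h.cmono
  record := by
    intro i hi l hl1 hl2
    rcases Nat.eq_zero_or_pos i with h0 | h0
    · subst h0; rw [h.c0] at hl2; omega
    · have h1 := x.code_le_time hl1 hl2
      have h2 := h.xy (i - 1) (by omega)
      rw [Nat.sub_add_cancel h0] at h2
      have h3 := h.start_yx (i - 1) (by omega)
      rw [Nat.sub_add_cancel h0] at h3
      unfold start at h3
      omega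

lemma Run.seg2 (h : Run G1 G2 x y c d s t) : Seg y 9 d where
  c0 := h.d0
  cn := h.d10
  mono := h.dmono
  record := by
    intro i hi l hl1 hl2
    rcases Nat.eq_zero_or_pos i with h0 | h0
    · subst h0; rw [h.d0] at hl2; omega
    · have h1 := y.code_le_time hl1 hl2
      have h2 := h.yx i h0 (by omega)
      have h3 := h.start_xy i hi
      unfold start at h3
      omega

/-- Events of the first player lie in its intervals. -/
lemma Run.mem1 (h : Run G1 G2 x y c d s t) {n : ℕ} {c' : ℕ → ℕ} (h' : Seg x n c') {j : ℕ}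
    (hj : j ≤ n) : ∃ i ≤ 10, start x c i ≤ start x c' j ∧ (i ≤ 9 → start x c' j < start y d i) := by
  have hlen : c' j + 1 ≤ x.len := by
    rw [← h'.cn]; exact h'.lt (by omega) le_rfl
  obtain ⟨i, hi, h1, h2⟩ := h.seg1.find (Nat.succ_pos _) hlen
  refine ⟨i, hi, h'.start_le hj (by omega), fun hi9 => ?_⟩
  exact lt_of_le_of_lt (x.code_le_time (Nat.succ_pos _) h2) (h.xy i hi9)

/-- Events of the second player lie in its intervals. -/
lemma Run.mem2 (h : Run G1 G2 x y c d s t) {n : ℕ} {c' : ℕ → ℕ} (h' : Seg y n c') {j : ℕ}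
    (hj : j ≤ n) : ∃ i ≤ 9, start y d i ≤ start y c' j ∧ start y c' j < start x c (i + 1) := by
  have hlen : c' j + 1 ≤ y.len := by
    rw [← h'.cn]; exact h'.lt (by omega) le_rfl
  obtain ⟨i, hi, h1, h2⟩ := h.seg2.find (Nat.succ_pos _) hlen
  refine ⟨i, hi, h'.start_le hj (by omega), ?_⟩
  exact lt_of_le_of_lt (y.code_le_time (Nat.succ_pos _) h2) (h.yx (i + 1) (by omega) (by omega))

end Runs

/-- A blue triangle gives a solution of the finite system. -/
theorem triangle_events {G1 G2 : α} {z1 z2 z3 : Pl α} (h12 : BluePair G1 G2 z1 z2)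
    (h13 : BluePair G1 G2 z1 z3) (h23 : BluePair G1 G2 z2 z3) :
    ∃ X12 Y12 X13 Y13 X23 Y23 : ℕ → ℕ, ∃ s12 t12 s13 t13 s23 t23 : ℕ → α,
      Events G1 G2 X12 Y12 X13 Y13 X23 Y23 s12 t12 s13 t13 s23 t23 := by
  obtain ⟨c12, d12, s12, t12, r12⟩ := h12
  obtain ⟨c13, d13, s13, t13, r13⟩ := h13
  obtain ⟨c23, d23, s23, t23, r23⟩ := h23
  refine ⟨start z1 c12, start z2 d12, start z1 c13, start z3 d13, start z2 c23, start z3 d23,
    s12, t12, s13, t13, s23, t23, ?_⟩
  exact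
  { xy12 := r12.start_xy
    yx12 := r12.start_yx
    xy13 := r13.start_xy
    yx13 := r13.start_yx
    xy23 := r23.start_xy
    yx23 := r23.start_yx
    start1 := by unfold start; rw [r12.c0, r13.c0]
    start2 := by unfold start; rw [r12.d0, r23.c0]
    start3 := by unfold start; rw [r13.d0, r23.d0]
    mem1a := fun j hj => r12.mem1 r13.seg1 hj
    mem1b := fun j hj => r13.mem1 r12.seg1 hj
    mem2a := fun j hj => r12.mem2 r23.seg1 hj
    mem2b := fun j hj => r23.mem1 r12.seg2 hj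
    mem3a := fun j hj => r13.mem2 r23.seg2 hj
    mem3b := fun j hj => r23.mem2 r13.seg2 hj
    pat12 := r12.pat
    pat13 := r13.pat
    pat23 := r23.pat
    host1a := r12.seg1.hosted r13.seg1 (fun i h1 h2 => r12.sgate i h1 (by omega))
      (fun i h1 h2 => r13.sgate i h1 (by omega))
    host1b := r13.seg1.hosted r12.seg1 (fun i h1 h2 => r13.sgate i h1 (by omega))
      (fun i h1 h2 => r12.sgate i h1 (by omega))
    host2a := r12.seg2.hosted r23.seg1 (fun i h1 h2 => r12.tgate i h1 (by omega))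
      (fun i h1 h2 => r23.sgate i h1 (by omega))
    host2b := r23.seg1.hosted r12.seg2 (fun i h1 h2 => r23.sgate i h1 (by omega))
      (fun i h1 h2 => r12.tgate i h1 (by omega))
    host3a := r13.seg2.hosted r23.seg2 (fun i h1 h2 => r13.tgate i h1 (by omega))
      (fun i h1 h2 => r23.tgate i h1 (by omega))
    host3b := r23.seg2.hosted r13.seg2 (fun i h1 h2 => r23.tgate i h1 (by omega))
      (fun i h1 h2 => r13.tgate i h1 (by omega)) }

end MPb6
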