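import Pool.Agent.Lib.MP_b6d339_lc.Mix.S9
import Pool.Agent.Lib.MP_b6d339_lc.Pos.B6
import Pool.Agent.Lib.MP_b6d339_lc.Classify

/-!
# Erdős 592: the classification, from the templates `TT 3`
-/

open Ordinal Cardinal

namespace MPb6

/-- The positive theorem for three summands, from `TT 3`. -/
theorem arrow_three (hT : MPb6P.TT 3) {g1 g2 g3 : Ordinal.{0}} (hc : g1.card ≤ Cardinal.aleph0)
    (h12 : g2 ≤ g1) (h23 : g3 ≤ g2) (h1 : OneEps g1) (h2 : OneEps g2) (h3 : OneEps g3) :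
    Arrow3 (ω ^ (ω ^ (g1 + g2 + g3))) := by
  have h111 : Arrow3 (ω ^ (ω ^ (3 : Ordinal.{0}))) := by
    have h := MPb6P.arrow_of_TT 3 (by norm_num) hT
    exact_mod_cast h
  exact MPb6M.arrow_mix hT h111 hc h12 h23 h1 h2 h3

/-- **The classification** of the countable `β ≥ 3`, away from the two classical families, from
`TT 3`. -/
theorem classification (hT : MPb6P.TT 3) {β : Ordinal.{0}} (hβ : β.card ≤ Cardinal.aleph0)
    (h3 : 3 ≤ β) (h1 : ∀ a : Ordinal.{0}, β ≠ ω ^ (ω ^ a))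
    (h2 : ∀ a b : Ordinal.{0}, β ≠ ω ^ (ω ^ a + ω ^ b)) :
    Arrow3 (ω ^ β) ↔ ∃ g1 g2 g3 : Ordinal.{0}, (g1 = 1 ∨ ω ^ g1 = g1) ∧ (g2 = 1 ∨ ω ^ g2 = g2) ∧
      (g3 = 1 ∨ ω ^ g3 = g3) ∧ g3 ≤ g2 ∧ g2 ≤ g1 ∧ β = ω ^ (g1 + g2 + g3) :=
  classify (fun _ _ _ hc h21 h32 e1 e2 e3 => arrow_three hT hc h21 h32 e1 e2 e3) hβ h3 h1 h2

end MPb6
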