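import Pool.Agent.Lib.MP_b6d339_lc.Strat
import Pool.Agent.Lib.MP_b6d339_lc.Bridge
import Pool.Agent.Lib.MP_b6d339_lc.Abs4
import Pool.Agent.Lib.MP_b6d339_lc.Defs

/-!
# Erdős 592, negative part: the theorem
-/

open Ordinal Set

namespace MPb6

noncomputable section

lemma BluePair.code_lt {α : Type*} [LinearOrder α] {G1 G2 : α} {x y : Pl α}
    (h : BluePair G1 G2 x y) : x.code 1 < y.code 1 := by
  obtain ⟨c, d, s, t, r⟩ := h
  have := r.start_xy 0 (by omega)
  unfold start at this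
  rwa [r.c0, r.d0] at this

/-- The blue graph. -/
def blueG (κ G1 G2 : Ordinal.{0}) : SimpleGraph (ω ^ κ : Ordinal.{0}).ToType where
  Adj u v := BluePair G1 G2 (plT κ (path κ (u : Ordinal.{0}))) (plT κ (path κ (v : Ordinal.{0}))) ∨
    BluePair G1 G2 (plT κ (path κ (v : Ordinal.{0}))) (plT κ (path κ (u : Ordinal.{0})))
  symm := ⟨fun _ _ h => h.symm⟩
  loopless := ⟨fun _ h => by
    rcases h with h | h
    · exact lt_irrefl _ h.code_lt
    · exact lt_irrefl _ h.code_lt⟩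

lemma blueG_no_triangle {κ G1 G2 : Ordinal.{0}} (hG : G1 ≤ G2)
    (x y z : (ω ^ κ : Ordinal.{0}).ToType) (h1 : (blueG κ G1 G2).Adj x y)
    (h2 : (blueG κ G1 G2).Adj y z) (h3 : (blueG κ G1 G2).Adj x z) : False := by
  have key : ∀ a b c : Pl Ordinal.{0}, BluePair G1 G2 a b → BluePair G1 G2 a c →
      BluePair G1 G2 b c → False := fun a b c hab hac hbc =>
    no_triangle ![a, b, c] hG hab hac hbc
  rcases h1 with h1 | h1 <;> rcases h2 with h2 | h2 <;> rcases h3 with h3 | h3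
  · exact key _ _ _ h1 h3 h2
  · have e1 := h1.code_lt
    have e2 := h2.code_lt
    have e3 := h3.code_lt
    omega
  · exact key _ _ _ h3 h1 h2
  · exact key _ _ _ h3 h2 h1
  · exact key _ _ _ h1 h2 h3
  · exact key _ _ _ h2 h1 h3
  · have e1 := h1.code_lt
    have e2 := h2.code_lt
    have e3 := h3.code_lt
    omega
  · exact key _ _ _ h2 h3 h1

/-- A subset of type `ω ^ κ` is large. -/
lemma large_of_type {κ : Ordinal.{0}} (H : Set (ω ^ κ : Ordinal.{0}).ToType)
    (hH : typeLT H = ω ^ κ) :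
    Large ({x : Ordinal.{0} | ∃ u ∈ H, (u : Ordinal.{0}) = x} ∩ Iio (ω ^ κ)) κ := by
  classical
  let e : ∀ a : Ordinal.{0}, a < ω ^ κ → H := fun a ha =>
    enum (α := H) (· < ·) ⟨a, by change a < typeLT H; rwa [hH]⟩
  refine ⟨fun a => if ha : a < ω ^ κ then ((e a ha : (ω ^ κ : Ordinal.{0}).ToType) : Ordinal.{0})
    else 0, ?_, ?_⟩
  · intro a b hab hb
    beta_reduce
    rw [dif_pos (hab.trans hb), dif_pos hb]
    have h1 : e a (hab.trans hb) < e b hb := by
      apply (enum_lt_enum (α := H) (r := (· < ·))).2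
      exact hab
    have h2 : (e a (hab.trans hb) : (ω ^ κ : Ordinal.{0}).ToType) < (e b hb) := h1
    exact_mod_cast (ToType.mk.symm.strictMono h2)
  · intro a ha
    beta_reduce
    rw [dif_pos ha]
    exact ⟨⟨_, (e a ha).2, rfl⟩, (ToType.toOrd _).2⟩

lemma countable_of_card {κ : Ordinal.{0}} (h : κ.card ≤ Cardinal.aleph0) : (Iio κ).Countable := by
  rw [← Cardinal.le_aleph0_iff_set_countable, Cardinal.mk_Iio_ordinal]
  exact Cardinal.lift_le_aleph0.2 h

/-- The negative theorem. -/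
theorem not_arrow3 {a g2 g3 : Ordinal.{0}} (hcard : a.card ≤ Cardinal.aleph0) (ha0 : 0 < a)
    (ha : a < ω ^ a) (h21 : g2 ≤ ω ^ a) (h32 : g3 ≤ g2) (h3 : 0 < g3) :
    ¬ Arrow3 (ω ^ (ω ^ (ω ^ a + g2 + g3))) := by
  intro hA
  set κ : Ordinal.{0} := ω ^ (ω ^ a + g2 + g3) with hκ
  have hoc : (ω ^ a : Ordinal.{0}).card ≤ Cardinal.aleph0 := by
    refine (card_opow_le _ _).trans ?_
    simp [hcard]
  have hκc : κ.card ≤ Cardinal.aleph0 := by
    rw [hκ]
    refine (card_opow_le _ _).trans ?_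
    have h2c : g2.card ≤ Cardinal.aleph0 := (card_le_card h21).trans hoc
    have h3c : g3.card ≤ Cardinal.aleph0 := (card_le_card h32).trans h2c
    simp only [card_omega0, max_le_iff, le_refl, true_and]
    rw [card_add, card_add]
    exact Cardinal.add_le_aleph0.2 ⟨Cardinal.add_le_aleph0.2 ⟨hoc, h2c⟩, h3c⟩
  have hc : (Iio κ).Countable := countable_of_card hκc
  rcases hA (blueG κ (ω ^ a) (ω ^ a + g2)) with ⟨H, hH, hH'⟩ | ⟨x, y, z, h1, h2, h3'⟩
  · set X : Set Ordinal.{0} := {x : Ordinal.{0} | ∃ u ∈ H, (u : Ordinal.{0}) = x} with hX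
    have hL := large_of_type H hH
    have hbig : ∀ F, (sysT κ F X).Big (ω ^ (ω ^ a + g2 + g3)) ([] : List ℕ) :=
      fun F => big_root hc F hL
    have hrt : ∀ F, ∀ c : List ℕ, (sysT κ F X).le [] c → (sysT κ F X).rk [] ≤ (sysT κ F X).rk c →
        c = [] := by
      intro F c _ hle
      rcases c with _ | ⟨n, c⟩
      · rfl
      · exfalso
        have h1 : MPb6.rk κ (n :: c) < κ := by
          refine (MPb6.rk_le _ c).trans_lt (fs_lt ?_ n)
          rw [hκ]; exact opow_ne _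
        exact absurd (show κ ≤ MPb6.rk κ (n :: c) from hle) (not_le.2 h1)
    obtain ⟨x, hx, y, hy, hx', hy', hb⟩ := pair_of_chains (κ := κ) (G1 := ω ^ a)
      (G2 := ω ^ a + g2) (X := X)
      (fun F => by
        obtain ⟨c, c0, c1, c2, c3⟩ := Sys.xFinal (S := sysT κ F X) (r := ([] : List ℕ)) ha0 ha
          h21 h32 h3 rfl (hrt F) (hbig F)
        exact ⟨c, c0, fun i hi => c1 i (by omega), c2,
          ⟨c3.s1, c3.s2, c3.s3, c3.s4, c3.s5, c3.s6, c3.s7, c3.s8, c3.s9, c3.s21, c3.s13,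
            c3.s89, c3.s97⟩⟩)
      (fun F => by
        obtain ⟨c, c0, c1, c2, c3⟩ := Sys.yFinal (S := sysT κ F X) (r := ([] : List ℕ)) ha0 ha
          h21 h32 h3 rfl (hrt F) (hbig F)
        exact ⟨c, c0, fun i hi => c1 i (by omega), c2,
          ⟨c3.t1, c3.t2, c3.t3, c3.t4, c3.t5, c3.t6, c3.t7, c3.t8, c3.t24, c3.t34, c3.t65,
            c3.t75⟩⟩)
    obtain ⟨u, hu, rfl⟩ := hx
    obtain ⟨v, hv, rfl⟩ := hy
    exact hH' u hu v hv (Or.inl hb)
  · exact blueG_no_triangle le_self_add x y z h1 h2 h3'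

end

end MPb6
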