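import Pool.Agent.Lib.MP_b6d339_lc.FinalNeg

/-!
# Negative partition relations: general assembly

Words with `k + 2` segments of the first player and `k + 1` segments of the second one (the first
player is last), finite gates `s 1, …, s k` of the first and `t 1, …, t (k - 1)` of the second
player, and an arbitrary pattern predicate on the gates.
-/

set_option linter.unusedSectionVars false

open Ordinal Set

namespace MPb6

noncomputable section

section Gen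

variable {α : Type*} [LinearOrder α]

/-- The run of a pair. -/
structure RunG (k : ℕ) (x y : Pl α) (c d : ℕ → ℕ) : Prop where
  c0 : c 0 = 0
  cl : c (k + 2) = x.len
  cmono : ∀ i ≤ k + 1, c i < c (i + 1)
  d0 : d 0 = 0
  dl : d (k + 1) = y.len
  dmono : ∀ i ≤ k, d i < d (i + 1)
  xy : ∀ i ≤ k, x.time (c (i + 1)) < y.code (d i + 1)
  yx : ∀ i, 1 ≤ i → i ≤ k + 1 → y.time (d i) < x.code (c i + 1)

/-- Blue pairs of the pattern `P`. -/
def BluePairG (k : ℕ) (P : (ℕ → α) → (ℕ → α) → Prop) (x y : Pl α) : Prop :=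
  ∃ c d : ℕ → ℕ, ∃ s t : ℕ → α, RunG k x y c d ∧
    (∀ i, 1 ≤ i → i ≤ k → IsGate x (c i) (c (i + 1)) (s i)) ∧
    (∀ i, 1 ≤ i → i < k → IsGate y (d i) (d (i + 1)) (t i)) ∧ P s t

variable {k : ℕ} {x y : Pl α} {c d : ℕ → ℕ}

lemma RunG.start_xy (h : RunG k x y c d) (i : ℕ) (hi : i ≤ k) :
    start x c i < start y d i := by
  refine lt_of_le_of_lt ?_ (h.xy i hi)
  exact x.code_le_time (by omega) (h.cmono i (by omega))

lemma RunG.start_yx (h : RunG k x y c d) (i : ℕ) (hi : i ≤ k) :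
    start y d i < start x c (i + 1) := by
  refine lt_of_le_of_lt ?_ (h.yx (i + 1) (by omega) (by omega))
  exact y.code_le_time (by omega) (h.dmono i hi)

lemma RunG.seg1 (h : RunG k x y c d) : Seg x (k + 1) c where
  c0 := h.c0
  cn := h.cl
  mono := h.cmono
  record := by
    intro i hi l hl1 hl2
    rcases Nat.eq_zero_or_pos i with h0 | h0
    · subst h0; rw [h.c0] at hl2; omega
    · have h1 := x.code_le_time hl1 hl2
      have h2 := h.xy (i - 1) (by omega)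
      rw [Nat.sub_add_cancel h0] at h2
      have h3 := h.start_yx (i - 1) (by omega)
      rw [Nat.sub_add_cancel h0] at h3
      unfold start at h3
      omega

lemma RunG.seg2 (h : RunG k x y c d) : Seg y k d where
  c0 := h.d0
  cn := h.dl
  mono := h.dmono
  record := by
    intro i hi l hl1 hl2
    rcases Nat.eq_zero_or_pos i with h0 | h0
    · subst h0; rw [h.d0] at hl2; omega
    · have h1 := y.code_le_time hl1 hl2
      have h2 := h.yx i h0 (by omega)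
      have h3 := h.start_xy i hi
      unfold start at h3
      omega

lemma RunG.time_xy (h : RunG k x y c d) {i j p l : ℕ} (hj : j ≤ k) (hij : i ≤ j)
    (hk : p ≤ c (i + 1)) (hl : d j < l) : x.time p < y.time l := by
  have h1 : c (i + 1) ≤ c (j + 1) := h.seg1.le (by omega) (by omega)
  calc x.time p ≤ x.time (c (j + 1)) := x.time_mono (hk.trans h1)
    _ < y.code (d j + 1) := h.xy j hj
    _ ≤ y.time l := y.code_le_time (by omega) hl

lemma RunG.time_yx (h : RunG k x y c d) {i j p l : ℕ} (hj : j ≤ k + 1) (hij : i < j)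
    (hk : p ≤ d (i + 1)) (hl : c j < l) : y.time p < x.time l := by
  have h1 : d (i + 1) ≤ d j := h.seg2.le (by omega) (by omega)
  calc y.time p ≤ y.time (d j) := y.time_mono (hk.trans h1)
    _ < x.code (c j + 1) := h.yx j (by omega) hj
    _ ≤ x.time l := x.code_le_time (by omega) hl

lemma RunG.time_xx (h : RunG k x y c d) {i j p l : ℕ} (hj : j ≤ k + 1) (hij : i < j)
    (hk : p ≤ c (i + 1)) (hl : c j < l) : x.time p < x.time l := by
  obtain ⟨m, rfl⟩ : ∃ m, j = m + 1 := ⟨j - 1, by omega⟩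
  have h1 := h.time_xy (i := i) (j := m) (p := p) (l := d (m + 1)) (by omega) (by omega) hk
    (h.dmono m (by omega))
  exact h1.trans (h.time_yx (i := m) (j := m + 1) hj (by omega) le_rfl hl)

lemma RunG.time_yy (h : RunG k x y c d) {i j p l : ℕ} (hj : j ≤ k) (hij : i < j)
    (hk : p ≤ d (i + 1)) (hl : d j < l) : y.time p < y.time l := by
  have h1 := h.time_yx (i := i) (j := j) (p := p) (l := c (j + 1)) (by omega) hij hk
    (h.cmono j (by omega))
  exact h1.trans (h.time_xy (i := j) (j := j) hj le_rfl le_rfl hl)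

lemma RunG.mono_time (h : RunG k x y c d) {f g : Bool} {p l : ℕ}
    (hk : 1 ≤ p ∧ p ≤ (if f then x else y).len) (hl : 1 ≤ l ∧ l ≤ (if g then x else y).len)
    (hlt : blkNo c d f p < blkNo c d g l) :
    (if f then x else y).time p < (if g then x else y).time l := by
  cases f <;> cases g <;> simp only [blkNo, if_true, Bool.false_eq_true, if_false] at *
  · obtain ⟨a1, a2, a3⟩ := h.seg2.sgm_spec hk.1 hk.2
    obtain ⟨b1, b2, b3⟩ := h.seg2.sgm_spec hl.1 hl.2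
    exact h.time_yy b1 (by omega) a3 b2
  · obtain ⟨a1, a2, a3⟩ := h.seg2.sgm_spec hk.1 hk.2
    obtain ⟨b1, b2, b3⟩ := h.seg1.sgm_spec hl.1 hl.2
    exact h.time_yx b1 (by omega) a3 b2
  · obtain ⟨a1, a2, a3⟩ := h.seg1.sgm_spec hk.1 hk.2
    obtain ⟨b1, b2, b3⟩ := h.seg2.sgm_spec hl.1 hl.2
    exact h.time_xy b1 (by omega) a3 b2
  · obtain ⟨a1, a2, a3⟩ := h.seg1.sgm_spec hk.1 hk.2
    obtain ⟨b1, b2, b3⟩ := h.seg1.sgm_spec hl.1 hl.2
    exact h.time_xx b1 (by omega) a3 b2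

lemma RunG.range_blk (h : RunG k x y c d) {f : Bool} {p : ℕ}
    (hk : 1 ≤ p ∧ p ≤ (if f then x else y).len) :
    1 ≤ blkNo c d f p ∧ blkNo c d f p ≤ 2 * k + 3 := by
  cases f <;> simp only [blkNo, if_true, Bool.false_eq_true, if_false] at *
  · obtain ⟨a1, a2, a3⟩ := h.seg2.sgm_spec hk.1 hk.2
    omega
  · obtain ⟨a1, a2, a3⟩ := h.seg1.sgm_spec hk.1 hk.2
    omega

lemma RunG.surj_blk (h : RunG k x y c d) {i : ℕ} (h1 : 1 ≤ i) (h2 : i ≤ 2 * k + 3) :
    ∃ f : Bool, ∃ p, (1 ≤ p ∧ p ≤ (if f then x else y).len) ∧ blkNo c d f p = i := by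
  rcases Nat.even_or_odd' i with ⟨m, rfl | rfl⟩
  · refine ⟨false, d m, ⟨?_, ?_⟩, ?_⟩
    · have := h.seg2.lt (i := 0) (j := m) (by omega) (by omega)
      simp only [h.d0] at this; omega
    · simp only [Bool.false_eq_true, if_false]
      rw [← h.dl]; exact h.seg2.le (by omega) le_rfl
    · simp only [blkNo, Bool.false_eq_true, if_false]
      have := h.seg2.sgm_eq (i := m - 1) (k := d m) (by omega)
        (h.seg2.lt (by omega) (by omega)) (by rw [Nat.sub_add_cancel (by omega)])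
      omega
  · refine ⟨true, c (m + 1), ⟨?_, ?_⟩, ?_⟩
    · have := h.seg1.lt (i := 0) (j := m + 1) (by omega) (by omega)
      simp only [h.c0] at this; omega
    · simp only [if_true]
      rw [← h.cl]; exact h.seg1.le (by omega) le_rfl
    · simp only [blkNo, if_true]
      have := h.seg1.sgm_eq (i := m) (k := c (m + 1)) (by omega) (h.cmono m (by omega)) le_rfl
      omega

/-- Block `i` (value `v i`) is hosted by block `j` (value `v' j`, infinite if `j` is one of the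
first two or last two blocks). -/
def HostG {β : Type*} [LE β] (k : ℕ) (v v' : ℕ → β) (i j : ℕ) : Prop :=
  3 ≤ j → j ≤ 2 * k + 1 → v i ≤ v' j

/-- The finite system of a triangle. -/
structure SchedG {E τ β : Type*} [LinearOrder τ] [LinearOrder β] (k : ℕ) (pl : E → Fin 3)
    (tm : E → τ) (a b c : E → ℕ) (vA vB vC : ℕ → β) : Prop where
  monoA : ∀ e e', pl e ≠ 2 → pl e' ≠ 2 → a e < a e' → tm e < tm e'
  monoB : ∀ e e', pl e ≠ 1 → pl e' ≠ 1 → b e < b e' → tm e < tm e'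
  monoC : ∀ e e', pl e ≠ 0 → pl e' ≠ 0 → c e < c e' → tm e < tm e'
  rangeA : ∀ e, pl e ≠ 2 → 1 ≤ a e ∧ a e ≤ 2 * k + 3
  rangeB : ∀ e, pl e ≠ 1 → 1 ≤ b e ∧ b e ≤ 2 * k + 3
  rangeC : ∀ e, pl e ≠ 0 → 1 ≤ c e ∧ c e ≤ 2 * k + 3
  par0 : ∀ e, pl e = 0 → a e % 2 = 1 ∧ b e % 2 = 1
  par1 : ∀ e, pl e = 1 → a e % 2 = 0 ∧ c e % 2 = 1
  par2 : ∀ e, pl e = 2 → b e % 2 = 0 ∧ c e % 2 = 0
  surjA : ∀ i, 1 ≤ i → i ≤ 2 * k + 3 → ∃ e, pl e ≠ 2 ∧ a e = i
  surjB : ∀ i, 1 ≤ i → i ≤ 2 * k + 3 → ∃ e, pl e ≠ 1 ∧ b e = i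
  surjC : ∀ i, 1 ≤ i → i ≤ 2 * k + 3 → ∃ e, pl e ≠ 0 ∧ c e = i
  hostA0 : ∀ i, 3 ≤ i → i ≤ 2 * k + 1 → i % 2 = 1 →
    ∃ e, pl e = 0 ∧ a e = i ∧ HostG k vA vB i (b e)
  hostB0 : ∀ i, 3 ≤ i → i ≤ 2 * k + 1 → i % 2 = 1 →
    ∃ e, pl e = 0 ∧ b e = i ∧ HostG k vB vA i (a e)
  hostA1 : ∀ i, 3 ≤ i → i ≤ 2 * k + 1 → i % 2 = 0 →
    ∃ e, pl e = 1 ∧ a e = i ∧ HostG k vA vC i (c e)
  hostC1 : ∀ i, 3 ≤ i → i ≤ 2 * k + 1 → i % 2 = 1 →
    ∃ e, pl e = 1 ∧ c e = i ∧ HostG k vC vA i (a e)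
  hostB2 : ∀ i, 3 ≤ i → i ≤ 2 * k + 1 → i % 2 = 0 →
    ∃ e, pl e = 2 ∧ b e = i ∧ HostG k vB vC i (c e)
  hostC2 : ∀ i, 3 ≤ i → i ≤ 2 * k + 1 → i % 2 = 0 →
    ∃ e, pl e = 2 ∧ c e = i ∧ HostG k vC vB i (b e)

/-- One hosting step. -/
lemma host_stepG {z : Pl α} {nA nB : ℕ} {cA cB : ℕ → ℕ}
    (hA : Seg z nA cA) (hB : Seg z nB cB) {gA gB : ℕ → α}
    (hgA : ∀ i, 1 ≤ i → i < nA → IsGate z (cA i) (cA (i + 1)) (gA i))
    (hgB : ∀ i, 1 ≤ i → i < nB → IsGate z (cB i) (cB (i + 1)) (gB i))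
    {vA vB : ℕ → α} (eA eB : ℕ)
    (hvA : ∀ i, 1 ≤ i → i < nA → vA (2 * i + eA) = gA i)
    (hvB : ∀ i, 1 ≤ i → 2 * i + eB ≤ 2 * k + 1 → i < nB ∧ vB (2 * i + eB) = gB i) (heB : eB ≤ 2)
    {i : ℕ} (h1 : 1 ≤ i) (h2 : i < nA) :
    ∃ p, 1 ≤ p ∧ p ≤ z.len ∧ sgm cA p = i ∧
      HostG k vA vB (2 * i + eA) (2 * sgm cB p + eB) := by
  obtain ⟨-, p, hk1, hk2, hk3⟩ := hgA i h1 h2
  have hk4 : p ≤ z.len := by
    rw [← hA.cn]; exact hk2.trans (hA.le (by omega) le_rfl)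
  refine ⟨p, by omega, hk4, hA.sgm_eq (by omega) hk1 hk2, ?_⟩
  intro h5 h6
  rcases Nat.eq_zero_or_pos (sgm cB p) with h0 | h0
  · omega
  obtain ⟨h7, h8⟩ := hvB _ h0 h6
  rw [hvA i h1 h2, h8, ← hk3]
  exact gate_bound hB hgB (by omega) hk4 h0 h7

/-- A blue triangle gives a solution of the finite system. -/
theorem triangle_schedG (z : Fin 3 → Pl α) {P : (ℕ → α) → (ℕ → α) → Prop}
    (h12 : BluePairG k P (z 0) (z 1)) (h13 : BluePairG k P (z 0) (z 2))
    (h23 : BluePairG k P (z 1) (z 2)) :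
    ∃ (pl : Ev z → Fin 3) (tm a b c : Ev z → ℕ) (sA tA sB tB sC tC : ℕ → α),
      P sA tA ∧ P sB tB ∧ P sC tC ∧ SchedG k pl tm a b c (bval sA tA) (bval sB tB) (bval sC tC) := by
  obtain ⟨cA, dA, sA, tA, rA, gsA, gtA, PA⟩ := h12
  obtain ⟨cB, dB, sB, tB, rB, gsB, gtB, PB⟩ := h13
  obtain ⟨cC, dC, sC, tC, rC, gsC, gtC, PC⟩ := h23
  refine ⟨fun e => e.1.1, fun e => (z e.1.1).time e.1.2,
    fun e => blkNo cA dA (decide (e.1.1 = 0)) e.1.2,
    fun e => blkNo cB dB (decide (e.1.1 = 0)) e.1.2,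
    fun e => blkNo cC dC (decide (e.1.1 = 1)) e.1.2,
    sA, tA, sB, tB, sC, tC, PA, PB, PC, ?_⟩
  have eqA : ∀ p : Fin 3, p ≠ 2 → (if decide (p = 0) then z 0 else z 1) = z p := by
    intro p hp; fin_cases p <;> simp at hp ⊢
  have eqB : ∀ p : Fin 3, p ≠ 1 → (if decide (p = 0) then z 0 else z 2) = z p := by
    intro p hp; fin_cases p <;> simp at hp ⊢
  have eqC : ∀ p : Fin 3, p ≠ 0 → (if decide (p = 1) then z 1 else z 2) = z p := by
    intro p hp; fin_cases p <;> simp at hp ⊢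
  constructor
  case monoA =>
    rintro ⟨⟨p, k⟩, hk⟩ ⟨⟨q, l⟩, hl⟩ hp hq hlt
    dsimp only at *
    have := rA.mono_time (f := decide (p = 0)) (g := decide (q = 0)) (p := k) (l := l)
      (by rw [eqA p hp]; exact hk) (by rw [eqA q hq]; exact hl) hlt
    rwa [eqA p hp, eqA q hq] at this
  case monoB =>
    rintro ⟨⟨p, k⟩, hk⟩ ⟨⟨q, l⟩, hl⟩ hp hq hlt
    dsimp only at *
    have := rB.mono_time (f := decide (p = 0)) (g := decide (q = 0)) (p := k) (l := l)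
      (by rw [eqB p hp]; exact hk) (by rw [eqB q hq]; exact hl) hlt
    rwa [eqB p hp, eqB q hq] at this
  case monoC =>
    rintro ⟨⟨p, k⟩, hk⟩ ⟨⟨q, l⟩, hl⟩ hp hq hlt
    dsimp only at *
    have := rC.mono_time (f := decide (p = 1)) (g := decide (q = 1)) (p := k) (l := l)
      (by rw [eqC p hp]; exact hk) (by rw [eqC q hq]; exact hl) hlt
    rwa [eqC p hp, eqC q hq] at this
  case rangeA =>
    rintro ⟨⟨p, k⟩, hk⟩ hp
    exact rA.range_blk (by rw [eqA p hp]; exact hk)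
  case rangeB =>
    rintro ⟨⟨p, k⟩, hk⟩ hp
    exact rB.range_blk (by rw [eqB p hp]; exact hk)
  case rangeC =>
    rintro ⟨⟨p, k⟩, hk⟩ hp
    exact rC.range_blk (by rw [eqC p hp]; exact hk)
  case par0 =>
    rintro ⟨⟨p, k⟩, hk⟩ hp
    dsimp only at *
    subst hp
    simp only [blkNo, decide_true, if_true]
    omega
  case par1 =>
    rintro ⟨⟨p, k⟩, hk⟩ hp
    dsimp only at *
    subst hp
    simp [blkNo]
  case par2 =>
    rintro ⟨⟨p, k⟩, hk⟩ hp
    dsimp only at *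
    subst hp
    simp [blkNo]
  case surjA =>
    intro i h1 h2
    obtain ⟨f, k, hk, he⟩ := rA.surj_blk h1 h2
    cases f
    · exact ⟨⟨(1, k), by simpa using hk⟩, by simp, by simpa using he⟩
    · exact ⟨⟨(0, k), by simpa using hk⟩, by simp, by simpa using he⟩
  case surjB =>
    intro i h1 h2
    obtain ⟨f, k, hk, he⟩ := rB.surj_blk h1 h2
    cases f
    · exact ⟨⟨(2, k), by simpa using hk⟩, by simp, by simpa using he⟩
    · exact ⟨⟨(0, k), by simpa using hk⟩, by simp, by simpa using he⟩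
  case surjC =>
    intro i h1 h2
    obtain ⟨f, k, hk, he⟩ := rC.surj_blk h1 h2
    cases f
    · exact ⟨⟨(2, k), by simpa using hk⟩, by simp, by simpa using he⟩
    · exact ⟨⟨(1, k), by simpa using hk⟩, by simp, by simpa using he⟩
  case hostA0 =>
    intro i h1 h2 h3
    obtain ⟨m, rfl⟩ : ∃ m, i = 2 * m + 1 := ⟨i / 2, by omega⟩
    obtain ⟨k, k1, k2, k3, k4⟩ := host_stepG (k := k) rA.seg1 rB.seg1
      (fun i a b => gsA i a (by omega)) (fun i a b => gsB i a (by omega)) 1 1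
      (fun i _ _ => bval_odd _ _ i) (fun i _ h => ⟨by omega, bval_odd _ _ i⟩) (by omega)
      (i := m) (by omega) (by omega)
    refine ⟨⟨(0, k), k1, k2⟩, rfl, ?_, ?_⟩
    · simp [blkNo, k3]
    · simpa [blkNo] using k4
  case hostB0 =>
    intro i h1 h2 h3
    obtain ⟨m, rfl⟩ : ∃ m, i = 2 * m + 1 := ⟨i / 2, by omega⟩
    obtain ⟨k, k1, k2, k3, k4⟩ := host_stepG (k := k) rB.seg1 rA.seg1
      (fun i a b => gsB i a (by omega)) (fun i a b => gsA i a (by omega)) 1 1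
      (fun i _ _ => bval_odd _ _ i) (fun i _ h => ⟨by omega, bval_odd _ _ i⟩) (by omega)
      (i := m) (by omega) (by omega)
    refine ⟨⟨(0, k), k1, k2⟩, rfl, ?_, ?_⟩
    · simp [blkNo, k3]
    · simpa [blkNo] using k4
  case hostA1 =>
    intro i h1 h2 h3
    obtain ⟨m, rfl⟩ : ∃ m, i = 2 * m + 2 := ⟨i / 2 - 1, by omega⟩
    obtain ⟨k, k1, k2, k3, k4⟩ := host_stepG (k := k) rA.seg2 rC.seg1
      (fun i a b => gtA i a (by omega)) (fun i a b => gsC i a (by omega)) 2 1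
      (fun i _ _ => bval_even _ _ i) (fun i _ h => ⟨by omega, bval_odd _ _ i⟩) (by omega)
      (i := m) (by omega) (by omega)
    refine ⟨⟨(1, k), k1, k2⟩, rfl, ?_, ?_⟩
    · simp [blkNo, k3]
    · simpa [blkNo] using k4
  case hostC1 =>
    intro i h1 h2 h3
    obtain ⟨m, rfl⟩ : ∃ m, i = 2 * m + 1 := ⟨i / 2, by omega⟩
    obtain ⟨k, k1, k2, k3, k4⟩ := host_stepG (k := k) rC.seg1 rA.seg2
      (fun i a b => gsC i a (by omega)) (fun i a b => gtA i a (by omega)) 1 2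
      (fun i _ _ => bval_odd _ _ i) (fun i _ h => ⟨by omega, bval_even _ _ i⟩) (by omega)
      (i := m) (by omega) (by omega)
    refine ⟨⟨(1, k), k1, k2⟩, rfl, ?_, ?_⟩
    · simp [blkNo, k3]
    · simpa [blkNo] using k4
  case hostB2 =>
    intro i h1 h2 h3
    obtain ⟨m, rfl⟩ : ∃ m, i = 2 * m + 2 := ⟨i / 2 - 1, by omega⟩
    obtain ⟨k, k1, k2, k3, k4⟩ := host_stepG (k := k) rB.seg2 rC.seg2
      (fun i a b => gtB i a (by omega)) (fun i a b => gtC i a (by omega)) 2 2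
      (fun i _ _ => bval_even _ _ i) (fun i _ h => ⟨by omega, bval_even _ _ i⟩) (by omega)
      (i := m) (by omega) (by omega)
    refine ⟨⟨(2, k), k1, k2⟩, rfl, ?_, ?_⟩
    · simp [blkNo, k3]
    · simpa [blkNo] using k4
  case hostC2 =>
    intro i h1 h2 h3
    obtain ⟨m, rfl⟩ : ∃ m, i = 2 * m + 2 := ⟨i / 2 - 1, by omega⟩
    obtain ⟨k, k1, k2, k3, k4⟩ := host_stepG (k := k) rC.seg2 rB.seg2
      (fun i a b => gtC i a (by omega)) (fun i a b => gtB i a (by omega)) 2 2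
      (fun i _ _ => bval_even _ _ i) (fun i _ h => ⟨by omega, bval_even _ _ i⟩) (by omega)
      (i := m) (by omega) (by omega)
    refine ⟨⟨(2, k), k1, k2⟩, rfl, ?_, ?_⟩
    · simp [blkNo, k3]
    · simpa [blkNo] using k4

end Gen

end

end MPb6
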