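import Pool.Agent.Lib.MP_b6d339_lc.Abs3

/-! Parameter computations. -/

namespace MPb6

open Ordinal

theorem par_of {a g2 g3 : Ordinal.{0}} (ha0 : 0 < a) (ha : a < ω ^ a) (h21 : g2 ≤ ω ^ a) :
    Par (ω ^ a) g2 g3 (ω ^ (a + 2)) := by
  have h1 : (1 : Ordinal.{0}) < ω := one_lt_omega0
  have hpr : IsPrincipal (· + ·) (ω ^ a : Ordinal.{0}) := isPrincipal_add_omega0_opow a
  have hωle : (ω : Ordinal.{0}) ≤ ω ^ a := left_le_opow ω ha0
  have h2lt : (2 : Ordinal.{0}) < ω ^ a := lt_of_lt_of_le (by exact_mod_cast natCast_lt_omega0 2) hωle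
  have ha2 : a + 2 < ω ^ a := hpr ha h2lt
  refine ⟨isPrincipal_add_omega0_opow _, ?_, ?_, ?_⟩
  · calc (ω : Ordinal.{0}) = ω ^ (1 : Ordinal.{0}) := (opow_one ω).symm
      _ ≤ ω ^ (a + 2) := by
        apply opow_le_opow_right omega0_pos
        exact (by norm_num : (1 : Ordinal.{0}) ≤ 2).trans le_add_self
  · have e1 : (ω : Ordinal.{0}) * ω ^ a < ω ^ (a + 2) := by
      rw [← opow_one_add]
      rw [opow_lt_opow_iff_right h1]
      have h3 : 1 + a ≤ a + 1 := by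
        rcases lt_or_ge a ω with h | h
        · obtain ⟨n, rfl⟩ := lt_omega0.1 h
          exact_mod_cast (by omega : 1 + n ≤ n + 1)
        · rw [one_add_of_omega0_le h]; exact le_self_add
      refine h3.trans_lt ?_
      gcongr
      norm_num
    refine isPrincipal_add_omega0_opow _ e1 ?_
    calc (3 : Ordinal.{0}) < ω := by exact_mod_cast natCast_lt_omega0 3
      _ = ω ^ (1 : Ordinal.{0}) := (opow_one ω).symm
      _ ≤ ω ^ (a + 2) := by
        apply opow_le_opow_right omega0_pos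
        exact (by norm_num : (1 : Ordinal.{0}) ≤ 2).trans le_add_self
  · have hA : (ω : Ordinal.{0}) ^ (a + 2) < ω ^ ω ^ a := by
      rwa [opow_lt_opow_iff_right h1]
    have hg : (ω : Ordinal.{0}) ^ a + 1 < ω ^ ω ^ a := by
      refine isPrincipal_add_omega0_opow _ ?_ ?_
      · rwa [opow_lt_opow_iff_right h1]
      · exact one_lt_opow.2 ⟨h1, opow_ne_zero a omega0_ne_zero⟩
    have hprod : (ω : Ordinal.{0}) ^ (a + 2) * (ω ^ a + 1) < ω ^ ω ^ a :=
      isPrincipal_mul_omega0_opow_opow a hA hg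
    have hpos : (0 : Ordinal.{0}) < ω ^ (a + 2) * (ω ^ a + 1) :=
      mul_pos (opow_pos _ omega0_pos) (by simp)
    calc (ω : Ordinal.{0}) ^ (a + 2) * (ω ^ a + 1) * ω ^ g2
        ≤ ω ^ (a + 2) * (ω ^ a + 1) * ω ^ ω ^ a := by
          gcongr
      _ = ω ^ ω ^ a := mul_omega0_opow_opow hpos hprod

theorem budget {g1 g2 g3 : Ordinal.{0}} (h3 : 0 < g3) (h32 : g3 ≤ g2) :
    Sys.KK g1 * ω ^ g3 + ω ^ (g1 + g2) + Sys.KK g1 * ω ^ g3 < ω ^ (g1 + g2 + g3) := by
  have h1 : (1 : Ordinal.{0}) < ω := one_lt_omega0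
  have hK : Sys.KK g1 * ω ^ g3 = ω ^ (g1 + g3) := by
    have e1 : Sys.KK g1 = ω ^ g1 * ((5 : ℕ) : Ordinal.{0}) := by
      unfold Sys.KK
      have e5 : ((5 : ℕ) : Ordinal.{0}) = 1 + 1 + 1 + 1 + 1 := by norm_num
      rw [e5]
      simp only [mul_add, mul_one]
    have hdvd : (ω : Ordinal.{0}) ∣ ω ^ g3 := by
      have := opow_dvd_opow (ω : Ordinal.{0}) (Order.one_le_iff_pos.2 h3)
      rwa [opow_one] at this
    rw [e1, mul_assoc, mul_omega0_dvd (by norm_num) (natCast_lt_omega0 5) hdvd, opow_add]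
  rw [hK]
  have hlt1 : (ω : Ordinal.{0}) ^ (g1 + g3) < ω ^ (g1 + g2 + g3) := by
    rw [opow_lt_opow_iff_right h1]
    calc g1 + g3 ≤ g1 + g2 := by gcongr
      _ < g1 + g2 + g3 := lt_add_of_pos_right _ h3
  have hlt2 : (ω : Ordinal.{0}) ^ (g1 + g2) < ω ^ (g1 + g2 + g3) := by
    rw [opow_lt_opow_iff_right h1]
    exact lt_add_of_pos_right _ h3
  exact isPrincipal_add_omega0_opow _ (isPrincipal_add_omega0_opow _ hlt1 hlt2) hlt1

end MPb6
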