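import Pool.Agent.Lib.MP_b6d339_lc.PairSys
import Pool.Agent.Lib.MP_b6d339_lc.Par

/-! Unavoidability for the second negative family (`g2` infinite and not an epsilon number). -/

namespace MPb6

open Ordinal

/-- gate pattern of the first player, second family -/
structure SPatt2 (G1 G2 : Ordinal.{0}) (s : ℕ → Ordinal.{0}) : Prop where
  s1 : s 1 ≤ G1
  s2 : s 2 ≤ G1
  s3 : s 3 ≤ G1
  s4 : G1 < s 4 ∧ s 4 ≤ G2
  s5 : G2 < s 5
  s6 : G2 < s 6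
  s7 : G1 < s 7 ∧ s 7 ≤ G2
  s8 : s 8 ≤ G1
  s9 : s 9 ≤ G1

/-- gate pattern of the second player, second family -/
structure TPatt2 (G1 G2 : Ordinal.{0}) (t : ℕ → Ordinal.{0}) : Prop where
  t1 : t 1 ≤ G1
  t2 : G1 < t 2
  t4 : t 4 ≤ G1
  t5 : t 5 ≤ G2
  t6 : t 6 ≤ G1
  t8 : G1 < t 8
  t23 : t 2 < t 3
  t35 : t 3 < t 5
  t75 : t 7 < t 5
  t87 : t 8 < t 7

/-- parameters of the second family -/
structure Par2 (g1 g2 g3 A K : Ordinal.{0}) : Prop where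
  g2pos : 0 < g2
  g21 : g2 ≤ g1
  pA : IsPrincipal (· + ·) A
  hK : K = ω ^ g1 + ω ^ g1
  th1 : K * (ω * g2 + 3 + 1) * ω ≤ A
  th2 : K * (ω + 1) * ω < A
  cost : A * (g2 + 1) * ω ^ g3 < ω ^ (g1 + g2 + g3)

namespace Sys

variable {S : Sys}

lemma two_mul_opow_le {g z : Ordinal.{0}} (hg : 0 < g) (hz : z ≤ g) : 2 * ω ^ z ≤ ω ^ g := by
  rcases eq_or_ne z 0 with rfl | h0
  · rw [opow_zero, mul_one]
    calc (2 : Ordinal.{0}) ≤ ω := (by exact_mod_cast (natCast_lt_omega0 2).le)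
      _ ≤ ω ^ g := left_le_opow ω hg
  · have : (2 : Ordinal.{0}) * ω ^ z = ω ^ z := by
      have hdvd : (ω : Ordinal.{0}) ∣ ω ^ z := by
        have := opow_dvd_opow (ω : Ordinal.{0}) (Order.one_le_iff_ne_zero.2 h0)
        rwa [opow_one] at this
      exact_mod_cast mul_omega0_dvd (by norm_num : (0 : Ordinal.{0}) < ((2 : ℕ) : Ordinal.{0}))
        (natCast_lt_omega0 2) hdvd
    rw [this]
    exact opow_le_opow_right omega0_pos hz

/-- the pattern `1 2 2 1 2 1 2 2` with peak at `t 5` -/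
structure Peak (g1 G2 : Ordinal.{0}) (d1 d2 d3 d4 d5 d6 d7 d8 d9 : S.N) : Prop where
  t1 : lv d1 d2 ≤ g1
  t2 : g1 < lv d2 d3
  t4 : lv d4 d5 ≤ g1
  t5 : lv d5 d6 ≤ G2
  t6 : lv d6 d7 ≤ g1
  t8 : g1 < lv d8 d9
  t23 : lv d2 d3 < lv d3 d4
  t35 : lv d3 d4 < lv d5 d6
  t75 : lv d7 d8 < lv d5 d6
  t87 : lv d8 d9 < lv d7 d8

theorem peak {g1 g2 g3 A K : Ordinal.{0}} (hP : Par2 g1 g2 g3 A K) {e : Ordinal.{0}} {v : S.N}
    (hne : S.NE (g1 + g2) e v) (h : S.Big (e + A * (g2 + 1)) v) :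
    ∃ d1 d2 d3 d4 d5 d6 d7 d8 d9 w : S.N, S.le v d1 ∧ S.sq d1 d2 ∧ S.sq d2 d3 ∧ S.sq d3 d4 ∧
      S.sq d4 d5 ∧ S.sq d5 d6 ∧ S.sq d6 d7 ∧ S.sq d7 d8 ∧ S.sq d8 d9 ∧ S.sq d9 w ∧
      S.Big e w ∧ Peak (S := S) g1 (g1 + g2) d1 d2 d3 d4 d5 d6 d7 d8 d9 := by
  have hgA : ω ^ g1 ≤ A := by
    calc ω ^ g1 ≤ K := by rw [hP.hK]; exact le_self_add
      _ = K * 1 := (mul_one K).symm
      _ ≤ K * (ω + 1) := by gcongr; exact le_add_self
      _ = K * (ω + 1) * 1 := (mul_one _).symm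
      _ ≤ K * (ω + 1) * ω := by gcongr; exact one_lt_omega0.le
      _ ≤ A := hP.th2.le
  obtain ⟨z0, v', e', hz0, hvv', hee', hne', hb', hex⟩ := minScaleRel hgA hne h
  have hApos : 0 < A := (opow_pos _ omega0_pos).trans_le hgA
  have hAle : A ≤ A * (z0 + 1) := by
    calc A = A * 1 := (mul_one A).symm
      _ ≤ A * (z0 + 1) := by gcongr; exact le_add_self
  have hKz : ω ^ g1 + 2 * ω ^ z0 ≤ K := by
    rw [hP.hK]
    gcongr
    exact two_mul_opow_le (hP.g2pos.trans_le hP.g21) (hz0.le.trans hP.g21)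
  set th1 : Ordinal.{0} := K * (ω * z0 + 3 + 1) with hth1
  set th2 : Ordinal.{0} := K * (ω + 1) with hth2
  have hth1A : th1 * ω ≤ A := by
    refine _root_.le_trans ?_ hP.th1
    rw [hth1]
    gcongr
  -- thin to a rich (g1+z0)-block
  have hb1 : S.Big (e' + (th2 * ω + A * (z0 + 1)) + th1 * ω ^ (1 : Ordinal.{0})) v' := by
    refine hb'.mono ?_
    rw [add_assoc, hP.pA.add_eq_right_of_le hP.th2 hAle, opow_one]
    gcongr
  obtain ⟨v1, e1, hv'v1, hE1, -, hne1, hb1'⟩ := thin (z := g1 + z0) (d := 1) (e' := e') hne'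
    le_self_add hb1
  obtain ⟨d1, d2, d3, d4, d5, w, hvd1, h12, h23, h34, h45, h5w, hbw, t1, t2, t23, t4⟩ :=
    pairAscent hKz hne1 hb1'
  have hv'w : S.le v' w := S.le_trans hv'v1 (S.le_trans hvd1 (S.le_trans (S.sq_le h12)
    (S.le_trans (S.sq_le h23) (S.le_trans (S.sq_le h34) (S.le_trans (S.sq_le h45)
      (S.sq_le h5w))))))
  -- cheap exit
  obtain ⟨w', hww', hbw', hblk⟩ := hex w (S.le_trans hvv' hv'w) (e' + th2 * ω)
    (hee'.trans le_self_add) (hbw.mono (by rw [add_assoc]; exact hE1))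
  have hv'w' : S.le v' w' := S.le_trans hv'w hww'
  -- thin again
  obtain ⟨v2, e2, hw'v2, hE2, -, hne2, hb2⟩ := thin (z := g1 + z0) (d := 1) (e' := e') (E := e')
    (th := th2) (hne'.down hv'w' (hbw'.mono le_self_add)) le_rfl
    (by rw [opow_one]; exact hbw')
  obtain ⟨d6, d7, d8, d9, w'', hvd6, h67, h78, h89, h9w, hbw'', t6, t8, t87⟩ :=
    pairDescent hKz hne2 hb2
  have h5w' : S.sq d5 w' := S.sq_trans h5w hww'
  have h56 : S.sq d5 d6 := S.sq_trans h5w' (S.le_trans hw'v2 hvd6)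
  have b8 : S.Big e2 d8 := hbw''.up (S.sq_le (sq_sq h89 h9w))
  have b4 : S.Big e1 d4 := hbw.up (S.sq_le (sq_sq h45 h5w))
  have i3 : lv d3 d4 ≤ g1 + z0 := lv_le_of_NE hne1 (S.le_trans hvd1 (S.sq_le (sq_sq h12 h23)))
    (S.sq_le h34) b4
  have i7 : lv d7 d8 ≤ g1 + z0 := lv_le_of_NE hne2 (S.le_trans hvd6 (S.sq_le h67))
    (S.sq_le h78) b8
  have i5 : g1 + z0 < lv d5 d6 := by
    apply lt_lv_of_blk
    exact ((blk_anti (S.le_trans hw'v2 hvd6)).trans_lt hblk).trans_le (blk_anti (S.sq_le h5w))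
  have hvd5 : S.le v d5 := S.le_trans hvv' (S.le_trans hv'v1 (S.le_trans hvd1 (S.le_trans
    (S.sq_le (sq_sq h12 h23)) (S.sq_le (sq_sq h34 h45)))))
  refine ⟨d1, d2, d3, d4, d5, d6, d7, d8, d9, w'', S.le_trans hvv' (S.le_trans hv'v1 hvd1),
    h12, h23, h34, h45, h56, h67, h78, h89, h9w, hbw''.mono (hee'.trans hE2), ?_⟩
  exact
  { t1 := t1
    t2 := t2
    t4 := t4
    t5 := lv_le_of_NE hne hvd5 (S.sq_le h56)
      ((b8.mono (hee'.trans hE2)).up (S.sq_le (sq_sq h67 h78)))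
    t6 := t6
    t8 := t8
    t23 := t23
    t35 := i3.trans_lt i5
    t75 := i7.trans_lt i5
    t87 := t87 }

theorem yTheorem2 {g1 g2 g3 A K : Ordinal.{0}} (hP : Par2 g1 g2 g3 A K) {v : S.N}
    (hv : S.rk v < ω ^ (g1 + g2 + g3)) (h : S.Big (A * (g2 + 1) * ω ^ g3) v) :
    ∃ d1 d2 d3 d4 d5 d6 d7 d8 d9 w : S.N, S.le v d1 ∧ S.sq d1 d2 ∧ S.sq d2 d3 ∧ S.sq d3 d4 ∧
      S.sq d4 d5 ∧ S.sq d5 d6 ∧ S.sq d6 d7 ∧ S.sq d7 d8 ∧ S.sq d8 d9 ∧ S.sq d9 w ∧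
      S.alive w ∧ Peak (S := S) g1 (g1 + g2) d1 d2 d3 d4 d5 d6 d7 d8 d9 := by
  obtain ⟨v1, e1, hvv1, -, -, hne1, hb1⟩ := thin (z := g1 + g2) (d := g3) (e' := 0) (E := 0)
    (th := A * (g2 + 1)) (ne_top hv) le_rfl (by rwa [zero_add])
  obtain ⟨d1, d2, d3, d4, d5, d6, d7, d8, d9, w, h0, h1, h2, h3, h4, h5, h6, h7, h8, h9, hw, hp⟩ :=
    peak hP hne1 hb1
  exact ⟨d1, d2, d3, d4, d5, d6, d7, d8, d9, w, S.le_trans hvv1 h0, h1, h2, h3, h4, h5, h6, h7, h8,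
    h9, hw.alive, hp⟩

/-- the pattern of the first player -/
structure XPat2 (g1 G2 : Ordinal.{0}) (c1 c2 c3 c4 c5 c6 c7 c8 c9 c10 : S.N) : Prop where
  s1 : lv c1 c2 ≤ g1
  s2 : lv c2 c3 ≤ g1
  s3 : lv c3 c4 ≤ g1
  s4 : g1 < lv c4 c5 ∧ lv c4 c5 ≤ G2
  s5 : G2 < lv c5 c6
  s6 : G2 < lv c6 c7
  s7 : g1 < lv c7 c8 ∧ lv c7 c8 ≤ G2
  s8 : lv c8 c9 ≤ g1
  s9 : lv c9 c10 ≤ g1

theorem xTheorem2 {g1 g2 g3 : Ordinal.{0}} (h2 : 0 < g2) (h21 : g2 ≤ g1) {v : S.N}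
    (hv : S.rk v < ω ^ (g1 + g2 + g3))
    (h : S.Big (KK g1 * ω ^ g3 + ω ^ (g1 + g2) + 1 + ω ^ (g1 + g2) + KK g1 * ω ^ g3) v) :
    ∃ c1 c2 c3 c4 c5 c6 c7 c8 c9 c10 x : S.N, S.le v c1 ∧ S.sq c1 c2 ∧ S.sq c2 c3 ∧ S.sq c3 c4 ∧
      S.sq c4 c5 ∧ S.sq c5 c6 ∧ S.sq c6 c7 ∧ S.sq c7 c8 ∧ S.sq c8 c9 ∧ S.sq c9 c10 ∧ S.sq c10 x ∧
      S.alive x ∧ XPat2 (S := S) g1 (g1 + g2) c1 c2 c3 c4 c5 c6 c7 c8 c9 c10 := by
  set P : Ordinal.{0} := ω ^ g1 with hPdef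
  have h1P : 1 ≤ P := one_le_opow g1
  have h4P : 4 * ω ^ g2 ≤ P := by
    have : (4 : Ordinal.{0}) * ω ^ g2 = ω ^ g2 := by
      have hdvd : (ω : Ordinal.{0}) ∣ ω ^ g2 := by
        have := opow_dvd_opow (ω : Ordinal.{0}) (Order.one_le_iff_pos.2 h2)
        rwa [opow_one] at this
      exact_mod_cast mul_omega0_dvd (by norm_num : (0 : Ordinal.{0}) < ((4 : ℕ) : Ordinal.{0}))
        (natCast_lt_omega0 4) hdvd
    rw [this]
    exact opow_le_opow_right omega0_pos h21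
  have h3P : 3 * ω ^ g2 ≤ P := by
    refine _root_.le_trans ?_ h4P
    gcongr
    norm_num
  -- first rich (g1+g2)-block
  obtain ⟨v1, e1, hvv1, hE1, -, hne1, hb1⟩ := thin (e' := 0) (ne_top hv) zero_le h
  -- first rich g1-block
  have hb1' : S.Big (e1 + 1 + P + 4 * ω ^ g2) v1 := by
    refine hb1.mono ?_
    rw [add_assoc, add_assoc]
    refine add_le_add_right ?_ e1
    calc 1 + (P + 4 * ω ^ g2) ≤ P + (P + P) := by gcongr
      _ ≤ KK g1 := by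
        unfold KK
        rw [← hPdef, ← add_assoc]
        exact le_self_add.trans le_self_add
  obtain ⟨v2, e2, hv12, hE2, -, hne2, hb2⟩ := thin (z := g1) (d := g2) (e' := e1) hne1
    (by rw [add_assoc]; exact le_self_add) hb1'
  have e4 : e2 + 4 = e2 + 1 + 1 + 1 + 1 := by
    simp only [add_assoc]
    congr 1
    norm_num
  rw [e4] at hb2
  obtain ⟨c1, hvc1, hc1'⟩ := big_iff.1 hb2
  obtain ⟨c2, h12, hc2'⟩ := hc1'.next'
  obtain ⟨c3, h23, hc3'⟩ := hc2'.next'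
  obtain ⟨c4, h34, hc4'⟩ := hc3'.next'
  obtain ⟨w3, hw3, hbw3⟩ := hc4'.next
  -- exit from the g1-block
  obtain ⟨w4, hw4, hbw4, hblk4⟩ := exit (a := e1 + 1) (z := g1) (hbw3.mono hE2)
  obtain ⟨c5, hc5, hc5'⟩ := big_iff.1 hbw4
  have h45 : S.sq c4 c5 := S.sq_trans hw3 (S.le_trans hw4 hc5)
  obtain ⟨w5, hw5, hbw5⟩ := hc5'.next
  -- exit from the (g1+g2)-block
  obtain ⟨u, hu, hbu, hblku⟩ := exit (a := KK g1 * ω ^ g3 + ω ^ (g1 + g2) + 1) (z := g1 + g2)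
    (hbw5.mono hE1)
  obtain ⟨c6, hc6, hc6'⟩ := big_iff.1 hbu
  have h56 : S.sq c5 c6 := S.sq_trans hw5 (S.le_trans hu hc6)
  obtain ⟨w6, hw6, hbw6⟩ := hc6'.next
  obtain ⟨u', hu', hbu', hblku'⟩ := exit (a := KK g1 * ω ^ g3) (z := g1 + g2) hbw6
  have hvc5 : S.le v c5 := S.le_trans hvv1 (S.le_trans hv12 (S.le_trans hvc1
    (S.le_trans (S.sq_le (sq_sq h12 h23)) (S.sq_le (sq_sq h34 h45)))))
  have hvu : S.le v u' := S.le_trans hvc5 (S.le_trans (S.sq_le h56) (S.le_trans (S.sq_le hw6) hu'))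
  have hu'' : S.rk u' < ω ^ (g1 + g2 + g3) := (S.rk_anti hvu).trans_lt hv
  -- second rich (g1+g2)-block
  obtain ⟨v1', e1', hvv1', -, -, hne1', hb1'⟩ := thin (z := g1 + g2) (d := g3) (e' := 0) (E := 0)
    (th := KK g1) (ne_top hu'') le_rfl (by rwa [zero_add])
  have hb7 : S.Big (e1' + (3 * ω ^ g2 + P) + 1) v1' := by
    refine hb1'.mono ?_
    rw [add_assoc]
    refine add_le_add_right ?_ e1'
    calc 3 * ω ^ g2 + P + 1 ≤ P + P + P := by gcongr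
      _ ≤ KK g1 := by
        unfold KK
        rw [← hPdef]
        exact le_self_add.trans le_self_add
  obtain ⟨c7, hc7, hc7'⟩ := big_iff.1 hb7
  have h67 : S.sq c6 c7 := S.sq_trans hw6 (S.le_trans hu' (S.le_trans hvv1' hc7))
  obtain ⟨w7, hw7, hbw7⟩ := hc7'.next
  obtain ⟨w8, hw8, hbw8, hblk8⟩ := exit (a := e1' + 3 * ω ^ g2) (z := g1)
    (hbw7.mono (by rw [add_assoc]))
  have hv1w8 : S.le v1' w8 := S.le_trans hc7 (S.le_trans (S.sq_le hw7) hw8)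
  obtain ⟨v2', e2', hwv2', hE2', -, hne2', hb2'⟩ := thin (z := g1) (d := g2) (e' := e1')
    (hne1'.down hv1w8 (hbw8.mono le_self_add)) le_rfl hbw8
  have e3 : e2' + 3 = e2' + 1 + 1 + 1 := by
    simp only [add_assoc]
    congr 1
    norm_num
  rw [e3] at hb2'
  obtain ⟨c8, hc8, hc8'⟩ := big_iff.1 hb2'
  obtain ⟨c9, h89, hc9'⟩ := hc8'.next'
  obtain ⟨c10, h910, hc10'⟩ := hc9'.next'
  obtain ⟨x, h10x, hbx⟩ := hc10'.next
  have h78 : S.sq c7 c8 := S.sq_trans hw7 (S.le_trans hw8 (S.le_trans hwv2' hc8))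
  have hbc4 : S.Big e2 c4 := hbw3.up (S.sq_le hw3)
  have hbc3 : S.Big e2 c3 := hbc4.up (S.sq_le h34)
  have hbc2 : S.Big e2 c2 := hbc3.up (S.sq_le h23)
  have hle2 : S.le v2 c2 := S.le_trans hvc1 (S.sq_le h12)
  have hle3 : S.le v2 c3 := S.le_trans hle2 (S.sq_le h23)
  have hbc10 : S.Big e2' c10 := hbx.up (S.sq_le h10x)
  have hbc9 : S.Big e2' c9 := hbc10.up (S.sq_le h910)
  have hbc8 : S.Big e2' c8 := hbc9.up (S.sq_le h89)
  refine ⟨c1, c2, c3, c4, c5, c6, c7, c8, c9, c10, x, S.le_trans hvv1 (S.le_trans hv12 hvc1),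
    h12, h23, h34, h45, h56, h67, h78, h89, h910, h10x, hbx.alive, ?_⟩
  exact
  { s1 := lv_le_of_NE hne2 hvc1 (S.sq_le h12) hbc2
    s2 := lv_le_of_NE hne2 hle2 (S.sq_le h23) hbc3
    s3 := lv_le_of_NE hne2 hle3 (S.sq_le h34) hbc4
    s4 := by
      constructor
      · apply lt_lv_of_blk
        exact ((blk_anti hc5).trans_lt hblk4).trans_le (blk_anti (S.sq_le hw3))
      · exact lv_le_of_NE hne1 (S.le_trans hv12 (S.le_trans hle3 (S.sq_le h34))) (S.sq_le h45)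
          (hc5'.big.mono le_self_add)
    s5 := by
      apply lt_lv_of_blk
      exact ((blk_anti hc6).trans_lt hblku).trans_le (blk_anti (S.sq_le hw5))
    s6 := by
      apply lt_lv_of_blk
      exact ((blk_anti (S.le_trans hvv1' hc7)).trans_lt hblku').trans_le (blk_anti (S.sq_le hw6))
    s7 := by
      constructor
      · apply lt_lv_of_blk
        exact ((blk_anti (S.le_trans hwv2' hc8)).trans_lt hblk8).trans_le (blk_anti (S.sq_le hw7))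
      · exact lv_le_of_NE hne1' hc7 (S.sq_le h78) (hbc8.mono hE2')
    s8 := lv_le_of_NE hne2' hc8 (S.sq_le h89) hbc9
    s9 := lv_le_of_NE hne2' (S.le_trans hc8 (S.sq_le h89)) (S.sq_le h910) hbc10 }

theorem xFinal2 {g1 g2 g3 : Ordinal.{0}} (h2 : 0 < g2) (h21 : g2 ≤ g1) (h32 : g3 ≤ g2) (h3 : 0 < g3)
    {r : S.N} (hr : S.rk r = ω ^ (g1 + g2 + g3))
    (hroot : ∀ c, S.le r c → S.rk r ≤ S.rk c → c = r) (h : S.Big (ω ^ (g1 + g2 + g3)) r) :
    ∃ c : ℕ → S.N, c 0 = r ∧ (∀ i < 10, S.sq (c i) (c (i + 1))) ∧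
      (∃ w, S.sq (c 10) w ∧ S.alive w) ∧
      SPatt2 g1 (g1 + g2) (fun i => Lv (S.rk (c i)) (S.rk (c (i + 1)))) := by
  obtain ⟨c, hc, hc'⟩ := big_iff.1 h
  have hcr : c = r := by
    apply hroot c hc
    rw [hr]
    exact hc'.big.le_rk
  subst hcr
  have hbud : KK g1 * ω ^ g3 + ω ^ (g1 + g2) + 1 + ω ^ (g1 + g2) + KK g1 * ω ^ g3 <
      ω ^ (g1 + g2 + g3) := by
    have hb := budget (g1 := g1) h3 h32
    have hpr := isPrincipal_add_omega0_opow (g1 + g2 + g3)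
    have hl1 : KK g1 * ω ^ g3 < ω ^ (g1 + g2 + g3) := lt_of_le_of_lt le_add_self hb
    have hl2 : ω ^ (g1 + g2) < ω ^ (g1 + g2 + g3) := by
      rw [opow_lt_opow_iff_right one_lt_omega0]
      exact lt_add_of_pos_right _ h3
    have hl3 : (1 : Ordinal.{0}) < ω ^ (g1 + g2 + g3) := lt_of_le_of_lt (one_le_opow _) hl2
    exact hpr (hpr (hpr (hpr hl1 hl2) hl3) hl2) hl1
  obtain ⟨w, hw, hbw⟩ := hc'.2 _ hbud
  obtain ⟨c1, c2, c3, c4, c5, c6, c7, c8, c9, c10, x, hwc, h12, h23, h34, h45, h56, h67, h78, h89,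
    h910, h10x, hx, hpat⟩ := xTheorem2 h2 h21 (by rw [← hr]; exact S.sq_lt hw) hbw
  have h01 : S.sq c c1 := S.sq_trans hw hwc
  refine ⟨fun i => [c, c1, c2, c3, c4, c5, c6, c7, c8, c9, c10].getD i c, rfl, ?_,
    ⟨x, h10x, hx⟩, ?_⟩
  · intro i hi
    interval_cases i <;> assumption
  · exact
    { s1 := hpat.s1, s2 := hpat.s2, s3 := hpat.s3, s4 := hpat.s4, s5 := hpat.s5, s6 := hpat.s6
      s7 := hpat.s7, s8 := hpat.s8, s9 := hpat.s9 }

theorem yFinal2 {g1 g2 g3 A K : Ordinal.{0}} (hP : Par2 g1 g2 g3 A K)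
    {r : S.N} (hr : S.rk r = ω ^ (g1 + g2 + g3))
    (hroot : ∀ c, S.le r c → S.rk r ≤ S.rk c → c = r) (h : S.Big (ω ^ (g1 + g2 + g3)) r) :
    ∃ d : ℕ → S.N, d 0 = r ∧ (∀ i < 9, S.sq (d i) (d (i + 1))) ∧
      (∃ w, S.sq (d 9) w ∧ S.alive w) ∧
      TPatt2 g1 (g1 + g2) (fun i => Lv (S.rk (d i)) (S.rk (d (i + 1)))) := by
  obtain ⟨c, hc, hc'⟩ := big_iff.1 h
  have hcr : c = r := by
    apply hroot c hc
    rw [hr]
    exact hc'.big.le_rk
  subst hcr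
  obtain ⟨w, hw, hbw⟩ := hc'.2 _ hP.cost
  obtain ⟨d1, d2, d3, d4, d5, d6, d7, d8, d9, y, hwd, h12, h23, h34, h45, h56, h67, h78, h89,
    h9y, hy, hpat⟩ := yTheorem2 hP (by rw [← hr]; exact S.sq_lt hw) hbw
  have h01 : S.sq c d1 := S.sq_trans hw hwd
  refine ⟨fun i => [c, d1, d2, d3, d4, d5, d6, d7, d8, d9].getD i c, rfl, ?_, ⟨y, h9y, hy⟩, ?_⟩
  · intro i hi
    interval_cases i <;> assumption
  · exact
    { t1 := hpat.t1, t2 := hpat.t2, t4 := hpat.t4, t5 := hpat.t5, t6 := hpat.t6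
      t8 := hpat.t8, t23 := hpat.t23, t35 := hpat.t35, t75 := hpat.t75, t87 := hpat.t87 }

end Sys

/-- parameter computations -/
theorem par2_of {a g1 g3 : Ordinal.{0}} (ha0 : 0 < a) (ha : a < ω ^ a) (h21 : ω ^ a ≤ g1)
    (h3 : 0 < g3) (h32 : g3 ≤ ω ^ a) :
    Par2 g1 (ω ^ a) g3 (ω ^ (g1 + (a + 4))) (ω ^ g1 + ω ^ g1) := by
  have h1 : (1 : Ordinal.{0}) < ω := one_lt_omega0
  have hpr : IsPrincipal (· + ·) (ω ^ a : Ordinal.{0}) := isPrincipal_add_omega0_opow a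
  have hωle : (ω : Ordinal.{0}) ≤ ω ^ a := left_le_opow ω ha0
  have hnlt : ∀ n : ℕ, (n : Ordinal.{0}) < ω ^ a := fun n => (natCast_lt_omega0 n).trans_le hωle
  have h1a : 1 + a ≤ a + 1 := by
    rcases lt_or_ge a ω with h | h
    · obtain ⟨n, rfl⟩ := lt_omega0.1 h
      exact_mod_cast (by omega : 1 + n ≤ n + 1)
    · rw [one_add_of_omega0_le h]; exact le_self_add
  have h2m : (2 : Ordinal.{0}) * ω = ω := by
    exact_mod_cast natCast_mul_omega0 (by norm_num : 0 < 2)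
  -- bound on the multiplier
  have hmul : ω * ω ^ a + 3 + 1 ≤ ω ^ (a + 2) := by
    have e1 : (ω : Ordinal.{0}) * ω ^ a ≤ ω ^ (a + 1) := by
      rw [← opow_one_add]
      exact opow_le_opow_right omega0_pos h1a
    have hpr2 := isPrincipal_add_omega0_opow (a + 2)
    have l1 : ω ^ (a + 1) < ω ^ (a + 2) := by
      rw [opow_lt_opow_iff_right h1]; gcongr; norm_num
    have hω2 : (ω : Ordinal.{0}) ≤ ω ^ (a + 2) := by
      exact left_le_opow ω (lt_of_lt_of_le (by norm_num) le_add_self)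
    have l3 : (3 : Ordinal.{0}) < ω ^ (a + 2) := lt_of_lt_of_le (by exact_mod_cast natCast_lt_omega0 3) hω2
    have l4 : (1 : Ordinal.{0}) < ω ^ (a + 2) := lt_of_lt_of_le h1 hω2
    exact (hpr2 (hpr2 (e1.trans_lt l1) l3) l4).le
  have hKω : ∀ x : Ordinal.{0}, (ω ^ g1 + ω ^ g1) * (x * ω) = ω ^ g1 * (2 * (x * ω)) := by
    intro x
    have : (ω ^ g1 + ω ^ g1 : Ordinal.{0}) = ω ^ g1 * 2 := by
      rw [← one_add_one_eq_two, mul_add, mul_one]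
    rw [this, mul_assoc]
  have h2x : ∀ x : Ordinal.{0}, 2 * (ω ^ x * ω) = ω ^ x * ω := by
    intro x
    rw [← opow_add_one]
    have hdvd : (ω : Ordinal.{0}) ∣ ω ^ (x + 1) := by
      have := opow_dvd_opow (ω : Ordinal.{0}) (le_add_self : (1 : Ordinal.{0}) ≤ x + 1)
      rwa [opow_one] at this
    exact_mod_cast mul_omega0_dvd (by norm_num : (0 : Ordinal.{0}) < ((2 : ℕ) : Ordinal.{0}))
      (natCast_lt_omega0 2) hdvd
  refine ⟨opow_pos _ omega0_pos, h21, isPrincipal_add_omega0_opow _, rfl, ?_, ?_, ?_⟩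
  · calc (ω ^ g1 + ω ^ g1) * (ω * ω ^ a + 3 + 1) * ω ≤ (ω ^ g1 + ω ^ g1) * ω ^ (a + 2) * ω := by
          gcongr
      _ = ω ^ g1 * (ω ^ (a + 2) * ω) := by rw [mul_assoc, hKω, h2x]
      _ = ω ^ (g1 + (a + 3)) := by
          rw [← opow_add_one, ← opow_add]
          congr 2
          rw [add_assoc]
          norm_num
      _ ≤ ω ^ (g1 + (a + 4)) := by
          apply opow_le_opow_right omega0_pos
          gcongr
          norm_num
  · have l2 : (ω : Ordinal.{0}) + 1 ≤ ω ^ (2 : Ordinal.{0}) := by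
      have e2 : (ω : Ordinal.{0}) ^ (2 : Ordinal.{0}) = ω * ω := by
        rw [← one_add_one_eq_two, opow_add, opow_one]
      rw [e2]
      have h3 : (ω : Ordinal.{0}) + ω ≤ ω * ω := by
        have : (ω : Ordinal.{0}) + ω = ω * 2 := by rw [← one_add_one_eq_two, mul_add, mul_one]
        rw [this]; gcongr; exact_mod_cast (natCast_lt_omega0 2).le
      exact (by gcongr : (ω : Ordinal.{0}) + 1 ≤ ω + ω).trans h3
    calc (ω ^ g1 + ω ^ g1) * (ω + 1) * ω ≤ (ω ^ g1 + ω ^ g1) * ω ^ (2 : Ordinal.{0}) * ω := by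
          gcongr
      _ = ω ^ g1 * (ω ^ (2 : Ordinal.{0}) * ω) := by rw [mul_assoc, hKω, h2x]
      _ = ω ^ (g1 + (2 + 1)) := by
          rw [← opow_add_one, ← opow_add]
      _ < ω ^ (g1 + (a + 4)) := by
          rw [opow_lt_opow_iff_right h1]
          gcongr
          exact lt_of_lt_of_le (by norm_num) le_add_self
  · -- cost
    have ha5 : a + 4 + (a + 1) < ω ^ a := by
      refine hpr (hpr ha ?_) (hpr ha ?_)
      · exact_mod_cast hnlt 4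
      · exact_mod_cast hnlt 1
    have e1 : (ω : Ordinal.{0}) ^ a + 1 ≤ ω ^ (a + 1) := by
      rw [opow_add_one]
      calc (ω : Ordinal.{0}) ^ a + 1 ≤ ω ^ a + ω ^ a := by gcongr; exact Sys.one_le_opow a
        _ = ω ^ a * 2 := by rw [← one_add_one_eq_two, mul_add, mul_one]
        _ ≤ ω ^ a * ω := by gcongr; exact_mod_cast (natCast_lt_omega0 2).le
    calc ω ^ (g1 + (a + 4)) * (ω ^ a + 1) * ω ^ g3 ≤ ω ^ (g1 + (a + 4)) * ω ^ (a + 1) * ω ^ g3 := by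
          gcongr
      _ = ω ^ (g1 + (a + 4 + (a + 1) + g3)) := by
          rw [← opow_add, ← opow_add]
          congr 1
          simp only [add_assoc]
      _ < ω ^ (g1 + ω ^ a + g3) := by
          rw [opow_lt_opow_iff_right h1, add_assoc g1]
          gcongr
          rcases h32.lt_or_eq with h | h
          · exact (hpr ha5 h).trans_le le_self_add
          · subst h
            rw [add_absorp ha5 le_rfl]
            exact lt_add_of_pos_right _ (opow_pos _ omega0_pos)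

end MPb6
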