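import Pool.Agent.Lib.MP_b6d339_lc.N4Pat
import Pool.Agent.Lib.MP_b6d339_lc.Par

/-! Unavoidability for the third negative family (`g3` infinite and not an epsilon number). -/

namespace MPb6

open Ordinal

lemma nat_mul_opow4 {x : Ordinal.{0}} (hx : 0 < x) {n : ℕ} (hn : 0 < n) :
    (n : Ordinal.{0}) * ω ^ x = ω ^ x := by
  have hdvd : (ω : Ordinal.{0}) ∣ ω ^ x := by
    have := opow_dvd_opow (ω : Ordinal.{0}) (Order.one_le_iff_pos.2 hx)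
    rwa [opow_one] at this
  exact mul_omega0_dvd (by exact_mod_cast hn) (natCast_lt_omega0 n) hdvd

namespace Sys

variable {S : Sys}

/-- parameters of the third family -/
structure Par4 (g1 g2 g3 A1 A2 : Ordinal.{0}) : Prop where
  g2pos : 0 < g2
  g21 : g2 ≤ g1
  hn : ∀ z < g3, 1 + (z + 1) ≤ g2
  pA1 : IsPrincipal (· + ·) A1
  pA2 : IsPrincipal (· + ·) A2
  hR : (ω ^ (g1 + g2) + 1) * ω < A1
  h12 : A1 * (g3 + 1) * ω < A2
  cost : A2 * (g3 + 1) < ω ^ (g1 + g2 + g3)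

/-- levels of the block `2 1 1 1 1 1` -/
structure Blk4 (S : Sys) (g1 G2 E : Ordinal.{0}) (v b0 b1 b2 b3 b4 b5 b6 w : S.N) : Prop where
  le0 : S.le v b0
  s01 : S.sq b0 b1
  s12 : S.sq b1 b2
  s23 : S.sq b2 b3
  s34 : S.sq b3 b4
  s45 : S.sq b4 b5
  s56 : S.sq b5 b6
  s6w : S.sq b6 w
  big : S.Big E w
  l0 : g1 < lv b0 b1 ∧ lv b0 b1 ≤ G2
  l1 : lv b1 b2 ≤ g1
  l2 : lv b2 b3 ≤ g1
  l3 : lv b3 b4 ≤ g1
  l4 : lv b4 b5 ≤ g1
  l5 : lv b5 b6 ≤ g1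

lemma opow_mul_nat_le {g1 g2 z : Ordinal.{0}} (n : ℕ) (hz : 1 + z ≤ g2) :
    ω ^ g1 * (n : Ordinal.{0}) * ω ^ z ≤ ω ^ (g1 + g2) := by
  rw [mul_assoc]
  calc ω ^ g1 * ((n : Ordinal.{0}) * ω ^ z) ≤ ω ^ g1 * (ω * ω ^ z) := by
        gcongr
        exact (natCast_lt_omega0 n).le
    _ = ω ^ (g1 + (1 + z)) := by rw [opow_add, opow_one_add]
    _ ≤ ω ^ (g1 + g2) := by
        apply opow_le_opow_right omega0_pos
        gcongr

lemma nat_mul_le4 {g1 g2 : Ordinal.{0}} (h0 : 0 < g2) (h21 : g2 ≤ g1) {n : ℕ} (hn : 0 < n) :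
    (n : Ordinal.{0}) * ω ^ g2 ≤ ω ^ g1 := by
  rw [nat_mul_opow4 h0 hn]
  exact opow_le_opow_right omega0_pos h21

lemma block4 {g1 g2 z : Ordinal.{0}} (h0 : 0 < g2) (h21 : g2 ≤ g1) (hz : 1 + z ≤ g2)
    {e0 E : Ordinal.{0}} {w : S.N}
    (hne : S.NE (g1 + g2 + z) e0 w) (hE : e0 ≤ E) (hb : S.Big (E + ω ^ (g1 + g2)) w) :
    ∃ b0 b1 b2 b3 b4 b5 b6 x, Blk4 S g1 (g1 + g2) E w b0 b1 b2 b3 b4 b5 b6 x := by
  set P : Ordinal.{0} := ω ^ g1 with hPdef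
  have h1P : 1 ≤ P := one_le_opow g1
  have h7P : 7 * ω ^ g2 ≤ P := by
    have := nat_mul_le4 h0 h21 (n := 7) (by norm_num)
    rwa [show ((7 : ℕ) : Ordinal.{0}) = 7 from by norm_num] at this
  have h3 : (P + P + P) * ω ^ z ≤ ω ^ (g1 + g2) := by
    have e1 : P + P + P = P * ((3 : ℕ) : Ordinal.{0}) := by
      rw [show ((3 : ℕ) : Ordinal.{0}) = 1 + 1 + 1 from by norm_num, mul_add, mul_add, mul_one]
    rw [e1]
    exact opow_mul_nat_le 3 hz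
  obtain ⟨v1, e1, hv1, hE1, -, hne1, hb1⟩ := thin (z := g1 + g2) (d := z)
    (e' := e0) (E := E) (th := P + P + P) hne hE (hb.mono (by gcongr))
  obtain ⟨b0, hb0, hb0'⟩ := big_iff.1 hb1
  obtain ⟨w1, hw1, hbw1⟩ := hb0'.2 (e1 + 7 * ω ^ g2 + P) (by
    rw [add_assoc]
    gcongr
    calc 7 * ω ^ g2 + P ≤ P + P := by gcongr
      _ < P + P + P := lt_add_of_pos_right _ (zero_lt_one.trans_le h1P))
  obtain ⟨w2, hw2, hbw2, hblk2⟩ := exit (a := e1 + 7 * ω ^ g2) (z := g1) hbw1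
  have hv1w2 : S.le v1 w2 := S.le_trans hb0 (S.le_trans (S.sq_le hw1) hw2)
  obtain ⟨v2, e2, hwv2, hE2, -, hne2, hb2⟩ := thin (z := g1) (d := g2) (e' := e1)
    (hne1.down hv1w2 (hbw2.mono le_self_add)) le_rfl hbw2
  have e7 : e2 + 7 = e2 + 1 + 1 + 1 + 1 + 1 + 1 + 1 := by
    simp only [add_assoc]
    congr 1
    norm_num
  rw [e7] at hb2
  obtain ⟨b1, hb1, hb1'⟩ := big_iff.1 hb2
  obtain ⟨b2, h12, hb2'⟩ := hb1'.next'
  obtain ⟨b3, h23, hb3'⟩ := hb2'.next'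
  obtain ⟨b4, h34, hb4'⟩ := hb3'.next'
  obtain ⟨b5, h45, hb5'⟩ := hb4'.next'
  obtain ⟨b6, h56, hb6'⟩ := hb5'.next'
  obtain ⟨x, h6x, hbx⟩ := (hb6'.mono (by exact le_self_add) : S.Crit (e2 + 1) b6).next
  have h01 : S.sq b0 b1 := S.sq_trans hw1 (S.le_trans hw2 (S.le_trans hwv2 hb1))
  have c6 : S.Big e2 b6 := hbx.up (S.sq_le h6x)
  have c5 : S.Big e2 b5 := c6.up (S.sq_le h56)
  have c4 : S.Big e2 b4 := c5.up (S.sq_le h45)
  have c3 : S.Big e2 b3 := c4.up (S.sq_le h34)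
  have c2 : S.Big e2 b2 := c3.up (S.sq_le h23)
  have c1 : S.Big e2 b1 := c2.up (S.sq_le h12)
  have l2 : S.le v2 b2 := S.le_trans hb1 (S.sq_le h12)
  have l3 : S.le v2 b3 := S.le_trans l2 (S.sq_le h23)
  have l4 : S.le v2 b4 := S.le_trans l3 (S.sq_le h34)
  have l5 : S.le v2 b5 := S.le_trans l4 (S.sq_le h45)
  refine ⟨b0, b1, b2, b3, b4, b5, b6, x, ?_⟩
  exact
  { le0 := S.le_trans hv1 hb0
    s01 := h01
    s12 := h12
    s23 := h23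
    s34 := h34
    s45 := h45
    s56 := h56
    s6w := h6x
    big := hbx.mono (hE1.trans hE2)
    l0 := by
      constructor
      · apply lt_lv_of_blk
        exact ((blk_anti (S.le_trans hwv2 hb1)).trans_lt hblk2).trans_le (blk_anti (S.sq_le hw1))
      · exact lv_le_of_NE hne1 hb0 (S.sq_le h01) (c1.mono hE2)
    l1 := lv_le_of_NE hne2 hb1 (S.sq_le h12) c2
    l2 := lv_le_of_NE hne2 l2 (S.sq_le h23) c3
    l3 := lv_le_of_NE hne2 l3 (S.sq_le h34) c4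
    l4 := lv_le_of_NE hne2 l4 (S.sq_le h45) c5
    l5 := lv_le_of_NE hne2 l5 (S.sq_le h56) c6 }

lemma Blk4.le5 {g1 G2 E : Ordinal.{0}} {v b0 b1 b2 b3 b4 b5 b6 w : S.N}
    (B : Blk4 S g1 G2 E v b0 b1 b2 b3 b4 b5 b6 w) : S.le v b5 :=
  S.le_trans B.le0 (S.le_trans (S.sq_le (sq_sq B.s01 B.s12)) (S.le_trans
    (S.sq_le (sq_sq B.s23 B.s34)) (S.sq_le B.s45)))

lemma Blk4.b0w {g1 G2 E : Ordinal.{0}} {v b0 b1 b2 b3 b4 b5 b6 w : S.N}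
    (B : Blk4 S g1 G2 E v b0 b1 b2 b3 b4 b5 b6 w) : S.le b0 w :=
  S.le_trans (S.sq_le (sq_sq B.s01 B.s12)) (S.le_trans
    (S.sq_le (sq_sq B.s23 B.s34)) (S.le_trans (S.sq_le (sq_sq B.s45 B.s56)) (S.sq_le B.s6w)))

/-- levels of the block `1 2 1 2 1 1 1` -/
structure BlkY4 (S : Sys) (g1 G2 : Ordinal.{0}) (E : Ordinal.{0})
    (v b0 b1 b2 b3 b4 b5 b6 b7 w : S.N) : Prop where
  le0 : S.le v b0
  s01 : S.sq b0 b1
  s12 : S.sq b1 b2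
  s23 : S.sq b2 b3
  s34 : S.sq b3 b4
  s45 : S.sq b4 b5
  s56 : S.sq b5 b6
  s67 : S.sq b6 b7
  s7w : S.sq b7 w
  big : S.Big E w
  l0 : lv b0 b1 ≤ g1
  l1 : g1 < lv b1 b2 ∧ lv b1 b2 ≤ G2
  l2 : lv b2 b3 ≤ g1
  l3 : g1 < lv b3 b4 ∧ lv b3 b4 ≤ G2
  l4 : lv b4 b5 ≤ g1
  l5 : lv b5 b6 ≤ g1
  l6 : lv b6 b7 ≤ g1

/-- one small block of `n` steps inside a `(g1+g2)`-block, followed by an exit -/
lemma seg2 {g1 g2 : Ordinal.{0}} {e E : Ordinal.{0}} {v : S.N}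
    (hne : S.NE (g1 + g2) e v) (hE : e ≤ E) (hb : S.Big (E + ω ^ g1 + 3 * ω ^ g2) v) :
    ∃ b b' w x, S.le v b ∧ S.sq b b' ∧ S.sq b' w ∧ S.le w x ∧ S.Big E x ∧
      lv b b' ≤ g1 ∧ ∀ q, S.le x q → g1 < lv b' q := by
  obtain ⟨va, ea, hva, hEa, -, hnea, hba⟩ := thin (z := g1) (d := g2) (e' := e) hne
    (hE.trans le_self_add) hb
  have e3 : ea + 3 = ea + 1 + 1 + 1 := by
    simp only [add_assoc]
    congr 1
    norm_num
  rw [e3] at hba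
  obtain ⟨b, hbb, hb'⟩ := big_iff.1 hba
  obtain ⟨b', hbb', hb''⟩ := hb'.next'
  obtain ⟨w, hw, hbw⟩ := hb''.next
  obtain ⟨x, hx, hbx, hblk⟩ := exit (a := E) (z := g1) (hbw.mono (hEa.trans le_self_add))
  refine ⟨b, b', w, x, S.le_trans hva hbb, hbb', hw, hx, hbx, ?_, ?_⟩
  · exact lv_le_of_NE hnea hbb (S.sq_le hbb') (hb''.big.mono (by
      rw [add_assoc]; exact le_self_add))
  · intro q hq
    apply lt_lv_of_blk
    exact ((blk_anti hq).trans_lt hblk).trans_le (blk_anti (S.sq_le hw))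

lemma blockY4 {g1 g2 z : Ordinal.{0}} (h0 : 0 < g2) (h21 : g2 ≤ g1) (hz : 1 + z ≤ g2)
    {e0 : Ordinal.{0}} {w : S.N}
    (hne : S.NE (g1 + g2 + z) e0 w) (hb : S.Big (e0 + ω ^ (g1 + g2)) w) :
    ∃ b0 b1 b2 b3 b4 b5 b6 b7 x, BlkY4 S g1 (g1 + g2) e0 w b0 b1 b2 b3 b4 b5 b6 b7 x := by
  set P : Ordinal.{0} := ω ^ g1 with hPdef
  have h3P : 3 * ω ^ g2 ≤ P := by
    have := nat_mul_le4 h0 h21 (n := 3) (by norm_num)
    rwa [show ((3 : ℕ) : Ordinal.{0}) = 3 from by norm_num] at this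
  have h5P : 5 * ω ^ g2 ≤ P := by
    have := nat_mul_le4 h0 h21 (n := 5) (by norm_num)
    rwa [show ((5 : ℕ) : Ordinal.{0}) = 5 from by norm_num] at this
  have h5 : (P + P + P + P + P) * ω ^ z ≤ ω ^ (g1 + g2) := by
    have e1 : P + P + P + P + P = P * ((5 : ℕ) : Ordinal.{0}) := by
      rw [show ((5 : ℕ) : Ordinal.{0}) = 1 + 1 + 1 + 1 + 1 from by norm_num, mul_add, mul_add,
        mul_add, mul_add, mul_one]
    rw [e1]
    exact opow_mul_nat_le 5 hz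
  obtain ⟨v1, e1, hv1, hE1, -, hne1, hb1⟩ := thin (z := g1 + g2) (d := z)
    (e' := e0) (E := e0) (th := P + P + P + P + P) hne le_rfl (hb.mono (by gcongr))
  -- first small block
  obtain ⟨b0, b1, w1, x1, h0, h01, h1w, hwx1, hbx1, l0, l1⟩ := seg2 (E := e1 + P + P + P) hne1
    (by simp only [add_assoc]; exact le_self_add) (hb1.mono (by
      rw [← add_assoc, ← add_assoc, ← add_assoc, ← add_assoc]
      gcongr))
  have hv1x1 : S.le v1 x1 := S.le_trans h0 (S.le_trans (S.sq_le h01) (S.le_trans (S.sq_le h1w)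
    hwx1))
  have hbe1 : S.Big e1 x1 := hbx1.mono (by simp only [add_assoc]; exact le_self_add)
  -- second small block
  obtain ⟨b2, b3, w3, x3, h2, h23, h3w, hwx3, hbx3, l2, l3⟩ := seg2 (E := e1 + P)
    (hne1.down hv1x1 hbe1) le_self_add (hbx1.mono (by gcongr))
  have hv1x3 : S.le v1 x3 := S.le_trans hv1x1 (S.le_trans h2 (S.le_trans (S.sq_le h23)
    (S.le_trans (S.sq_le h3w) hwx3)))
  have hbe3 : S.Big e1 x3 := hbx3.mono le_self_add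
  -- third small block
  obtain ⟨v4, e4, hv4, hE4, -, hne4, hb4⟩ := thin (z := g1) (d := g2) (e' := e1)
    (hne1.down hv1x3 hbe3) le_rfl (hbx3.mono (by gcongr) : S.Big (e1 + 5 * ω ^ g2) x3)
  have e5 : e4 + 5 = e4 + 1 + 1 + 1 + 1 + 1 := by
    simp only [add_assoc]
    congr 1
    norm_num
  rw [e5] at hb4
  obtain ⟨b4, h4, hb4'⟩ := big_iff.1 hb4
  obtain ⟨b5, h45, hb5'⟩ := hb4'.next'
  obtain ⟨b6, h56, hb6'⟩ := hb5'.next'
  obtain ⟨b7, h67, hb7'⟩ := hb6'.next'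
  obtain ⟨x, h7x, hbx⟩ := (hb7'.mono (by exact le_self_add) : S.Crit (e4 + 1) b7).next
  have c7 : S.Big e4 b7 := hbx.up (S.sq_le h7x)
  have c6 : S.Big e4 b6 := c7.up (S.sq_le h67)
  have c5 : S.Big e4 b5 := c6.up (S.sq_le h56)
  have c4 : S.Big e4 b4 := c5.up (S.sq_le h45)
  have h12 : S.sq b1 b2 := S.sq_trans h1w (S.le_trans hwx1 h2)
  have h34 : S.sq b3 b4 := S.sq_trans h3w (S.le_trans hwx3 (S.le_trans hv4 h4))
  have k5 : S.le v4 b5 := S.le_trans h4 (S.sq_le h45)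
  have k6 : S.le v4 b6 := S.le_trans k5 (S.sq_le h56)
  have m4 : S.Big e1 b4 := c4.mono hE4
  have m3 : S.Big e1 b3 := m4.up (S.sq_le h34)
  have m2 : S.Big e1 b2 := m3.up (S.sq_le h23)
  have n1 : S.le v1 b1 := S.le_trans h0 (S.sq_le h01)
  have n3 : S.le v1 b3 := S.le_trans n1 (S.le_trans (S.sq_le h12) (S.sq_le h23))
  refine ⟨b0, b1, b2, b3, b4, b5, b6, b7, x, ?_⟩
  exact
  { le0 := S.le_trans hv1 h0
    s01 := h01
    s12 := h12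
    s23 := h23
    s34 := h34
    s45 := h45
    s56 := h56
    s67 := h67
    s7w := h7x
    big := hbx.mono (hE1.trans hE4)
    l0 := l0
    l1 := ⟨l1 b2 h2, lv_le_of_NE hne1 n1 (S.sq_le h12) m2⟩
    l2 := l2
    l3 := ⟨l3 b4 (S.le_trans hv4 h4), lv_le_of_NE hne1 n3 (S.sq_le h34) m4⟩
    l4 := lv_le_of_NE hne4 h4 (S.sq_le h45) c5
    l5 := lv_le_of_NE hne4 k5 (S.sq_le h56) c6
    l6 := lv_le_of_NE hne4 k6 (S.sq_le h67) c7 }

lemma BlkY4.b0w {g1 G2 E : Ordinal.{0}} {v b0 b1 b2 b3 b4 b5 b6 b7 w : S.N}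
    (B : BlkY4 S g1 G2 E v b0 b1 b2 b3 b4 b5 b6 b7 w) : S.le b0 w :=
  S.le_trans (S.sq_le (sq_sq B.s01 B.s12)) (S.le_trans
    (S.sq_le (sq_sq B.s23 B.s34)) (S.le_trans (S.sq_le (sq_sq B.s45 B.s56))
      (S.sq_le (sq_sq B.s67 B.s7w))))

/-- an ascending pair of letters of the third class -/
lemma pairUp {G z A e : Ordinal.{0}} {v : S.N} (pA : IsPrincipal (· + ·) A)
    (hR : (ω ^ G + 1) * ω < A) (hne : S.NE (G + z) e v) (hb : S.Big (e + A * (z + 1)) v) :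
    ∃ z1 < z, ∃ e3 p1 p2 w, e ≤ e3 ∧ S.le v p1 ∧ S.sq p1 p2 ∧ S.sq p2 w ∧
      S.NE (G + (z1 + 1)) e3 w ∧ S.Big (e3 + ω ^ G) w ∧ G < lv p1 p2 ∧
      ∃ L, lv p1 p2 ≤ L ∧ ∀ q, S.le w q → L < lv p2 q := by
  set R : Ordinal.{0} := ω ^ G with hRdef
  have h1R : 1 ≤ R := one_le_opow G
  have hR1 : R + 1 < A := by
    refine lt_of_le_of_lt ?_ hR
    calc R + 1 = (R + 1) * 1 := (mul_one _).symm
      _ ≤ (R + 1) * ω := by gcongr; exact one_lt_omega0.le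
  have hRA : R < A := lt_of_le_of_lt le_self_add hR1
  have h1A : (1 : Ordinal.{0}) < A := lt_of_le_of_lt h1R hRA
  obtain ⟨z1, v', e', hz1, hvv', hee', hne', hb', hex⟩ := minScaleRel hRA.le hne hb
  rw [add_assoc G z1 1] at hne'
  have hAle : A ≤ A * (z1 + 1) := by
    calc A = A * 1 := (mul_one A).symm
      _ ≤ A * (z1 + 1) := by gcongr; exact le_add_self
  have habs : R + A * (z1 + 1) = A * (z1 + 1) := pA.add_eq_right_of_le hRA hAle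
  have hb2 : S.Big (e' + R + A * (z1 + 1) + 1 + (R + 1) * ω ^ (1 : Ordinal.{0})) v' := by
    refine hb'.mono ?_
    rw [opow_one]
    calc e' + R + A * (z1 + 1) + 1 + (R + 1) * ω
        = e' + (R + A * (z1 + 1) + (1 + (R + 1) * ω)) := by simp only [add_assoc]
      _ ≤ e' + (A * (z1 + 1) + A) := by
        rw [habs]
        gcongr
        exact (pA h1A hR).le
  obtain ⟨v3, e4, hv3, hE4, -, hne4, hb4⟩ := thin (z := G + z1) (d := 1) (e' := e')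
    (by rwa [add_assoc]) (by simp only [add_assoc]; exact le_self_add) hb2
  rw [← add_assoc] at hb4
  obtain ⟨p1, hp1, hp1'⟩ := big_iff.1 hb4
  obtain ⟨w1, hw1, hbw1⟩ := hp1'.next
  obtain ⟨w2, hw2, hbw2, hblk2⟩ := exit (a := e4) (z := G) hbw1
  obtain ⟨p2, hp2, hp2'⟩ := big_iff.1 hbw2
  obtain ⟨w3, hw3, hbw3⟩ := (hp2'.mono hE4).next
  have h12 : S.sq p1 p2 := S.sq_trans hw1 (S.le_trans hw2 hp2)
  have hvw3 : S.le v' w3 := S.le_trans hv3 (S.le_trans hp1 (S.le_trans (S.sq_le h12)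
    (S.sq_le hw3)))
  obtain ⟨w4, hw4, hbw4, hblk4⟩ := hex w3 (S.le_trans hvv' hvw3) (e' + R)
    (hee'.trans le_self_add) hbw3
  refine ⟨z1, hz1, e', p1, p2, w4, hee', S.le_trans hvv' (S.le_trans hv3 hp1), h12,
    S.sq_trans hw3 hw4, hne'.down (S.le_trans hvw3 hw4) (hbw4.mono le_self_add), hbw4, ?_,
    G + z1, ?_, ?_⟩
  · apply lt_lv_of_blk
    exact ((blk_anti hp2).trans_lt hblk2).trans_le (blk_anti (S.sq_le hw1))
  · exact lv_le_of_NE hne4 hp1 (S.sq_le h12) hp2'.big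
  · intro q hq
    apply lt_lv_of_blk
    exact ((blk_anti hq).trans_lt hblk4).trans_le (blk_anti (S.sq_le hw3))

/-- the pattern of the first player -/
structure XPat4 (S : Sys) (g1 G2 : Ordinal.{0}) (c1 c2 c3 c4 c5 c6 c7 c8 c9 c10 c11 : S.N) :
    Prop where
  s1 : g1 < lv c1 c2 ∧ lv c1 c2 ≤ G2
  s2 : lv c2 c3 ≤ g1
  s3 : lv c3 c4 ≤ g1
  s4 : lv c4 c5 ≤ g1
  s5 : lv c5 c6 ≤ g1
  s7 : G2 < lv c7 c8
  s9 : g1 < lv c9 c10 ∧ lv c9 c10 ≤ G2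
  s10 : lv c10 c11 ≤ g1
  s78 : lv c7 c8 < lv c8 c9
  s86 : lv c8 c9 < lv c6 c7

theorem xTheorem4 {g1 g2 g3 A1 A2 : Ordinal.{0}} (hP : Par4 g1 g2 g3 A1 A2) {v0 : S.N}
    (hv : S.rk v0 < ω ^ (g1 + g2 + g3)) (h : S.Big (A2 * (g3 + 1)) v0) :
    ∃ c1 c2 c3 c4 c5 c6 c7 c8 c9 c10 c11 x : S.N, S.le v0 c1 ∧ S.sq c1 c2 ∧ S.sq c2 c3 ∧
      S.sq c3 c4 ∧ S.sq c4 c5 ∧ S.sq c5 c6 ∧ S.sq c6 c7 ∧ S.sq c7 c8 ∧ S.sq c8 c9 ∧ S.sq c9 c10 ∧
      S.sq c10 c11 ∧ S.sq c11 x ∧ S.alive x ∧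
      XPat4 S g1 (g1 + g2) c1 c2 c3 c4 c5 c6 c7 c8 c9 c10 c11 := by
  set G : Ordinal.{0} := g1 + g2 with hG
  set R : Ordinal.{0} := ω ^ G with hR
  have hRA1 : R < A1 := by
    refine lt_of_le_of_lt ?_ hP.hR
    calc R ≤ R + 1 := le_self_add
      _ = (R + 1) * 1 := (mul_one _).symm
      _ ≤ (R + 1) * ω := by gcongr; exact one_lt_omega0.le
  have hA12 : A1 < A2 := by
    refine lt_of_le_of_lt ?_ hP.h12
    calc A1 = A1 * 1 * 1 := by rw [mul_one, mul_one]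
      _ ≤ A1 * (g3 + 1) * ω := by gcongr; exacts [le_add_self, one_lt_omega0.le]
  have hRA2 : R ≤ A2 := (hRA1.trans hA12).le
  obtain ⟨z2, v1, e1, hz2, hv01, -, hne1, hb1, hex⟩ := minScaleRel (g := G) (A := A2) (z := g3)
    (e := 0) hRA2 (ne_top hv) (by rwa [zero_add])
  have hne1' := hne1
  rw [add_assoc G z2 1] at hne1
  set Y : Ordinal.{0} := A1 * (z2 + 1) * ω with hY
  have hYA : Y < A2 := by
    refine lt_of_le_of_lt ?_ hP.h12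
    rw [hY]
    gcongr
  have hAle : A2 ≤ A2 * (z2 + 1) := by
    calc A2 = A2 * 1 := (mul_one A2).symm
      _ ≤ A2 * (z2 + 1) := by gcongr; exact le_add_self
  have habs : Y + A2 * (z2 + 1) = A2 * (z2 + 1) := hP.pA2.add_eq_right_of_le hYA hAle
  obtain ⟨c1, c2, c3, c4, c5, c6, b6, w7, B⟩ := block4 hP.g2pos hP.g21 (hP.hn z2 hz2)
    (E := e1 + Y + A2 * (z2 + 1)) hne1 (by simp only [add_assoc]; exact le_self_add)
    (hb1.mono (by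
      calc e1 + Y + A2 * (z2 + 1) + R = e1 + (Y + A2 * (z2 + 1) + R) := by simp only [add_assoc]
        _ ≤ e1 + (A2 * (z2 + 1) + A2) := by rw [habs]; gcongr))
  have hv16 : S.le v1 c6 := B.le5
  have h6w : S.le c6 w7 := S.le_trans (S.sq_le B.s56) (S.sq_le B.s6w)
  have hv1w : S.le v1 w7 := S.le_trans hv16 h6w
  obtain ⟨u, hu, hbu, hblku⟩ := hex w7 (S.le_trans hv01 hv1w) (e1 + Y) zero_le B.big
  have hv1u : S.le v1 u := S.le_trans hv1w hu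
  obtain ⟨u', e2, huu', he12, -, hne2, hb2⟩ := thin (z := G + z2) (d := 1) (e' := e1) (E := e1)
    (th := A1 * (z2 + 1)) (hne1'.down hv1u (hbu.mono le_self_add)) le_rfl
    (by rwa [opow_one])
  obtain ⟨z1, hz1, e3, p1, p2, w, he23, hp1, h12, h2w, hne3, hb3, hG1, L, hL1, hL2⟩ :=
    pairUp hP.pA1 hP.hR hne2 hb2
  obtain ⟨c9, c10, c11, x, b3, b4, b5, y, B'⟩ := block4 hP.g2pos hP.g21
    (hP.hn z1 (hz1.trans hz2)) (E := e3) hne3 le_rfl hb3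
  have h67 : S.sq c6 p1 := S.sq_trans B.s56 (S.le_trans (S.sq_le B.s6w)
    (S.le_trans hu (S.le_trans huu' hp1)))
  have h89 : S.sq p2 c9 := S.sq_trans h2w B'.le0
  have a6 : G + z2 < lv c6 p1 := by
    apply lt_lv_of_blk
    exact ((blk_anti (S.le_trans huu' hp1)).trans_lt hblku).trans_le (blk_anti h6w)
  have a8 : lv p2 c9 ≤ G + z2 := lv_le_of_NE hne2 (S.le_trans hp1 (S.sq_le h12)) (S.sq_le h89)
    ((B'.big.up B'.b0w).mono he23)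
  refine ⟨c1, c2, c3, c4, c5, c6, p1, p2, c9, c10, c11, x, S.le_trans hv01 B.le0, B.s01, B.s12,
    B.s23, B.s34, B.s45, h67, h12, h89, B'.s01, B'.s12, B'.s23, ?_, ?_⟩
  · exact S.alive_of (S.le_trans (S.sq_le (sq_sq B'.s34 B'.s45)) (S.sq_le (sq_sq B'.s56 B'.s6w)))
      B'.big.alive
  · exact
    { s1 := B.l0
      s2 := B.l1
      s3 := B.l2
      s4 := B.l3
      s5 := B.l4
      s7 := hG1
      s9 := B'.l0
      s10 := B'.l1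
      s78 := hL1.trans_lt (hL2 c9 B'.le0)
      s86 := a8.trans_lt a6 }

/-- the pattern of the second player -/
structure YPat4 (S : Sys) (g1 G2 : Ordinal.{0}) (d1 d2 d3 d4 d5 d6 d7 d8 d9 d10 : S.N) :
    Prop where
  t1 : G2 < lv d1 d2
  t3 : lv d3 d4 ≤ g1
  t4 : g1 < lv d4 d5 ∧ lv d4 d5 ≤ G2
  t5 : lv d5 d6 ≤ g1
  t6 : g1 < lv d6 d7 ∧ lv d6 d7 ≤ G2
  t7 : lv d7 d8 ≤ g1
  t8 : lv d8 d9 ≤ g1
  t9 : lv d9 d10 ≤ g1
  t12 : lv d1 d2 < lv d2 d3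

theorem yTheorem4 {g1 g2 g3 A1 A2 : Ordinal.{0}} (hP : Par4 g1 g2 g3 A1 A2) {v0 : S.N}
    (hv : S.rk v0 < ω ^ (g1 + g2 + g3)) (h : S.Big (A2 * (g3 + 1)) v0) :
    ∃ d1 d2 d3 d4 d5 d6 d7 d8 d9 d10 x : S.N, S.le v0 d1 ∧ S.sq d1 d2 ∧ S.sq d2 d3 ∧
      S.sq d3 d4 ∧ S.sq d4 d5 ∧ S.sq d5 d6 ∧ S.sq d6 d7 ∧ S.sq d7 d8 ∧ S.sq d8 d9 ∧ S.sq d9 d10 ∧
      S.sq d10 x ∧ S.alive x ∧
      YPat4 S g1 (g1 + g2) d1 d2 d3 d4 d5 d6 d7 d8 d9 d10 := by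
  have hA12 : A1 < A2 := by
    refine lt_of_le_of_lt ?_ hP.h12
    calc A1 = A1 * 1 * 1 := by rw [mul_one, mul_one]
      _ ≤ A1 * (g3 + 1) * ω := by gcongr; exacts [le_add_self, one_lt_omega0.le]
  obtain ⟨z1, hz1, e3, p1, p2, w, -, hp1, h12, h2w, hne3, hb3, hG1, L, hL1, hL2⟩ :=
    pairUp (z := g3) (e := 0) (v := v0) hP.pA1 hP.hR (ne_top hv)
      (by rw [zero_add]; exact h.mono (by gcongr))
  obtain ⟨d3, d4, d5, d6, d7, d8, d9, d10, x, B⟩ := blockY4 hP.g2pos hP.g21 (hP.hn z1 hz1)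
    hne3 hb3
  have h23 : S.sq p2 d3 := S.sq_trans h2w B.le0
  refine ⟨p1, p2, d3, d4, d5, d6, d7, d8, d9, d10, x, hp1, h12, h23, B.s01, B.s12, B.s23, B.s34,
    B.s45, B.s56, B.s67, B.s7w, B.big.alive, ?_⟩
  exact
  { t1 := hG1
    t3 := B.l0
    t4 := B.l1
    t5 := B.l2
    t6 := B.l3
    t7 := B.l4
    t8 := B.l5
    t9 := B.l6
    t12 := hL1.trans_lt (hL2 d3 B.le0) }

lemma top4 {g1 g2 g3 A1 A2 : Ordinal.{0}} (hP : Par4 g1 g2 g3 A1 A2) {rt : S.N}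
    (hr : S.rk rt = ω ^ (g1 + g2 + g3))
    (hroot : ∀ c, S.le rt c → S.rk rt ≤ S.rk c → c = rt)
    (h : S.Big (ω ^ (g1 + g2 + g3)) rt) :
    ∃ v0, S.sq rt v0 ∧ S.rk v0 < ω ^ (g1 + g2 + g3) ∧ S.Big (A2 * (g3 + 1)) v0 := by
  obtain ⟨c, hc, hc'⟩ := big_iff.1 h
  have hcr : c = rt := by
    apply hroot c hc
    rw [hr]
    exact hc'.big.le_rk
  subst hcr
  obtain ⟨v0, hv0, hb0⟩ := hc'.2 _ hP.cost
  exact ⟨v0, hv0, by rw [← hr]; exact S.sq_lt hv0, hb0⟩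

theorem xFinal4 {g1 g2 g3 A1 A2 : Ordinal.{0}} (hP : Par4 g1 g2 g3 A1 A2) {rt : S.N}
    (hr : S.rk rt = ω ^ (g1 + g2 + g3))
    (hroot : ∀ c, S.le rt c → S.rk rt ≤ S.rk c → c = rt)
    (h : S.Big (ω ^ (g1 + g2 + g3)) rt) :
    ∃ c : ℕ → S.N, c 0 = rt ∧ (∀ i < 11, S.sq (c i) (c (i + 1))) ∧
      (∃ w, S.sq (c 11) w ∧ S.alive w) ∧
      SPatt4 g1 (g1 + g2) (fun i => Lv (S.rk (c i)) (S.rk (c (i + 1)))) := by
  obtain ⟨v0, hv0, hrk, hb0⟩ := top4 hP hr hroot h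
  obtain ⟨c1, c2, c3, c4, c5, c6, c7, c8, c9, c10, c11, x, hwc, h12, h23, h34, h45, h56, h67, h78,
    h89, h910, h1011, h11x, hx, hpat⟩ := xTheorem4 hP hrk hb0
  have h01 : S.sq rt c1 := S.sq_trans hv0 hwc
  refine ⟨fun i => [rt, c1, c2, c3, c4, c5, c6, c7, c8, c9, c10, c11].getD i rt, rfl, ?_,
    ⟨x, h11x, hx⟩, ?_⟩
  · intro i hi
    interval_cases i <;> assumption
  · exact
    { s1 := hpat.s1, s2 := hpat.s2, s3 := hpat.s3, s4 := hpat.s4, s5 := hpat.s5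
      s7 := hpat.s7, s9 := hpat.s9, s10 := hpat.s10, s78 := hpat.s78, s86 := hpat.s86 }

theorem yFinal4 {g1 g2 g3 A1 A2 : Ordinal.{0}} (hP : Par4 g1 g2 g3 A1 A2) {rt : S.N}
    (hr : S.rk rt = ω ^ (g1 + g2 + g3))
    (hroot : ∀ c, S.le rt c → S.rk rt ≤ S.rk c → c = rt)
    (h : S.Big (ω ^ (g1 + g2 + g3)) rt) :
    ∃ d : ℕ → S.N, d 0 = rt ∧ (∀ i < 10, S.sq (d i) (d (i + 1))) ∧
      (∃ w, S.sq (d 10) w ∧ S.alive w) ∧
      TPatt4 g1 (g1 + g2) (fun i => Lv (S.rk (d i)) (S.rk (d (i + 1)))) := by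
  obtain ⟨v0, hv0, hrk, hb0⟩ := top4 hP hr hroot h
  obtain ⟨d1, d2, d3, d4, d5, d6, d7, d8, d9, d10, x, hwd, h12, h23, h34, h45, h56, h67, h78,
    h89, h910, h10x, hx, hpat⟩ := yTheorem4 hP hrk hb0
  have h01 : S.sq rt d1 := S.sq_trans hv0 hwd
  refine ⟨fun i => [rt, d1, d2, d3, d4, d5, d6, d7, d8, d9, d10].getD i rt, rfl, ?_,
    ⟨x, h10x, hx⟩, ?_⟩
  · intro i hi
    interval_cases i <;> assumption
  · exact
    { t1 := hpat.t1, t3 := hpat.t3, t4 := hpat.t4, t5 := hpat.t5, t6 := hpat.t6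
      t7 := hpat.t7, t8 := hpat.t8, t9 := hpat.t9, t12 := hpat.t12 }

end Sys

lemma opow_add_one_le4 (a : Ordinal.{0}) : (ω : Ordinal.{0}) ^ a + 1 ≤ ω ^ (a + 1) := by
  rw [opow_add_one]
  calc (ω : Ordinal.{0}) ^ a + 1 ≤ ω ^ a + ω ^ a := by gcongr; exact Sys.one_le_opow a
    _ = ω ^ a * 2 := by rw [← one_add_one_eq_two, mul_add, mul_one]
    _ ≤ ω ^ a * ω := by gcongr; exact_mod_cast (natCast_lt_omega0 2).le

/-- parameter computations -/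
theorem par4_of {a g1 g2 : Ordinal.{0}} (ha0 : 0 < a) (ha : a < ω ^ a) (h21 : g2 ≤ g1)
    (h32 : ω ^ a ≤ g2) :
    Sys.Par4 g1 g2 (ω ^ a) (ω ^ (g1 + g2 + 3)) (ω ^ (g1 + g2 + (3 + (a + 1) + 2))) := by
  have h1 : (1 : Ordinal.{0}) < ω := one_lt_omega0
  have hpr : IsPrincipal (· + ·) (ω ^ a : Ordinal.{0}) := isPrincipal_add_omega0_opow a
  have hωle : (ω : Ordinal.{0}) ≤ ω ^ a := left_le_opow ω ha0
  have hnlt : ∀ n : ℕ, (n : Ordinal.{0}) < ω ^ a := fun n => (natCast_lt_omega0 n).trans_le hωle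
  have h1lt : (1 : Ordinal.{0}) < ω ^ a := by exact_mod_cast hnlt 1
  have h2lt : (2 : Ordinal.{0}) < ω ^ a := by exact_mod_cast hnlt 2
  have h3lt : (3 : Ordinal.{0}) < ω ^ a := by exact_mod_cast hnlt 3
  refine ⟨(opow_pos _ omega0_pos).trans_le h32, h21, fun z hz => ?_,
    isPrincipal_add_omega0_opow _, isPrincipal_add_omega0_opow _, ?_, ?_, ?_⟩
  · exact (hpr h1lt (hpr hz h1lt)).le.trans h32
  · calc (ω ^ (g1 + g2) + 1) * ω ≤ ω ^ (g1 + g2 + 1) * ω := by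
          gcongr
          exact opow_add_one_le4 _
      _ = ω ^ (g1 + g2 + (1 + 1)) := by rw [← opow_add_one, add_assoc]
      _ < ω ^ (g1 + g2 + 3) := by
          rw [opow_lt_opow_iff_right h1]
          gcongr
          norm_num
  · calc ω ^ (g1 + g2 + 3) * (ω ^ a + 1) * ω ≤ ω ^ (g1 + g2 + 3) * ω ^ (a + 1) * ω := by
          gcongr
          exact opow_add_one_le4 _
      _ = ω ^ (g1 + g2 + (3 + (a + 1) + 1)) := by
          rw [← opow_add, ← opow_add_one]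
          simp only [add_assoc]
      _ < ω ^ (g1 + g2 + (3 + (a + 1) + 2)) := by
          rw [opow_lt_opow_iff_right h1]
          gcongr
          norm_num
  · calc ω ^ (g1 + g2 + (3 + (a + 1) + 2)) * (ω ^ a + 1)
        ≤ ω ^ (g1 + g2 + (3 + (a + 1) + 2)) * ω ^ (a + 1) := by
          gcongr
          exact opow_add_one_le4 _
      _ = ω ^ (g1 + g2 + (3 + (a + 1) + 2 + (a + 1))) := by
          rw [← opow_add]
          simp only [add_assoc]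
      _ < ω ^ (g1 + g2 + ω ^ a) := by
          rw [opow_lt_opow_iff_right h1]
          gcongr
          exact hpr (hpr (hpr h3lt (hpr ha h1lt)) h2lt) (hpr ha h1lt)

end MPb6
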