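import Pool.Agent.Lib.MP_b6d339_lc.PairSys
import Pool.Agent.Lib.MP_b6d339_lc.Gen

/-! The patterns of the third negative family (`g3` infinite and not an epsilon number). -/

namespace MPb6

open Ordinal

/-- gate pattern of the first player, third family -/
structure SPatt4 (G1 G2 : Ordinal.{0}) (s : ℕ → Ordinal.{0}) : Prop where
  s1 : G1 < s 1 ∧ s 1 ≤ G2
  s2 : s 2 ≤ G1
  s3 : s 3 ≤ G1
  s4 : s 4 ≤ G1
  s5 : s 5 ≤ G1
  s7 : G2 < s 7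
  s9 : G1 < s 9 ∧ s 9 ≤ G2
  s10 : s 10 ≤ G1
  s78 : s 7 < s 8
  s86 : s 8 < s 6

/-- gate pattern of the second player, third family -/
structure TPatt4 (G1 G2 : Ordinal.{0}) (t : ℕ → Ordinal.{0}) : Prop where
  t1 : G2 < t 1
  t3 : t 3 ≤ G1
  t4 : G1 < t 4 ∧ t 4 ≤ G2
  t5 : t 5 ≤ G1
  t6 : G1 < t 6 ∧ t 6 ≤ G2
  t7 : t 7 ≤ G1
  t8 : t 8 ≤ G1
  t9 : t 9 ≤ G1
  t12 : t 1 < t 2

/-- the finite statement of the third family -/
def Fin4 : Prop := ∀ (E : Type) (pl : E → Fin 3) (tm a b c : E → ℕ) (G1 G2 : Ordinal.{0}),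
  G1 ≤ G2 → ∀ (sA tA sB tB sC tC : ℕ → Ordinal.{0}), SPatt4 G1 G2 sA → TPatt4 G1 G2 tA →
    SPatt4 G1 G2 sB → TPatt4 G1 G2 tB → SPatt4 G1 G2 sC → TPatt4 G1 G2 tC →
      SchedG 10 pl tm a b c (bval sA tA) (bval sB tB) (bval sC tC) → False

end MPb6
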