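import Mathlib

/-! Ordinal arithmetic for MP_b6d339_lc: blocks `a / ω ^ z`, the level `Lv a b`, sizes. -/

namespace MPb6

open Ordinal

universe u

lemma opow_ne (z : Ordinal.{u}) : (ω : Ordinal.{u}) ^ z ≠ 0 := opow_ne_zero z omega0_ne_zero

lemma div_mul_eq (a : Ordinal.{u}) {b c : Ordinal.{u}} (hb : b ≠ 0) (hc : c ≠ 0) :
    a / (b * c) = a / b / c := by
  apply le_antisymm
  · rw [le_div hc, le_div hb, ← mul_assoc]
    exact mul_div_le a (b * c)
  · rw [← mul_le_iff_le_div (mul_ne_zero hb hc), mul_assoc]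
    exact (mul_le_mul_right (mul_div_le (a / b) c) b).trans (mul_div_le a b)

lemma div_opow_add (a z d : Ordinal.{u}) : a / ω ^ (z + d) = a / ω ^ z / ω ^ d := by
  rw [opow_add, div_mul_eq a (opow_ne z) (opow_ne d)]

lemma div_opow_mono_left {a b : Ordinal.{u}} (h : a ≤ b) (z : Ordinal.{u}) :
    a / ω ^ z ≤ b / ω ^ z := div_le_left h _

lemma div_eq_of_le {a b z z' : Ordinal.{u}} (h : a / ω ^ z = b / ω ^ z) (hz : z ≤ z') :
    a / ω ^ z' = b / ω ^ z' := by
  obtain ⟨d, rfl⟩ := exists_add_of_le hz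
  rw [div_opow_add, div_opow_add, h]

/-- Least `z` with `a / ω ^ z = b / ω ^ z`. -/
noncomputable def Lv (a b : Ordinal.{u}) : Ordinal.{u} := sInf {z : Ordinal.{u} | a / ω ^ z = b / ω ^ z}

lemma lt_opow_self (a : Ordinal.{u}) : a < ω ^ (a + 1) := by
  have h1 : a < a + 1 := lt_add_one a
  exact h1.trans_le (right_le_opow _ one_lt_omega0)

lemma Lv_set_nonempty (a b : Ordinal.{u}) :
    {z : Ordinal.{u} | a / ω ^ z = b / ω ^ z}.Nonempty := by
  refine ⟨max a b + 1, ?_⟩
  have h1 : a < ω ^ (max a b + 1) := (le_max_left a b).trans_lt (lt_opow_self _)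
  have h2 : b < ω ^ (max a b + 1) := (le_max_right a b).trans_lt (lt_opow_self _)
  simp only [Set.mem_ofPred_eq]
  rw [div_eq_zero_of_lt h1, div_eq_zero_of_lt h2]

lemma Lv_spec (a b : Ordinal.{u}) : a / ω ^ (Lv a b) = b / ω ^ (Lv a b) := by
  have h := csInf_mem (Lv_set_nonempty a b)
  rwa [Set.mem_ofPred_eq] at h

lemma Lv_le_iff {a b z : Ordinal.{u}} : Lv a b ≤ z ↔ a / ω ^ z = b / ω ^ z := by
  constructor
  · intro h
    exact div_eq_of_le (Lv_spec a b) h
  · intro h
    exact csInf_le' h

lemma lt_Lv_iff {a b z : Ordinal.{u}} : z < Lv a b ↔ a / ω ^ z ≠ b / ω ^ z := by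
  rw [← not_le, Lv_le_iff]

lemma Lv_trans {a b c : Ordinal.{u}} (hab : b ≤ a) (hbc : c ≤ b) :
    Lv a c = max (Lv a b) (Lv b c) := by
  apply le_antisymm
  · rw [Lv_le_iff]
    have h1 := Lv_le_iff.1 (le_max_left (Lv a b) (Lv b c))
    have h2 := Lv_le_iff.1 (le_max_right (Lv a b) (Lv b c))
    rw [h1, h2]
  · have h := Lv_spec a c
    have h1 := div_opow_mono_left hab (Lv a c)
    have h2 := div_opow_mono_left hbc (Lv a c)
    apply max_le
    · rw [Lv_le_iff]
      exact le_antisymm (h ▸ h2) h1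
    · rw [Lv_le_iff]
      exact le_antisymm (h ▸ h1) h2

lemma Lv_eq_zero_iff {a b : Ordinal.{u}} : Lv a b = 0 ↔ a = b := by
  rw [← nonpos_iff_eq_zero, Lv_le_iff]
  simp

/-- `Lv a b` is zero or a successor. -/
lemma Lv_zero_or_succ {a b : Ordinal.{u}} (hab : b ≤ a) : Lv a b = 0 ∨ ∃ z, Lv a b = z + 1 := by
  rcases zero_or_succ_or_isSuccLimit (Lv a b) with h | ⟨z, h⟩ | h
  · exact Or.inl h
  · exact Or.inr ⟨z, by rw [← h]; rfl⟩
  · exfalso
    -- a = ω^L * q + r, r < ω^z for some z < L
    set l := Lv a b with hl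
    have hr : a % ω ^ l < ω ^ l := mod_lt a (opow_ne l)
    obtain ⟨z, hz, hrz⟩ := (lt_opow_of_isSuccLimit omega0_ne_zero h).1 hr
    have hq : a / ω ^ l = b / ω ^ l := Lv_spec a b
    have key : ∀ x : Ordinal.{u}, x / ω ^ l = a / ω ^ l → x ≤ a → a / ω ^ z ≤ x / ω ^ z := by
      intro x hx hxa
      rw [← mul_le_iff_le_div (opow_ne z)]
      have hza : ω ^ z * (a / ω ^ z) ≤ ω ^ l * (a / ω ^ l) := by
        -- a < ω^l * q + ω^z
        obtain ⟨d, hd⟩ := exists_add_of_le hz.le
        have e1 : (ω : Ordinal.{u}) ^ l = ω ^ z * ω ^ d := by rw [hd, opow_add]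
        have e2 : a / ω ^ z = ω ^ d * (a / ω ^ l) := by
          conv_lhs => rw [← div_add_mod a (ω ^ l)]
          rw [e1, mul_assoc, mul_add_div _ (opow_ne z), ← e1, div_eq_zero_of_lt hrz, add_zero]
        rw [e2, ← mul_assoc, ← e1]
      exact hza.trans (by rw [← hx]; exact mul_div_le x _)
    have hb := key b hq.symm hab
    have : Lv a b ≤ z := Lv_le_iff.2 (le_antisymm hb (div_opow_mono_left hab z))
    exact absurd this (not_le.2 (hl ▸ hz))

/-- natural number coefficient -/
noncomputable def nat' (x : Ordinal.{u}) : ℕ := if h : x < ω then (lt_omega0.1 h).choose else 0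

lemma nat'_spec {x : Ordinal.{u}} (h : x < ω) : (nat' x : Ordinal.{u}) = x := by
  rw [nat', dif_pos h]
  exact (lt_omega0.1 h).choose_spec.symm

/-- coefficient of `a` at position `z` -/
noncomputable def cf (a z : Ordinal.{u}) : ℕ := nat' ((a / ω ^ z) % ω)

lemma cf_spec (a z : Ordinal.{u}) : (cf a z : Ordinal.{u}) = (a / ω ^ z) % ω :=
  nat'_spec (mod_lt _ omega0_ne_zero)

lemma div_succ (a z : Ordinal.{u}) : a / ω ^ (z + 1) = a / ω ^ z / ω := by
  rw [div_opow_add, opow_one]

/-- same `(z+1)`-block, smaller rank: the coefficient does not increase -/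
lemma cf_lt {a b z : Ordinal.{u}} (h : a / ω ^ (z + 1) = b / ω ^ (z + 1))
    (hlt : b / ω ^ z < a / ω ^ z) : cf b z < cf a z := by
  rw [div_succ, div_succ] at h
  have h1 := div_add_mod (a / ω ^ z) ω
  have h2 := div_add_mod (b / ω ^ z) ω
  rw [← h1, ← h2, h, ← cf_spec, ← cf_spec] at hlt
  have := (add_lt_add_iff_left _).1 hlt
  exact_mod_cast this

lemma div_eq_of_cf_zero {a b z : Ordinal.{u}} (hba : b ≤ a) (h : a / ω ^ (z + 1) = b / ω ^ (z + 1))
    (h0 : cf a z = 0) : a / ω ^ z = b / ω ^ z := by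
  by_contra hne
  have hlt : b / ω ^ z < a / ω ^ z := lt_of_le_of_ne (div_opow_mono_left hba z) (Ne.symm hne)
  have := cf_lt h hlt
  omega

/-- finiteness of the support -/
lemma cf_support_finite (a : Ordinal.{u}) : {z | cf a z ≠ 0}.Finite := by
  induction a using WellFoundedLT.induction with
  | ind a ih =>
    rcases eq_or_ne a 0 with rfl | ha
    · convert Set.finite_empty
      ext z
      simp only [Set.mem_ofPred_eq, Set.mem_empty_iff_false, iff_false, not_not]
      have : (cf (0 : Ordinal.{u}) z : Ordinal.{u}) = 0 := by rw [cf_spec]; simp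
      exact_mod_cast this
    · have hlt := mod_opow_log_lt_self ω ha
      refine ((ih _ hlt).union (Set.finite_singleton (log ω a))).subset ?_
      intro z hz
      simp only [Set.mem_union, Set.mem_ofPred_eq, Set.mem_singleton_iff]
      by_cases hzl : z = log ω a
      · exact Or.inr hzl
      · left
        rcases lt_or_gt_of_ne hzl with h | h
        · intro h0
          apply hz
          have e : (cf a z : Ordinal.{u}) = cf (a % ω ^ log ω a) z := by
            rw [cf_spec, cf_spec]
            obtain ⟨d, hd⟩ := exists_add_of_le (Order.add_one_le_of_lt h)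
            have e1 : (ω : Ordinal.{u}) ^ (log ω a) = ω ^ z * (ω * ω ^ d) := by
              rw [← mul_assoc, ← opow_add_one, ← opow_add, ← hd]
            conv_lhs => rw [← div_add_mod a (ω ^ log ω a)]
            conv_lhs => rw [e1]
            rw [mul_assoc, mul_add_div _ (opow_ne z), mul_assoc ω, mul_add_mod_self, ← e1]
          rw [h0] at e
          exact_mod_cast e
        · exfalso
          apply hz
          have : a < ω ^ z := by
            rw [lt_opow_iff_log_lt one_lt_omega0 ha]; exact h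
          have e : (cf a z : Ordinal.{u}) = 0 := by
            rw [cf_spec, div_eq_zero_of_lt this]; simp
          exact_mod_cast e

/-- sum of the coefficients at positions `≥ z` -/
noncomputable def size (a z : Ordinal.{u}) : ℕ :=
  ∑ y ∈ (cf_support_finite a).toFinset.filter (fun y => z ≤ y), cf a y

lemma size_antitone (a : Ordinal.{u}) {z z' : Ordinal.{u}} (h : z ≤ z') : size a z' ≤ size a z := by
  apply Finset.sum_le_sum_of_subset
  intro y hy
  simp only [Finset.mem_filter] at hy ⊢
  exact ⟨hy.1, h.trans hy.2⟩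

lemma cf_eq_of_div_eq {a b z : Ordinal.{u}} (h : a / ω ^ z = b / ω ^ z) : cf a z = cf b z := by
  unfold cf; rw [h]

lemma size_lt {a b z : Ordinal.{u}} (h : a / ω ^ (z + 1) = b / ω ^ (z + 1))
    (hlt : b / ω ^ z < a / ω ^ z) : size b z < size a z := by
  have hcf := cf_lt h hlt
  have hrest : ∀ y, z < y → cf a y = cf b y := fun y hy =>
    cf_eq_of_div_eq (div_eq_of_le h (Order.add_one_le_of_lt hy))
  set S := (cf_support_finite a).toFinset ∪ (cf_support_finite b).toFinset ∪ {z} with hS
  have ha : size a z = ∑ y ∈ S.filter (fun y => z ≤ y), cf a y := by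
    apply Finset.sum_subset
    · intro y hy
      simp only [Finset.mem_filter, hS, Finset.mem_union] at hy ⊢
      exact ⟨Or.inl (Or.inl hy.1), hy.2⟩
    · intro y hy hy'
      simp only [Finset.mem_filter, Set.Finite.mem_toFinset, Set.mem_ofPred_eq, not_and_or,
        not_not] at hy hy'
      rcases hy' with h1 | h1
      · exact h1
      · exact absurd hy.2 h1
  have hb : size b z = ∑ y ∈ S.filter (fun y => z ≤ y), cf b y := by
    apply Finset.sum_subset
    · intro y hy
      simp only [Finset.mem_filter, hS, Finset.mem_union] at hy ⊢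
      exact ⟨Or.inl (Or.inr hy.1), hy.2⟩
    · intro y hy hy'
      simp only [Finset.mem_filter, Set.Finite.mem_toFinset, Set.mem_ofPred_eq, not_and_or,
        not_not] at hy hy'
      rcases hy' with h1 | h1
      · exact h1
      · exact absurd hy.2 h1
  rw [ha, hb]
  apply Finset.sum_lt_sum
  · intro y hy
    simp only [Finset.mem_filter] at hy
    rcases hy.2.eq_or_lt with h1 | h1
    · rw [← h1]; exact hcf.le
    · rw [hrest y h1]
  · exact ⟨z, by simp [hS], hcf⟩

end MPb6
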