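import Pool.Agent.Lib.MP_b6d339_lc.Abs2

/-! The derived system of pairs of critical nodes in one `g`-block followed by a `g`-exit. -/

namespace MPb6

open Ordinal

lemma Lv_div {a b g : Ordinal.{0}} (h : a / ω ^ g ≠ b / ω ^ g) :
    Lv a b = g + Lv (a / ω ^ g) (b / ω ^ g) := by
  have hlt : g < Lv a b := lt_Lv_iff.2 h
  obtain ⟨d, hd⟩ := exists_add_of_le hlt.le
  have key : ∀ y, Lv (a / ω ^ g) (b / ω ^ g) ≤ y ↔ Lv a b ≤ g + y := by
    intro y
    rw [Lv_le_iff, Lv_le_iff, div_opow_add, div_opow_add]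
  apply le_antisymm
  · exact (key _).1 le_rfl
  · have : Lv (a / ω ^ g) (b / ω ^ g) ≤ d := (key d).2 hd.le
    rw [hd]
    gcongr

namespace Sys

variable {S : Sys}

/-- pairs of critical nodes in one `g`-block, followed by a node outside of the block -/
structure PN (S : Sys) (g : Ordinal.{0}) where
  p : S.N
  p' : S.N
  w : S.N
  h1 : S.sq p p'
  h2 : S.sq p' w
  h3 : S.blk g p' = S.blk g p
  h4 : S.blk g w < S.blk g p'

lemma PN.lw {g : Ordinal.{0}} (x : PN S g) : S.le x.p x.w :=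
  S.le_trans (S.sq_le x.h1) (S.sq_le x.h2)

/-- the derived system -/
noncomputable def pairSys (S : Sys) (g b : Ordinal.{0}) : Sys where
  N := PN S g
  le x y := x = y ∨ S.le x.w y.p
  sq x y := S.le x.w y.p
  rk x := S.blk g x.p
  alive x := S.Big b x.w
  le_refl _ := Or.inl rfl
  le_trans := by
    rintro x y z (h1 | h1) (h2 | h2)
    · exact Or.inl (h1.trans h2)
    · subst h1; exact Or.inr h2
    · subst h2; exact Or.inr h1
    · exact Or.inr (S.le_trans h1 (S.le_trans y.lw h2))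
  rk_anti := by
    rintro x y (h | h)
    · subst h; exact le_rfl
    · exact (blk_anti h).trans ((x.h4.trans_eq x.h3).le)
  sq_le := fun h => Or.inr h
  sq_lt := by
    intro x y h
    exact (blk_anti h).trans_lt (x.h4.trans_eq x.h3)
  sq_trans := by
    rintro x y z h (h' | h')
    · subst h'; exact h
    · exact S.le_trans h (S.le_trans y.lw h')
  alive_of := by
    rintro x y (h | h) hb
    · subst h; exact hb
    · exact hb.up (S.le_trans h y.lw)

/-- existence of a pair -/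
lemma exists_pair {g z e' B K : Ordinal.{0}} {v : S.N} (hK : ω ^ g + 2 * ω ^ z ≤ K)
    (hne : S.NE (g + z) e' v) (hB : e' ≤ B) (h : S.Big (B + K) v) :
    ∃ x : PN S g, S.le v x.p ∧ S.Big B x.w := by
  have h1 : S.Big (B + ω ^ g + 2 * ω ^ z) v := h.mono (by rw [add_assoc]; gcongr)
  obtain ⟨v1, e1, hv1, he1, -, hne1, hb1⟩ := thin hne (hB.trans le_self_add) h1
  have e2 : e1 + 2 = e1 + 1 + 1 := by rw [add_assoc]; norm_num
  rw [e2] at hb1
  obtain ⟨p, hp, hp'⟩ := big_iff.1 hb1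
  obtain ⟨q, hpq, hq⟩ := hp'.next'
  obtain ⟨w1, hw1, hbw1⟩ := hq.next
  obtain ⟨w, hw, hbw, hblk⟩ := exit (a := B) (z := g) (hbw1.mono he1)
  have hbq : S.Big e1 q := hbw1.up (S.sq_le hw1)
  refine ⟨⟨p, q, w, hpq, S.sq_trans hw1 hw, ?_, ?_⟩, S.le_trans hv1 hp, hbw⟩
  · rw [hne1 p (S.le_trans hv1 hp |> fun _ => hp) (hbq.up (S.sq_le hpq)),
      hne1 q (S.le_trans hp (S.sq_le hpq)) hbq]
  · exact hblk.trans_le (blk_anti (S.sq_le hw1))

/-- transfer of bigness to the derived system -/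
lemma pair_crit {g z b K : Ordinal.{0}} {v0 : S.N} (hK : ω ^ g + 2 * ω ^ z ≤ K)
    (hne : S.NE (g + z) b v0) : ∀ μ : Ordinal.{0}, ∀ x : PN S g, S.le v0 x.w →
    S.Big (b + K * μ) x.w → (pairSys S g b).Crit μ x := by
  intro μ
  induction μ using WellFoundedLT.induction with
  | ind μ ih =>
    intro x hx hb
    refine ⟨hb.mono le_self_add, fun μ' hμ' => ?_⟩
    have h1 : S.Big (b + K * μ' + K) x.w := by
      refine hb.mono ?_
      rw [add_assoc, ← mul_add_one]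
      gcongr
      exact Order.add_one_le_of_lt hμ'
    obtain ⟨y, hy, hby⟩ := exists_pair hK (hne.down hx (hb.mono le_self_add)) le_self_add h1
    exact ⟨y, hy, (ih μ' hμ' y (S.le_trans hx (S.le_trans hy y.lw)) hby).big⟩

lemma pair_big_up {g b : Ordinal.{0}} {x : PN S g} (h : (pairSys S g b).Big 0 x) :
    S.Big b x.w := by
  have : (pairSys S g b).alive x := h.alive
  exact this

lemma pair_NE {g z b : Ordinal.{0}} {v0 : S.N} (hne : S.NE (g + z) b v0) {x : PN S g}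
    (hx : S.le v0 x.p) : (pairSys S g b).NE z 0 x := by
  have key : ∀ y : PN S g, S.le v0 y.p → S.Big b y.w →
      (pairSys S g b).blk z y = S.blk (g + z) v0 := by
    intro y hy hb
    rw [← hne y.p hy (hb.up y.lw)]
    unfold blk pairSys blk
    rw [div_opow_add]
  intro y hy hb
  have hby := pair_big_up hb
  rcases hy with rfl | hy
  · rfl
  · have hy' : S.le v0 y.p := S.le_trans hx (S.le_trans x.lw hy)
    rw [key y hy' hby, key x hx (hby.up (S.le_trans hy y.lw))]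

/-- levels in the derived system -/
lemma pair_lv {g b : Ordinal.{0}} {x y : PN S g} (h : (pairSys S g b).sq x y) {q : S.N}
    (hq : S.blk g q = S.blk g x.p) :
    lv q y.p = g + lv (S := pairSys S g b) x y := by
  have hlt : S.blk g y.p < S.blk g x.p := (pairSys S g b).sq_lt h
  have hne : S.rk q / ω ^ g ≠ S.rk y.p / ω ^ g := by
    change S.blk g q ≠ S.blk g y.p
    rw [hq]; exact hlt.ne'
  unfold lv
  rw [Lv_div hne]
  change g + Lv (S.blk g q) (S.blk g y.p) = g + Lv (S.blk g x.p) (S.blk g y.p)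
  rw [hq]

/-- ascent with pairs at both ends -/
lemma pairAscent {g z b K : Ordinal.{0}} {v : S.N} (hK : ω ^ g + 2 * ω ^ z ≤ K)
    (hne : S.NE (g + z) b v) (h : S.Big (b + K * (ω * z + 3 + 1)) v) :
    ∃ d1 d2 d3 d4 d5 w : S.N, S.le v d1 ∧ S.sq d1 d2 ∧ S.sq d2 d3 ∧ S.sq d3 d4 ∧ S.sq d4 d5 ∧
      S.sq d5 w ∧ S.Big b w ∧ lv d1 d2 ≤ g ∧ g < lv d2 d3 ∧ lv d2 d3 < lv d3 d4 ∧
      lv d4 d5 ≤ g := by
  rw [mul_add_one, ← add_assoc] at h
  obtain ⟨x, hx, hbx⟩ := exists_pair hK hne le_self_add h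
  have hc := pair_crit hK hne (ω * z + 3) x (S.le_trans hx x.lw) hbx
  have hb : (pairSys S g b).Big (0 + (ω * z + 3)) x := by rw [zero_add]; exact hc.big
  obtain ⟨x1, x2, x3, x4, y, hx1, h12, h23, h34, h4y, hby, hlt⟩ :=
    doubleAscent (pair_NE hne hx) hb
  have hvx1 : S.le v x1.p := by
    rcases hx1 with rfl | h'
    · exact hx
    · exact S.le_trans hx (S.le_trans x.lw h')
  have h13 : (pairSys S g b).sq x1 x3 := sq_sq h12 h23
  have e1 := pair_lv h13 x1.h3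
  have e2 := pair_lv h34 (rfl : S.blk g x3.p = S.blk g x3.p)
  have hby' : S.Big b x4.w := (pair_big_up hby).up (S.le_trans h4y y.lw)
  have hpos : (0 : Ordinal.{0}) < lv (S := pairSys S g b) x1 x3 := pos_iff_ne_zero.2 (lv_ne_zero h13)
  refine ⟨x1.p, x1.p', x3.p, x4.p, x4.p', x4.w, hvx1, x1.h1, S.sq_trans x1.h2 h13,
    S.sq_trans x3.h1 (S.le_trans (S.sq_le x3.h2) h34), x4.h1, x4.h2, hby', ?_, ?_, ?_, ?_⟩
  · rw [lv_le_iff]; exact x1.h3.symm
  · rw [e1]; exact lt_add_of_pos_right g hpos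
  · rw [e1, e2]; gcongr
  · rw [lv_le_iff]; exact x4.h3.symm

/-- descent starting with a pair -/
lemma pairDescent {g z b K : Ordinal.{0}} {v : S.N} (hK : ω ^ g + 2 * ω ^ z ≤ K)
    (hne : S.NE (g + z) b v) (h : S.Big (b + K * (ω + 1)) v) :
    ∃ d6 d7 d8 d9 w : S.N, S.le v d6 ∧ S.sq d6 d7 ∧ S.sq d7 d8 ∧ S.sq d8 d9 ∧
      S.sq d9 w ∧ S.Big b w ∧ lv d6 d7 ≤ g ∧ g < lv d8 d9 ∧ lv d8 d9 < lv d7 d8 := by
  rw [mul_add_one, ← add_assoc] at h
  obtain ⟨x, hx, hbx⟩ := exists_pair hK hne le_self_add h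
  have hc := pair_crit hK hne ω x (S.le_trans hx x.lw) hbx
  have hb : (pairSys S g b).Big (0 + ω) x := by rw [zero_add]; exact hc.big
  obtain ⟨x1, x2, x3, x4, y, hx1, h12, h23, h34, h4y, hby, hlt⟩ := doubleDescent hb
  have hvx1 : S.le v x1.p := by
    rcases hx1 with rfl | h'
    · exact hx
    · exact S.le_trans hx (S.le_trans x.lw h')
  have h24 : (pairSys S g b).sq x2 x4 := sq_sq h23 h34
  have e1 := pair_lv h12 x1.h3
  have e2 := pair_lv h24 (rfl : S.blk g x2.p = S.blk g x2.p)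
  have hby' : S.Big b x4.w := (pair_big_up hby).up (S.le_trans h4y y.lw)
  have hpos : (0 : Ordinal.{0}) < lv (S := pairSys S g b) x2 x4 := pos_iff_ne_zero.2 (lv_ne_zero h24)
  refine ⟨x1.p, x1.p', x2.p, x4.p, x4.w, hvx1, x1.h1, S.sq_trans x1.h2 h12,
    S.sq_trans x2.h1 (S.le_trans (S.sq_le x2.h2) h24), S.sq_trans x4.h1 (S.sq_le x4.h2), hby',
    ?_, ?_, ?_⟩
  · rw [lv_le_iff]; exact x1.h3.symm
  · rw [e2]; exact lt_add_of_pos_right g hpos
  · rw [e1, e2]; gcongr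

/-- Minimal scale lemma relative to a base scale `g` -/
lemma minScaleRel {g A z e : Ordinal.{0}} {v : S.N} (hA : ω ^ g ≤ A) (hne : S.NE (g + z) e v)
    (h : S.Big (e + A * (z + 1)) v) :
    ∃ z0 v' e', z0 < z ∧ S.le v v' ∧ e ≤ e' ∧ S.NE (g + z0 + 1) e' v' ∧
      S.Big (e' + (A * (z0 + 1) + A)) v' ∧
      ∀ v'', S.le v v'' → ∀ e'', e ≤ e'' → S.Big (e'' + A * (z0 + 1)) v'' →
        ∃ w, S.le v'' w ∧ S.Big e'' w ∧ S.blk (g + z0) w < S.blk (g + z0) v'' := by
  classical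
  let P : Ordinal.{0} → Prop := fun y => ∃ v' e', S.le v v' ∧ e ≤ e' ∧ S.NE (g + y) e' v' ∧
    S.Big (e' + A * (y + 1)) v'
  have hP : P z := ⟨v, e, S.le_refl v, le_rfl, hne, h⟩
  obtain ⟨y, hy, hmin⟩ := WellFounded.has_min (wellFounded_lt (α := Ordinal.{0})) {y | P y} ⟨z, hP⟩
  rw [Set.mem_ofPred_eq] at hy
  have hmin' : ∀ x < y, ¬ P x := fun x hx hPx => hmin x hPx hx
  have hyz : y ≤ z := le_of_not_gt fun hlt => hmin' z hlt hP
  obtain ⟨v', e', h1, h2, h3, h4⟩ := hy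
  rcases zero_or_succ_or_isSuccLimit y with h0 | ⟨z0, h0⟩ | h0
  · exfalso
    subst h0
    rw [zero_add, mul_one] at h4
    obtain ⟨w, hw, hbw, hblk⟩ := exit (a := e') (z := g) (h4.mono (by gcongr))
    rw [add_zero] at h3
    exact absurd (h3 w hw hbw) hblk.ne
  · have h0' : y = z0 + 1 := by rw [← h0]; rfl
    subst h0'
    have hz0 : z0 < z := (lt_add_one z0).trans_le hyz
    refine ⟨z0, v', e', hz0, h1, h2, by rwa [add_assoc], ?_, ?_⟩
    · rwa [mul_add_one A (z0 + 1)] at h4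
    · intro v'' hv'' e'' he'' hb
      by_contra hcon
      push Not at hcon
      apply hmin' z0 (lt_add_one z0)
      refine ⟨v'', e'', hv'', he'', ?_, hb⟩
      intro w hw hbw
      exact le_antisymm (blk_anti hw) (hcon w hw hbw)
  · exfalso
    have hlim : Order.IsSuccLimit (g + y) := isSuccLimit_add g h0
    have hr : S.rk v' % ω ^ (g + y) < ω ^ (g + y) := mod_lt _ (opow_ne _)
    obtain ⟨x', hx', hrx'⟩ := (lt_opow_of_isSuccLimit omega0_ne_zero hlim).1 hr
    -- x' < g + y, choose x < y with x' ≤ g + x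
    obtain ⟨x, hx, hxx⟩ : ∃ x < y, x' ≤ g + x := by
      rcases lt_or_ge x' g with hlt | hge
      · exact ⟨0, h0.bot_lt, by rw [add_zero]; exact hlt.le⟩
      · obtain ⟨x, rfl⟩ := exists_add_of_le hge
        exact ⟨x, (add_lt_add_iff_left g).1 hx', le_rfl⟩
    have hrx : S.rk v' % ω ^ (g + y) < ω ^ (g + x) :=
      hrx'.trans_le (opow_le_opow_right omega0_pos hxx)
    apply hmin' x hx
    refine ⟨v', e', h1, h2, ?_, h4.mono (by gcongr)⟩
    intro w hw hbw
    have hsame := h3 w hw hbw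
    apply le_antisymm (blk_anti hw)
    unfold blk at hsame ⊢
    obtain ⟨d, hd⟩ := exists_add_of_le hx.le
    have e1 : (ω : Ordinal.{0}) ^ (g + y) = ω ^ (g + x) * ω ^ d := by
      rw [hd, ← add_assoc, opow_add]
    have e2 : S.rk v' / ω ^ (g + x) = ω ^ d * (S.rk v' / ω ^ (g + y)) := by
      conv_lhs => rw [← div_add_mod (S.rk v') (ω ^ (g + y))]
      rw [e1, mul_assoc, mul_add_div _ (opow_ne _), ← e1, div_eq_zero_of_lt hrx, add_zero]
    rw [e2, ← hsame, ← mul_le_iff_le_div (opow_ne _), ← mul_assoc, ← e1]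
    exact mul_div_le _ _

end Sys

end MPb6
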