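import Mathlib

/-!
# Erdős 592, negative part: the tree of `ω ^ κ`

Fundamental sequences `fs ρ n`, partial sums `S ρ n` with `ω ^ ρ = ∑ ω ^ (fs ρ n)`, the path
`path κ x : List ℕ` of an ordinal `x < ω ^ κ`, ranks `rk κ v` of nodes (finite lists of natural
numbers), the number `L a b` (largest exponent where `a` and `b` differ, plus one), and the
splitting lemma for order types (`large_split`).
-/

open Ordinal Set

namespace MPb6

noncomputable section

lemma exists_fs (ρ : Ordinal.{0}) : ∃ f : ℕ → Ordinal.{0}, Monotone f ∧ (∀ n, f n ≤ ρ) ∧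
    (ρ ≠ 0 → ∀ n, f n < ρ) ∧ ((Iio ρ).Countable → ∀ μ < ρ, ∃ n, μ ≤ f n) := by
  by_cases h : ρ ≠ 0 ∧ (Iio ρ).Countable
  · obtain ⟨h0, hc⟩ := h
    have hne : (Iio ρ).Nonempty := ⟨0, pos_iff_ne_zero.2 h0⟩
    obtain ⟨e, he⟩ := hc.exists_eq_range hne
    have hlt : ∀ n, partialSups e n < ρ := by
      intro n
      induction n with
      | zero =>
        have : e 0 ∈ Iio ρ := by rw [he]; exact mem_range_self 0
        simpa using this
      | succ n ih =>
        have : e (n + 1) ∈ Iio ρ := by rw [he]; exact mem_range_self _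
        rw [partialSups_add_one]
        exact max_lt ih this
    refine ⟨partialSups e, (partialSups e).monotone, fun n => (hlt n).le, fun _ => hlt, ?_⟩
    intro _ μ hμ
    have : μ ∈ range e := by rw [← he]; exact hμ
    obtain ⟨n, rfl⟩ := this
    exact ⟨n, le_partialSups e n⟩
  · refine ⟨fun _ => 0, monotone_const, fun _ => zero_le, fun h0 _ => pos_iff_ne_zero.2 h0, ?_⟩
    intro hc μ hμ
    exact absurd ⟨(pos_of_gt hμ).ne', hc⟩ h

/-- Fundamental sequences. -/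
def fs (ρ : Ordinal.{0}) : ℕ → Ordinal.{0} := (exists_fs ρ).choose

lemma fs_mono (ρ : Ordinal.{0}) : Monotone (fs ρ) := (exists_fs ρ).choose_spec.1

lemma fs_le (ρ : Ordinal.{0}) (n : ℕ) : fs ρ n ≤ ρ := (exists_fs ρ).choose_spec.2.1 n

lemma fs_lt {ρ : Ordinal.{0}} (h : ρ ≠ 0) (n : ℕ) : fs ρ n < ρ :=
  (exists_fs ρ).choose_spec.2.2.1 h n

lemma fs_cof {ρ : Ordinal.{0}} (h : (Iio ρ).Countable) {μ : Ordinal.{0}} (hμ : μ < ρ) :
    ∃ n, μ ≤ fs ρ n :=
  (exists_fs ρ).choose_spec.2.2.2 h μ hμ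

lemma countable_fs {ρ : Ordinal.{0}} (h : (Iio ρ).Countable) (n : ℕ) :
    (Iio (fs ρ n)).Countable :=
  h.mono (Iio_subset_Iio (fs_le ρ n))

/-- Partial sums of `∑ ω ^ (fs ρ n)`. -/
def S (ρ : Ordinal.{0}) : ℕ → Ordinal.{0}
  | 0 => 0
  | n + 1 => S ρ n + ω ^ (fs ρ n)

lemma S_lt {ρ : Ordinal.{0}} (h : ρ ≠ 0) (n : ℕ) : S ρ n < ω ^ ρ := by
  induction n with
  | zero => exact opow_pos _ omega0_pos
  | succ n ih =>
    exact isPrincipal_add_omega0_opow ρ ih ((opow_lt_opow_iff_right one_lt_omega0).2 (fs_lt h n))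

lemma S_lt_succ (ρ : Ordinal.{0}) (n : ℕ) : S ρ n < S ρ (n + 1) :=
  lt_add_of_pos_right _ (opow_pos _ omega0_pos)

lemma S_mono (ρ : Ordinal.{0}) : StrictMono (S ρ) := strictMono_nat_of_lt_succ (S_lt_succ ρ)

lemma exists_lt_S {ρ : Ordinal.{0}} (h : ρ ≠ 0) (hc : (Iio ρ).Countable) {x : Ordinal.{0}}
    (hx : x < ω ^ ρ) : ∃ n, x < S ρ (n + 1) := by
  obtain ⟨μ, hμ, k, hk⟩ := (lt_omega0_opow h).1 hx
  obtain ⟨n, hn⟩ := fs_cof hc hμ
  refine ⟨n + k, hk.trans_le ?_⟩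
  have key : ∀ j : ℕ, ω ^ μ * (j : Ordinal) ≤ S ρ (n + j) := by
    intro j
    induction j with
    | zero => simp
    | succ j ih =>
      rw [Nat.cast_succ, mul_add_one]
      change _ ≤ S ρ (n + j) + ω ^ (fs ρ (n + j))
      exact add_le_add ih ((opow_le_opow_iff_right one_lt_omega0).2
        (hn.trans (fs_mono ρ (Nat.le_add_right n j))))
  exact (key k).trans (S_lt_succ ρ _).le

/-- The number of the child containing `x`. -/
def idx (ρ x : Ordinal.{0}) : ℕ := sInf {n | x < S ρ (n + 1)}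

lemma lt_S_idx {ρ : Ordinal.{0}} (h : ρ ≠ 0) (hc : (Iio ρ).Countable) {x : Ordinal.{0}}
    (hx : x < ω ^ ρ) : x < S ρ (idx ρ x + 1) :=
  Nat.sInf_mem (s := {n | x < S ρ (n + 1)}) (exists_lt_S h hc hx)

lemma S_idx_le (ρ x : Ordinal.{0}) : S ρ (idx ρ x) ≤ x := by
  rcases Nat.eq_zero_or_pos (idx ρ x) with h | h
  · rw [h]; exact zero_le
  · by_contra hlt
    have : idx ρ x - 1 ∈ {n | x < S ρ (n + 1)} := by
      change x < S ρ (idx ρ x - 1 + 1)
      rw [Nat.sub_add_cancel h]; exact not_le.1 hlt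
    have h2 := Nat.sInf_le this
    change idx ρ x ≤ _ at h2
    omega

lemma sub_lt_of_lt_S {ρ : Ordinal.{0}} (h : ρ ≠ 0) (hc : (Iio ρ).Countable) {x : Ordinal.{0}}
    (hx : x < ω ^ ρ) : x - S ρ (idx ρ x) < ω ^ (fs ρ (idx ρ x)) := by
  rw [Ordinal.sub_lt_of_le (S_idx_le ρ x)]
  exact lt_S_idx h hc hx

/-- The path of `x < ω ^ ρ`. -/
def path (ρ x : Ordinal.{0}) : List ℕ :=
  if _h : ρ = 0 then [] else idx ρ x :: path (fs ρ (idx ρ x)) (x - S ρ (idx ρ x))
termination_by ρ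
decreasing_by exact fs_lt _h _

lemma path_zero (x : Ordinal.{0}) : path 0 x = [] := by
  rw [path]; simp

lemma path_cons {ρ : Ordinal.{0}} (h : ρ ≠ 0) (x : Ordinal.{0}) :
    path ρ x = idx ρ x :: path (fs ρ (idx ρ x)) (x - S ρ (idx ρ x)) := by
  rw [path]; simp [h]

lemma path_eq_nil {ρ x : Ordinal.{0}} : path ρ x = [] ↔ ρ = 0 := by
  constructor
  · intro h
    by_contra h0
    rw [path_cons h0] at h
    exact List.cons_ne_nil _ _ h
  · rintro rfl; exact path_zero x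

/-- The rank of a node. -/
def rk : Ordinal.{0} → List ℕ → Ordinal.{0}
  | ρ, [] => ρ
  | ρ, n :: v => rk (fs ρ n) v

/-- The least element of a node. -/
def base : Ordinal.{0} → List ℕ → Ordinal.{0}
  | _, [] => 0
  | ρ, n :: v => S ρ n + base (fs ρ n) v

@[simp] lemma rk_nil (ρ : Ordinal.{0}) : rk ρ [] = ρ := rfl

lemma rk_append (ρ : Ordinal.{0}) (u v : List ℕ) : rk ρ (u ++ v) = rk (rk ρ u) v := by
  induction u generalizing ρ with
  | nil => rfl
  | cons n u ih => exact ih (fs ρ n)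

lemma rk_concat (ρ : Ordinal.{0}) (u : List ℕ) (n : ℕ) : rk ρ (u ++ [n]) = fs (rk ρ u) n := by
  rw [rk_append]; rfl

lemma rk_le (ρ : Ordinal.{0}) (v : List ℕ) : rk ρ v ≤ ρ := by
  induction v generalizing ρ with
  | nil => exact le_rfl
  | cons n v ih => exact (ih _).trans (fs_le ρ n)

lemma rk_anti (ρ : Ordinal.{0}) {u v : List ℕ} (h : u <+: v) : rk ρ v ≤ rk ρ u := by
  obtain ⟨w, rfl⟩ := h
  rw [rk_append]; exact rk_le _ _

lemma countable_rk {ρ : Ordinal.{0}} (h : (Iio ρ).Countable) (v : List ℕ) :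
    (Iio (rk ρ v)).Countable :=
  h.mono (Iio_subset_Iio (rk_le ρ v))

/-- Decomposition of a path at a prefix. -/
lemma path_decomp (u : List ℕ) : ∀ {ρ x : Ordinal.{0}}, (Iio ρ).Countable → x < ω ^ ρ →
    u <+: path ρ x →
    ∃ x', x' < ω ^ rk ρ u ∧ x = base ρ u + x' ∧ path ρ x = u ++ path (rk ρ u) x' := by
  induction u with
  | nil =>
    intro ρ x _ hx _
    exact ⟨x, hx, by simp [base], rfl⟩
  | cons n u ih =>
    intro ρ x hc hx hu
    have h0 : ρ ≠ 0 := by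
      rintro rfl
      rw [path_zero] at hu
      exact absurd (List.prefix_nil.1 hu) (List.cons_ne_nil _ _)
    rw [path_cons h0, List.cons_prefix_cons] at hu
    obtain ⟨rfl, hu⟩ := hu
    obtain ⟨x', h1, h2, h3⟩ := ih (countable_fs hc _) (sub_lt_of_lt_S h0 hc hx) hu
    refine ⟨x', h1, ?_, ?_⟩
    · change x = S ρ (idx ρ x) + base (fs ρ (idx ρ x)) u + x'
      rw [add_assoc, ← h2, Ordinal.add_sub_cancel_of_le (S_idx_le ρ x)]
    · rw [path_cons h0, h3]; rfl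

lemma path_inj {ρ x y : Ordinal.{0}} (hc : (Iio ρ).Countable) (hx : x < ω ^ ρ) (hy : y < ω ^ ρ)
    (h : path ρ x = path ρ y) : x = y := by
  obtain ⟨x', h1, h2, h3⟩ := path_decomp (path ρ x) hc hx (List.prefix_refl _)
  obtain ⟨y', h4, h5, h6⟩ := path_decomp (path ρ x) hc hy (by rw [h])
  have h7 : rk ρ (path ρ x) = 0 := by
    have : path (rk ρ (path ρ x)) x' = [] := by
      have := congrArg List.length h3
      simp at this
      exact this
    exact path_eq_nil.1 this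
  rw [h7, opow_zero, Order.lt_one_iff] at h1 h4
  rw [h2, h5, h1, h4]

lemma rk_ne_zero_of_prefix {ρ x : Ordinal.{0}} (hc : (Iio ρ).Countable) (hx : x < ω ^ ρ)
    {u : List ℕ} (hu : u <+: path ρ x) (hne : u ≠ path ρ x) : rk ρ u ≠ 0 := by
  obtain ⟨x', h1, h2, h3⟩ := path_decomp u hc hx hu
  intro h0
  rw [h0, path_zero, List.append_nil] at h3
  exact hne h3.symm

/-! ### Order types -/

/-- `X` contains a subset of order type `ω ^ μ`. -/
def Large (X : Set Ordinal.{0}) (μ : Ordinal.{0}) : Prop :=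
  ∃ f : Ordinal.{0} → Ordinal.{0}, (∀ a b, a < b → b < ω ^ μ → f a < f b) ∧
    ∀ a, a < ω ^ μ → f a ∈ X

/-- The elements of `X` below the node `u`. -/
def below (κ : Ordinal.{0}) (X : Set Ordinal.{0}) (u : List ℕ) : Set Ordinal.{0} :=
  {x | x ∈ X ∧ x < ω ^ κ ∧ u <+: path κ x}

/-- The next entry of the path of `x` after `u`. -/
def next (κ : Ordinal.{0}) (u : List ℕ) (x : Ordinal.{0}) : ℕ := (path κ x).getD u.length 0

lemma below_anti {κ : Ordinal.{0}} {X : Set Ordinal.{0}} {u v : List ℕ} (h : u <+: v) :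
    below κ X v ⊆ below κ X u := fun _ hx => ⟨hx.1, hx.2.1, h.trans hx.2.2⟩

lemma next_spec {κ : Ordinal.{0}} (hc : (Iio κ).Countable) {X : Set Ordinal.{0}} {u : List ℕ}
    (h0 : rk κ u ≠ 0) {x : Ordinal.{0}} (hx : x ∈ below κ X u) :
    x ∈ below κ X (u ++ [next κ u x]) := by
  obtain ⟨x', h1, h2, h3⟩ := path_decomp u hc hx.2.1 hx.2.2
  refine ⟨hx.1, hx.2.1, ?_⟩
  have h4 : next κ u x = idx (rk κ u) x' := by
    unfold next
    rw [h3, path_cons h0]
    simp [List.getD]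
  rw [h4, h3, path_cons h0]
  exact ⟨path (fs (rk κ u) (idx (rk κ u) x')) (x' - S (rk κ u) (idx (rk κ u) x')), by simp⟩

lemma next_mono {κ : Ordinal.{0}} (hc : (Iio κ).Countable) {X : Set Ordinal.{0}} {u : List ℕ}
    (h0 : rk κ u ≠ 0) {x y : Ordinal.{0}} (hx : x ∈ below κ X u) (hy : y ∈ below κ X u)
    (hxy : x ≤ y) : next κ u x ≤ next κ u y := by
  obtain ⟨x', h1, h2, h3⟩ := path_decomp u hc hx.2.1 hx.2.2
  obtain ⟨y', h4, h5, h6⟩ := path_decomp u hc hy.2.1 hy.2.2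
  have h7 : next κ u x = idx (rk κ u) x' := by
    unfold next
    rw [h3, path_cons h0]
    simp [List.getD]
  have h8 : next κ u y = idx (rk κ u) y' := by
    unfold next
    rw [h6, path_cons h0]
    simp [List.getD]
  rw [h7, h8]
  have h9 : x' ≤ y' := by
    rw [h2, h5] at hxy
    exact (add_le_add_iff_left _).1 hxy
  apply Nat.sInf_le
  exact h9.trans_lt (lt_S_idx h0 (countable_rk hc u) h4)

/-- On an interval of type `ω ^ ν` where `next` is bounded it is eventually constant. -/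
lemma large_of_bounded {κ : Ordinal.{0}} (hc : (Iio κ).Countable) {X : Set Ordinal.{0}}
    {u : List ℕ} (h0 : rk κ u ≠ 0) {μ : Ordinal.{0}} {f : Ordinal.{0} → Ordinal.{0}}
    (hf : ∀ a b, a < b → b < ω ^ μ → f a < f b) (hX : ∀ a, a < ω ^ μ → f a ∈ below κ X u)
    {δ ν : Ordinal.{0}} (hδ : ∀ γ < ω ^ ν, δ + γ < ω ^ μ) {M : ℕ}
    (hM : ∀ γ < ω ^ ν, next κ u (f (δ + γ)) ≤ M) :
    ∃ m ≥ next κ u (f δ), Large (below κ X (u ++ [m])) ν := by
  classical
  have hpos : (0 : Ordinal) < ω ^ ν := opow_pos _ omega0_pos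
  -- the set of values
  let A : Set ℕ := {m | ∃ γ < ω ^ ν, next κ u (f (δ + γ)) = m}
  have hA : A.Nonempty := ⟨_, 0, hpos, rfl⟩
  have hAb : BddAbove A := ⟨M, by rintro m ⟨γ, hγ, rfl⟩; exact hM γ hγ⟩
  obtain ⟨γ0, hγ0, hm⟩ := Nat.sSup_mem hA hAb
  have hmono : ∀ a b, a ≤ b → b < ω ^ μ → f a ≤ f b := by
    intro a b hab hb
    rcases hab.lt_or_eq with h | rfl
    · exact (hf a b h hb).le
    · exact le_rfl
  refine ⟨sSup A, ?_, ?_⟩
  · apply le_csSup hAb
    exact ⟨0, hpos, by rw [add_zero]⟩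
  · refine ⟨fun γ => f (δ + (γ0 + γ)), ?_, ?_⟩
    · intro a b hab hb
      apply hf
      · exact (add_lt_add_iff_left _).2 ((add_lt_add_iff_left _).2 hab)
      · exact hδ _ (isPrincipal_add_omega0_opow ν hγ0 hb)
    · intro a ha
      have h1 : γ0 + a < ω ^ ν := isPrincipal_add_omega0_opow ν hγ0 ha
      have h2 : f (δ + (γ0 + a)) ∈ below κ X u := hX _ (hδ _ h1)
      have h3 : next κ u (f (δ + (γ0 + a))) = sSup A := by
        apply le_antisymm
        · exact le_csSup hAb ⟨γ0 + a, h1, rfl⟩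
        · rw [← hm]
          apply next_mono hc h0 (hX _ (hδ _ hγ0)) h2
          exact hmono _ _ (by gcongr; exact le_self_add) (hδ _ h1)
      have h4 := next_spec hc h0 h2
      rwa [h3] at h4

/-- Splitting of order types. -/
lemma large_split {κ : Ordinal.{0}} (hc : (Iio κ).Countable) {X : Set Ordinal.{0}} {u : List ℕ}
    {μ : Ordinal.{0}} (hμ : μ ≠ 0) (h : Large (below κ X u) μ) :
    rk κ u ≠ 0 ∧ ((∃ n, Large (below κ X (u ++ [n])) μ) ∨
      ∀ μ' < μ, ∀ N : ℕ, ∃ n ≥ N, Large (below κ X (u ++ [n])) μ') := by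
  obtain ⟨f, hf, hX⟩ := h
  have hpos : (0 : Ordinal) < ω ^ μ := opow_pos _ omega0_pos
  have hone : (1 : Ordinal) < ω ^ μ := one_lt_opow.2 ⟨one_lt_omega0, hμ⟩
  have h0 : rk κ u ≠ 0 := by
    intro h0
    have h1 := hX 0 hpos
    have h2 := hX 1 hone
    obtain ⟨x', h3, h4, h5⟩ := path_decomp u hc h1.2.1 h1.2.2
    obtain ⟨y', h6, h7, h8⟩ := path_decomp u hc h2.2.1 h2.2.2
    rw [h0, path_zero] at h5 h8
    have := path_inj hc h1.2.1 h2.2.1 (h5.trans h8.symm)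
    exact (hf 0 1 zero_lt_one hone).ne this
  refine ⟨h0, ?_⟩
  by_cases hb : ∃ M, ∀ γ < ω ^ μ, next κ u (f γ) ≤ M
  · left
    obtain ⟨M, hM⟩ := hb
    obtain ⟨m, -, hm⟩ := large_of_bounded hc h0 hf hX (δ := 0) (ν := μ)
      (by intro γ hγ; rwa [zero_add]) (M := M) (by intro γ hγ; rw [zero_add]; exact hM γ hγ)
    exact ⟨m, hm⟩
  · right
    push Not at hb
    intro μ' hμ' N
    obtain ⟨δ, hδ, hN⟩ := hb N
    have hlt : ω ^ μ' < ω ^ μ := (opow_lt_opow_iff_right one_lt_omega0).2 hμ'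
    have hδ' : δ + ω ^ μ' < ω ^ μ := isPrincipal_add_omega0_opow μ hδ hlt
    have hmono : ∀ a b, a ≤ b → b < ω ^ μ → f a ≤ f b := by
      intro a b hab hb
      rcases hab.lt_or_eq with h | rfl
      · exact (hf a b h hb).le
      · exact le_rfl
    obtain ⟨m, hm1, hm2⟩ := large_of_bounded hc h0 hf hX (δ := δ) (ν := μ')
      (fun γ hγ => lt_of_le_of_lt (by gcongr) hδ') (M := next κ u (f (δ + ω ^ μ')))
      (fun γ hγ => next_mono hc h0 (hX _ (lt_of_le_of_lt (by gcongr) hδ')) (hX _ hδ')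
        (hmono _ _ (by gcongr) hδ'))
    exact ⟨m, by omega, hm2⟩

end

end MPb6
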