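import Pool.Agent.Lib.MP_b6d339_lc.Abs
import Pool.Agent.Lib.MP_b6d339_lc.Events
import Pool.Agent.Lib.MP_b6d339_lc.Tree

/-!
# Erdős 592, negative part: the system `sysT` of the tree, the players, gates
-/

open Ordinal Set

namespace MPb6

noncomputable section

lemma rk_concat_lt {κ : Ordinal.{0}} {a : List ℕ} (h : MPb6.rk κ a ≠ 0) (n : ℕ) :
    MPb6.rk κ (a ++ [n]) < MPb6.rk κ a := by
  rw [rk_concat]; exact fs_lt h n

/-- The system of the tree of `ω ^ κ` with adversary `F` and the set `X`. -/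
def sysT (κ : Ordinal.{0}) (F : List ℕ → ℕ) (X : Set Ordinal.{0}) : Sys where
  N := List ℕ
  le a b := a <+: b
  sq a b := MPb6.rk κ a ≠ 0 ∧ ∃ n ≥ F a, (a ++ [n]) <+: b
  rk := MPb6.rk κ
  alive v := ∃ x ∈ X, x < ω ^ κ ∧ v <+: path κ x
  le_refl v := List.prefix_refl v
  le_trans h1 h2 := h1.trans h2
  rk_anti h := MPb6.rk_anti κ h
  sq_le := by
    rintro a b ⟨-, n, -, h⟩
    exact (List.prefix_append a [n]).trans h
  sq_lt := by
    rintro a b ⟨h0, n, -, h⟩
    exact (MPb6.rk_anti κ h).trans_lt (rk_concat_lt h0 n)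
  sq_trans := by
    rintro a b c ⟨h0, n, hn, h⟩ h'
    exact ⟨h0, n, hn, h.trans h'⟩
  alive_of := by
    rintro a b h ⟨x, hx, hx', h'⟩
    exact ⟨x, hx, hx', h.trans h'⟩

/-- Large sets are big. -/
lemma big_of_large {κ : Ordinal.{0}} (hc : (Iio κ).Countable) (F : List ℕ → ℕ)
    (X : Set Ordinal.{0}) : ∀ (ρ : Ordinal.{0}) (u : List ℕ), MPb6.rk κ u = ρ →
    ∀ μ : Ordinal.{0}, Large (below κ X u) μ → (sysT κ F X).Big μ u := by
  intro ρ
  induction ρ using WellFoundedLT.induction with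
  | ind ρ ih =>
    intro u hu μ hL
    have halive : (sysT κ F X).alive u := by
      obtain ⟨f, -, hX⟩ := hL
      have h1 := hX 0 (opow_pos _ omega0_pos)
      exact ⟨f 0, h1.1, h1.2.1, h1.2.2⟩
    rcases eq_or_ne μ 0 with rfl | hμ
    · exact Sys.big_iff.2 ⟨u, List.prefix_refl u, halive, fun μ' h => absurd h not_lt_zero⟩
    obtain ⟨h0, h1 | h1⟩ := large_split hc hμ hL
    · obtain ⟨n, hn⟩ := h1
      have h2 := ih _ (hu ▸ rk_concat_lt h0 n) (u ++ [n]) rfl μ hn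
      exact Sys.Big.up h2 (List.prefix_append u [n])
    · refine Sys.big_iff.2 ⟨u, List.prefix_refl u, halive, fun μ' hμ' => ?_⟩
      obtain ⟨n, hn, hn'⟩ := h1 μ' hμ' (F u)
      exact ⟨u ++ [n], ⟨h0, n, hn, List.prefix_refl _⟩,
        ih _ (hu ▸ rk_concat_lt h0 n) (u ++ [n]) rfl μ' hn'⟩

lemma big_root {κ : Ordinal.{0}} (hc : (Iio κ).Countable) (F : List ℕ → ℕ)
    {X : Set Ordinal.{0}} (hX : Large (X ∩ Iio (ω ^ κ)) κ) :
    (sysT κ F X).Big κ ([] : List ℕ) := by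
  apply big_of_large hc F X κ [] rfl κ
  obtain ⟨f, hf, hX⟩ := hX
  exact ⟨f, hf, fun a ha => ⟨(hX a ha).1, (hX a ha).2, List.nil_prefix⟩⟩

/-! ### Players -/

/-- The player of a terminal `p`. -/
def plT (κ : Ordinal.{0}) (p : List ℕ) : Pl Ordinal.{0} where
  len := p.length
  code k := Encodable.encode (p.take k)
  lab k := Lv (MPb6.rk κ (p.take (k - 1))) (MPb6.rk κ (p.take k))

lemma isGate_plT (κ : Ordinal.{0}) (p : List ℕ) {c : ℕ} : ∀ {c' : ℕ}, c < c' →
    IsGate (plT κ p) c c' (Lv (MPb6.rk κ (p.take c)) (MPb6.rk κ (p.take c'))) := by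
  intro c' h
  obtain ⟨d, rfl⟩ : ∃ d, c' = c + (d + 1) := ⟨c' - c - 1, by omega⟩
  clear h
  induction d with
  | zero =>
    refine ⟨fun k h1 h2 => ?_, c + 1, by omega, by omega, rfl⟩
    obtain rfl : k = c + 1 := by omega
    exact le_rfl
  | succ d ih =>
    have e1 : MPb6.rk κ (p.take (c + (d + 1))) ≤ MPb6.rk κ (p.take c) :=
      MPb6.rk_anti κ (List.take_prefix_take_left (by omega))
    have e2 : MPb6.rk κ (p.take (c + (d + 1 + 1))) ≤ MPb6.rk κ (p.take (c + (d + 1))) :=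
      MPb6.rk_anti κ (List.take_prefix_take_left (by omega))
    rw [Lv_trans e1 e2]
    refine ⟨fun k h1 h2 => ?_, ?_⟩
    · rcases Nat.lt_or_ge k (c + (d + 1 + 1)) with h3 | h3
      · exact (ih.1 k h1 (by omega)).trans (le_max_left _ _)
      · obtain rfl : k = c + (d + 1 + 1) := by omega
        exact le_max_right _ _
    · rcases le_total (Lv (MPb6.rk κ (p.take c)) (MPb6.rk κ (p.take (c + (d + 1)))))
        (Lv (MPb6.rk κ (p.take (c + (d + 1)))) (MPb6.rk κ (p.take (c + (d + 1 + 1))))) with h | h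
      · rw [max_eq_right h]
        exact ⟨c + (d + 1 + 1), by omega, le_rfl, rfl⟩
      · rw [max_eq_left h]
        obtain ⟨k, h1, h2, h3⟩ := ih.2
        exact ⟨k, h1, by omega, h3⟩

end

end MPb6
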