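import Pool.Agent.Lib.MP_b6d339_lc.Play

/-!
# Erdős 592, negative part: from chains against every adversary to a blue pair
-/

open Ordinal Set

namespace MPb6

noncomputable section

/-- `d` lies below the child `c ++ [n]` of `c` for some `n ≥ N`. -/
def stepN (N : ℕ) (c d : List ℕ) : Prop := ∃ n ≥ N, (c ++ [n]) <+: d

/-- `d` lies below a child of `c` with code larger than `B`. -/
def stepB (B : ℕ) (c d : List ℕ) : Prop := ∃ n, (c ++ [n]) <+: d ∧ B < Encodable.encode (c ++ [n])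

/-- Against every adversary `F` the chain `c 0, …, c i` can be continued up to `n` with property
`Q`. -/
def ExtF (Q : (ℕ → List ℕ) → Prop) (n i : ℕ) (c : ℕ → List ℕ) : Prop :=
  ∀ F : List ℕ → ℕ, ∃ c' : ℕ → List ℕ, (∀ j ≤ i, c' j = c j) ∧
    (∀ j, i ≤ j → j < n → stepN (F (c' j)) (c' j) (c' (j + 1))) ∧ Q c'

lemma stepN.isPre {N : ℕ} {c d : List ℕ} (h : stepN N c d) : c <+: d := by
  obtain ⟨n, -, h⟩ := h
  exact (List.prefix_append c [n]).trans h

lemma stepB.isPre {N : ℕ} {c d : List ℕ} (h : stepB N c d) : c <+: d := by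
  obtain ⟨n, h, -⟩ := h
  exact (List.prefix_append c [n]).trans h

lemma exists_code_gt (c : List ℕ) (B : ℕ) : ∃ N, ∀ n ≥ N, B < Encodable.encode (c ++ [n]) := by
  have hinj : Function.Injective fun n : ℕ => Encodable.encode (c ++ [n]) := by
    intro a b hab
    have := Encodable.encode_injective hab
    simpa using this
  have hfin : {n : ℕ | Encodable.encode (c ++ [n]) ≤ B}.Finite :=
    (Set.finite_Iic B).preimage hinj.injOn
  obtain ⟨N, hN⟩ := hfin.bddAbove
  refine ⟨N + 1, fun n hn => ?_⟩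
  by_contra hlt
  have := hN (show n ∈ {n : ℕ | Encodable.encode (c ++ [n]) ≤ B} from not_lt.1 hlt)
  omega

/-- One step of the strategy. -/
lemma ExtF.step {Q : (ℕ → List ℕ) → Prop} {n i : ℕ} {c : ℕ → List ℕ} (h : ExtF Q n i c)
    (hi : i < n) (B : ℕ) :
    ∃ c'' : ℕ → List ℕ, (∀ j ≤ i, c'' j = c j) ∧ stepB B (c'' i) (c'' (i + 1)) ∧
      ExtF Q n (i + 1) c'' := by
  classical
  obtain ⟨N, hN⟩ := exists_code_gt (c i) B
  by_contra hcon
  push Not at hcon
  -- the adversary against a given node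
  have hadv : ∀ d : List ℕ, ∃ F : List ℕ → ℕ, stepN N (c i) d →
      ¬ ∃ c' : ℕ → List ℕ, (∀ j ≤ i + 1, c' j = Function.update c (i + 1) d j) ∧
        (∀ j, i + 1 ≤ j → j < n → stepN (F (c' j)) (c' j) (c' (j + 1))) ∧ Q c' := by
    intro d
    by_cases hd : stepN N (c i) d
    · have h1 := hcon (Function.update c (i + 1) d)
        (fun j hj => Function.update_of_ne (by omega) _ _) (by
          rw [Function.update_of_ne (by omega), Function.update_self]
          obtain ⟨n, hn, hn'⟩ := hd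
          exact ⟨n, hn', hN n hn⟩)
      unfold ExtF at h1
      push Not at h1
      obtain ⟨F, hF⟩ := h1
      refine ⟨F, fun _ => ?_⟩
      push Not
      exact hF
    · exact ⟨fun _ => 0, fun h => absurd h hd⟩
  choose G hG using hadv
  obtain ⟨c', h1, h2, h3⟩ := h fun v =>
    max N ((Finset.range (v.length + 1)).sup fun k => G (v.take k) v)
  have h4 := h2 i le_rfl hi
  have h5 : stepN N (c i) (c' (i + 1)) := by
    obtain ⟨n, hn, hn'⟩ := h4
    rw [h1 i le_rfl] at hn hn'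
    exact ⟨n, (le_max_left _ _).trans hn, hn'⟩
  have hpre : ∀ j, i + 1 ≤ j → j ≤ n → c' (i + 1) <+: c' j := by
    intro j hj
    induction j, hj using Nat.le_induction with
    | base => intro _; exact List.prefix_refl _
    | succ j hj ih =>
      intro hjn
      exact (ih (by omega)).trans (h2 j (by omega) (by omega)).isPre
  apply hG (c' (i + 1)) h5
  refine ⟨c', fun j hj => ?_, fun j hj hjn => ?_, h3⟩
  · rcases Nat.lt_or_ge j (i + 1) with h6 | h6
    · rw [Function.update_of_ne (by omega), h1 j (by omega)]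
    · obtain rfl : j = i + 1 := by omega
      rw [Function.update_self]
  · obtain ⟨m, hm, hm'⟩ := h2 j (by omega) hjn
    refine ⟨m, le_trans ?_ hm, hm'⟩
    refine le_trans ?_ (le_max_right _ _)
    have h6 := hpre j hj (by omega)
    have h7 : (c' j).take (c' (i + 1)).length = c' (i + 1) :=
      (List.prefix_iff_eq_take.1 h6).symm
    have h8 : (c' (i + 1)).length ∈ Finset.range ((c' j).length + 1) :=
      Finset.mem_range.2 (Nat.lt_succ_of_le h6.length_le)
    have h9 := Finset.le_sup (f := fun k => G ((c' j).take k) (c' j)) h8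
    simp only [h7] at h9
    exact h9

/-- The largest code of a nonempty prefix of `v`. -/
def topc (v : List ℕ) : ℕ := (Finset.Icc 1 v.length).sup fun k => Encodable.encode (v.take k)

/-- Interleaving of two strategies. -/
lemma interleave {Q Q' : (ℕ → List ℕ) → Prop} {m : ℕ} {c0 d0 : ℕ → List ℕ}
    (hx : ExtF Q (m + 1) 0 c0) (hy : ExtF Q' m 0 d0) : ∀ i ≤ m, ∃ c d : ℕ → List ℕ,
      ExtF Q (m + 1) (i + 1) c ∧ ExtF Q' m i d ∧ c 0 = c0 0 ∧ d 0 = d0 0 ∧
      (∃ B, stepB B (c 0) (c 1)) ∧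
      (∀ j < i, stepB (topc (c (j + 1))) (d j) (d (j + 1))) ∧
      (∀ j, 1 ≤ j → j ≤ i → stepB (topc (d j)) (c j) (c (j + 1))) := by
  intro i
  induction i with
  | zero =>
    intro _
    obtain ⟨c, h1, h2, h3⟩ := hx.step (by omega) 0
    exact ⟨c, d0, h3, hy, h1 0 le_rfl, rfl, ⟨0, h2⟩, fun j hj => by omega, fun j h1 h2 => by omega⟩
  | succ i ih =>
    intro hi
    obtain ⟨c, d, h1, h2, h3, h4, h5, h6, h7⟩ := ih (by omega)
    obtain ⟨d', g1, g2, g3⟩ := h2.step (by omega) (topc (c (i + 1)))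
    obtain ⟨c', k1, k2, k3⟩ := h1.step (by omega) (topc (d' (i + 1)))
    refine ⟨c', d', k3, g3, by rw [k1 0 (by omega), h3], by rw [g1 0 (by omega), h4], ?_, ?_, ?_⟩
    · rw [k1 0 (by omega), k1 1 (by omega)]; exact h5
    · intro j hj
      rcases Nat.lt_or_ge j i with h8 | h8
      · rw [k1 (j + 1) (by omega), g1 j (by omega), g1 (j + 1) (by omega)]
        exact h6 j h8
      · obtain rfl : j = i := by omega
        rw [k1 (j + 1) (by omega)]
        exact g2
    · intro j hj1 hj2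
      rcases Nat.lt_or_ge j (i + 1) with h8 | h8
      · rw [k1 j (by omega), k1 (j + 1) (by omega), g1 j (by omega)]
        exact h7 j hj1 (by omega)
      · obtain rfl : j = i + 1 := by omega
        exact k2

/-- Chains of the first player. -/
structure ChX (κ : Ordinal.{0}) (X : Set Ordinal.{0}) (P : (ℕ → Ordinal.{0}) → Prop) (n : ℕ)
    (c : ℕ → List ℕ) : Prop where
  c0 : c 0 = []
  term : ∃ x ∈ X, x < ω ^ κ ∧ c n = path κ x
  pat : P fun i => Lv (MPb6.rk κ (c i)) (MPb6.rk κ (c (i + 1)))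

/-- Chains against every adversary. -/
lemma extF_of_chains {κ : Ordinal.{0}} {X : Set Ordinal.{0}} {P : (ℕ → Ordinal.{0}) → Prop}
    {n : ℕ} (hP : ∀ s s' : ℕ → Ordinal.{0}, (∀ i, 1 ≤ i → i < n → s i = s' i) → P s → P s')
    (h : ∀ F, ∃ c : ℕ → List ℕ, c 0 = [] ∧ (∀ i < n, (sysT κ F X).sq (c i) (c (i + 1))) ∧
      (∃ w, (sysT κ F X).sq (c n) w ∧ (sysT κ F X).alive w) ∧
      P fun i => Lv (MPb6.rk κ (c i)) (MPb6.rk κ (c (i + 1)))) :
    ExtF (ChX κ X P (n + 1)) (n + 1) 0 fun _ => [] := by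
  intro F
  obtain ⟨c, h0, h1, ⟨w, h2, x, hx, hx', h3⟩, h4⟩ := h F
  refine ⟨fun j => if j ≤ n then c j else path κ x, ?_, ?_, ?_, ?_, ?_⟩
  · intro j hj
    obtain rfl : j = 0 := by omega
    simpa using h0
  · intro j _ hj
    dsimp only
    rcases Nat.lt_or_ge j n with h5 | h5
    · rw [if_pos (by omega), if_pos (by omega)]
      exact (h1 j h5).2
    · obtain rfl : j = n := by omega
      rw [if_pos le_rfl, if_neg (by omega)]
      obtain ⟨m, hm, hm'⟩ := h2.2
      exact ⟨m, hm, hm'.trans h3⟩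
  · simpa using h0
  · exact ⟨x, hx, hx', by rw [if_neg (by omega)]⟩
  · refine hP _ _ (fun i hi1 hi2 => ?_) h4
    rw [if_pos (by omega), if_pos (by omega)]

/-- Gates of the first player. -/
structure PatX {α : Type*} [LinearOrder α] (G1 G2 : α) (s : ℕ → α) : Prop where
  s1 : s 1 ≤ G1
  s2 : s 2 ≤ G1
  s3 : s 3 ≤ G1
  s4 : G1 < s 4 ∧ s 4 ≤ G2
  s5 : G2 < s 5
  s6 : G1 < s 6 ∧ s 6 ≤ G2
  s7 : s 7 ≤ G1
  s8 : s 8 ≤ G1
  s9 : s 9 ≤ G1
  s21 : s 2 < s 1
  s13 : s 1 ≤ s 3
  s89 : s 8 < s 9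
  s97 : s 9 ≤ s 7

/-- Gates of the second player. -/
structure PatY {α : Type*} [LinearOrder α] (G1 G2 : α) (t : ℕ → α) : Prop where
  t1 : G1 < t 1 ∧ t 1 ≤ G2
  t2 : t 2 ≤ G1
  t3 : t 3 ≤ G1
  t4 : t 4 ≤ G1
  t5 : t 5 ≤ G1
  t6 : t 6 ≤ G1
  t7 : t 7 ≤ G1
  t8 : G1 < t 8 ∧ t 8 ≤ G2
  t24 : t 2 < t 4
  t34 : t 3 < t 4
  t65 : t 6 < t 5
  t75 : t 7 < t 5

lemma PatX.congr {α : Type*} [LinearOrder α] {G1 G2 : α} (s s' : ℕ → α)
    (h : ∀ i, 1 ≤ i → i < 10 → s i = s' i) (p : PatX G1 G2 s) : PatX G1 G2 s' := by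
  have e1 := h 1 (by omega) (by omega)
  have e2 := h 2 (by omega) (by omega)
  have e3 := h 3 (by omega) (by omega)
  have e4 := h 4 (by omega) (by omega)
  have e5 := h 5 (by omega) (by omega)
  have e6 := h 6 (by omega) (by omega)
  have e7 := h 7 (by omega) (by omega)
  have e8 := h 8 (by omega) (by omega)
  have e9 := h 9 (by omega) (by omega)
  obtain ⟨a1, a2, a3, a4, a5, a6, a7, a8, a9, a10, a11, a12, a13⟩ := p
  rw [e1] at a1 a10 a11
  rw [e2] at a2 a10
  rw [e3] at a3 a11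
  rw [e4] at a4
  rw [e5] at a5
  rw [e6] at a6
  rw [e7] at a7 a13
  rw [e8] at a8 a12
  rw [e9] at a9 a12 a13
  exact ⟨a1, a2, a3, a4, a5, a6, a7, a8, a9, a10, a11, a12, a13⟩

lemma PatY.congr {α : Type*} [LinearOrder α] {G1 G2 : α} (s s' : ℕ → α)
    (h : ∀ i, 1 ≤ i → i < 9 → s i = s' i) (p : PatY G1 G2 s) : PatY G1 G2 s' := by
  have e1 := h 1 (by omega) (by omega)
  have e2 := h 2 (by omega) (by omega)
  have e3 := h 3 (by omega) (by omega)
  have e4 := h 4 (by omega) (by omega)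
  have e5 := h 5 (by omega) (by omega)
  have e6 := h 6 (by omega) (by omega)
  have e7 := h 7 (by omega) (by omega)
  have e8 := h 8 (by omega) (by omega)
  obtain ⟨a1, a2, a3, a4, a5, a6, a7, a8, a9, a10, a11, a12⟩ := p
  rw [e1] at a1
  rw [e2] at a2 a9
  rw [e3] at a3 a10
  rw [e4] at a4 a9 a10
  rw [e5] at a5 a11 a12
  rw [e6] at a6 a11
  rw [e7] at a7 a12
  rw [e8] at a8
  exact ⟨a1, a2, a3, a4, a5, a6, a7, a8, a9, a10, a11, a12⟩

lemma prefix_chain {c : ℕ → List ℕ} {n : ℕ} (h : ∀ i < n, c i <+: c (i + 1)) {i j : ℕ}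
    (hij : i ≤ j) (hj : j ≤ n) : c i <+: c j := by
  induction j, hij using Nat.le_induction with
  | base => exact List.prefix_refl _
  | succ j hij ih => exact (ih (by omega)).trans (h j (by omega))

lemma time_plT (κ : Ordinal.{0}) {p v : List ℕ} (h : v <+: p) :
    (plT κ p).time v.length = topc v := by
  unfold Pl.time topc
  apply Finset.sup_congr rfl
  intro k hk
  rw [Finset.mem_Icc] at hk
  change Encodable.encode (p.take k) = _
  obtain ⟨w, rfl⟩ := h
  rw [List.take_append_of_le_length hk.2]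

lemma code_plT (κ : Ordinal.{0}) {p v : List ℕ} {n : ℕ} (h : (v ++ [n]) <+: p) :
    (plT κ p).code (v.length + 1) = Encodable.encode (v ++ [n]) := by
  change Encodable.encode (p.take (v.length + 1)) = _
  obtain ⟨w, rfl⟩ := h
  congr 1
  have : v.length + 1 = (v ++ [n]).length := by simp
  rw [this, List.take_left']
  rfl

lemma stepB.length_lt {B : ℕ} {c d : List ℕ} (h : stepB B c d) : c.length < d.length := by
  obtain ⟨n, h, -⟩ := h
  have := h.length_le
  simp at this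
  omega

lemma take_of_prefix {v p : List ℕ} (h : v <+: p) : p.take v.length = v :=
  (List.prefix_iff_eq_take.1 h).symm

/-- A blue pair from chains against every adversary. -/
theorem pair_of_chains {κ G1 G2 : Ordinal.{0}} {X : Set Ordinal.{0}}
    (hx : ∀ F, ∃ c : ℕ → List ℕ, c 0 = [] ∧ (∀ i < 10, (sysT κ F X).sq (c i) (c (i + 1))) ∧
      (∃ w, (sysT κ F X).sq (c 10) w ∧ (sysT κ F X).alive w) ∧
      PatX G1 G2 fun i => Lv (MPb6.rk κ (c i)) (MPb6.rk κ (c (i + 1))))
    (hy : ∀ F, ∃ c : ℕ → List ℕ, c 0 = [] ∧ (∀ i < 9, (sysT κ F X).sq (c i) (c (i + 1))) ∧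
      (∃ w, (sysT κ F X).sq (c 9) w ∧ (sysT κ F X).alive w) ∧
      PatY G1 G2 fun i => Lv (MPb6.rk κ (c i)) (MPb6.rk κ (c (i + 1)))) :
    ∃ x ∈ X, ∃ y ∈ X, x < ω ^ κ ∧ y < ω ^ κ ∧
      BluePair G1 G2 (plT κ (path κ x)) (plT κ (path κ y)) := by
  have eX := extF_of_chains (P := PatX G1 G2) (n := 10) PatX.congr hx
  have eY := extF_of_chains (P := PatY G1 G2) (n := 9) PatY.congr hy
  obtain ⟨c, d, h1, h2, h3, h4, ⟨B, h5⟩, h6, h7⟩ := interleave (m := 10) eX eY 10 le_rfl
  obtain ⟨c', a1, -, ⟨a3, ⟨x, hxX, hx', a4⟩, a5⟩⟩ := h1 fun _ => 0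
  obtain ⟨d', b1, -, ⟨b3, ⟨y, hyX, hy', b4⟩, b5⟩⟩ := h2 fun _ => 0
  refine ⟨x, hxX, y, hyX, hx', hy', fun i => (c i).length, fun i => (d i).length,
    fun i => Lv (MPb6.rk κ (c i)) (MPb6.rk κ (c (i + 1))),
    fun i => Lv (MPb6.rk κ (d i)) (MPb6.rk κ (d (i + 1))), ?_⟩
  have c11 : c 11 = path κ x := by rw [← a1 11 (by omega)]; exact a4
  have d10 : d 10 = path κ y := by rw [← b1 10 (by omega)]; exact b4
  have stepc : ∀ i ≤ 10, ∃ B, stepB B (c i) (c (i + 1)) := by
    intro i hi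
    rcases Nat.eq_zero_or_pos i with rfl | h0
    · exact ⟨B, h5⟩
    · exact ⟨_, h7 i h0 hi⟩
  have prec : ∀ i ≤ 11, c i <+: path κ x := by
    intro i hi
    rw [← c11]
    exact prefix_chain (n := 11) (fun i hi => by
      obtain ⟨B, hB⟩ := stepc i (by omega)
      exact hB.isPre) hi le_rfl
  have pred : ∀ i ≤ 10, d i <+: path κ y := by
    intro i hi
    rw [← d10]
    exact prefix_chain (n := 10) (fun i hi => (h6 i (by omega)).isPre) hi le_rfl
  have pX : PatX G1 G2 fun i => Lv (MPb6.rk κ (c i)) (MPb6.rk κ (c (i + 1))) :=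
    PatX.congr _ _ (fun i hi1 hi2 => by
      rw [a1 i (by omega), a1 (i + 1) (by omega)]) a5
  have pY : PatY G1 G2 fun i => Lv (MPb6.rk κ (d i)) (MPb6.rk κ (d (i + 1))) :=
    PatY.congr _ _ (fun i hi1 hi2 => by
      rw [b1 i (by omega), b1 (i + 1) (by omega)]) b5
  exact
  { c0 := by simp [h3]
    c11 := by simp only [c11]; rfl
    cmono := fun i hi => by
      obtain ⟨B, hB⟩ := stepc i hi
      exact hB.length_lt
    d0 := by simp [h4]
    d10 := by simp only [d10]; rfl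
    dmono := fun i hi => (h6 i (by omega)).length_lt
    xy := fun i hi => by
      obtain ⟨n, hn, hn'⟩ := h6 i (by omega)
      rw [time_plT κ (prec (i + 1) (by omega)),
        code_plT κ (hn.trans (pred (i + 1) (by omega)))]
      exact hn'
    yx := fun i hi1 hi2 => by
      obtain ⟨n, hn, hn'⟩ := h7 i hi1 hi2
      rw [time_plT κ (pred i (by omega)),
        code_plT κ (hn.trans (prec (i + 1) (by omega)))]
      exact hn'
    sgate := fun i hi1 hi2 => by
      obtain ⟨B, hB⟩ := stepc i (by omega)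
      have := isGate_plT κ (path κ x) hB.length_lt
      rwa [take_of_prefix (prec i (by omega)), take_of_prefix (prec (i + 1) (by omega))] at this
    tgate := fun i hi1 hi2 => by
      have := isGate_plT κ (path κ y) (h6 i (by omega)).length_lt
      rwa [take_of_prefix (pred i (by omega)), take_of_prefix (pred (i + 1) (by omega))] at this
    pat :=
    { s1 := pX.s1
      s2 := pX.s2
      s3 := pX.s3
      s4 := pX.s4
      s5 := pX.s5
      s6 := pX.s6
      s7 := pX.s7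
      s8 := pX.s8
      s9 := pX.s9
      t1 := pY.t1
      t2 := pY.t2
      t3 := pY.t3
      t4 := pY.t4
      t5 := pY.t5
      t6 := pY.t6
      t7 := pY.t7
      t8 := pY.t8
      s21 := pX.s21
      s13 := pX.s13
      s89 := pX.s89
      s97 := pX.s97
      t24 := pY.t24
      t34 := pY.t34
      t65 := pY.t65
      t75 := pY.t75 } }

end

end MPb6
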